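import Pool.Agent.Run7.h852.Small

open Finset

set_option linter.unusedSectionVars false

namespace Run7.h852

section

variable {α β : Type*} [Fintype α] [Fintype β] [DecidableEq α] [DecidableEq β]

/-- uniform probability on a finite set -/
noncomputable def unif (A : Finset α) (a : α) : ℝ := if a ∈ A then ((A.card : ℝ))⁻¹ else 0

lemma unif_isProb {A : Finset α} (hA : A.Nonempty) : IsProb A (unif A) := by
  have hc : 0 < (A.card : ℝ) := by exact_mod_cast hA.card_pos
  refine ⟨?_, ?_, ?_⟩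
  · intro a; unfold unif; split_ifs
    · positivity
    · exact le_rfl
  · intro a ha; simp [unif, ha]
  · unfold unif
    rw [Finset.sum_ite_mem, Finset.univ_inter, Finset.sum_const, nsmul_eq_mul]
    field_simp

lemma supp_unif {A : Finset α} : supp (unif A) ⊆ A := by
  intro a ha
  rw [mem_supp] at ha
  by_contra h
  simp [unif, h] at ha

lemma EE_unif {A : Finset α} {B : Finset β} (f : α → β → ℝ) :
    EE (unif A) (unif B) f = (A.card : ℝ)⁻¹ * (B.card : ℝ)⁻¹ * ∑ a ∈ A, ∑ b ∈ B, f a b := by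
  unfold EE
  have h1 : ∀ a, ∑ b, unif A a * unif B b * f a b
      = if a ∈ A then (A.card : ℝ)⁻¹ * ((B.card : ℝ)⁻¹ * ∑ b ∈ B, f a b) else 0 := by
    intro a
    split_ifs with ha
    · rw [Finset.mul_sum, Finset.mul_sum]
      have : ∀ b, unif A a * unif B b * f a b
          = if b ∈ B then (A.card : ℝ)⁻¹ * ((B.card : ℝ)⁻¹ * f a b) else 0 := by
        intro b
        unfold unif
        rw [if_pos ha]
        split_ifs
        · ring
        · ring
      simp_rw [this]
      rw [Finset.sum_ite_mem, Finset.univ_inter]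
    · apply Finset.sum_eq_zero
      intro b _
      simp [unif, ha]
  simp_rw [h1]
  rw [Finset.sum_ite_mem, Finset.univ_inter, Finset.mul_sum]
  refine Finset.sum_congr rfl (fun a _ => ?_)
  ring

lemma extract_one {A X : Finset α} {p : α → ℝ} {κ : ℝ}
    (hcA : 0 < (A.card : ℝ)) (hp : IsProb X p) (h1 : ∀ a, p a ≤ Real.exp κ * unif A a) :
    Real.exp (-κ) * (A.card : ℝ) ≤ (X.card : ℝ) := by
  have h4 : (1 : ℝ) ≤ (X.card : ℝ) * (Real.exp κ * (A.card : ℝ)⁻¹) := by
    rw [← hp.sum_mem, ← nsmul_eq_mul, ← Finset.sum_const]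
    refine Finset.sum_le_sum (fun a _ => (h1 a).trans ?_)
    apply mul_le_mul_of_nonneg_left _ (Real.exp_pos _).le
    unfold unif
    split_ifs
    · exact le_rfl
    · positivity
  rw [Real.exp_neg]
  rw [inv_mul_le_iff₀ (Real.exp_pos _)]
  have h5 : (A.card : ℝ) * 1 ≤ (A.card : ℝ) * ((X.card : ℝ) * (Real.exp κ * (A.card : ℝ)⁻¹)) :=
    mul_le_mul_of_nonneg_left h4 hcA.le
  have h6 : (A.card : ℝ) * ((X.card : ℝ) * (Real.exp κ * (A.card : ℝ)⁻¹))
      = Real.exp κ * (X.card : ℝ) := by field_simp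
  linarith

/-- from domination by the uniform measures to sizes -/
lemma extract {A : Finset α} {B : Finset β} (hA : A.Nonempty) (hB : B.Nonempty)
    {X : Finset α} {Y : Finset β} {p : α → ℝ} {q : β → ℝ} (hp : IsProb X p) (hq : IsProb Y q)
    {K : ℝ} (h : Dom (unif A) (unif B) p q K) :
    Real.exp (-K) * ((A.card : ℝ) * (B.card : ℝ)) ≤ (X.card : ℝ) * (Y.card : ℝ) := by
  obtain ⟨κ1, κ2, h1, h2, h3⟩ := h
  have hcA : 0 < (A.card : ℝ) := by exact_mod_cast hA.card_pos
  have hcB : 0 < (B.card : ℝ) := by exact_mod_cast hB.card_pos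
  have g1 := extract_one hcA hp h1
  have g2 := extract_one hcB hq h2
  have h5 : Real.exp (-K) ≤ Real.exp (-κ1) * Real.exp (-κ2) := by
    rw [← Real.exp_add]
    apply Real.exp_le_exp.2
    linarith
  calc Real.exp (-K) * ((A.card : ℝ) * (B.card : ℝ))
      ≤ (Real.exp (-κ1) * Real.exp (-κ2)) * ((A.card : ℝ) * (B.card : ℝ)) :=
        mul_le_mul_of_nonneg_right h5 (by positivity)
    _ = (Real.exp (-κ1) * (A.card : ℝ)) * (Real.exp (-κ2) * (B.card : ℝ)) := by ring
    _ ≤ (X.card : ℝ) * (Y.card : ℝ) := mul_le_mul g1 g2 (by positivity) (by positivity)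

end

/-- The density of bad pairs in the uniform measures. -/
lemma EE_bad_le {n l : ℕ} {A B : Finset (Finset (Fin n))} (hA : A.Nonempty) (hB : B.Nonempty)
    {ε : ℝ}
    (h : (1 - ε) * ((A.card : ℝ) * (B.card : ℝ))
      ≤ (((A ×ˢ B).filter (fun P => (P.1 ∩ P.2).card = l)).card : ℝ)) :
    EE (unif A) (unif B) (bad l (fun a : Finset (Fin n) => a) (fun b : Finset (Fin n) => b))
      ≤ ε := by
  have hcA : 0 < (A.card : ℝ) := by exact_mod_cast hA.card_pos
  have hcB : 0 < (B.card : ℝ) := by exact_mod_cast hB.card_pos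
  rw [EE_unif]
  have h1 : ∑ a ∈ A, ∑ b ∈ B,
      bad l (fun a : Finset (Fin n) => a) (fun b : Finset (Fin n) => b) a b
      = (A.card : ℝ) * (B.card : ℝ)
        - (((A ×ˢ B).filter (fun P => (P.1 ∩ P.2).card = l)).card : ℝ) := by
    rw [← Finset.sum_product' (f := fun a b =>
      bad l (fun a : Finset (Fin n) => a) (fun b : Finset (Fin n) => b) a b)]
    have h2 : (((A ×ˢ B).filter (fun P => (P.1 ∩ P.2).card = l)).card : ℝ)
        = ∑ P ∈ A ×ˢ B, if (P.1 ∩ P.2).card = l then (1 : ℝ) else 0 := by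
      rw [Finset.sum_ite, Finset.sum_const_zero, add_zero, Finset.sum_const, nsmul_eq_mul, mul_one]
    have h3 : (A.card : ℝ) * (B.card : ℝ) = ∑ P ∈ A ×ˢ B, (1 : ℝ) := by
      rw [Finset.sum_const, nsmul_eq_mul, mul_one, Finset.card_product]; push_cast; ring
    rw [h2, h3, ← Finset.sum_sub_distrib]
    refine Finset.sum_congr rfl (fun P _ => ?_)
    unfold bad
    split_ifs <;> norm_num
  rw [h1]
  have h2 : (A.card : ℝ) * (B.card : ℝ)
      - (((A ×ˢ B).filter (fun P => (P.1 ∩ P.2).card = l)).card : ℝ)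
      ≤ ε * ((A.card : ℝ) * (B.card : ℝ)) := by linarith
  calc (A.card : ℝ)⁻¹ * (B.card : ℝ)⁻¹ * ((A.card : ℝ) * (B.card : ℝ)
        - (((A ×ˢ B).filter (fun P => (P.1 ∩ P.2).card = l)).card : ℝ))
      ≤ (A.card : ℝ)⁻¹ * (B.card : ℝ)⁻¹ * (ε * ((A.card : ℝ) * (B.card : ℝ))) :=
        mul_le_mul_of_nonneg_left h2 (by positivity)
    _ = ε := by field_simp

/-- The conclusion: large subfamilies, all cross pairs meeting in exactly `l` elements. -/
def Concl (n l : ℕ) (A B : Finset (Finset (Fin n))) (K : ℝ) : Prop :=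
  ∃ A' ⊆ A, ∃ B' ⊆ B, Real.exp (-K) * ((A.card : ℝ) * (B.card : ℝ))
      ≤ (A'.card : ℝ) * (B'.card : ℝ) ∧ ∀ a ∈ A', ∀ b ∈ B', (a ∩ b).card = l

lemma Concl.mono {n l : ℕ} {A B : Finset (Finset (Fin n))} {K K' : ℝ} (h : Concl n l A B K)
    (hK : K ≤ K') : Concl n l A B K' := by
  obtain ⟨A', hA', B', hB', h1, h2⟩ := h
  refine ⟨A', hA', B', hB', le_trans ?_ h1, h2⟩
  apply mul_le_mul_of_nonneg_right _ (by positivity)
  exact Real.exp_le_exp.2 (by linarith)

lemma concl_of_dom {n l : ℕ} {A B : Finset (Finset (Fin n))} (hA : A.Nonempty) (hB : B.Nonempty)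
    {K : ℝ} {X Y : Finset (Finset (Fin n))} {p q : Finset (Fin n) → ℝ}
    (hX : X ⊆ supp (unif A)) (hY : Y ⊆ supp (unif B)) (hp : IsProb X p) (hq : IsProb Y q)
    (hD : Dom (unif A) (unif B) p q K)
    (h : ∀ a ∈ X, ∀ b ∈ Y, ((fun a : Finset (Fin n) => a) a ∩ (fun b => b) b).card = l) :
    Concl n l A B K :=
  ⟨X, hX.trans supp_unif, Y, hY.trans supp_unif, extract hA hB hp hq hD, h⟩

/-- trivial bound -/
lemma concl_trivial {n l : ℕ} {A B : Finset (Finset (Fin n))}
    (h : ∃ a ∈ A, ∃ b ∈ B, (a ∩ b).card = l) : Concl n l A B (2 * Real.log 2 * n) := by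
  obtain ⟨a, ha, b, hb, hab⟩ := h
  refine ⟨{a}, by simpa using ha, {b}, by simpa using hb, ?_, ?_⟩
  · rw [Finset.card_singleton, Finset.card_singleton]
    have gen : ∀ A : Finset (Finset (Fin n)), (A.card : ℝ) ≤ Real.exp (Real.log 2 * n) := by
      intro A
      have h1 : A.card ≤ 2 ^ n := by
        have := Finset.card_le_univ A
        rwa [Fintype.card_finset, Fintype.card_fin] at this
      have h2 : Real.exp (Real.log 2 * n) = 2 ^ n := by
        rw [mul_comm, Real.exp_nat_mul, Real.exp_log (by norm_num)]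
      rw [h2]
      exact_mod_cast h1
    have h1 := mul_le_mul (gen A) (gen B) (by positivity) (Real.exp_pos _).le
    rw [← Real.exp_add] at h1
    rw [Real.exp_neg, inv_mul_le_iff₀ (Real.exp_pos _)]
    have h2 : Real.log 2 * n + Real.log 2 * n = 2 * Real.log 2 * n := by ring
    rw [h2] at h1
    simpa using h1
  · intro a' ha' b' hb'
    rw [Finset.mem_singleton] at ha' hb'
    rw [ha', hb']; exact hab

lemma exists_good {n l : ℕ} {A B : Finset (Finset (Fin n))} (hA : A.Nonempty) (hB : B.Nonempty)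
    {ε : ℝ} (hε : ε ≤ 1 / 2)
    (h : (1 - ε) * ((A.card : ℝ) * (B.card : ℝ))
      ≤ (((A ×ˢ B).filter (fun P => (P.1 ∩ P.2).card = l)).card : ℝ)) :
    ∃ a ∈ A, ∃ b ∈ B, (a ∩ b).card = l := by
  have hcA : 0 < (A.card : ℝ) := by exact_mod_cast hA.card_pos
  have hcB : 0 < (B.card : ℝ) := by exact_mod_cast hB.card_pos
  have h1 : 0 < (((A ×ˢ B).filter (fun P => (P.1 ∩ P.2).card = l)).card : ℝ) := by
    refine lt_of_lt_of_le ?_ h
    have : 0 < (A.card : ℝ) * (B.card : ℝ) := by positivity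
    nlinarith
  have h2 : 0 < ((A ×ˢ B).filter (fun P => (P.1 ∩ P.2).card = l)).card := by exact_mod_cast h1
  obtain ⟨P, hP⟩ := Finset.card_pos.1 h2
  rw [Finset.mem_filter, Finset.mem_product] at hP
  exact ⟨P.1, hP.1.1, P.2, hP.1.2, hP.2⟩

/-- General `l`: the bound linear in `n ε`. -/
theorem concl_linear {n l : ℕ} (hn : 1 ≤ n) {A B : Finset (Finset (Fin n))} (hA : A.Nonempty)
    (hB : B.Nonempty) {ε : ℝ} (hε : 0 < ε) (hε2 : ε ≤ 1 / 2)
    (h : (1 - ε) * ((A.card : ℝ) * (B.card : ℝ))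
      ≤ (((A ×ˢ B).filter (fun P => (P.1 ∩ P.2).card = l)).card : ℝ)) :
    Concl n l A B (256 * (Real.sqrt (n * ε) + n * ε)) := by
  have hn1 : (1 : ℝ) ≤ (n : ℝ) := by exact_mod_cast hn
  have hlog2 : Real.log 2 < 0.7 := by
    have := Real.log_two_lt_d9; linarith
  have hlog2' : 0 < Real.log 2 := Real.log_pos (by norm_num)
  have hnε : 0 < (n : ℝ) * ε := by positivity
  have hsq0 : 0 ≤ Real.sqrt (n * ε) := Real.sqrt_nonneg _
  set r : ℝ := (n : ℝ) + 1 with hr
  have hrpos : 0 < r := by rw [hr]; positivity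
  set s : ℝ := Real.sqrt (ε / r) with hs
  have hspos : 0 < s := by rw [hs]; positivity
  have hss : s * s = ε / r := Real.mul_self_sqrt (by positivity)
  set κ : ℝ := 8 * (ε + s) with hκ
  rcases le_or_gt κ 1 with hκ1 | hκ1
  · obtain ⟨X, Y, p, q, hX, hY, hp, hq, hD, hg⟩ := small_case (l := l) (unif_isProb hA)
      (unif_isProb hB) (fun a : Finset (Fin n) => a) (fun b : Finset (Fin n) => b) hε
      (EE_bad_le hA hB h) hκ1 (by rw [hκ]; linarith)
    refine (concl_of_dom hA hB hX hY hp hq hD hg).mono ?_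
    rw [Fintype.card_fin, ← hr]
    have hκpos : 0 < κ := by rw [hκ]; positivity
    have h1 : 8 * ε / κ ≤ s * r := by
      rw [div_le_iff₀ hκpos, hκ]
      have h2 : s * r * (8 * (ε + s)) = 8 * (s * s) * r + 8 * s * r * ε := by ring
      rw [h2, hss]
      have h3 : 8 * (ε / r) * r = 8 * ε := by field_simp
      rw [h3]
      have : 0 ≤ 8 * s * r * ε := by positivity
      linarith
    have h2 : s * r ≤ 1.5 * Real.sqrt (n * ε) := by
      have h3 : s * r = Real.sqrt (ε * r) := by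
        rw [hs, ← Real.sqrt_sq (by positivity : 0 ≤ r), ← Real.sqrt_mul (by positivity)]
        congr 1
        rw [Real.sqrt_sq (by positivity : 0 ≤ r)]
        field_simp
      rw [h3]
      have h4 : ε * r ≤ 1.5 ^ 2 * (n * ε) := by rw [hr]; nlinarith
      calc Real.sqrt (ε * r) ≤ Real.sqrt (1.5 ^ 2 * (n * ε)) := Real.sqrt_le_sqrt h4
        _ = 1.5 * Real.sqrt (n * ε) := by
            rw [Real.sqrt_mul (by norm_num), Real.sqrt_sq (by norm_num)]
    have h3 : 4 * κ * r = 32 * (ε * r) + 32 * (s * r) := by rw [hκ]; ring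
    have h4 : ε * r ≤ 2 * (n * ε) := by rw [hr]; nlinarith
    rw [h3]
    nlinarith
  · have hε128 : 1 / 128 < ε := by
      by_contra hcon
      push Not at hcon
      have h1 : s ≤ 1 / 16 := by
        rw [hs]
        rw [Real.sqrt_le_left (by norm_num)]
        rw [div_le_iff₀ (by positivity)]
        rw [hr]; nlinarith
      rw [hκ] at hκ1
      linarith
    refine (concl_trivial (exists_good hA hB hε2 h)).mono ?_
    have h1 : (n : ℝ) ≤ 128 * (n * ε) := by nlinarith
    nlinarith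

/-- The case `l = 1`: the bound with a logarithmic term. -/
theorem concl_one_log : ∃ C : ℝ, 0 < C ∧ ∀ {n : ℕ} (_ : 1 ≤ n) {A B : Finset (Finset (Fin n))}
    (_ : A.Nonempty) (_ : B.Nonempty) {ε : ℝ} (_ : 0 < ε) (_ : ε ≤ 1 / 2) (_ : 1 ≤ n * ε)
    (_ : (1 - ε) * ((A.card : ℝ) * (B.card : ℝ))
      ≤ (((A ×ˢ B).filter (fun P => (P.1 ∩ P.2).card = 1)).card : ℝ)),
    Concl n 1 A B (C * (Real.sqrt (n * ε) + Real.log (n + 1))) := by
  obtain ⟨C1, hC1, hcc⟩ := const_case 1
  set c : ℝ := (1 / (2 ^ (1 + 10) * (((1 : ℕ) : ℝ) + 1))) ^ 2 with hc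
  have hcpos : 0 < c := by rw [hc]; positivity
  have hc1 : c ≤ 1 := by rw [hc]; norm_num
  set C2 : ℝ := 2 + 24 * Real.sqrt (2 ^ (1 + 3)) + (((1 : ℕ) : ℝ) + 2) with hC2
  have hC2pos : 0 < C2 := by rw [hC2]; positivity
  have hcs : 0 < Real.sqrt c := Real.sqrt_pos.2 hcpos
  have hcs1 : Real.sqrt c ≤ 1 := Real.sqrt_le_iff.2 ⟨by norm_num, by simpa using hc1⟩
  refine ⟨C1 / Real.sqrt c + C2, by positivity, ?_⟩
  intro n hn A B hA hB ε hε hε2 hnε h
  have hn1 : (1 : ℝ) ≤ (n : ℝ) := by exact_mod_cast hn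
  have hlogpos : 0 ≤ Real.log ((n : ℝ) + 1) := Real.log_nonneg (by linarith)
  have hsq0 : 0 ≤ Real.sqrt (n * ε) := Real.sqrt_nonneg _
  have hbad := EE_bad_le hA hB h
  rcases le_or_gt ε c with hεc | hεc
  · have hHbad : EE (unif A) (unif B)
        (HH 1 (fun a : Finset (Fin n) => a) (fun b : Finset (Fin n) => b)) ≤ ε := by
      have : HH 1 (fun a : Finset (Fin n) => a) (fun b : Finset (Fin n) => b)
          = bad 1 (fun a : Finset (Fin n) => a) (fun b : Finset (Fin n) => b) := by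
        funext a b
        change hwt 1 (a ∩ b).card = if (a ∩ b).card = 1 then 0 else 1
        unfold hwt
        by_cases h1 : (a ∩ b).card = 1
        · have h2 : ¬ (a ∩ b).card < 1 := by omega
          rw [if_neg h2, if_pos h1, if_pos h1]
        · by_cases h2 : (a ∩ b).card < 1
          · rw [if_pos h2, if_neg h1]
          · rw [if_neg h2, if_neg h1, if_neg h1]; simp
      rw [this]; exact hbad
    obtain ⟨X, Y, p, q, hX, hY, hp, hq, hD, hg⟩ := moment_case (l := 1) le_rfl (unif_isProb hA)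
      (unif_isProb hB) (fun a : Finset (Fin n) => a) (fun b : Finset (Fin n) => b) hε hεc
      (by rw [Fintype.card_fin]; exact hnε) hHbad
    refine (concl_of_dom hA hB hX hY hp hq hD hg).mono ?_
    rw [Fintype.card_fin, ← hC2]
    have : 0 ≤ C1 / Real.sqrt c * (Real.sqrt (n * ε) + Real.log (n + 1)) := by positivity
    linarith
  · obtain ⟨X, Y, p, q, hX, hY, hp, hq, hD, hg⟩ := hcc (unif_isProb hA)
      (unif_isProb hB) (fun a : Finset (Fin n) => a) (fun b : Finset (Fin n) => b)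
      (by rw [Fintype.card_fin]; exact hn) (hbad.trans (hε2.trans (half_lt_eT 1).le))
    refine (concl_of_dom hA hB hX hY hp hq hD hg).mono ?_
    rw [Fintype.card_fin]
    have h1 : Real.sqrt c * Real.sqrt n ≤ Real.sqrt (n * ε) := by
      rw [← Real.sqrt_mul hcpos.le]
      apply Real.sqrt_le_sqrt
      nlinarith
    have h2 : Real.sqrt n ≤ Real.sqrt (n * ε) / Real.sqrt c := by
      rw [le_div_iff₀ hcs]; linarith
    have h3 : Real.log ((n : ℝ) + 1) ≤ Real.log ((n : ℝ) + 1) / Real.sqrt c := by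
      rw [le_div_iff₀ hcs]; nlinarith
    have h4 : C1 * (Real.sqrt n + Real.log ((n : ℝ) + 1))
        ≤ C1 / Real.sqrt c * (Real.sqrt (n * ε) + Real.log (n + 1)) := by
      have : C1 / Real.sqrt c * (Real.sqrt (n * ε) + Real.log (n + 1))
          = C1 * (Real.sqrt (n * ε) / Real.sqrt c + Real.log ((n : ℝ) + 1) / Real.sqrt c) := by
        ring
      rw [this]
      exact mul_le_mul_of_nonneg_left (by linarith) hC1.le
    have h5 : 0 ≤ C2 * (Real.sqrt (n * ε) + Real.log (n + 1)) := by positivity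
    linarith

/-- The case `l = 1`, combined bound. -/
theorem concl_one : ∃ C : ℝ, 0 < C ∧ ∀ {n : ℕ} (_ : 1 ≤ n) {A B : Finset (Finset (Fin n))}
    (_ : A.Nonempty) (_ : B.Nonempty) {ε : ℝ} (_ : 0 < ε) (_ : ε ≤ 1 / 2)
    (_ : (1 - ε) * ((A.card : ℝ) * (B.card : ℝ))
      ≤ (((A ×ˢ B).filter (fun P => (P.1 ∩ P.2).card = 1)).card : ℝ)),
    Concl n 1 A B (C * (Real.sqrt (n * ε) + min (n * ε) (Real.log (n + 1)))) := by
  obtain ⟨C, hC, h1⟩ := concl_one_log
  refine ⟨C + 512, by positivity, ?_⟩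
  intro n hn A B hA hB ε hε hε2 h
  have hn1 : (1 : ℝ) ≤ (n : ℝ) := by exact_mod_cast hn
  have hlog2 : 0.69 < Real.log 2 := by
    have := Real.log_two_gt_d9; linarith
  have hlogn : Real.log 2 ≤ Real.log ((n : ℝ) + 1) := Real.log_le_log (by norm_num) (by linarith)
  have hsq0 : 0 ≤ Real.sqrt (n * ε) := Real.sqrt_nonneg _
  have hnε : 0 < (n : ℝ) * ε := by positivity
  have hlin := concl_linear hn hA hB hε hε2 h
  have hmin0 : 0 ≤ min ((n : ℝ) * ε) (Real.log (n + 1)) := le_min hnε.le (by linarith)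
  rcases le_or_gt ((n : ℝ) * ε) (Real.log (n + 1)) with h2 | h2
  · refine hlin.mono ?_
    rw [min_eq_left h2]
    have : 0 ≤ C * (Real.sqrt (n * ε) + n * ε) := by positivity
    nlinarith
  · rcases le_or_gt 1 ((n : ℝ) * ε) with h3 | h3
    · refine (h1 hn hA hB hε hε2 h3 h).mono ?_
      rw [min_eq_right h2.le]
      have : 0 ≤ 512 * (Real.sqrt (n * ε) + Real.log (n + 1)) := by
        have : 0 ≤ Real.log ((n : ℝ) + 1) := by linarith
        positivity
      linarith
    · refine hlin.mono ?_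
      rw [min_eq_right h2.le]
      have h4 : 0 ≤ C * (Real.sqrt (n * ε) + Real.log (n + 1)) := by
        have : 0 ≤ Real.log ((n : ℝ) + 1) := by linarith
        positivity
      nlinarith

lemma exp_eq_two_rpow (C z : ℝ) : (2 : ℝ) ^ (-(C / Real.log 2 * z)) = Real.exp (-(C * z)) := by
  have hlog2 : 0 < Real.log 2 := Real.log_pos (by norm_num)
  rw [Real.rpow_def_of_pos (by norm_num)]
  congr 1
  field_simp

end Run7.h852
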