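import Pool.Agent.Run7.h852.Four
import Pool.Agent.Run7.h852.Families

open Finset

set_option linter.unusedSectionVars false

namespace Run7.h852

lemma mul_sqrt_eq {k : ℝ} (hk : 0 ≤ k) (z : ℝ) : k * Real.sqrt z = Real.sqrt (k ^ 2 * z) := by
  rw [Real.sqrt_mul (sq_nonneg k), Real.sqrt_sq hk]

/-- the deviation matrix -/
def dev {n : ℕ} (l : ℕ) (a b : Finset (Fin n)) : ℝ := ((a ∩ b).card : ℝ) - l

lemma dev_zero_or {n l : ℕ} (a b : Finset (Fin n)) : dev l a b = 0 ∨ 1 ≤ |dev l a b| := by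
  unfold dev
  by_cases h : (a ∩ b).card = l
  · left; rw [h]; ring
  · right
    have h1 : (((a ∩ b).card : ℤ) - (l : ℤ)) ≠ 0 := by
      intro h2; apply h; omega
    have h2 := Int.one_le_abs h1
    have h3 : (1 : ℝ) ≤ ((|((a ∩ b).card : ℤ) - (l : ℤ)| : ℤ) : ℝ) := by exact_mod_cast h2
    push_cast at h3
    exact h3

lemma dev_eq_zero {n l : ℕ} {a b : Finset (Fin n)} : dev l a b = 0 ↔ (a ∩ b).card = l := by
  unfold dev
  rw [sub_eq_zero]
  exact Nat.cast_inj

/-- left factors -/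
def devF {n : ℕ} (l : ℕ) (o : Option (Fin n)) (a : Finset (Fin n)) : ℝ :=
  match o with
  | none => -(l : ℝ)
  | some v => ind (fun a : Finset (Fin n) => a) v a

/-- right factors -/
def devG {n : ℕ} (o : Option (Fin n)) (b : Finset (Fin n)) : ℝ :=
  match o with
  | none => 1
  | some v => ind (fun b : Finset (Fin n) => b) v b

lemma dev_eq_sum {n : ℕ} (l : ℕ) (a b : Finset (Fin n)) :
    dev l a b = ∑ o, devF l o a * devG o b := by
  rw [Fintype.sum_option]
  unfold dev devF devG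
  have h1 := MM_eq_sum (fun a : Finset (Fin n) => a) (fun b : Finset (Fin n) => b) a b
  unfold MM at h1
  simp only at h1
  rw [h1]
  ring

lemma scale_le {D : ℕ} (hD : 1 ≤ D) :
    ((Nat.log 2 D + 1 : ℕ) : ℝ) ≤ 3 * Real.log ((D : ℝ) + 1) := by
  have h1 : (2 : ℕ) ^ Nat.log 2 D ≤ D := Nat.pow_log_le_self 2 (by omega)
  have h2 : ((2 : ℝ)) ^ Nat.log 2 D ≤ (D : ℝ) + 1 := by
    have : ((2 : ℝ)) ^ Nat.log 2 D ≤ (D : ℝ) := by exact_mod_cast h1
    linarith
  have h3 := Real.log_le_log (by positivity) h2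
  rw [Real.log_pow] at h3
  have hD' : (1 : ℝ) ≤ (D : ℝ) := by exact_mod_cast hD
  have h4 : Real.log 2 ≤ Real.log ((D : ℝ) + 1) := Real.log_le_log (by norm_num) (by linarith)
  have h5 : 0.69 < Real.log 2 := by
    have := Real.log_two_gt_d9; linarith
  push_cast
  have h6 : (0 : ℝ) ≤ (Nat.log 2 D : ℝ) := Nat.cast_nonneg _
  nlinarith

/-- The sparse regime. -/
theorem concl_sparse {n l D : ℕ} (hn : 1 ≤ n) (hD : 1 ≤ D) {A B : Finset (Finset (Fin n))}
    (hA : A.Nonempty) (hB : B.Nonempty) {ε : ℝ} (hε : 0 < ε) (hε2 : ε ≤ 1 / 2)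
    (hdev : ∀ a ∈ A, ∀ b ∈ B, |((a ∩ b).card : ℝ) - l| ≤ D)
    (hsp : (n : ℝ) * (ε ^ 2 * Real.log ((D : ℝ) + 1)) ≤ 1 / 42000)
    (h : (1 - ε) * ((A.card : ℝ) * (B.card : ℝ))
      ≤ (((A ×ˢ B).filter (fun P => (P.1 ∩ P.2).card = l)).card : ℝ)) :
    Concl n l A B (700 * Real.sqrt (n * (ε * Real.log ((D : ℝ) + 1)))) := by
  have hn1 : (1 : ℝ) ≤ (n : ℝ) := by exact_mod_cast hn
  have hn0 : (0 : ℝ) ≤ (n : ℝ) := by linarith
  have hD' : (1 : ℝ) ≤ (D : ℝ) := by exact_mod_cast hD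
  have hlogD : Real.log 2 ≤ Real.log ((D : ℝ) + 1) := Real.log_le_log (by norm_num) (by linarith)
  have hlog2 : 0.69 < Real.log 2 := by
    have := Real.log_two_gt_d9; linarith
  have hsq0 : 0 ≤ Real.sqrt (n * ε) := Real.sqrt_nonneg _
  rcases lt_or_ge ((n : ℝ) * ε) 1 with hnε | hnε
  · refine (concl_linear hn hA hB hε hε2 h).mono ?_
    have h1 : (n : ℝ) * ε ≤ Real.sqrt (n * ε) := by
      apply Real.le_sqrt_of_sq_le
      have : 0 ≤ (n : ℝ) * ε := by positivity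
      nlinarith
    have h2 : 512 * Real.sqrt (n * ε) ≤ 700 * Real.sqrt (n * (ε * Real.log ((D : ℝ) + 1))) := by
      rw [mul_sqrt_eq (by norm_num : (0 : ℝ) ≤ 512), mul_sqrt_eq (by norm_num : (0 : ℝ) ≤ 700)]
      apply Real.sqrt_le_sqrt
      have h3 : 0 ≤ (n : ℝ) * ε := by positivity
      have h4 : 0.69 * ((n : ℝ) * ε) ≤ Real.log ((D : ℝ) + 1) * (n * ε) :=
        mul_le_mul_of_nonneg_right (by linarith) h3
      nlinarith
    linarith
  · set J : ℕ := Nat.log 2 D + 1 with hJ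
    have hJle : (J : ℝ) ≤ 3 * Real.log ((D : ℝ) + 1) := scale_le hD
    have hJ0 : (0 : ℝ) ≤ (J : ℝ) := Nat.cast_nonneg _
    have hDJ : (D : ℝ) < 2 ^ J := by
      have : D < 2 ^ J := Nat.lt_pow_succ_log_self (by norm_num) D
      exact_mod_cast this
    have hbad := EE_bad_le hA hB h
    have hnz : nz (fun a b : Finset (Fin n) => dev l a b)
        = bad l (fun a : Finset (Fin n) => a) (fun b : Finset (Fin n) => b) := by
      funext a b
      unfold nz bad
      by_cases h1 : (a ∩ b).card = l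
      · rw [if_pos (dev_eq_zero.2 h1), if_pos h1]
      · rw [if_neg (fun h2 => h1 (dev_eq_zero.1 h2)), if_neg h1]
    have hcard : (Fintype.card (Option (Fin n)) : ℝ) = (n : ℝ) + 1 := by
      rw [Fintype.card_option, Fintype.card_fin]; push_cast; ring
    have hsp' : ((n : ℝ) + 1) * (ε ^ 2 * J) ≤ 1 / 7000 := by
      have h1 : ε ^ 2 * J ≤ ε ^ 2 * (3 * Real.log ((D : ℝ) + 1)) :=
        mul_le_mul_of_nonneg_left hJle (by positivity)
      calc ((n : ℝ) + 1) * (ε ^ 2 * J)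
          ≤ (2 * n) * (ε ^ 2 * (3 * Real.log ((D : ℝ) + 1))) :=
            mul_le_mul (by linarith) h1 (by positivity) (by positivity)
        _ = 6 * (n * (ε ^ 2 * Real.log ((D : ℝ) + 1))) := by ring
        _ ≤ 1 / 7000 := by linarith
    obtain ⟨X, Y, p, q, hX, hY, hp, hq, hDom, hg⟩ := four_case (O := Option (Fin n))
      (unif_isProb hA) (unif_isProb hB) (fun a b : Finset (Fin n) => dev l a b)
      (fun o a => devF l o a) (fun o b => devG o b) (fun a b => dev_eq_sum l a b)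
      (fun a _ b _ => dev_zero_or a b) (J := J) (by omega)
      (fun a ha b hb => lt_of_le_of_lt (hdev a (supp_unif ha) b (supp_unif hb)) hDJ) hε
      (by rw [hnz]; exact hbad) (by rw [hcard]; nlinarith) (by rw [hcard]; exact hsp')
    refine (concl_of_dom hA hB hX hY hp hq hDom
      (fun a ha b hb => dev_eq_zero.1 (hg a ha b hb))).mono ?_
    rw [hcard]
    have h1 : ((n : ℝ) + 1) * (ε * J) ≤ 6 * (n * (ε * Real.log ((D : ℝ) + 1))) := by
      have h2 : ε * J ≤ ε * (3 * Real.log ((D : ℝ) + 1)) := mul_le_mul_of_nonneg_left hJle hε.le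
      calc ((n : ℝ) + 1) * (ε * J) ≤ (2 * n) * (ε * (3 * Real.log ((D : ℝ) + 1))) :=
            mul_le_mul (by linarith) h2 (by positivity) (by positivity)
        _ = _ := by ring
    rw [mul_sqrt_eq (by norm_num : (0 : ℝ) ≤ 64), mul_sqrt_eq (by norm_num : (0 : ℝ) ≤ 700)]
    apply Real.sqrt_le_sqrt
    have h3 : 0 ≤ (n : ℝ) * (ε * Real.log ((D : ℝ) + 1)) := by
      have : 0 ≤ Real.log ((D : ℝ) + 1) := by linarith
      positivity
    nlinarith

end Run7.h852
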