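import Pool.Agent.Run7.h852.LevelB
import Pool.Agent.Run7.h852.Sparse

open Finset

set_option linter.unusedSectionVars false

namespace Run7.h852

/-- all but a fraction `ε` of the cross pairs meet in exactly `l` elements -/
def Dens {n : ℕ} (l : ℕ) (A B : Finset (Finset (Fin n))) (ε : ℝ) : Prop :=
  (1 - ε) * ((A.card : ℝ) * (B.card : ℝ))
      ≤ (((A ×ˢ B).filter (fun P => (P.1 ∩ P.2).card = l)).card : ℝ)

/-- constant density, `l ≥ 1` -/
theorem concl_root : ∃ C : ℝ, 0 < C ∧ ∀ {n l : ℕ} (_ : 1 ≤ n) (_ : 1 ≤ l)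
    {A B : Finset (Finset (Fin n))} (_ : A.Nonempty) (_ : B.Nonempty) {ε : ℝ}
    (_ : ε ≤ 5 / 8) (_ : Dens l A B ε),
    Concl n l A B (C * (Real.sqrt (n * l) + l * Real.log ((n : ℝ) + 1))) := by
  obtain ⟨C, hC, hu⟩ := uniform_const
  refine ⟨C, hC, ?_⟩
  intro n l hn hl A B hA hB ε hε2 h
  obtain ⟨X, Y, p, q, hX, hY, hp, hq, hD, hg⟩ := hu hl (unif_isProb hA)
    (unif_isProb hB) (fun a : Finset (Fin n) => a) (fun b : Finset (Fin n) => b)
    (by rw [Fintype.card_fin]; exact hn) ((EE_bad_le hA hB h).trans hε2)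
  have := concl_of_dom hA hB hX hY hp hq hD hg
  rw [Fintype.card_fin] at this
  exact this

/-- the case `n ε ≥ log (n + 1)`, all `l ≥ 1` -/
theorem concl_big : ∃ C : ℝ, 0 < C ∧ ∀ {n l : ℕ} (_ : 1 ≤ n) (_ : 1 ≤ l)
    {A B : Finset (Finset (Fin n))} (_ : A.Nonempty) (_ : B.Nonempty) {ε : ℝ} (_ : 0 < ε)
    (_ : ε ≤ 5 / 8) (_ : Real.log ((n : ℝ) + 1) ≤ n * ε) (_ : Dens l A B ε),
    Concl n l A B (C * min (l * Real.sqrt (n * (ε * Real.log ((n : ℝ) + 1))))
      (Real.sqrt (n * l) + l * Real.log ((n : ℝ) + 1))) := by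
  obtain ⟨C, hC, hu⟩ := concl_root
  refine ⟨4000 + 13 * C, by positivity, ?_⟩
  intro n l hn hl A B hA hB ε hε hε2 h1 h
  have hn1 : (1 : ℝ) ≤ (n : ℝ) := by exact_mod_cast hn
  have hn0 : (0 : ℝ) ≤ (n : ℝ) := by linarith
  have hl1 : (1 : ℝ) ≤ (l : ℝ) := by exact_mod_cast hl
  have hlog2 : 0.69 < Real.log 2 := by
    have := Real.log_two_gt_d9; linarith
  set L : ℝ := Real.log ((n : ℝ) + 1) with hL
  have hL1 : 0.69 < L := lt_of_lt_of_le hlog2 (Real.log_le_log (by norm_num) (by linarith))
  have hnε : 0 < (n : ℝ) * ε := by positivity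
  set S : ℝ := Real.sqrt (n * ε) with hS
  have hS0 : 0 ≤ S := Real.sqrt_nonneg _
  set W : ℝ := Real.sqrt (n * (ε * L)) with hW
  have hW0 : 0 ≤ W := Real.sqrt_nonneg _
  have hSW : S ≤ 1.3 * W := by
    rw [hS, hW, mul_sqrt_eq (by norm_num)]
    apply Real.sqrt_le_sqrt
    have : (n : ℝ) * (ε * L) = L * (n * ε) := by ring
    rw [this]
    nlinarith
  have hlW : W ≤ l * W := le_mul_of_one_le_left hW0 hl1
  have hR0 : 0 ≤ Real.sqrt (n * l) + l * L := by positivity
  -- the second bound
  have hsecond : Concl n l A B ((4000 + 13 * C) * (Real.sqrt (n * l) + l * L)) := by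
    refine (hu hn hl hA hB hε2 h).mono ?_
    have : 0 ≤ (4000 + 12 * C) * (Real.sqrt (n * l) + l * L) := by positivity
    nlinarith
  have hLW : L ≤ W := by
    apply Real.le_sqrt_of_sq_le
    have : (n : ℝ) * (ε * L) = (n * ε) * L := by ring
    rw [this, sq]
    exact mul_le_mul_of_nonneg_right h1 (by linarith)
  have hlL : l * L ≤ l * W := mul_le_mul_of_nonneg_left hLW (by linarith)
  have hfirst : Concl n l A B ((4000 + 13 * C) * (l * W)) := by
    rcases le_or_gt ε (1 / 32) with h2 | h2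
    · set J : ℕ := Nat.log 2 n + 1 with hJ
      have hJle : (J : ℝ) ≤ 3 * L := scale_le hn
      have hnJ : (n : ℝ) < 2 ^ J := by
        have : n < 2 ^ J := Nat.lt_pow_succ_log_self (by norm_num) n
        exact_mod_cast this
      obtain ⟨X, Y, p, q, hX, hY, hp, hq, hD, hg⟩ := uniform_small hl (unif_isProb hA)
        (unif_isProb hB) (fun a : Finset (Fin n) => a) (fun b : Finset (Fin n) => b)
        (by rw [Fintype.card_fin]; exact hn) hε h2 (J := J) (by omega)
        (by rw [Fintype.card_fin]; exact hnJ) (EE_bad_le hA hB h)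
      refine (concl_of_dom hA hB hX hY hp hq hD hg).mono ?_
      rw [Fintype.card_fin, ← hS]
      have h3 : Real.sqrt (n * (ε * J)) ≤ 1.8 * W := by
        rw [hW, mul_sqrt_eq (by norm_num)]
        apply Real.sqrt_le_sqrt
        have h4 : ε * J ≤ ε * (3 * L) := mul_le_mul_of_nonneg_left hJle hε.le
        have h5 := mul_le_mul_of_nonneg_left h4 hn0
        have h6 : 0 ≤ (n : ℝ) * (ε * L) := by positivity
        nlinarith
      have h4 : Real.log (4 * n) ≤ 2 * L := by
        have h5 : Real.log (4 * n) ≤ Real.log (((n : ℝ) + 1) ^ 2) := by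
          apply Real.log_le_log (by linarith)
          nlinarith [sq_nonneg ((n : ℝ) - 1)]
        rw [Real.log_pow] at h5
        push_cast at h5
        exact h5
      have hl0 : (0 : ℝ) ≤ l := by linarith
      have h5 : (l : ℝ) * Real.sqrt (n * (ε * J)) ≤ l * (1.8 * W) :=
        mul_le_mul_of_nonneg_left h3 hl0
      have h6 : (l : ℝ) * Real.log (4 * n) ≤ l * (2 * L) := mul_le_mul_of_nonneg_left h4 hl0
      have h7 : (l : ℝ) * S ≤ l * (1.3 * W) := mul_le_mul_of_nonneg_left hSW hl0
      have h8 : 0.69 ≤ W := hL1.le.trans hLW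
      have h9 : 0 ≤ 13 * C * (l * W) := by positivity
      nlinarith
    · refine (hu hn hl hA hB hε2 h).mono ?_
      have h3 : Real.sqrt (n * l) ≤ l * (7 * W) := by
        have h4 : Real.sqrt (n * l) ≤ l * Real.sqrt n := by
          rw [mul_sqrt_eq (by linarith)]
          apply Real.sqrt_le_sqrt
          have h40 : (n : ℝ) * l * 1 ≤ n * l * l := mul_le_mul_of_nonneg_left hl1 (by positivity)
          have h41 : (n : ℝ) * l * l = l ^ 2 * n := by ring
          linarith
        refine h4.trans (mul_le_mul_of_nonneg_left ?_ (by linarith))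
        rw [hW, mul_sqrt_eq (by norm_num)]
        apply Real.sqrt_le_sqrt
        have h5 : 1 / 32 * 0.69 ≤ ε * L := mul_le_mul h2.le hL1.le (by norm_num) hε.le
        have h6 := mul_le_mul_of_nonneg_left h5 hn0
        linarith
      have h4 : C * (Real.sqrt (n * l) + l * L) ≤ C * (l * (7 * W) + l * W) :=
        mul_le_mul_of_nonneg_left (by linarith) hC.le
      have h5 : 0 ≤ C * (l * W) := by positivity
      have h6 : 0 ≤ l * W := by positivity
      nlinarith
  rcases le_total ((l : ℝ) * W) (Real.sqrt (n * l) + l * L) with h3 | h3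
  · rw [min_eq_left h3]; exact hfirst
  · rw [min_eq_right h3]; exact hsecond

/-- the case `n ε ≥ log (n + 1)`, `l = 0` -/
theorem concl_zero : ∃ C : ℝ, 0 < C ∧ ∀ {n : ℕ} (_ : 1 ≤ n)
    {A B : Finset (Finset (Fin n))} (_ : A.Nonempty) (_ : B.Nonempty) {ε : ℝ} (_ : 0 < ε)
    (_ : ε ≤ 5 / 8) (_ : Real.log ((n : ℝ) + 1) ≤ n * ε) (_ : Dens 0 A B ε),
    Concl n 0 A B (C * min (Real.sqrt (n * (ε * Real.log ((n : ℝ) + 1))))
      (Real.sqrt n + Real.log ((n : ℝ) + 1))) := by
  obtain ⟨C0, hC0, hcc⟩ := const_case 0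
  refine ⟨50 + 5 * C0, by positivity, ?_⟩
  intro n hn A B hA hB ε hε hε2 h1 h
  have hn1 : (1 : ℝ) ≤ (n : ℝ) := by exact_mod_cast hn
  have hn0 : (0 : ℝ) ≤ (n : ℝ) := by linarith
  have hlog2 : 0.69 < Real.log 2 := by
    have := Real.log_two_gt_d9; linarith
  set L : ℝ := Real.log ((n : ℝ) + 1) with hL
  have hL1 : 0.69 < L := lt_of_lt_of_le hlog2 (Real.log_le_log (by norm_num) (by linarith))
  have hnε : 0 < (n : ℝ) * ε := by positivity
  set W : ℝ := Real.sqrt (n * (ε * L)) with hW
  have hW0 : 0 ≤ W := Real.sqrt_nonneg _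
  have hLW : L ≤ W := by
    apply Real.le_sqrt_of_sq_le
    have : (n : ℝ) * (ε * L) = (n * ε) * L := by ring
    rw [this, sq]
    exact mul_le_mul_of_nonneg_right h1 (by linarith)
  rcases le_or_gt ε (1 / 8) with h2 | h2
  · obtain ⟨X, Y, p, q, hX, hY, hp, hq, hD, hg⟩ := thmR (unif_isProb hA) (unif_isProb hB)
      (fun a : Finset (Fin n) => a) (fun b : Finset (Fin n) => b) hε h2
      (by rw [Fintype.card_fin]; linarith) (by
        refine le_trans ?_ (EE_bad_le hA hB h)
        apply EE_mono (unif_isProb hA) (unif_isProb hB)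
        intro a _ b _
        have hS1 : 1 ≤ 1 / (8 * ε) := by
          rw [le_div_iff₀ (by positivity)]; linarith
        unfold tw bad
        by_cases h3 : (a ∩ b).card = 0
        · have h4 : MM (fun a : Finset (Fin n) => a) (fun b : Finset (Fin n) => b) a b = 0 := by
            unfold MM; rw [h3]; simp
          rw [if_pos h4, if_pos h3]
        · have h4 : MM (fun a : Finset (Fin n) => a) (fun b : Finset (Fin n) => b) a b ≠ 0 := by
            unfold MM
            intro h5
            apply h3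
            exact_mod_cast h5
          rw [if_neg h4, if_neg h3]
          have h5 : 1 ≤ MM (fun a : Finset (Fin n) => a) (fun b : Finset (Fin n) => b) a b :=
            (MM_zero_or_one_le _ _ a b).resolve_left h4
          rw [div_le_one (by positivity)]
          exact le_min h5 hS1)
    refine (concl_of_dom hA hB hX hY hp hq hD (fun a ha b hb => ?_)).mono ?_
    · have := hg a ha b hb
      rw [Finset.disjoint_iff_inter_eq_empty] at this
      rw [this]; simp
    · rw [Fintype.card_fin]
      have h3 : Real.sqrt (n * ε) ≤ 1.3 * W := by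
        rw [hW, mul_sqrt_eq (by norm_num)]
        apply Real.sqrt_le_sqrt
        have : (n : ℝ) * (ε * L) = L * (n * ε) := by ring
        rw [this]
        nlinarith
      have h4 : Real.sqrt (n * ε) ≤ Real.sqrt n + L := by
        have : Real.sqrt (n * ε) ≤ Real.sqrt n := by
          apply Real.sqrt_le_sqrt
          nlinarith
        linarith
      have h5 : 24 * Real.sqrt (n * ε) ≤ 50 * min W (Real.sqrt n + L) := by
        rcases le_total W (Real.sqrt n + L) with h6 | h6
        · rw [min_eq_left h6]; linarith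
        · rw [min_eq_right h6]
          have := Real.sqrt_nonneg (n * ε)
          linarith
      have h6 : 0 ≤ 5 * C0 * min W (Real.sqrt n + L) := by
        have : 0 ≤ min W (Real.sqrt n + L) := le_min hW0 (by positivity)
        positivity
      linarith
  · obtain ⟨X, Y, p, q, hX, hY, hp, hq, hD, hg⟩ := hcc (unif_isProb hA)
      (unif_isProb hB) (fun a : Finset (Fin n) => a) (fun b : Finset (Fin n) => b)
      (by rw [Fintype.card_fin]; exact hn) (((EE_bad_le hA hB h).trans hε2).trans (by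
        unfold eT; norm_num))
    refine (concl_of_dom hA hB hX hY hp hq hD hg).mono ?_
    rw [Fintype.card_fin]
    have h3 : Real.sqrt n ≤ 4 * W := by
      rw [hW, mul_sqrt_eq (by norm_num)]
      apply Real.sqrt_le_sqrt
      have h5 : 1 / 8 * 0.69 ≤ ε * L := mul_le_mul h2.le hL1.le (by norm_num) hε.le
      have h6 := mul_le_mul_of_nonneg_left h5 hn0
      linarith
    have h4 : C0 * (Real.sqrt n + L) ≤ 5 * C0 * min W (Real.sqrt n + L) := by
      rcases le_total W (Real.sqrt n + L) with h6 | h6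
      · rw [min_eq_left h6]
        have : C0 * (Real.sqrt n + L) ≤ C0 * (5 * W) :=
          mul_le_mul_of_nonneg_left (by linarith) hC0.le
        linarith
      · rw [min_eq_right h6]
        have : 0 ≤ C0 * (Real.sqrt n + L) := by
          have := Real.sqrt_nonneg (n : ℝ)
          apply mul_nonneg hC0.le; linarith
        linarith
    have h5 : 0 ≤ 50 * min W (Real.sqrt n + L) := by
      have : 0 ≤ min W (Real.sqrt n + L) := le_min hW0 (by positivity)
      positivity
    linarith

/-- `l ≤ k` -/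
theorem concl_mid : ∃ C : ℝ, 0 < C ∧ ∀ {n l k : ℕ} (_ : 1 ≤ n) (_ : 1 ≤ k) (_ : l ≤ k)
    {A B : Finset (Finset (Fin n))} (_ : A.Nonempty) (_ : B.Nonempty) {ε : ℝ} (_ : 0 < ε)
    (_ : ε ≤ 5 / 8) (_ : Real.log ((n : ℝ) + 1) ≤ n * ε) (_ : Dens l A B ε),
    Concl n l A B (C * min (k * Real.sqrt (n * (ε * Real.log ((n : ℝ) + 1))))
      (Real.sqrt (n * k) + k * Real.log ((n : ℝ) + 1))) := by
  obtain ⟨C1, hC1, h1⟩ := concl_big
  obtain ⟨C2, hC2, h2⟩ := concl_zero
  refine ⟨C1 + C2, by positivity, ?_⟩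
  intro n l k hn hk hlk A B hA hB ε hε hε2 hL h
  have hn1 : (1 : ℝ) ≤ (n : ℝ) := by exact_mod_cast hn
  have hk1 : (1 : ℝ) ≤ (k : ℝ) := by exact_mod_cast hk
  have hL0 : 0 ≤ Real.log ((n : ℝ) + 1) := Real.log_nonneg (by linarith)
  set W := Real.sqrt (n * (ε * Real.log ((n : ℝ) + 1))) with hW
  have hW0 : 0 ≤ W := Real.sqrt_nonneg _
  set M := min (k * W) (Real.sqrt (n * k) + k * Real.log ((n : ℝ) + 1)) with hM
  have hM0 : 0 ≤ M := le_min (by positivity) (by positivity)
  rcases Nat.eq_zero_or_pos l with h0 | h0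
  · subst h0
    refine (h2 hn hA hB hε hε2 hL h).mono ?_
    have h3 : min W (Real.sqrt n + Real.log ((n : ℝ) + 1)) ≤ M := by
      apply min_le_min
      · exact le_mul_of_one_le_left hW0 hk1
      · apply add_le_add
        · apply Real.sqrt_le_sqrt
          nlinarith
        · exact le_mul_of_one_le_left hL0 hk1
    have h4 := mul_le_mul_of_nonneg_left h3 hC2.le
    have h5 : 0 ≤ C1 * M := by positivity
    linarith
  · refine (h1 hn h0 hA hB hε hε2 hL h).mono ?_
    have hlkr : (l : ℝ) ≤ (k : ℝ) := by exact_mod_cast hlk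
    have h3 : min (l * W) (Real.sqrt (n * l) + l * Real.log ((n : ℝ) + 1)) ≤ M := by
      apply min_le_min
      · exact mul_le_mul_of_nonneg_right hlkr hW0
      · apply add_le_add
        · apply Real.sqrt_le_sqrt
          exact mul_le_mul_of_nonneg_left hlkr (by linarith)
        · exact mul_le_mul_of_nonneg_right hlkr hL0
    have h4 := mul_le_mul_of_nonneg_left h3 hC1.le
    have h5 : 0 ≤ C2 * M := by positivity
    linarith

/-! ### complements -/

lemma card_inter_compl {n : ℕ} (a b : Finset (Fin n)) :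
    (a ∩ bᶜ).card + (a ∩ b).card = a.card := by
  have h1 : a ∩ bᶜ = a \ b := by ext v; simp
  rw [h1, Finset.inter_comm]
  rw [Finset.inter_comm]
  exact Finset.card_sdiff_add_card_inter a b

lemma card_image_compl {n : ℕ} (B : Finset (Finset (Fin n))) :
    (B.image (fun b => bᶜ)).card = B.card :=
  Finset.card_image_of_injective B compl_injective

lemma dens_compl {n l s : ℕ} {A B : Finset (Finset (Fin n))} (hA : ∀ a ∈ A, a.card = s)
    (hl : l ≤ s) {ε : ℝ} (h : Dens l A B ε) : Dens (s - l) A (B.image (fun b => bᶜ)) ε := by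
  unfold Dens at h ⊢
  rw [card_image_compl]
  refine h.trans ?_
  have : ((A ×ˢ B).filter (fun P => (P.1 ∩ P.2).card = l)).card
      ≤ ((A ×ˢ (B.image (fun b => bᶜ))).filter (fun P => (P.1 ∩ P.2).card = s - l)).card := by
    apply Finset.card_le_card_of_injOn (fun P => (P.1, P.2ᶜ))
    · intro P hP
      have hP' := Finset.mem_filter.1 (Finset.mem_coe.1 hP)
      rw [Finset.mem_product] at hP'
      apply Finset.mem_coe.2
      rw [Finset.mem_filter, Finset.mem_product]
      refine ⟨⟨hP'.1.1, Finset.mem_image.2 ⟨P.2, hP'.1.2, rfl⟩⟩, ?_⟩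
      have h1 := card_inter_compl P.1 P.2
      rw [hA _ hP'.1.1, hP'.2] at h1
      change (P.1 ∩ P.2ᶜ).card = s - l
      omega
    · intro P _ Q _ hPQ
      simp only [Prod.mk.injEq] at hPQ
      exact Prod.ext hPQ.1 (compl_injective hPQ.2)
  exact_mod_cast this

lemma concl_compl {n l s : ℕ} {A B : Finset (Finset (Fin n))} (hA : ∀ a ∈ A, a.card = s)
    (hl : l ≤ s) {K : ℝ} (h : Concl n (s - l) A (B.image (fun b => bᶜ)) K) :
    Concl n l A B K := by
  obtain ⟨A', hA', B', hB', h1, h2⟩ := h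
  rw [card_image_compl] at h1
  refine ⟨A', hA', B'.image (fun b => bᶜ), ?_, ?_, ?_⟩
  · intro b hb
    obtain ⟨c, hc, rfl⟩ := Finset.mem_image.1 hb
    obtain ⟨d, hd, rfl⟩ := Finset.mem_image.1 (hB' hc)
    simpa using hd
  · rw [card_image_compl]; exact h1
  · intro a ha b hb
    obtain ⟨c, hc, rfl⟩ := Finset.mem_image.1 hb
    have h3 := h2 a ha c hc
    have h4 := card_inter_compl a c
    rw [hA a (hA' ha), h3] at h4
    change (a ∩ cᶜ).card = l
    omega

lemma dens_swap {n l : ℕ} {A B : Finset (Finset (Fin n))} {ε : ℝ} (h : Dens l A B ε) :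
    Dens l B A ε := by
  unfold Dens at h ⊢
  have h0 : (B.card : ℝ) * (A.card : ℝ) = A.card * B.card := by ring
  rw [h0]
  refine h.trans ?_
  have : ((A ×ˢ B).filter (fun P => (P.1 ∩ P.2).card = l)).card
      ≤ ((B ×ˢ A).filter (fun P => (P.1 ∩ P.2).card = l)).card := by
    apply Finset.card_le_card_of_injOn (fun P => (P.2, P.1))
    · intro P hP
      have hP' := Finset.mem_filter.1 (Finset.mem_coe.1 hP)
      rw [Finset.mem_product] at hP'
      apply Finset.mem_coe.2
      rw [Finset.mem_filter, Finset.mem_product]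
      refine ⟨⟨hP'.1.2, hP'.1.1⟩, ?_⟩
      change (P.2 ∩ P.1).card = l
      rw [Finset.inter_comm]; exact hP'.2
    · intro P _ Q _ hPQ
      simp only [Prod.mk.injEq] at hPQ
      exact Prod.ext hPQ.2 hPQ.1
  exact_mod_cast this

lemma concl_swap {n l : ℕ} {A B : Finset (Finset (Fin n))} {K : ℝ} (h : Concl n l B A K) :
    Concl n l A B K := by
  obtain ⟨B', hB', A', hA', h1, h2⟩ := h
  refine ⟨A', hA', B', hB', ?_, ?_⟩
  · have e1 : (A.card : ℝ) * (B.card : ℝ) = B.card * A.card := by ring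
    have e2 : (A'.card : ℝ) * (B'.card : ℝ) = B'.card * A'.card := by ring
    rw [e1, e2]; exact h1
  · intro a ha b hb
    rw [Finset.inter_comm]
    exact h2 b hb a ha

lemma dens_exists {n l : ℕ} {A B : Finset (Finset (Fin n))} (hA : A.Nonempty) (hB : B.Nonempty)
    {ε : ℝ} (hε : ε < 1) (h : Dens l A B ε) : ∃ a ∈ A, ∃ b ∈ B, (a ∩ b).card = l := by
  have hcA : 0 < (A.card : ℝ) := by exact_mod_cast hA.card_pos
  have hcB : 0 < (B.card : ℝ) := by exact_mod_cast hB.card_pos
  have h1 : 0 < (((A ×ˢ B).filter (fun P => (P.1 ∩ P.2).card = l)).card : ℝ) := by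
    refine lt_of_lt_of_le ?_ h
    have : 0 < 1 - ε := by linarith
    positivity
  have h2 : 0 < ((A ×ˢ B).filter (fun P => (P.1 ∩ P.2).card = l)).card := by exact_mod_cast h1
  obtain ⟨P, hP⟩ := Finset.card_pos.1 h2
  rw [Finset.mem_filter, Finset.mem_product] at hP
  exact ⟨P.1, hP.1.1, P.2, hP.1.2, hP.2⟩

/-- families of sets of constant sizes: one of the four cells of the Venn diagram of a good pair
has at most `k` elements -/
theorem concl_uniform : ∃ C : ℝ, 0 < C ∧ ∀ {n l k s t : ℕ} (_ : 1 ≤ n) (_ : 1 ≤ k)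
    {A B : Finset (Finset (Fin n))} (_ : A.Nonempty) (_ : B.Nonempty)
    (_ : ∀ a ∈ A, a.card = s) (_ : ∀ b ∈ B, b.card = t)
    (_ : l ≤ k ∨ s ≤ l + k ∨ t ≤ l + k ∨ n + l ≤ s + t + k) {ε : ℝ} (_ : 0 < ε)
    (_ : ε ≤ 5 / 8) (_ : Real.log ((n : ℝ) + 1) ≤ n * ε) (_ : Dens l A B ε),
    Concl n l A B (C * min (k * Real.sqrt (n * (ε * Real.log ((n : ℝ) + 1))))
      (Real.sqrt (n * k) + k * Real.log ((n : ℝ) + 1))) := by
  obtain ⟨C, hC, h1⟩ := concl_mid
  refine ⟨C, hC, ?_⟩
  intro n l k s t hn hk A B hA hB hs ht hcell ε hε hε2 hL h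
  obtain ⟨a, ha, b, hb, hab⟩ := dens_exists hA hB (by linarith) h
  have hls : l ≤ s := by
    rw [← hab, ← hs a ha]; exact Finset.card_le_card Finset.inter_subset_left
  have hlt : l ≤ t := by
    rw [← hab, ← ht b hb]; exact Finset.card_le_card Finset.inter_subset_right
  have hst : s + t ≤ n + l := by
    have h2 := Finset.card_union_add_card_inter a b
    have h3 : (a ∪ b).card ≤ n := by
      have := Finset.card_le_univ (a ∪ b)
      rwa [Fintype.card_fin] at this
    rw [hs a ha, ht b hb, hab] at h2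
    omega
  rcases hcell with h2 | h2 | h2 | h2
  · exact h1 hn hk h2 hA hB hε hε2 hL h
  · apply concl_compl hs hls
    exact h1 hn hk (by omega) hA (hB.image _) hε hε2 hL (dens_compl hs hls h)
  · apply concl_swap
    apply concl_compl ht hlt
    exact h1 hn hk (by omega) hB (hA.image _) hε hε2 hL (dens_compl ht hlt (dens_swap h))
  · apply concl_compl hs hls
    apply concl_swap
    have hc : ∀ c ∈ B.image (fun b => bᶜ), c.card = n - t := by
      intro c hc
      obtain ⟨d, hd, rfl⟩ := Finset.mem_image.1 hc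
      rw [Finset.card_compl, Fintype.card_fin, ht d hd]
    have htn : t ≤ n := by
      rw [← ht b hb]
      have := Finset.card_le_univ b
      rwa [Fintype.card_fin] at this
    have hle : s - l ≤ n - t := by omega
    apply concl_compl hc hle
    exact h1 hn hk (by omega) (hB.image _) (hA.image _) hε hε2 hL
      (dens_compl hc hle (dens_swap (dens_compl hs hls h)))

/-- passing to classes of sets of the same size -/
lemma exists_class_pair {n l : ℕ} {A B : Finset (Finset (Fin n))} (hA : A.Nonempty)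
    (hB : B.Nonempty) {ε : ℝ} (hε : 0 < ε) (h : Dens l A B ε) :
    ∃ s t : ℕ, (A.card : ℝ) * B.card / (5 * ((n : ℝ) + 1) ^ 2)
        ≤ ((A.filter (fun a => a.card = s)).card : ℝ) * (B.filter (fun b => b.card = t)).card ∧
      Dens l (A.filter (fun a => a.card = s)) (B.filter (fun b => b.card = t)) (5 / 4 * ε) := by
  have hcA : 0 < (A.card : ℝ) := by exact_mod_cast hA.card_pos
  have hcB : 0 < (B.card : ℝ) := by exact_mod_cast hB.card_pos
  set Q : ℝ := (A.card : ℝ) * B.card / (5 * ((n : ℝ) + 1) ^ 2) with hQ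
  have hQpos : 0 < Q := by positivity
  set NA : ℕ → ℝ := fun s => ((A.filter (fun a => a.card = s)).card : ℝ) with hNA
  set NB : ℕ → ℝ := fun t => ((B.filter (fun b => b.card = t)).card : ℝ) with hNB
  set g : ℕ → ℕ → ℝ := fun s t => ((((A.filter (fun a => a.card = s)) ×ˢ
    (B.filter (fun b => b.card = t))).filter (fun P => (P.1 ∩ P.2).card = l)).card : ℝ) with hg
  have hsumA : ∑ s ∈ range (n + 1), NA s = (A.card : ℝ) := by
    have := Finset.card_eq_sum_card_fiberwise (f := fun a : Finset (Fin n) => a.card) (s := A)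
      (t := range (n + 1)) (fun a _ => by
        rw [Finset.coe_range, Set.mem_Iio]
        have := Finset.card_le_univ a
        rw [Fintype.card_fin] at this
        show a.card < n + 1; omega)
    rw [this, hNA]; push_cast; rfl
  have hsumB : ∑ t ∈ range (n + 1), NB t = (B.card : ℝ) := by
    have := Finset.card_eq_sum_card_fiberwise (f := fun a : Finset (Fin n) => a.card) (s := B)
      (t := range (n + 1)) (fun a _ => by
        rw [Finset.coe_range, Set.mem_Iio]
        have := Finset.card_le_univ a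
        rw [Fintype.card_fin] at this
        show a.card < n + 1; omega)
    rw [this, hNB]; push_cast; rfl
  have hsumg : (((A ×ˢ B).filter (fun P => (P.1 ∩ P.2).card = l)).card : ℝ)
      = ∑ s ∈ range (n + 1), ∑ t ∈ range (n + 1), g s t := by
    have h1 := Finset.card_eq_sum_card_fiberwise
      (f := fun P : Finset (Fin n) × Finset (Fin n) => (P.1.card, P.2.card))
      (s := (A ×ˢ B).filter (fun P => (P.1 ∩ P.2).card = l))
      (t := range (n + 1) ×ˢ range (n + 1)) (fun P _ => by
        rw [Finset.mem_coe, Finset.mem_product, Finset.mem_range, Finset.mem_range]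
        have h2 := Finset.card_le_univ P.1
        have h3 := Finset.card_le_univ P.2
        rw [Fintype.card_fin] at h2 h3
        constructor
        · change P.1.card < n + 1
          omega
        · change P.2.card < n + 1
          omega)
    rw [h1, Finset.sum_product]
    push_cast
    refine Finset.sum_congr rfl (fun s _ => Finset.sum_congr rfl (fun t _ => ?_))
    rw [hg]
    beta_reduce
    congr 2
    ext P
    simp only [Finset.mem_filter, Finset.mem_product, Prod.mk.injEq]
    tauto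
  by_contra hcon
  push Not at hcon
  have hkey : ∀ s t, 5 / 4 * ε * (NA s * NB t) - (NA s * NB t - g s t) < 5 / 4 * ε * Q := by
    intro s t
    rcases lt_or_ge (NA s * NB t) Q with h1 | h1
    · have h2 : g s t ≤ NA s * NB t := by
        rw [hg, hNA, hNB]
        beta_reduce
        have h3 := Finset.card_filter_le ((A.filter (fun a => a.card = s)) ×ˢ
          (B.filter (fun b => b.card = t))) (fun P => (P.1 ∩ P.2).card = l)
        rw [Finset.card_product] at h3
        exact_mod_cast h3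
      have h3 : 5 / 4 * ε * (NA s * NB t) < 5 / 4 * ε * Q :=
        mul_lt_mul_of_pos_left h1 (by positivity)
      linarith
    · have h2 := hcon s t h1
      unfold Dens at h2
      push Not at h2
      change g s t < (1 - 5 / 4 * ε) * (NA s * NB t) at h2
      have h3 : 0 < 5 / 4 * ε * Q := by positivity
      linarith
  have hsum := Finset.sum_lt_sum_of_nonempty (s := range (n + 1)) ⟨0, by simp⟩
    (fun s _ => Finset.sum_lt_sum_of_nonempty (s := range (n + 1)) ⟨0, by simp⟩
      (fun t _ => hkey s t))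
  simp only [Finset.sum_sub_distrib, ← Finset.mul_sum, Finset.sum_const, Finset.card_range,
    nsmul_eq_mul] at hsum
  rw [← hsumg] at hsum
  have h1 : ∑ s ∈ range (n + 1), NA s * ∑ t ∈ range (n + 1), NB t = (A.card : ℝ) * B.card := by
    rw [← Finset.sum_mul, hsumA, hsumB]
  rw [h1] at hsum
  have h2 : 5 / 4 * ε * (((n + 1 : ℕ) : ℝ) * (((n + 1 : ℕ) : ℝ) * Q))
      = ε / 4 * ((A.card : ℝ) * B.card) := by
    rw [hQ]; push_cast; field_simp
  rw [h2] at hsum
  unfold Dens at h
  linarith

/-- The general statement. -/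
theorem concl_cell : ∃ C : ℝ, 0 < C ∧ ∀ {n l k : ℕ} (_ : 1 ≤ n) (_ : 1 ≤ k)
    {A B : Finset (Finset (Fin n))} (_ : A.Nonempty) (_ : B.Nonempty)
    (_ : ∀ a ∈ A, ∀ b ∈ B, l ≤ k ∨ a.card ≤ l + k ∨ b.card ≤ l + k
      ∨ n + l ≤ a.card + b.card + k) {ε : ℝ} (_ : 0 < ε)
    (_ : ε ≤ 1 / 2)
    (_ : (1 - ε) * ((A.card : ℝ) * (B.card : ℝ))
      ≤ (((A ×ˢ B).filter (fun P => (P.1 ∩ P.2).card = l)).card : ℝ)),
    Concl n l A B (C * min (k * Real.sqrt (n * (ε * Real.log ((n : ℝ) + 1))))
      (Real.sqrt (n * k) + k * Real.log ((n : ℝ) + 1))) := by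
  obtain ⟨C, hC, hu⟩ := concl_uniform
  refine ⟨1000 + 2 * C, by positivity, ?_⟩
  intro n l k hn hk A B hA hB hcell ε hε hε2 h
  have hn1 : (1 : ℝ) ≤ (n : ℝ) := by exact_mod_cast hn
  have hn0 : (0 : ℝ) ≤ (n : ℝ) := by linarith
  have hk1 : (1 : ℝ) ≤ (k : ℝ) := by exact_mod_cast hk
  have hlog2 : 0.69 < Real.log 2 := by
    have := Real.log_two_gt_d9; linarith
  set L : ℝ := Real.log ((n : ℝ) + 1) with hL
  have hL1 : 0.69 < L := lt_of_lt_of_le hlog2 (Real.log_le_log (by norm_num) (by linarith))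
  have hnε : 0 < (n : ℝ) * ε := by positivity
  set W : ℝ := Real.sqrt (n * (ε * L)) with hW
  have hW0 : 0 ≤ W := Real.sqrt_nonneg _
  have hkW : W ≤ k * W := le_mul_of_one_le_left hW0 hk1
  set M := min (k * W) (Real.sqrt (n * k) + k * L) with hM
  have hM0 : 0 ≤ M := le_min (by positivity) (by positivity)
  have hkL : L ≤ k * L := le_mul_of_one_le_left (by linarith) hk1
  rcases le_or_gt ((n : ℝ) * ε) L with h1 | h1
  · refine (concl_linear hn hA hB hε hε2 h).mono ?_
    have h2 : (n : ℝ) * ε ≤ W := by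
      apply Real.le_sqrt_of_sq_le
      have : (n : ℝ) * (ε * L) = (n * ε) * L := by ring
      rw [this, sq]
      exact mul_le_mul_of_nonneg_left h1 hnε.le
    have h3 : Real.sqrt (n * ε) ≤ 1.3 * W := by
      rw [hW, mul_sqrt_eq (by norm_num)]
      apply Real.sqrt_le_sqrt
      have : (n : ℝ) * (ε * L) = L * (n * ε) := by ring
      rw [this]
      nlinarith
    have h4 : Real.sqrt (n * ε) ≤ Real.sqrt (n * k) := by
      apply Real.sqrt_le_sqrt
      exact mul_le_mul_of_nonneg_left (by linarith) hn0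
    have h5 : 256 * (Real.sqrt (n * ε) + n * ε) ≤ 1000 * M := by
      rcases le_total ((k : ℝ) * W) (Real.sqrt (n * k) + k * L) with h6 | h6
      · rw [hM, min_eq_left h6]; linarith
      · rw [hM, min_eq_right h6]
        have := Real.sqrt_nonneg ((n : ℝ) * k)
        linarith
    have h6 : 0 ≤ 2 * C * M := by positivity
    linarith
  · obtain ⟨s, t, hst, hd⟩ := exists_class_pair hA hB hε h
    set A1 := A.filter (fun a => a.card = s) with hA1
    set B1 := B.filter (fun b => b.card = t) with hB1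
    have hcA : 0 < (A.card : ℝ) := by exact_mod_cast hA.card_pos
    have hcB : 0 < (B.card : ℝ) := by exact_mod_cast hB.card_pos
    have hprod : 0 < (A1.card : ℝ) * B1.card := lt_of_lt_of_le (by positivity) hst
    have hA1ne : A1.Nonempty := by
      rw [← Finset.card_pos]
      by_contra h0
      have : A1.card = 0 := by omega
      rw [this] at hprod
      simp at hprod
    have hB1ne : B1.Nonempty := by
      rw [← Finset.card_pos]
      by_contra h0
      have : B1.card = 0 := by omega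
      rw [this] at hprod
      simp at hprod
    obtain ⟨a0, ha0⟩ := hA1ne
    obtain ⟨b0, hb0⟩ := hB1ne
    have hcell' : l ≤ k ∨ s ≤ l + k ∨ t ≤ l + k ∨ n + l ≤ s + t + k := by
      have h2 := hcell a0 (Finset.mem_filter.1 ha0).1 b0 (Finset.mem_filter.1 hb0).1
      rw [(Finset.mem_filter.1 ha0).2, (Finset.mem_filter.1 hb0).2] at h2
      exact h2
    obtain ⟨A', hA', B', hB', h2, h3⟩ := hu hn hk ⟨a0, ha0⟩ ⟨b0, hb0⟩
      (fun a ha => (Finset.mem_filter.1 ha).2) (fun b hb => (Finset.mem_filter.1 hb).2) hcell'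
      (ε := 5 / 4 * ε) (by linarith) (by linarith) (by
        have : (n : ℝ) * (5 / 4 * ε) = 5 / 4 * (n * ε) := by ring
        rw [this]; linarith) hd
    refine ⟨A', hA'.trans (Finset.filter_subset _ _), B', hB'.trans (Finset.filter_subset _ _),
      ?_, h3⟩
    -- the exponent
    set M' := min (k * Real.sqrt (n * (5 / 4 * ε * L))) (Real.sqrt (n * k) + k * L) with hM'
    have h4 : M' ≤ 1.2 * M := by
      have h5 : Real.sqrt (n * (5 / 4 * ε * L)) ≤ 1.2 * W := by
        rw [hW, mul_sqrt_eq (by norm_num)]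
        apply Real.sqrt_le_sqrt
        have : 0 ≤ (n : ℝ) * (ε * L) := by positivity
        nlinarith
      rcases le_total ((k : ℝ) * W) (Real.sqrt (n * k) + k * L) with h6 | h6
      · rw [hM, min_eq_left h6]
        refine (min_le_left _ _).trans ?_
        have h7 : (k : ℝ) * Real.sqrt (n * (5 / 4 * ε * L)) ≤ k * (1.2 * W) :=
          mul_le_mul_of_nonneg_left h5 (by linarith)
        linarith
      · rw [hM, min_eq_right h6]
        refine (min_le_right _ _).trans ?_
        have h7 : 0 ≤ Real.sqrt (n * k) := Real.sqrt_nonneg _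
        linarith
    have hLW : L ≤ W := by
      apply Real.le_sqrt_of_sq_le
      have : (n : ℝ) * (ε * L) = (n * ε) * L := by ring
      rw [this, sq]
      exact mul_le_mul_of_nonneg_right h1.le (by linarith)
    have hLM : L ≤ M := le_min (by linarith) (by
      have := Real.sqrt_nonneg ((n : ℝ) * k)
      linarith)
    have hlog5 : Real.log (5 * ((n : ℝ) + 1) ^ 2) ≤ 5 * L := by
      have h5 : Real.log (5 * ((n : ℝ) + 1) ^ 2) ≤ Real.log (((n : ℝ) + 1) ^ 5) := by
        apply Real.log_le_log (by positivity)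
        have h6 : (5 : ℝ) ≤ ((n : ℝ) + 1) ^ 3 := by
          have : (2 : ℝ) ^ 3 ≤ ((n : ℝ) + 1) ^ 3 := pow_le_pow_left₀ (by norm_num) (by linarith) 3
          linarith
        have h7 : ((n : ℝ) + 1) ^ 5 = ((n : ℝ) + 1) ^ 3 * ((n : ℝ) + 1) ^ 2 := by ring
        rw [h7]
        exact mul_le_mul_of_nonneg_right h6 (by positivity)
      rw [Real.log_pow] at h5
      push_cast at h5
      exact h5
    have h5 : Real.exp (-((1000 + 2 * C) * M)) ≤ Real.exp (-(C * M'))
        * Real.exp (- Real.log (5 * ((n : ℝ) + 1) ^ 2)) := by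
      rw [← Real.exp_add]
      apply Real.exp_le_exp.2
      have h6 : C * M' ≤ C * (1.2 * M) := mul_le_mul_of_nonneg_left h4 hC.le
      have h7 : 0 ≤ C * M := by positivity
      nlinarith
    rw [Real.exp_neg (Real.log _), Real.exp_log (by positivity)] at h5
    calc Real.exp (-((1000 + 2 * C) * M)) * ((A.card : ℝ) * (B.card : ℝ))
        ≤ (Real.exp (-(C * M')) * (5 * ((n : ℝ) + 1) ^ 2)⁻¹) * ((A.card : ℝ) * (B.card : ℝ)) :=
          mul_le_mul_of_nonneg_right h5 (by positivity)
      _ = Real.exp (-(C * M')) * ((A.card : ℝ) * B.card / (5 * ((n : ℝ) + 1) ^ 2)) := by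
          rw [div_eq_mul_inv]; ring
      _ ≤ Real.exp (-(C * M')) * ((A1.card : ℝ) * B1.card) :=
          mul_le_mul_of_nonneg_left hst (Real.exp_pos _).le
      _ ≤ (A'.card : ℝ) * (B'.card : ℝ) := h2

/-- The general statement, with the linear bound included. -/
theorem concl_cell_lin : ∃ C : ℝ, 0 < C ∧ ∀ {n l k : ℕ} (_ : 1 ≤ n) (_ : 1 ≤ k)
    {A B : Finset (Finset (Fin n))} (_ : A.Nonempty) (_ : B.Nonempty)
    (_ : ∀ a ∈ A, ∀ b ∈ B, l ≤ k ∨ a.card ≤ l + k ∨ b.card ≤ l + k
      ∨ n + l ≤ a.card + b.card + k) {ε : ℝ} (_ : 0 < ε)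
    (_ : ε ≤ 1 / 2)
    (_ : (1 - ε) * ((A.card : ℝ) * (B.card : ℝ))
      ≤ (((A ×ˢ B).filter (fun P => (P.1 ∩ P.2).card = l)).card : ℝ)),
    Concl n l A B (C * min (Real.sqrt (n * ε) + n * ε)
      (min (k * Real.sqrt (n * (ε * Real.log ((n : ℝ) + 1))))
        (Real.sqrt (n * k) + k * Real.log ((n : ℝ) + 1)))) := by
  obtain ⟨C, hC, hu⟩ := concl_cell
  refine ⟨256 + C, by positivity, ?_⟩
  intro n l k hn hk A B hA hB hcell ε hε hε2 h
  have hn1 : (1 : ℝ) ≤ (n : ℝ) := by exact_mod_cast hn
  have hL0 : 0 ≤ Real.log ((n : ℝ) + 1) := Real.log_nonneg (by linarith)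
  set M := min (k * Real.sqrt (n * (ε * Real.log ((n : ℝ) + 1))))
    (Real.sqrt (n * k) + k * Real.log ((n : ℝ) + 1)) with hM
  have hM0 : 0 ≤ M := le_min (by positivity) (by positivity)
  have hN0 : 0 ≤ Real.sqrt (n * ε) + n * ε := by positivity
  rcases le_total (Real.sqrt (n * ε) + n * ε) M with h1 | h1
  · rw [min_eq_left h1]
    refine (concl_linear hn hA hB hε hε2 h).mono ?_
    have : 0 ≤ C * (Real.sqrt (n * ε) + n * ε) := by positivity
    linarith
  · rw [min_eq_right h1]
    refine (hu hn hk hA hB hcell hε hε2 h).mono ?_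
    have : 0 ≤ 256 * M := by positivity
    linarith

end Run7.h852
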