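import Pool.Agent.Run7.h852.Sparse

open Finset

set_option linter.unusedSectionVars false

namespace Run7.h852

lemma log_le_four_root {n : ℝ} (hn : 1 ≤ n) :
    Real.log (n + 1) ≤ 4 * Real.sqrt (Real.sqrt n) := by
  set t := Real.sqrt (Real.sqrt n) with ht
  have h1 : 1 ≤ Real.sqrt n := Real.one_le_sqrt.2 hn
  have ht1 : 1 ≤ t := Real.one_le_sqrt.2 h1
  have htt : t * t = Real.sqrt n := Real.mul_self_sqrt (by linarith)
  have hnn : Real.sqrt n * Real.sqrt n = n := Real.mul_self_sqrt (by linarith)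
  have hn4 : n = t ^ 4 := by
    calc n = Real.sqrt n * Real.sqrt n := hnn.symm
      _ = (t * t) * (t * t) := by rw [htt]
      _ = t ^ 4 := by ring
  have h2 : Real.log (n + 1) ≤ Real.log (2 * t ^ 4) := by
    apply Real.log_le_log (by linarith)
    rw [← hn4]; linarith
  rw [Real.log_mul (by norm_num) (by positivity), Real.log_pow] at h2
  have h3 := Real.log_le_sub_one_of_pos (show 0 < t by linarith)
  have h4 : Real.log 2 < 1 := by
    have := Real.log_two_lt_d9; linarith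
  push_cast at h2
  linarith

/-- Bounded cross intersections. -/
theorem concl_bounded (K0 : ℕ) : ∃ C : ℝ, 0 < C ∧ ∀ {n l : ℕ} (_ : 1 ≤ n) (_ : 1 ≤ l)
    {A B : Finset (Finset (Fin n))} (_ : A.Nonempty) (_ : B.Nonempty) {ε : ℝ} (_ : 0 < ε)
    (_ : ε ≤ 1 / 2) (_ : ∀ a ∈ A, ∀ b ∈ B, (a ∩ b).card ≤ K0)
    (_ : (1 - ε) * ((A.card : ℝ) * (B.card : ℝ))
      ≤ (((A ×ˢ B).filter (fun P => (P.1 ∩ P.2).card = l)).card : ℝ)),
    Concl n l A B (C * Real.sqrt (n * ε)) := by
  choose Cc hCc hcc using const_case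
  set K : ℕ := K0 + 1 with hK
  have hK1 : 1 ≤ K := by omega
  have hKr : (1 : ℝ) ≤ (K : ℝ) := by exact_mod_cast hK1
  set lg : ℝ := Real.log ((K : ℝ) + 1) with hlg
  have hlgpos : 0 < lg := Real.log_pos (by linarith)
  set c1 : ℝ := 1 / (42000 * lg) with hc1
  have hc1pos : 0 < c1 := by positivity
  set c2 : ℝ := Real.sqrt (Real.sqrt c1) with hc2
  have hc2pos : 0 < c2 := Real.sqrt_pos.2 (Real.sqrt_pos.2 hc1pos)
  set εK : ℝ := (1 / (2 ^ (K + 10) * ((K : ℝ) + 1))) ^ 2 / (K : ℝ) ^ K with hεK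
  have hεKpos : 0 < εK := by positivity
  set sK : ℝ := Real.sqrt εK with hsK
  have hsKpos : 0 < sK := Real.sqrt_pos.2 hεKpos
  set S : ℝ := ∑ l ∈ range (K + 1), Cc l with hS
  have hS0 : 0 < S := Finset.sum_pos (fun l _ => hCc l) ⟨0, by simp⟩
  set M : ℝ := 2 + 24 * Real.sqrt (2 ^ (K + 3)) + (K + 2) with hM
  have hM0 : 0 < M := by positivity
  refine ⟨512 + 700 * Real.sqrt lg + M * ((K : ℝ) ^ K + 4 / c2) + S * (1 / sK + 4 / c2),
    by positivity, ?_⟩
  intro n l hn hl A B hA hB ε hε hε2 hbd h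
  have hn1 : (1 : ℝ) ≤ (n : ℝ) := by exact_mod_cast hn
  have hn0 : (0 : ℝ) ≤ (n : ℝ) := by linarith
  have hsq0 : 0 ≤ Real.sqrt (n * ε) := Real.sqrt_nonneg _
  have hlK : l ≤ K := by
    obtain ⟨a, ha, b, hb, hab⟩ := exists_good hA hB hε2 h
    have := hbd a ha b hb
    omega
  have hlKr : (l : ℝ) ≤ (K : ℝ) := by exact_mod_cast hlK
  have hpart : ∀ {u : ℝ}, u ≤ 512 + 700 * Real.sqrt lg + M * ((K : ℝ) ^ K + 4 / c2)
      + S * (1 / sK + 4 / c2) → Concl n l A B (u * Real.sqrt (n * ε)) →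
      Concl n l A B ((512 + 700 * Real.sqrt lg + M * ((K : ℝ) ^ K + 4 / c2)
      + S * (1 / sK + 4 / c2)) * Real.sqrt (n * ε)) := fun hu hc =>
    hc.mono (mul_le_mul_of_nonneg_right hu hsq0)
  have p1 : 0 ≤ 700 * Real.sqrt lg := by positivity
  have p2 : 0 ≤ M * ((K : ℝ) ^ K + 4 / c2) := by positivity
  have p3 : 0 ≤ S * (1 / sK + 4 / c2) := by positivity
  rcases lt_or_ge ((n : ℝ) * ε) 1 with hnε | hnε
  · apply hpart (u := 512) (by linarith)
    refine (concl_linear hn hA hB hε hε2 h).mono ?_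
    have h1 : (n : ℝ) * ε ≤ Real.sqrt (n * ε) := by
      apply Real.le_sqrt_of_sq_le
      have : 0 ≤ (n : ℝ) * ε := by positivity
      nlinarith
    linarith
  rcases le_or_gt ((n : ℝ) * (ε ^ 2 * lg)) (1 / 42000) with hsp | hsp
  · apply hpart (u := 700 * Real.sqrt lg) (by linarith)
    refine (concl_sparse hn hK1 hA hB hε hε2 ?_ hsp h).mono ?_
    · intro a ha b hb
      have h1 : ((a ∩ b).card : ℝ) ≤ (K : ℝ) := by
        have := hbd a ha b hb
        exact_mod_cast (by omega : (a ∩ b).card ≤ K)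
      have h2 : (0 : ℝ) ≤ ((a ∩ b).card : ℝ) := Nat.cast_nonneg _
      have h3 : (0 : ℝ) ≤ (l : ℝ) := Nat.cast_nonneg _
      rw [abs_le]
      constructor <;> linarith
    · apply le_of_eq
      have e1 : (n : ℝ) * (ε * lg) = lg * (n * ε) := by ring
      rw [e1, Real.sqrt_mul hlgpos.le]
      ring
  -- the dense range
  have hroot : Real.sqrt (Real.sqrt n) * c2 ≤ Real.sqrt (n * ε) := by
    have h1 : c1 ≤ n * ε ^ 2 := by
      rw [hc1, div_le_iff₀ (by positivity)]
      linarith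
    rw [hc2, ← Real.sqrt_mul (Real.sqrt_nonneg _), ← Real.sqrt_mul hn0]
    apply Real.sqrt_le_sqrt
    apply Real.sqrt_le_iff.2
    refine ⟨by positivity, ?_⟩
    nlinarith
  have hlog : Real.log ((n : ℝ) + 1) ≤ 4 / c2 * Real.sqrt (n * ε) := by
    have h1 := log_le_four_root hn1
    have h2 : Real.sqrt (Real.sqrt n) ≤ Real.sqrt (n * ε) / c2 := by
      rw [le_div_iff₀ hc2pos]; exact hroot
    calc Real.log ((n : ℝ) + 1) ≤ 4 * Real.sqrt (Real.sqrt n) := h1
      _ ≤ 4 * (Real.sqrt (n * ε) / c2) := by linarith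
      _ = _ := by ring
  have hlog0 : 0 ≤ Real.log ((n : ℝ) + 1) := Real.log_nonneg (by linarith)
  have hbad := EE_bad_le hA hB h
  rcases le_or_gt ε εK with hεs | hεs
  · apply hpart (u := M * ((K : ℝ) ^ K + 4 / c2)) (by linarith)
    set ε0 : ℝ := (K : ℝ) ^ (l - 1) * ε with hε0
    have hpow1 : (1 : ℝ) ≤ (K : ℝ) ^ (l - 1) := one_le_pow₀ hKr
    have hpow2 : (K : ℝ) ^ (l - 1) ≤ (K : ℝ) ^ K := pow_le_pow_right₀ hKr (by omega)
    have hε0pos : 0 < ε0 := by positivity
    have hεε0 : ε ≤ ε0 := by rw [hε0]; nlinarith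
    have hε0c : ε0 ≤ (1 / (2 ^ (l + 10) * ((l : ℝ) + 1))) ^ 2 := by
      have h1 : ε0 ≤ (1 / (2 ^ (K + 10) * ((K : ℝ) + 1))) ^ 2 := by
        calc ε0 ≤ (K : ℝ) ^ K * εK := mul_le_mul hpow2 hεs hε.le (by positivity)
          _ = _ := by rw [hεK]; field_simp
      refine h1.trans ?_
      apply pow_le_pow_left₀ (by positivity)
      apply one_div_le_one_div_of_le (by positivity)
      apply mul_le_mul _ (by linarith) (by positivity) (by positivity)
      exact pow_le_pow_right₀ (by norm_num) (by omega)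
    have hH : EE (unif A) (unif B)
        (HH l (fun a : Finset (Fin n) => a) (fun b : Finset (Fin n) => b)) ≤ ε0 := by
      have h1 : EE (unif A) (unif B)
          (HH l (fun a : Finset (Fin n) => a) (fun b : Finset (Fin n) => b))
          ≤ EE (unif A) (unif B) (fun a b => (K : ℝ) ^ (l - 1) *
            bad l (fun a : Finset (Fin n) => a) (fun b : Finset (Fin n) => b) a b) := by
        apply EE_mono (unif_isProb hA) (unif_isProb hB)
        intro a ha b hb
        have hk : (a ∩ b).card ≤ K := by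
          have := hbd a ha b hb
          omega
        change hwt l (a ∩ b).card ≤ (K : ℝ) ^ (l - 1) * (if (a ∩ b).card = l then 0 else 1)
        unfold hwt
        by_cases h1 : (a ∩ b).card = l
        · rw [if_neg (by omega), if_pos h1, if_pos h1, mul_zero]
        · rw [if_neg h1, if_neg h1, mul_one]
          by_cases h2 : (a ∩ b).card < l
          · rw [if_pos h2]; exact hpow1
          · rw [if_neg h2]
            apply pow_le_pow_left₀ (by positivity)
            exact_mod_cast (by omega : (a ∩ b).card - l ≤ K)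
      rw [EE_smul] at h1
      exact h1.trans (mul_le_mul_of_nonneg_left hbad (by positivity))
    obtain ⟨X, Y, p, q, hX, hY, hp, hq, hD, hg⟩ := moment_case hl (unif_isProb hA)
      (unif_isProb hB) (fun a : Finset (Fin n) => a) (fun b : Finset (Fin n) => b) hε0pos hε0c
      (by rw [Fintype.card_fin]; nlinarith) hH
    refine (concl_of_dom hA hB hX hY hp hq hD hg).mono ?_
    rw [Fintype.card_fin]
    have h1 : (2 + 24 * Real.sqrt (2 ^ (l + 3)) + ((l : ℝ) + 2)) ≤ M := by
      have h2 : Real.sqrt (2 ^ (l + 3)) ≤ Real.sqrt (2 ^ (K + 3)) := by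
        apply Real.sqrt_le_sqrt
        exact pow_le_pow_right₀ (by norm_num) (by omega)
      rw [hM]; linarith
    have h2 : Real.sqrt (n * ε0) ≤ (K : ℝ) ^ K * Real.sqrt (n * ε) := by
      rw [mul_sqrt_eq (by positivity : (0 : ℝ) ≤ (K : ℝ) ^ K)]
      apply Real.sqrt_le_sqrt
      rw [hε0]
      have h3 : (K : ℝ) ^ (l - 1) ≤ ((K : ℝ) ^ K) ^ 2 := by
        have h4 : (1 : ℝ) ≤ (K : ℝ) ^ K := one_le_pow₀ hKr
        nlinarith
      have h4 := mul_le_mul_of_nonneg_right h3 (by positivity : 0 ≤ (n : ℝ) * ε)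
      linarith
    calc (2 + 24 * Real.sqrt (2 ^ (l + 3)) + ((l : ℝ) + 2))
          * (Real.sqrt (n * ε0) + Real.log (n + 1))
        ≤ M * ((K : ℝ) ^ K * Real.sqrt (n * ε) + 4 / c2 * Real.sqrt (n * ε)) := by
          apply mul_le_mul h1 (add_le_add h2 hlog) _ hM0.le
          have := Real.sqrt_nonneg ((n : ℝ) * ε0)
          linarith
      _ = M * ((K : ℝ) ^ K + 4 / c2) * Real.sqrt (n * ε) := by ring
  · apply hpart (u := S * (1 / sK + 4 / c2)) (by linarith)
    obtain ⟨X, Y, p, q, hX, hY, hp, hq, hD, hg⟩ := hcc l (unif_isProb hA)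
      (unif_isProb hB) (fun a : Finset (Fin n) => a) (fun b : Finset (Fin n) => b)
      (by rw [Fintype.card_fin]; exact hn) (hbad.trans (hε2.trans (half_lt_eT l).le))
    refine (concl_of_dom hA hB hX hY hp hq hD hg).mono ?_
    rw [Fintype.card_fin]
    have h1 : Cc l ≤ S := by
      rw [hS]
      exact Finset.single_le_sum (f := Cc) (fun i _ => (hCc i).le)
        (Finset.mem_range.2 (by omega))
    have h2 : Real.sqrt n ≤ 1 / sK * Real.sqrt (n * ε) := by
      have h3 : sK * Real.sqrt n ≤ Real.sqrt (n * ε) := by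
        rw [hsK, ← Real.sqrt_mul hεKpos.le]
        apply Real.sqrt_le_sqrt
        nlinarith
      rw [one_div, inv_mul_eq_div, le_div_iff₀ hsKpos]
      linarith
    calc Cc l * (Real.sqrt n + Real.log ((n : ℝ) + 1))
        ≤ S * (1 / sK * Real.sqrt (n * ε) + 4 / c2 * Real.sqrt (n * ε)) := by
          apply mul_le_mul h1 (add_le_add h2 hlog) _ hS0.le
          have := Real.sqrt_nonneg (n : ℝ)
          linarith
      _ = S * (1 / sK + 4 / c2) * Real.sqrt (n * ε) := by ring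

end Run7.h852
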