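import Pool.Agent.Run7.h852.Gibbs

open Finset

set_option linter.unusedSectionVars false

namespace Run7.h852

variable {α β ι : Type*} [Fintype α] [Fintype β] [Fintype ι] [DecidableEq α] [DecidableEq β]

section

variable {μ : α → ℝ} {ν : β → ℝ} {c : ι → Finset α → Finset β → ℝ}
    {w : ι → α → β → ℝ} {G : α → β → ℝ}
    {X : Finset α} {Y : Finset β} {p : α → ℝ} {q : β → ℝ}

lemma IsProb.supp {X : Finset α} {μ : α → ℝ} (h : IsProb X μ) : IsProb (supp μ) μ := by
  refine ⟨h.nonneg, ?_, h.sum⟩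
  intro a ha
  by_contra hne
  exact ha (mem_supp.2 (lt_of_le_of_ne (h.nonneg a) (Ne.symm hne)))

/-- value of the potential at the base point -/
noncomputable def P0 (μ : α → ℝ) (ν : β → ℝ) (c : ι → Finset α → Finset β → ℝ)
    (w : ι → α → β → ℝ) (G : α → β → ℝ) : ℝ := pot c w G (supp μ) (supp ν) μ ν

lemma Phi_start {X0 : Finset α} {Y0 : Finset β} (hμ : IsProb X0 μ) (hν : IsProb Y0 ν) :
    Phi μ ν c w G (supp μ) (supp ν) μ ν = P0 μ ν c w G := by
  unfold Phi P0
  rw [hμ.supp.sum_mem, hν.supp.sum_mem, ent_self, ent_self]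
  simp

lemma exists_minPt {X0 : Finset α} {Y0 : Finset β} (hμ : IsProb X0 μ) (hν : IsProb Y0 ν)
    (hg : GoodPot c w G) : ∃ X Y p q, IsMinPt μ ν c w G X Y p q := by
  obtain ⟨X, Y, p, q, h1, h2, h3, h4, h5⟩ := exists_min μ ν c w G hμ.supp.nonempty hν.supp.nonempty
  exact ⟨X, Y, p, q, hg, h1, h2, h3, h4, h5⟩

lemma IsMinPt.ent_nonneg (h : IsMinPt μ ν c w G X Y p q) :
    0 ≤ ent μ p + Real.log (∑ a ∈ X, μ a) := by
  have hS := h.sum_mu_pos (Finset.Subset.refl X) h.hp.nonempty
  set S := ∑ a ∈ X, μ a with hSdef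
  have h1 : ent μ p = ∑ a ∈ X, p a * (Real.log (p a) - Real.log (μ a)) := by
    unfold ent
    exact (Finset.sum_subset (Finset.subset_univ X) (fun a _ ha => by
      rw [h.hp.zero a ha, zero_mul])).symm
  have h2 : ∀ a ∈ X, p a - μ a / S - p a * Real.log S
      ≤ p a * (Real.log (p a) - Real.log (μ a)) := by
    intro a ha
    have hp := h.p_pos ha
    have hm := h.mu_pos ha
    have h3 := Real.log_le_sub_one_of_pos (div_pos (div_pos hm hS) hp)
    rw [Real.log_div (div_pos hm hS).ne' hp.ne', Real.log_div hm.ne' hS.ne'] at h3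
    have h4 := mul_le_mul_of_nonneg_left h3 hp.le
    have h5 : p a * (μ a / S / p a - 1) = μ a / S - p a := by field_simp
    linarith
  have h3 := Finset.sum_le_sum h2
  rw [Finset.sum_sub_distrib, Finset.sum_sub_distrib, ← Finset.sum_mul, ← Finset.sum_div,
    h.hp.sum_mem, ← hSdef, div_self hS.ne', ← h1] at h3
  linarith

lemma IsMinPt.log_sum_nonpos {X0 : Finset α} (hμ : IsProb X0 μ)
    (h : IsMinPt μ ν c w G X Y p q) : Real.log (∑ a ∈ X, μ a) ≤ 0 := by
  apply Real.log_nonpos (h.sum_mu_pos (Finset.Subset.refl X) h.hp.nonempty).le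
  rw [← hμ.sum]
  exact Finset.sum_le_sum_of_subset_of_nonneg (Finset.subset_univ X) (fun a _ _ => hμ.nonneg a)

lemma IsMinPt.EE_FF_le_pot (h : IsMinPt μ ν c w G X Y p q) :
    EE p q (FF c w G X Y p q) ≤ pot c w G X Y p q := by
  rw [EE_FF]
  unfold pot
  refine add_le_add (Finset.sum_le_sum (fun i _ => ?_)) le_rfl
  have hs : 0 ≤ EE p q (w i) := EE_nonneg h.hp.nonneg h.hq.nonneg (h.good.w_nonneg i)
  unfold slope
  rcases hs.eq_or_lt with h0 | h0
  · rw [← h0]; simp
  · have h1 : 0 < Real.sqrt (EE p q (w i)) := Real.sqrt_pos.2 h0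
    have h2 : c i X Y / (2 * Real.sqrt (EE p q (w i))) * EE p q (w i)
        = (1 / 2) * (c i X Y * Real.sqrt (EE p q (w i))) := by
      have h3 : EE p q (w i) = Real.sqrt (EE p q (w i)) * Real.sqrt (EE p q (w i)) :=
        (Real.mul_self_sqrt hs).symm
      conv_lhs => rw [h3]
      rw [Real.sqrt_mul_self (Real.sqrt_nonneg _)]
      field_simp
    rw [h2]
    have h4 : 0 ≤ c i X Y * Real.sqrt (EE p q (w i)) := mul_nonneg (h.good.c_nonneg i X Y) h1.le
    linarith

lemma IsMinPt.EE_FF_nonneg (h : IsMinPt μ ν c w G X Y p q) :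
    0 ≤ EE p q (FF c w G X Y p q) :=
  EE_nonneg h.hp.nonneg h.hq.nonneg (FF_nonneg h.good X Y p q)

/-- The budget inequality. -/
lemma IsMinPt.budget {X0 : Finset α} {Y0 : Finset β} (hμ : IsProb X0 μ) (hν : IsProb Y0 ν)
    (h : IsMinPt μ ν c w G X Y p q) :
    (ent μ p + Real.log (∑ a ∈ X, μ a)) + (ent ν q + Real.log (∑ b ∈ Y, ν b))
      - (1 / 2) * (Real.log (∑ a ∈ X, μ a) + Real.log (∑ b ∈ Y, ν b))
      + pot c w G X Y p q ≤ P0 μ ν c w G := by
  have h1 := h.hmin _ _ μ ν (Finset.Subset.refl _) (Finset.Subset.refl _) hμ.supp hν.supp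
  rw [Phi_start hμ hν] at h1
  unfold Phi at h1
  linarith

lemma IsMinPt.pot_le_P0 {X0 : Finset α} {Y0 : Finset β} (hμ : IsProb X0 μ) (hν : IsProb Y0 ν)
    (h : IsMinPt μ ν c w G X Y p q) : pot c w G X Y p q ≤ P0 μ ν c w G := by
  have h1 := h.budget hμ hν
  have h2 := h.ent_nonneg
  have h3 := h.swap.ent_nonneg
  have h4 := h.log_sum_nonpos hμ
  have h5 := h.swap.log_sum_nonpos hν
  linarith

lemma margL_nonneg (hq : ∀ b, 0 ≤ q b) {f : α → β → ℝ} (hf : ∀ a b, 0 ≤ f a b) (a : α) :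
    0 ≤ margL q f a := Finset.sum_nonneg (fun b _ => mul_nonneg (hq b) (hf a b))

/-- the constant in the Gibbs form -/
lemma IsMinPt.gibbsL' (h : IsMinPt μ ν c w G X Y p q) :
    ∀ a ∈ X, Real.log (p a)
      = Real.log (μ a) - margL q (FF c w G X Y p q) a
        + (ent μ p + EE p q (FF c w G X Y p q)) := by
  obtain ⟨κ, hκ⟩ := h.gibbsL
  have h1 : ent μ p = - EE p q (FF c w G X Y p q) + κ := by
    rw [EE_margL]
    unfold ent
    have : ∀ a, p a * (Real.log (p a) - Real.log (μ a))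
        = p a * κ - p a * margL q (FF c w G X Y p q) a := by
      intro a
      by_cases ha : a ∈ X
      · rw [hκ a ha]; ring
      · rw [h.hp.zero a ha]; ring
    simp_rw [this]
    rw [Finset.sum_sub_distrib, ← Finset.sum_mul, h.hp.sum]
    ring
  intro a ha
  rw [hκ a ha, h1]
  ring

/-- sup bound for the left marginal -/
lemma IsMinPt.margL_le (h : IsMinPt μ ν c w G X Y p q) {a : α} (ha : a ∈ X) :
    margL q (FF c w G X Y p q) a
      ≤ Real.log 2 + (ent μ p + Real.log (∑ a ∈ X, μ a)) + EE p q (FF c w G X Y p q) := by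
  have h1 := h.gibbsL' a ha
  have h2 := h.p_ge ha
  have hS := h.sum_mu_pos (Finset.Subset.refl X) h.hp.nonempty
  have h3 : Real.log (μ a) ≤ Real.log 2 + Real.log (∑ x ∈ X, μ x) + Real.log (p a) := by
    rw [← Real.log_mul (by norm_num) hS.ne', ← Real.log_mul (by positivity) (h.p_pos ha).ne']
    exact Real.log_le_log (h.mu_pos ha) h2
  linarith

lemma IsMinPt.margR_le (h : IsMinPt μ ν c w G X Y p q) {b : β} (hb : b ∈ Y) :
    margR p (FF c w G X Y p q) b
      ≤ Real.log 2 + (ent ν q + Real.log (∑ b ∈ Y, ν b)) + EE p q (FF c w G X Y p q) := by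
  have h1 := h.swap.margL_le hb
  have h2 : margL p (FF (fun i Y X => c i X Y) (fun i b a => w i a b) (fun b a => G a b) Y X q p) b
      = margR p (FF c w G X Y p q) b := by
    unfold margL margR
    simp_rw [FF_swap]
  have h3 : EE q p (FF (fun i Y X => c i X Y) (fun i b a => w i a b) (fun b a => G a b) Y X q p)
      = EE p q (FF c w G X Y p q) := by
    rw [← EE_swap p q (FF c w G X Y p q)]
    congr 1
    funext b a
    exact FF_swap b a
  rw [h2, h3] at h1
  exact h1

lemma IsMinPt.margL_le_P0 {X0 : Finset α} {Y0 : Finset β} (hμ : IsProb X0 μ) (hν : IsProb Y0 ν)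
    (h : IsMinPt μ ν c w G X Y p q) {a : α} (ha : a ∈ X) :
    margL q (FF c w G X Y p q) a ≤ Real.log 2 + P0 μ ν c w G := by
  have h0 := h.margL_le ha
  have h1 := h.budget hμ hν
  have h3 := h.swap.ent_nonneg
  have h4 := h.log_sum_nonpos hμ
  have h5 := h.swap.log_sum_nonpos hν
  have h6 := h.EE_FF_le_pot
  linarith

lemma IsMinPt.margR_le_P0 {X0 : Finset α} {Y0 : Finset β} (hμ : IsProb X0 μ) (hν : IsProb Y0 ν)
    (h : IsMinPt μ ν c w G X Y p q) {b : β} (hb : b ∈ Y) :
    margR p (FF c w G X Y p q) b ≤ Real.log 2 + P0 μ ν c w G := by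
  have h0 := h.margR_le hb
  have h1 := h.budget hμ hν
  have h3 := h.ent_nonneg
  have h4 := h.log_sum_nonpos hμ
  have h5 := h.swap.log_sum_nonpos hν
  have h6 := h.EE_FF_le_pot
  linarith

lemma IsMinPt.marg_sum_le {X0 : Finset α} {Y0 : Finset β} (hμ : IsProb X0 μ) (hν : IsProb Y0 ν)
    (h : IsMinPt μ ν c w G X Y p q) {a : α} {b : β} (ha : a ∈ X) (hb : b ∈ Y) :
    margL q (FF c w G X Y p q) a + margR p (FF c w G X Y p q) b - EE p q (FF c w G X Y p q)
      ≤ 2 * Real.log 2 + P0 μ ν c w G := by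
  have h0 := h.margL_le ha
  have h0' := h.margR_le hb
  have h1 := h.budget hμ hν
  have h4 := h.log_sum_nonpos hμ
  have h5 := h.swap.log_sum_nonpos hν
  have h6 := h.EE_FF_le_pot
  linarith

/-- domination by the base measures -/
lemma IsMinPt.domination {X0 : Finset α} {Y0 : Finset β} (hμ : IsProb X0 μ) (hν : IsProb Y0 ν)
    (h : IsMinPt μ ν c w G X Y p q) :
    ∃ κ1 κ2 : ℝ, (∀ a, p a ≤ Real.exp κ1 * μ a) ∧ (∀ b, q b ≤ Real.exp κ2 * ν b) ∧
      κ1 + κ2 ≤ 2 * P0 μ ν c w G := by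
  refine ⟨ent μ p + EE p q (FF c w G X Y p q), ent ν q + EE p q (FF c w G X Y p q), ?_, ?_, ?_⟩
  · intro a
    by_cases ha : a ∈ X
    · have h1 := h.gibbsL' a ha
      have h2 := margL_nonneg (a := a) h.hq.nonneg (FF_nonneg h.good X Y p q)
      have hp := h.p_pos ha
      have hm := h.mu_pos ha
      rw [← Real.exp_log hp, ← Real.exp_log hm, ← Real.exp_add]
      apply Real.exp_le_exp.2
      linarith
    · rw [h.hp.zero a ha]
      exact mul_nonneg (Real.exp_pos _).le (hμ.nonneg a)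
  · intro b
    by_cases hb : b ∈ Y
    · have h1 := h.swap.gibbsL' b hb
      have h3 : EE q p
          (FF (fun i Y X => c i X Y) (fun i b a => w i a b) (fun b a => G a b) Y X q p)
          = EE p q (FF c w G X Y p q) := by
        rw [← EE_swap p q (FF c w G X Y p q)]
        congr 1
        funext b a
        exact FF_swap b a
      rw [h3] at h1
      have h2 := margL_nonneg (a := b) h.hp.nonneg (FF_nonneg h.swap.good Y X q p)
      have hq := h.q_pos hb
      have hm := h.swap.mu_pos hb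
      rw [← Real.exp_log hq, ← Real.exp_log hm, ← Real.exp_add]
      apply Real.exp_le_exp.2
      linarith
    · rw [h.hq.zero b hb]
      exact mul_nonneg (Real.exp_pos _).le (hν.nonneg b)
  · have h1 := h.budget hμ hν
    have h2 := h.ent_nonneg
    have h3 := h.swap.ent_nonneg
    have h6 := h.EE_FF_le_pot
    linarith

lemma ent_perturb {X : Finset α} {p φ : α → ℝ} (hp : IsProb X p) (hpos : ∀ a ∈ X, 0 < p a)
    (δ : ℝ) (hδ : ∀ a, -1 ≤ δ * φ a) (hφ : ∑ a, p a * φ a = 0) :
    ent p (fun a => p a * (1 + δ * φ a)) ≤ δ ^ 2 * ∑ a, p a * φ a ^ 2 := by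
  have h1 : ∀ a, p a * (1 + δ * φ a) * (Real.log (p a * (1 + δ * φ a)) - Real.log (p a))
      ≤ δ * (p a * φ a) + δ ^ 2 * (p a * φ a ^ 2) := by
    intro a
    by_cases ha : a ∈ X
    · have hpa := hpos a ha
      have h0 : 0 ≤ 1 + δ * φ a := by linarith [hδ a]
      rcases h0.eq_or_lt with h0' | h0'
      · rw [← h0']
        have : δ * (p a * φ a) + δ ^ 2 * (p a * φ a ^ 2) = p a * (δ * φ a) * (1 + δ * φ a) := by
          ring
        rw [this, ← h0']
        simp
      · rw [Real.log_mul hpa.ne' h0'.ne']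
        have h2 := Real.log_le_sub_one_of_pos h0'
        have h3 : p a * (1 + δ * φ a) * (Real.log (1 + δ * φ a))
            ≤ p a * (1 + δ * φ a) * (1 + δ * φ a - 1) :=
          mul_le_mul_of_nonneg_left h2 (by positivity)
        nlinarith
    · rw [hp.zero a ha]; simp
  unfold ent
  refine le_trans (Finset.sum_le_sum (fun a _ => h1 a)) ?_
  rw [Finset.sum_add_distrib, ← Finset.mul_sum, ← Finset.mul_sum, hφ]
  simp

/-- second-order condition at a minimum point -/
lemma IsMinPt.second_order (h : IsMinPt μ ν c w G X Y p q) (φ : α → ℝ) (ψ : β → ℝ)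
    (hφ : ∑ a, p a * φ a = 0) (hψ : ∑ b, q b * ψ b = 0) :
    EE p q (fun a b => FF c w G X Y p q a b * (φ a * ψ b))
      ≤ ∑ a, p a * φ a ^ 2 + ∑ b, q b * ψ b ^ 2 := by
  set B : ℝ := 1 + ∑ a, |φ a| + ∑ b, |ψ b| with hB
  have hB1 : 0 ≤ ∑ a, |φ a| := Finset.sum_nonneg (fun a _ => abs_nonneg _)
  have hB2 : 0 ≤ ∑ b, |ψ b| := Finset.sum_nonneg (fun b _ => abs_nonneg _)
  have hBpos : 0 < B := by positivity
  set δ : ℝ := 1 / B with hδ
  have hδpos : 0 < δ := by positivity
  have hφB : ∀ a, |φ a| ≤ B := by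
    intro a
    have := Finset.single_le_sum (f := fun a => |φ a|) (fun i _ => abs_nonneg _)
      (Finset.mem_univ a)
    linarith
  have hψB : ∀ b, |ψ b| ≤ B := by
    intro b
    have := Finset.single_le_sum (f := fun b => |ψ b|) (fun i _ => abs_nonneg _)
      (Finset.mem_univ b)
    linarith
  have hδφ : ∀ a, |δ * φ a| ≤ 1 := by
    intro a
    rw [abs_mul, abs_of_pos hδpos, hδ, one_div, inv_mul_le_iff₀ hBpos, mul_one]
    exact hφB a
  have hδψ : ∀ b, |δ * ψ b| ≤ 1 := by
    intro b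
    rw [abs_mul, abs_of_pos hδpos, hδ, one_div, inv_mul_le_iff₀ hBpos, mul_one]
    exact hψB b
  have hp' : IsProb X (fun a => p a * (1 + δ * φ a)) := by
    refine ⟨?_, ?_, ?_⟩
    · intro a
      have := (abs_le.1 (hδφ a)).1
      exact mul_nonneg (h.hp.nonneg a) (by linarith)
    · intro a ha
      rw [h.hp.zero a ha, zero_mul]
    · have : ∀ a, p a * (1 + δ * φ a) = p a + δ * (p a * φ a) := fun a => by ring
      simp_rw [this]
      rw [Finset.sum_add_distrib, ← Finset.mul_sum, hφ, h.hp.sum]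
      ring
  have hq' : IsProb Y (fun b => q b * (1 + (-δ) * ψ b)) := by
    refine ⟨?_, ?_, ?_⟩
    · intro b
      have := (abs_le.1 (hδψ b)).2
      exact mul_nonneg (h.hq.nonneg b) (by linarith)
    · intro b hb
      rw [h.hq.zero b hb, zero_mul]
    · have : ∀ b, q b * (1 + (-δ) * ψ b) = q b + (-δ) * (q b * ψ b) := fun b => by ring
      simp_rw [this]
      rw [Finset.sum_add_distrib, ← Finset.mul_sum, hψ, h.hq.sum]
      ring
  have h1 := h.compare (Finset.Subset.refl X) (Finset.Subset.refl Y) hp' hq' (δ := 0) (by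
    rw [add_zero]
    exact h.pot_le (Finset.Subset.refl X) (Finset.Subset.refl Y) hp' hq')
  have h2 := ent_perturb h.hp (fun a ha => h.p_pos ha) δ
    (fun a => (abs_le.1 (hδφ a)).1) hφ
  have h3 := ent_perturb h.hq (fun b hb => h.q_pos hb) (-δ)
    (fun b => by have := (abs_le.1 (hδψ b)).2; linarith) hψ
  have h4 : EE (fun a => p a * (1 + δ * φ a) - p a) (fun b => q b * (1 + (-δ) * ψ b) - q b)
      (FF c w G X Y p q) = - δ ^ 2 * EE p q (fun a b => FF c w G X Y p q a b * (φ a * ψ b)) := by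
    unfold EE
    rw [Finset.mul_sum]
    refine Finset.sum_congr rfl (fun a _ => ?_)
    rw [Finset.mul_sum]
    refine Finset.sum_congr rfl (fun b _ => ?_)
    ring
  rw [h4] at h1
  have h5 : 0 ≤ δ ^ 2 * (∑ a, p a * φ a ^ 2 + ∑ b, q b * ψ b ^ 2
      - EE p q (fun a b => FF c w G X Y p q a b * (φ a * ψ b))) := by
    have h6 : (-δ) ^ 2 = δ ^ 2 := by ring
    rw [h6] at h3
    linarith
  have h7 := nonneg_of_mul_nonneg_right h5 (by positivity)
  linarith

/-- the doubly centred matrix -/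
noncomputable def ctr (p : α → ℝ) (q : β → ℝ) (F : α → β → ℝ) (a : α) (b : β) : ℝ :=
  F a b - margL q F a - margR p F b + EE p q F

lemma EE_ctr {X : Finset α} {Y : Finset β} (hp : IsProb X p) (hq : IsProb Y q)
    (F : α → β → ℝ) (f : α → ℝ) (g : β → ℝ) :
    EE p q (fun a b => F a b * ((f a - ∑ x, p x * f x) * (g b - ∑ y, q y * g y)))
      = EE p q (fun a b => ctr p q F a b * (f a * g b)) := by
  set fb := ∑ x, p x * f x with hfb
  set gb := ∑ y, q y * g y with hgb
  have e1 : EE p q (fun a b => F a b * ((f a - fb) * (g b - gb)))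
      = EE p q (fun a b => F a b * (f a * g b)) - gb * EE p q (fun a b => F a b * f a)
        - fb * EE p q (fun a b => F a b * g b) + fb * gb * EE p q F := by
    rw [← EE_smul, ← EE_smul, ← EE_smul, ← EE_sub, ← EE_sub, ← EE_add]
    congr 1
    funext a b
    ring
  have e2 : EE p q (fun a b => ctr p q F a b * (f a * g b))
      = EE p q (fun a b => F a b * (f a * g b)) - EE p q (fun a b => margL q F a * f a * g b)
        - EE p q (fun a b => margR p F b * g b * f a) + EE p q F * EE p q (fun a b => f a * g b) := by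
    rw [← EE_smul, ← EE_sub, ← EE_sub, ← EE_add]
    congr 1
    funext a b
    unfold ctr
    ring
  have e3 : EE p q (fun a b => margL q F a * f a * g b)
      = gb * EE p q (fun a b => F a b * f a) := by
    rw [EE_margL, EE_margL, Finset.mul_sum]
    refine Finset.sum_congr rfl (fun a _ => ?_)
    unfold margL
    have h1 : ∑ b, q b * ((∑ b, q b * F a b) * f a * g b) = (∑ b, q b * F a b) * f a * gb := by
      rw [hgb, Finset.mul_sum]
      refine Finset.sum_congr rfl (fun b _ => ?_)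
      ring
    have h2 : ∑ b, q b * (F a b * f a) = (∑ b, q b * F a b) * f a := by
      rw [Finset.sum_mul]
      refine Finset.sum_congr rfl (fun b _ => ?_)
      ring
    rw [h1, h2]; ring
  have e4 : EE p q (fun a b => margR p F b * g b * f a)
      = fb * EE p q (fun a b => F a b * g b) := by
    rw [EE_margR, EE_margR, Finset.mul_sum]
    refine Finset.sum_congr rfl (fun b _ => ?_)
    unfold margR
    have h1 : ∑ a, p a * ((∑ a, p a * F a b) * g b * f a) = (∑ a, p a * F a b) * g b * fb := by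
      rw [hfb, Finset.mul_sum]
      refine Finset.sum_congr rfl (fun a _ => ?_)
      ring
    have h2 : ∑ a, p a * (F a b * g b) = (∑ a, p a * F a b) * g b := by
      rw [Finset.sum_mul]
      refine Finset.sum_congr rfl (fun a _ => ?_)
      ring
    rw [h1, h2]; ring
  have e5 : EE p q (fun a b => f a * g b) = fb * gb := by
    rw [EE_margL, hfb, Finset.sum_mul]
    refine Finset.sum_congr rfl (fun a _ => ?_)
    unfold margL
    rw [hgb, Finset.mul_sum, Finset.mul_sum]
    refine Finset.sum_congr rfl (fun b _ => ?_)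
    ring
  rw [e1, e2, e3, e4, e5]
  ring

lemma sum_sq_center {X : Finset α} (hp : IsProb X p) (f : α → ℝ) :
    ∑ a, p a * (f a - ∑ x, p x * f x) ^ 2 ≤ ∑ a, p a * f a ^ 2 := by
  set fb := ∑ x, p x * f x with hfb
  have : ∑ a, p a * (f a - fb) ^ 2 = ∑ a, p a * f a ^ 2 - fb ^ 2 := by
    have h1 : ∀ a, p a * (f a - fb) ^ 2 = p a * f a ^ 2 - 2 * fb * (p a * f a) + fb ^ 2 * p a := by
      intro a; ring
    simp_rw [h1]
    rw [Finset.sum_add_distrib, Finset.sum_sub_distrib, ← Finset.mul_sum, ← Finset.mul_sum,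
      hp.sum, ← hfb]
    ring
  rw [this]
  nlinarith [sq_nonneg fb]

/-- rank-one test -/
lemma IsMinPt.test_one (h : IsMinPt μ ν c w G X Y p q) (f : α → ℝ) (g : β → ℝ) {t : ℝ}
    (ht : 0 < t) :
    EE p q (fun a b => ctr p q (FF c w G X Y p q) a b * (f a * g b))
      ≤ t * ∑ a, p a * f a ^ 2 + t⁻¹ * ∑ b, q b * g b ^ 2 := by
  set s := Real.sqrt t with hs
  have hspos : 0 < s := Real.sqrt_pos.2 ht
  have hss : s * s = t := Real.mul_self_sqrt ht.le
  rw [← EE_ctr h.hp h.hq]
  set fb := ∑ x, p x * f x with hfb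
  set gb := ∑ y, q y * g y with hgb
  have h1 := h.second_order (fun a => s * (f a - fb)) (fun b => s⁻¹ * (g b - gb)) (by
    have : ∀ a, p a * (s * (f a - fb)) = s * (p a * f a) - s * fb * p a := fun a => by ring
    simp_rw [this]
    rw [Finset.sum_sub_distrib, ← Finset.mul_sum, ← Finset.mul_sum, h.hp.sum, ← hfb]
    ring) (by
    have : ∀ b, q b * (s⁻¹ * (g b - gb)) = s⁻¹ * (q b * g b) - s⁻¹ * gb * q b := fun b => by ring
    simp_rw [this]
    rw [Finset.sum_sub_distrib, ← Finset.mul_sum, ← Finset.mul_sum, h.hq.sum, ← hgb]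
    ring)
  have h2 : EE p q (fun a b => FF c w G X Y p q a b * (s * (f a - fb) * (s⁻¹ * (g b - gb))))
      = EE p q (fun a b => FF c w G X Y p q a b * ((f a - fb) * (g b - gb))) := by
    congr 1
    funext a b
    field_simp
  rw [h2] at h1
  have h3 : ∑ a, p a * (s * (f a - fb)) ^ 2 = t * ∑ a, p a * (f a - fb) ^ 2 := by
    rw [Finset.mul_sum]
    refine Finset.sum_congr rfl (fun a _ => ?_)
    rw [← hss]; ring
  have h4 : ∑ b, q b * (s⁻¹ * (g b - gb)) ^ 2 = t⁻¹ * ∑ b, q b * (g b - gb) ^ 2 := by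
    rw [Finset.mul_sum]
    refine Finset.sum_congr rfl (fun b _ => ?_)
    rw [← hss, mul_inv]; ring
  rw [h3, h4] at h1
  have h5 := mul_le_mul_of_nonneg_left (sum_sq_center h.hp f) ht.le
  have h6 := mul_le_mul_of_nonneg_left (sum_sq_center h.hq g) (inv_pos.2 ht).le
  linarith

end

end Run7.h852
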