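import Pool.Agent.Run7.h852.Link

open Finset

set_option linter.unusedSectionVars false

namespace Run7.h852

section

variable {α β V : Type*} [Fintype α] [Fintype β] [DecidableEq α] [DecidableEq β]
  [Fintype V] [DecidableEq V]

lemma card_link (x : α → Finset V) (y : β → Finset V) (u : Finset V) {a : α} {b : β}
    (ha : u ⊆ x a) (hb : u ⊆ y b) :
    ((x a \ u) ∩ (y b \ u)).card + u.card = (x a ∩ y b).card := by
  have h1 : (x a \ u) ∩ (y b \ u) = (x a ∩ y b) \ u := by
    ext v
    simp only [Finset.mem_inter, Finset.mem_sdiff]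
    tauto
  rw [h1]
  exact Finset.card_sdiff_add_card_eq_card (Finset.subset_inter ha hb)

/-- indicator of `|x a ∩ y b| ≠ l` -/
noncomputable def bad (l : ℕ) (x : α → Finset V) (y : β → Finset V) (a : α) (b : β) : ℝ :=
  if (x a ∩ y b).card = l then 0 else 1

lemma bad_nonneg (l : ℕ) (x : α → Finset V) (y : β → Finset V) (a : α) (b : β) :
    0 ≤ bad l x y a b := by
  unfold bad; split_ifs <;> norm_num

lemma mem_supp_cond {p : α → ℝ} {A : Finset α} {a : α} (h : a ∈ supp (cond p A)) : a ∈ A := by
  rw [mem_supp] at h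
  by_contra hA
  unfold cond at h
  rw [if_neg hA] at h
  exact lt_irrefl _ h

lemma cond_supp_sub {X : Finset α} {p : α → ℝ} {A : Finset α} (hA : A ⊆ X)
    {μ : α → ℝ} (hX : X ⊆ supp μ) : supp (cond p A) ⊆ supp μ :=
  fun _ ha => hX (hA (mem_supp_cond ha))

lemma CC_one (x : α → Finset V) (y : β → Finset V) (a : α) (b : β) :
    CC 1 x y a b = MM x y a b := by
  unfold CC MM
  rw [Nat.choose_one_right]

lemma EE_one_sub {X : Finset α} {Y : Finset β} {p : α → ℝ} {q : β → ℝ} (hp : IsProb X p)
    (hq : IsProb Y q) (f : α → β → ℝ) :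
    EE p q (fun a b => 1 - f a b) = 1 - EE p q f := by
  rw [EE_sub, EE_const hp hq]

end

/-- thresholds for the constant density case -/
noncomputable def eT (l : ℕ) : ℝ := 1 / 2 + 1 / (4 * ((l : ℝ) + 1))

lemma eT_le (l : ℕ) : eT l ≤ 3 / 4 := by
  unfold eT
  have h1 : (0 : ℝ) ≤ (l : ℝ) := Nat.cast_nonneg l
  have h2 : 1 / (4 * ((l : ℝ) + 1)) ≤ 1 / 4 := by
    apply one_div_le_one_div_of_le (by norm_num); linarith
  linarith

lemma half_lt_eT (l : ℕ) : 1 / 2 < eT l := by
  unfold eT
  have h1 : (0 : ℝ) ≤ (l : ℝ) := Nat.cast_nonneg l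
  have : 0 < 1 / (4 * ((l : ℝ) + 1)) := by positivity
  linarith

lemma eT_gap (l : ℕ) : eT (l + 1) + 1 / (4 * (((l : ℝ) + 1) * ((l : ℝ) + 2))) = eT l := by
  unfold eT
  have h1 : (0 : ℝ) ≤ (l : ℝ) := Nat.cast_nonneg l
  push_cast
  field_simp
  ring

/-- scalar computation for the constant density case -/
lemma scal_const {L K s e A m r g : ℝ} (hL : L < 1.4) (hs : 1 ≤ s) (hg : 0 < g)
    (hK : K = 12 / g) (he : 1 / 2 < e) (he' : e ≤ 3 / 4) (hm : 1 / 4 ≤ m) (hr : 0 ≤ r)
    (hrr : r * r = m) (hA : K * s / e * A ≤ (L + K * s) * m + 2 * (s * r)) :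
    A ≤ (e + g / 2) * m := by
  have hKpos : 0 < K := by rw [hK]; positivity
  have hm0 : 0 ≤ m := by linarith
  have hr2 : 1 / 2 ≤ r := by nlinarith
  have hrm : r ≤ 2 * m := by nlinarith
  have h2 : L * m ≤ 1.4 * s * m := by
    have : L ≤ 1.4 * s := by nlinarith
    exact mul_le_mul_of_nonneg_right this hm0
  have h3 : s * (K / e * A) ≤ s * ((1.4 + K + 4) * m) := by
    have h4 : K * s / e * A = s * (K / e * A) := by ring
    rw [h4] at hA
    have h5 : s * r ≤ s * (2 * m) := mul_le_mul_of_nonneg_left hrm (by linarith)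
    linarith
  have h5 : K / e * A ≤ (1.4 + K + 4) * m := le_of_mul_le_mul_left h3 (by linarith)
  have h6 : A ≤ e / K * ((1.4 + K + 4) * m) := by
    have h7 := mul_le_mul_of_nonneg_left h5 (by positivity : 0 ≤ e / K)
    have h8 : e / K * (K / e * A) = A := by
      have : e ≠ 0 := by linarith
      field_simp
    rw [h8] at h7
    exact h7
  have h9 : e / K * (1.4 + K + 4) ≤ e + g / 2 := by
    have h10 : e / K * (1.4 + K + 4) = e + e * (5.4 / K) := by
      field_simp; ring
    have h11 : 5.4 / K ≤ g / 2 := by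
      rw [hK, div_div_eq_mul_div, div_le_iff₀ (by norm_num)]
      linarith
    rw [h10]
    have h12 : e * (5.4 / K) ≤ 1 * (g / 2) :=
      mul_le_mul (by linarith) h11 (by positivity) (by norm_num)
    linarith
  calc A ≤ e / K * ((1.4 + K + 4) * m) := h6
    _ = (e / K * (1.4 + K + 4)) * m := by ring
    _ ≤ (e + g / 2) * m := mul_le_mul_of_nonneg_right h9 hm0

/-- scalar computation for the constant density case, `l = 0` -/
lemma scal_zero {L s m r : ℝ} (hL : L < 1.4) (hs : 1 ≤ s) (hr : 0 ≤ r)
    (hrr : r * r = m) (hA : 100 * s / (3 / 4) * m ≤ (L + 100 * s) * m + 2 * (s * r)) :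
    m ≤ 1 / 8 := by
  rw [← hrr] at hA ⊢
  have h1 : 0 ≤ r * r := mul_nonneg hr hr
  have h2 : L * (r * r) ≤ 1.4 * s * (r * r) := by
    have : L ≤ 1.4 * s := by nlinarith
    exact mul_le_mul_of_nonneg_right this h1
  have h3 : s * (31 * (r * r)) ≤ s * (2 * r) := by
    have h4 : 100 * s / (3 / 4) * (r * r) = s * (400 / 3 * (r * r)) := by ring
    rw [h4] at hA
    nlinarith [mul_nonneg (by linarith : (0:ℝ) ≤ s) h1]
  have h5 : 31 * (r * r) ≤ 2 * r := le_of_mul_le_mul_left h3 (by linarith)
  nlinarith

/-- The case of constant density. -/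
theorem const_case (l : ℕ) : ∃ C : ℝ, 0 < C ∧
    ∀ {α β V : Type} [Fintype α] [Fintype β] [DecidableEq α] [DecidableEq β]
      [Fintype V] [DecidableEq V] {X0 : Finset α} {Y0 : Finset β} {μ : α → ℝ} {ν : β → ℝ}
      (_ : IsProb X0 μ) (_ : IsProb Y0 ν) (x : α → Finset V) (y : β → Finset V)
      (_ : 1 ≤ Fintype.card V) (_ : EE μ ν (bad l x y) ≤ eT l),
      ∃ (X : Finset α) (Y : Finset β) (p : α → ℝ) (q : β → ℝ), X ⊆ supp μ ∧ Y ⊆ supp ν ∧
        IsProb X p ∧ IsProb Y q ∧
        Dom μ ν p q (C * (Real.sqrt (Fintype.card V : ℝ) + Real.log ((Fintype.card V : ℝ) + 1))) ∧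
        ∀ a ∈ X, ∀ b ∈ Y, (x a ∩ y b).card = l := by
  have hlog2 : 2 * Real.log 2 < 1.4 := by
    have := Real.log_two_lt_d9; linarith
  have hlog2' : 0 < Real.log 2 := Real.log_pos (by norm_num)
  induction l with
  | zero =>
    refine ⟨224, by norm_num, ?_⟩
    intro α β V _ _ _ _ _ _ X0 Y0 μ ν hμ hν x y hn hbad
    set n : ℝ := (Fintype.card V : ℝ) with hnd
    have hn1 : 1 ≤ n := by rw [hnd]; exact_mod_cast hn
    have hsn : 1 ≤ Real.sqrt n := by rw [Real.one_le_sqrt]; exact hn1
    have hsnn : Real.sqrt n * Real.sqrt n = n := Real.mul_self_sqrt (by linarith)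
    obtain ⟨X, Y, p, q, hX, hY, hp, hq, hD, _, hA⟩ := stageA hμ hν x y (bad 0 x y)
      (bad_nonneg 0 x y) (ε := 3 / 4) (Ω := 100 * Real.sqrt n) (by norm_num) (by positivity)
      (hbad.trans (eT_le 0))
    have h1 : EE p q (fun a b => bad 0 x y a b * MM x y a b) = EE p q (MM x y) := by
      congr 1
      funext a b
      unfold bad MM
      split_ifs with h
      · rw [h]; simp
      · rw [one_mul]
    rw [h1] at hA
    set m := EE p q (MM x y) with hm
    have hm0 : 0 ≤ m := EE_nonneg hp.nonneg hq.nonneg (MM_nonneg x y)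
    have hmle : m ≤ 1 / 8 := by
      rw [Real.sqrt_mul (by linarith)] at hA
      exact scal_zero hlog2 hsn (Real.sqrt_nonneg _) (Real.mul_self_sqrt hm0) hA
    obtain ⟨X', Y', p', q', hX', hY', hp', hq', hD', hdisj⟩ := thmR hp hq x y (ρ0 := 1 / 8)
      (by norm_num) le_rfl (by rw [← hnd]; linarith) (by
        have h2 : EE p q (tw (1 / (8 * (1 / 8))) x y) ≤ m := by
          apply EE_mono hp hq
          intro a _ b _
          unfold tw
          split_ifs with h0
          · exact MM_nonneg x y a b
          · have h3 : 1 ≤ MM x y a b := (MM_zero_or_one_le x y a b).resolve_left h0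
            have h4 : min (MM x y a b) (1 / (8 * (1 / 8))) = 1 := by
              rw [min_eq_right]
              · norm_num
              · norm_num; exact h3
            rw [h4]; simpa using h3
        linarith)
    refine ⟨X', Y', p', q', ?_, ?_, hp', hq', ?_, ?_⟩
    · intro a ha
      apply hX
      by_contra hcon
      have := mem_supp.1 (hX' ha)
      rw [hp.zero a hcon] at this
      exact lt_irrefl _ this
    · intro b hb
      apply hY
      by_contra hcon
      have := mem_supp.1 (hY' hb)
      rw [hq.zero b hcon] at this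
      exact lt_irrefl _ this
    · refine (hD.trans hD').mono ?_
      have h2 : Real.sqrt (n * (1 / 8)) ≤ Real.sqrt n := Real.sqrt_le_sqrt (by linarith)
      have h3 : 0 ≤ Real.log (n + 1) := Real.log_nonneg (by linarith)
      linarith
    · intro a ha b hb
      have := hdisj a ha b hb
      rw [Finset.disjoint_iff_inter_eq_empty] at this
      rw [this]; simp
  | succ l ih =>
    obtain ⟨C, hC, ih⟩ := ih
    set g : ℝ := 1 / (4 * (((l : ℝ) + 1) * ((l : ℝ) + 2))) with hg
    have hl0 : (0 : ℝ) ≤ (l : ℝ) := Nat.cast_nonneg l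
    have hgpos : 0 < g := by rw [hg]; positivity
    have hg1 : g ≤ 1 / 8 := by
      rw [hg]
      apply one_div_le_one_div_of_le (by norm_num)
      nlinarith
    set K : ℝ := 12 / g with hK
    have hKpos : 0 < K := by rw [hK]; positivity
    have hK1 : 12 ≤ K := by rw [hK, le_div_iff₀ hgpos]; linarith
    have hLpos : 0 < Real.log (8 / g) := by
      apply Real.log_pos
      rw [lt_div_iff₀ hgpos]; linarith
    refine ⟨2 * K + Real.log (8 / g) + 1 + C, by positivity, ?_⟩
    intro α β V _ _ _ _ _ _ X0 Y0 μ ν hμ hν x y hn hbad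
    set n : ℝ := (Fintype.card V : ℝ) with hnd
    have hn1 : 1 ≤ n := by rw [hnd]; exact_mod_cast hn
    have hsn : 1 ≤ Real.sqrt n := by rw [Real.one_le_sqrt]; exact hn1
    set e : ℝ := eT (l + 1) with he
    have heh : 1 / 2 < e := half_lt_eT (l + 1)
    have he34 : e ≤ 3 / 4 := eT_le (l + 1)
    have hgap : e + g = eT l := eT_gap l
    obtain ⟨X, Y, p, q, hX, hY, hp, hq, hD, hbad', hA⟩ := stageA hμ hν x y (bad (l + 1) x y)
      (bad_nonneg (l + 1) x y) (ε := e) (Ω := K * Real.sqrt n) (by linarith) (by positivity) hbad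
    set m := EE p q (MM x y) with hm
    set A := EE p q (fun a b => bad (l + 1) x y a b * MM x y a b) with hAd
    have hm0 : 0 ≤ m := EE_nonneg hp.nonneg hq.nonneg (MM_nonneg x y)
    have hmlow : 1 / 4 ≤ m := by
      have h1 : EE p q (fun a b => 1 - bad (l + 1) x y a b) ≤ m := by
        apply EE_mono hp hq
        intro a _ b _
        unfold bad MM
        split_ifs with h
        · rw [h]; push_cast; linarith
        · have : (0 : ℝ) ≤ ((x a ∩ y b).card : ℝ) := Nat.cast_nonneg _
          linarith
      rw [EE_one_sub hp hq] at h1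
      linarith
    have hAm : A ≤ (e + g / 2) * m := by
      rw [Real.sqrt_mul (by linarith)] at hA
      exact scal_const hlog2 hsn hgpos hK heh he34 hmlow (Real.sqrt_nonneg _)
        (Real.mul_self_sqrt hm0) hA
    have hCCm : EE p q (CC 1 x y) = m := by
      rw [hm]; congr 1; funext a b; exact CC_one x y a b
    have hNA : EE p q (fun a b => CC 1 x y a b * bad (l + 1) x y a b) = A := by
      rw [hAd]; congr 1; funext a b; rw [CC_one]; ring
    obtain ⟨u, hu, hpu, hqu, hDu, hbu⟩ := link hp hq x y 1 (bad (l + 1) x y)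
      (bad_nonneg (l + 1) x y) (θ := eT l) (γ := g / 2) (Z := 1 / 4) (by linarith) (by linarith)
      (by norm_num) (by rw [hCCm]; exact hmlow) (by
        rw [hCCm, hNA]
        refine hAm.trans (mul_le_mul_of_nonneg_right ?_ hm0)
        rw [← hgap]
        nlinarith)
    set X1 := X.filter (fun a => u ⊆ x a) with hX1
    set Y1 := Y.filter (fun b => u ⊆ y b) with hY1
    have hP1 := cond_isProb hp.nonneg hpu
    have hQ1 := cond_isProb hq.nonneg hqu
    obtain ⟨X', Y', p', q', hX', hY', hp', hq', hD', hgood⟩ := ih hP1 hQ1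
      (fun a => x a \ u) (fun b => y b \ u) hn (by
        refine le_trans ?_ hbu
        apply EE_mono hP1 hQ1
        intro a ha b hb
        have h1 := card_link x y u (Finset.mem_filter.1 ha).2 (Finset.mem_filter.1 hb).2
        have h1' : ((fun a => x a \ u) a ∩ (fun b => y b \ u) b).card + 1 = (x a ∩ y b).card := by
          rw [← hu]; exact h1
        unfold bad
        split_ifs with h2 h3 h3
        · exact le_rfl
        · norm_num
        · exfalso; apply h2; omega
        · exact le_rfl)
    refine ⟨X', Y', p', q', ?_, ?_, hp', hq', ?_, ?_⟩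
    · exact hX'.trans (cond_supp_sub (Finset.filter_subset _ _) hX)
    · exact hY'.trans (cond_supp_sub (Finset.filter_subset _ _) hY)
    · refine ((hD.trans hDu).trans hD').mono ?_
      have h3 : 0 ≤ Real.log (n + 1) := Real.log_nonneg (by linarith)
      have h4 : Real.log (((Fintype.card V).choose 1 : ℝ) / (g / 2 * (1 / 4)))
          ≤ Real.log (8 / g) + Real.log (n + 1) := by
        rw [Nat.choose_one_right, ← hnd]
        rw [← Real.log_mul (by positivity) (by positivity)]
        apply Real.log_le_log (by positivity)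
        have : n / (g / 2 * (1 / 4)) = 8 / g * n := by field_simp; norm_num
        rw [this]
        apply mul_le_mul_of_nonneg_left (by linarith) (by positivity)
      have h5 : Real.log (8 / g) * 1 ≤ Real.log (8 / g) * Real.sqrt n :=
        mul_le_mul_of_nonneg_left hsn hLpos.le
      have h6 := mul_nonneg hKpos.le h3
      have h7 := mul_nonneg hLpos.le h3
      have h8 : 0 ≤ Real.sqrt n := by linarith
      calc 2 * (K * Real.sqrt n) + Real.log (((Fintype.card V).choose 1 : ℝ) / (g / 2 * (1 / 4)))
            + C * (Real.sqrt n + Real.log (n + 1))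
          ≤ 2 * (K * Real.sqrt n) + (Real.log (8 / g) * Real.sqrt n + Real.log (n + 1))
            + C * (Real.sqrt n + Real.log (n + 1)) := by linarith
        _ ≤ (2 * K + Real.log (8 / g) + 1 + C) * (Real.sqrt n + Real.log (n + 1)) := by
            have e1 : (2 * K + Real.log (8 / g) + 1 + C) * (Real.sqrt n + Real.log (n + 1))
              = 2 * (K * Real.sqrt n) + (Real.log (8 / g) * Real.sqrt n + Real.log (n + 1))
                + C * (Real.sqrt n + Real.log (n + 1)) + (2 * (K * Real.log (n + 1))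
                + Real.log (8 / g) * Real.log (n + 1) + Real.sqrt n) := by ring
            rw [e1]
            linarith
    · intro a ha b hb
      have h1 := hgood a ha b hb
      have h2 := (Finset.mem_filter.1 (mem_supp_cond (hX' ha))).2
      have h3 := (Finset.mem_filter.1 (mem_supp_cond (hY' hb))).2
      have h4 := card_link x y u h2 h3
      omega

end Run7.h852
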