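import Pool.Agent.Run7.h852.Rank

open Finset

set_option linter.unusedSectionVars false

namespace Run7.h852

variable {α β ι O : Type*} [Fintype α] [Fintype β] [Fintype ι] [DecidableEq α] [DecidableEq β]
  [Fintype O]

section

variable {μ : α → ℝ} {ν : β → ℝ} {c : ι → Finset α → Finset β → ℝ}
    {w : ι → α → β → ℝ} {G : α → β → ℝ}
    {X : Finset α} {Y : Finset β} {p : α → ℝ} {q : β → ℝ}

/-- The fourth-moment bound at a minimum point. -/
lemma IsMinPt.four_le {X0 : Finset α} {Y0 : Finset β} (hμ : IsProb X0 μ) (hν : IsProb Y0 ν)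
    (h : IsMinPt μ ν c w G X Y p q) {L : ℝ} (hL : Real.log 2 + P0 μ ν c w G ≤ L)
    {T : α → β → ℝ} {θ ρ : ℝ} (hθ : 0 ≤ θ)
    (hTF : ∀ a ∈ X, ∀ b ∈ Y, |T a b| ≤ θ * FF c w G X Y p q a b)
    (hρ : ∀ a ∈ X, (∑ b, q b * |T a b|) ^ 2 ≤ ρ * ∑ b, q b * T a b ^ 2) :
    ∑ a, p a * ∑ a', p a' * gram q T a a' ^ 2
      ≤ 8 * θ ^ 2 * (1 + L ^ 2 * ρ) * EE p q (fun a b => T a b ^ 2) := by
  set F := FF c w G X Y p q with hF
  have hF0 : ∀ a b, 0 ≤ F a b := FF_nonneg h.good X Y p q
  have hL0 : 0 ≤ L := by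
    have h1 := h.pot_le_P0 hμ hν
    have h2 := h.EE_FF_le_pot
    have h3 := h.EE_FF_nonneg
    have h4 : 0 < Real.log 2 := Real.log_pos (by norm_num)
    linarith
  have hbar0 : 0 ≤ EE p q F := h.EE_FF_nonneg
  have hbarL : EE p q F ≤ L := by
    have h1 := h.pot_le_P0 hμ hν
    have h2 := h.EE_FF_le_pot
    have h4 : 0 < Real.log 2 := Real.log_pos (by norm_num)
    linarith
  have hone : ∀ a' ∈ X, ∑ a, p a * gram q T a a' ^ 2
      ≤ 8 * θ ^ 2 * (1 + L ^ 2 * ρ) * (∑ b, q b * T a' b ^ 2) := by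
    intro a' ha'
    set ψ : β → ℝ := fun b => |T a' b| with hψ
    have hψ0 : ∀ b, 0 ≤ ψ b := fun b => abs_nonneg _
    set m := ∑ b, q b * ψ b with hm
    have hm0 : 0 ≤ m := Finset.sum_nonneg (fun b _ => mul_nonneg (h.hq.nonneg b) (hψ0 b))
    set S := ∑ b, q b * T a' b ^ 2 with hS
    have hmS : m ^ 2 ≤ ρ * S := hρ a' ha'
    have hop := h.op_le ψ
    have hψsq : ∑ b, q b * ψ b ^ 2 = S := by
      rw [hS]
      refine Finset.sum_congr rfl (fun b _ => ?_)
      simp only [hψ, sq_abs]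
    rw [hψsq] at hop
    have hpt : ∀ a ∈ X, gram q T a a' ^ 2
        ≤ θ ^ 2 * (2 * (∑ b, q b * (ctr p q F a b * ψ b)) ^ 2 + 8 * L ^ 2 * (ρ * S)) := by
      intro a ha
      have hn0 : 0 ≤ margL q F a := margL_nonneg h.hq.nonneg hF0 a
      have hnL : margL q F a ≤ L := (h.margL_le_P0 hμ hν ha).trans hL
      set D := ∑ b, q b * (ctr p q F a b * ψ b) with hD
      set R2 := ∑ b, q b * (margR p F b * ψ b) with hR2
      have hR20 : 0 ≤ R2 := Finset.sum_nonneg (fun b _ => mul_nonneg (h.hq.nonneg b)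
        (mul_nonneg (Finset.sum_nonneg (fun a _ => mul_nonneg (h.hp.nonneg a) (hF0 a b)))
          (hψ0 b)))
      have hR2L : R2 ≤ L * m := by
        rw [hm, Finset.mul_sum]
        refine Finset.sum_le_sum (fun b _ => ?_)
        by_cases hb : b ∈ Y
        · have h1 : margR p F b ≤ L := (h.margR_le_P0 hμ hν hb).trans hL
          have h2 := mul_le_mul_of_nonneg_right h1 (hψ0 b)
          have h3 := mul_le_mul_of_nonneg_left h2 (h.hq.nonneg b)
          linarith
        · rw [h.hq.zero b hb]; simp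
      have hgr : ∑ b, q b * (F a b * ψ b) = D + (margL q F a * m + R2 - EE p q F * m) := by
        have e1 : ∀ b, q b * (F a b * ψ b)
            = q b * (ctr p q F a b * ψ b) + margL q F a * (q b * ψ b)
              + q b * (margR p F b * ψ b) - EE p q F * (q b * ψ b) := by
          intro b
          unfold ctr
          ring
        simp_rw [e1]
        rw [Finset.sum_sub_distrib, Finset.sum_add_distrib, Finset.sum_add_distrib,
          ← Finset.mul_sum, ← Finset.mul_sum]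
        ring
      have habs : |gram q T a a'| ≤ θ * ∑ b, q b * (F a b * ψ b) := by
        unfold gram
        refine (Finset.abs_sum_le_sum_abs _ _).trans ?_
        rw [Finset.mul_sum]
        refine Finset.sum_le_sum (fun b _ => ?_)
        rw [abs_mul, abs_mul, abs_of_nonneg (h.hq.nonneg b)]
        by_cases hb : b ∈ Y
        · have h3 := mul_le_mul_of_nonneg_right (hTF a ha b hb) (abs_nonneg (T a' b))
          have h4 := mul_le_mul_of_nonneg_left h3 (h.hq.nonneg b)
          calc q b * (|T a b| * |T a' b|) ≤ q b * (θ * F a b * |T a' b|) := h4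
            _ = θ * (q b * (F a b * ψ b)) := by simp only [hψ]; ring
        · rw [h.hq.zero b hb]; simp
      have hR : (margL q F a * m + R2 - EE p q F * m) ^ 2 ≤ 4 * L ^ 2 * (ρ * S) := by
        have h1 : margL q F a * m ≤ L * m := mul_le_mul_of_nonneg_right hnL hm0
        have h3 : EE p q F * m ≤ L * m := mul_le_mul_of_nonneg_right hbarL hm0
        have h4 : 0 ≤ margL q F a * m := mul_nonneg hn0 hm0
        have h5 : 0 ≤ EE p q F * m := mul_nonneg hbar0 hm0
        have h8 : 0 ≤ L * m := mul_nonneg hL0 hm0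
        have h6 : |margL q F a * m + R2 - EE p q F * m| ≤ 2 * (L * m) := by
          rw [abs_le]
          constructor <;> linarith
        calc (margL q F a * m + R2 - EE p q F * m) ^ 2
            = |margL q F a * m + R2 - EE p q F * m| ^ 2 := (sq_abs _).symm
          _ ≤ (2 * (L * m)) ^ 2 := pow_le_pow_left₀ (abs_nonneg _) h6 2
          _ = 4 * L ^ 2 * m ^ 2 := by ring
          _ ≤ 4 * L ^ 2 * (ρ * S) := mul_le_mul_of_nonneg_left hmS (by positivity)
      calc gram q T a a' ^ 2 = |gram q T a a'| ^ 2 := (sq_abs _).symm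
        _ ≤ (θ * ∑ b, q b * (F a b * ψ b)) ^ 2 := pow_le_pow_left₀ (abs_nonneg _) habs 2
        _ = θ ^ 2 * (D + (margL q F a * m + R2 - EE p q F * m)) ^ 2 := by rw [hgr]; ring
        _ ≤ θ ^ 2 * (2 * D ^ 2 + 8 * L ^ 2 * (ρ * S)) := by
          apply mul_le_mul_of_nonneg_left _ (sq_nonneg θ)
          nlinarith [sq_nonneg (D - (margL q F a * m + R2 - EE p q F * m))]
    calc ∑ a, p a * gram q T a a' ^ 2
        ≤ ∑ a, (2 * θ ^ 2 * (p a * (∑ b, q b * (ctr p q F a b * ψ b)) ^ 2)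
            + 8 * θ ^ 2 * L ^ 2 * (ρ * S) * p a) := by
          refine Finset.sum_le_sum (fun a _ => ?_)
          by_cases ha : a ∈ X
          · have := mul_le_mul_of_nonneg_left (hpt a ha) (h.hp.nonneg a)
            linarith
          · rw [h.hp.zero a ha]; simp
      _ = 2 * θ ^ 2 * ∑ a, p a * (∑ b, q b * (ctr p q F a b * ψ b)) ^ 2
            + 8 * θ ^ 2 * L ^ 2 * (ρ * S) := by
          rw [Finset.sum_add_distrib, ← Finset.mul_sum, ← Finset.mul_sum, h.hp.sum, mul_one]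
      _ ≤ 2 * θ ^ 2 * (4 * S) + 8 * θ ^ 2 * L ^ 2 * (ρ * S) := by
          have := mul_le_mul_of_nonneg_left hop (by positivity : 0 ≤ 2 * θ ^ 2)
          linarith
      _ = 8 * θ ^ 2 * (1 + L ^ 2 * ρ) * S := by ring
  have hcomm : ∑ a, p a * ∑ a', p a' * gram q T a a' ^ 2
      = ∑ a', p a' * ∑ a, p a * gram q T a a' ^ 2 := by
    simp_rw [Finset.mul_sum]
    rw [Finset.sum_comm]
    refine Finset.sum_congr rfl (fun a' _ => Finset.sum_congr rfl (fun a _ => by ring))
  rw [hcomm, EE_eq_left]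
  rw [Finset.mul_sum]
  refine Finset.sum_le_sum (fun a' _ => ?_)
  by_cases ha : a' ∈ X
  · have := mul_le_mul_of_nonneg_left (hone a' ha) (h.hp.nonneg a')
    linarith
  · rw [h.hp.zero a' ha]; simp

end

/-- Cauchy-Schwarz on the support of `T`. -/
lemma abs_sum_sq_le {q : β → ℝ} (hq : ∀ b, 0 ≤ q b) (T : β → ℝ) (z : β → ℝ)
    (hz : ∀ b, z b = if T b = 0 then 0 else 1) :
    (∑ b, q b * |T b|) ^ 2 ≤ (∑ b, q b * z b) * ∑ b, q b * T b ^ 2 := by
  have h1 := Finset.sum_mul_sq_le_sq_mul_sq (univ : Finset β)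
    (fun b => Real.sqrt (q b) * z b) (fun b => Real.sqrt (q b) * |T b|)
  have e1 : ∀ b, Real.sqrt (q b) * z b * (Real.sqrt (q b) * |T b|) = q b * |T b| := by
    intro b
    have h2 := Real.mul_self_sqrt (hq b)
    have h3 : z b * |T b| = |T b| := by
      rw [hz]; split_ifs with h
      · rw [h]; simp
      · ring
    calc Real.sqrt (q b) * z b * (Real.sqrt (q b) * |T b|)
        = (Real.sqrt (q b) * Real.sqrt (q b)) * (z b * |T b|) := by ring
      _ = _ := by rw [h2, h3]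
  have e2 : ∀ b, (Real.sqrt (q b) * z b) ^ 2 = q b * z b := by
    intro b
    have h3 : z b ^ 2 = z b := by rw [hz]; split_ifs <;> norm_num
    rw [mul_pow, Real.sq_sqrt (hq b), h3]
  have e3 : ∀ b, (Real.sqrt (q b) * |T b|) ^ 2 = q b * T b ^ 2 := by
    intro b
    rw [mul_pow, Real.sq_sqrt (hq b), sq_abs]
  simp_rw [e1, e2, e3] at h1
  exact h1

/-- dyadic class indicator -/
noncomputable def dy (T : α → β → ℝ) (j : ℕ) (a : α) (b : β) : ℝ :=
  if 2 ^ j ≤ |T a b| ∧ |T a b| < 2 ^ (j + 1) then 1 else 0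

/-- nonzero indicator -/
noncomputable def nz (T : α → β → ℝ) (a : α) (b : β) : ℝ := if T a b = 0 then 0 else 1

lemma dy_nonneg (T : α → β → ℝ) (j : ℕ) (a : α) (b : β) : 0 ≤ dy T j a b := by
  unfold dy; split_ifs <;> norm_num

lemma nz_nonneg (T : α → β → ℝ) (a : α) (b : β) : 0 ≤ nz T a b := by
  unfold nz; split_ifs <;> norm_num

lemma dy_unique {T : α → β → ℝ} {i j : ℕ} {a : α} {b : β} (hi : dy T i a b ≠ 0)
    (hj : dy T j a b ≠ 0) : i = j := by
  unfold dy at hi hj
  have h1 : 2 ^ i ≤ |T a b| ∧ |T a b| < 2 ^ (i + 1) := by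
    by_contra hcon; exact hi (if_neg hcon)
  have h2 : 2 ^ j ≤ |T a b| ∧ |T a b| < 2 ^ (j + 1) := by
    by_contra hcon; exact hj (if_neg hcon)
  have h3 : (2 : ℝ) ^ i < 2 ^ (j + 1) := lt_of_le_of_lt h1.1 h2.2
  have h4 : (2 : ℝ) ^ j < 2 ^ (i + 1) := lt_of_le_of_lt h2.1 h1.2
  have h5 := (pow_lt_pow_iff_right₀ (by norm_num : (1 : ℝ) < 2)).1 h3
  have h6 := (pow_lt_pow_iff_right₀ (by norm_num : (1 : ℝ) < 2)).1 h4
  omega

lemma exists_class {T : α → β → ℝ} {J : ℕ} {a : α} {b : β} (h0 : T a b ≠ 0)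
    (h1 : T a b = 0 ∨ 1 ≤ |T a b|) (hJ : |T a b| < 2 ^ J) :
    ∃ j : Fin J, 2 ^ (j : ℕ) ≤ |T a b| ∧ |T a b| < 2 ^ ((j : ℕ) + 1) := by
  have h2 : 1 ≤ |T a b| := h1.resolve_left h0
  obtain ⟨k, hk1, hk2⟩ := exists_nat_pow_near (x := |T a b|) (y := 2) h2 (by norm_num)
  have hkJ : k < J := by
    have h3 : (2 : ℝ) ^ k < 2 ^ J := lt_of_le_of_lt hk1 hJ
    exact (pow_lt_pow_iff_right₀ (by norm_num : (1 : ℝ) < 2)).1 h3
  exact ⟨⟨k, hkJ⟩, hk1, hk2⟩

lemma nz_eq_sum {T : α → β → ℝ} {J : ℕ} {a : α} {b : β}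
    (h1 : T a b = 0 ∨ 1 ≤ |T a b|) (hJ : |T a b| < 2 ^ J) :
    nz T a b = ∑ j : Fin J, dy T j a b := by
  by_cases h0 : T a b = 0
  · have : ∀ j : Fin J, dy T j a b = 0 := by
      intro j
      unfold dy
      rw [if_neg]
      rintro ⟨h2, -⟩
      rw [h0, abs_zero] at h2
      have : (0 : ℝ) < 2 ^ (j : ℕ) := by positivity
      linarith
    simp_rw [this]
    simp [nz, h0]
  · obtain ⟨j, hj⟩ := exists_class h0 h1 hJ
    have hj1 : dy T j a b = 1 := by unfold dy; rw [if_pos hj]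
    rw [Finset.sum_eq_single j]
    · rw [hj1]; simp [nz, h0]
    · intro i _ hij
      by_contra hne
      apply hij
      apply Fin.ext
      exact dy_unique hne (by rw [hj1]; norm_num)
    · intro h; exact absurd (Finset.mem_univ j) h

/-- **Sparse low-rank matrices.** -/
theorem four_case {X0 : Finset α} {Y0 : Finset β} {μ : α → ℝ} {ν : β → ℝ} (hμ : IsProb X0 μ)
    (hν : IsProb Y0 ν) (T : α → β → ℝ) (f : O → α → ℝ) (g : O → β → ℝ)
    (hT : ∀ a b, T a b = ∑ o, f o a * g o b)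
    (h01 : ∀ a ∈ supp μ, ∀ b ∈ supp ν, T a b = 0 ∨ 1 ≤ |T a b|) {J : ℕ} (hJ1 : 1 ≤ J)
    (hJ : ∀ a ∈ supp μ, ∀ b ∈ supp ν, |T a b| < 2 ^ J)
    {ε : ℝ} (hε : 0 < ε) (hE : EE μ ν (nz T) ≤ ε) (hrε : 1 ≤ (Fintype.card O : ℝ) * ε)
    (hsp : (Fintype.card O : ℝ) * (ε ^ 2 * J) ≤ 1 / 7000) :
    ∃ (X : Finset α) (Y : Finset β) (p : α → ℝ) (q : β → ℝ), X ⊆ supp μ ∧ Y ⊆ supp ν ∧
      IsProb X p ∧ IsProb Y q ∧
      Dom μ ν p q (64 * Real.sqrt ((Fintype.card O : ℝ) * (ε * J))) ∧
      ∀ a ∈ X, ∀ b ∈ Y, T a b = 0 := by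
  set r : ℝ := (Fintype.card O : ℝ) with hr
  have hJr : (1 : ℝ) ≤ (J : ℝ) := by exact_mod_cast hJ1
  have hr0 : 0 < r := by
    by_contra hcon
    push Not at hcon
    nlinarith
  set sJ := Real.sqrt (J : ℝ) with hsJ
  set sr := Real.sqrt r with hsr
  set sε := Real.sqrt ε with hsε
  have hsJJ : sJ * sJ = J := Real.mul_self_sqrt (by linarith)
  have hsrr : sr * sr = r := Real.mul_self_sqrt hr0.le
  have hsεε : sε * sε = ε := Real.mul_self_sqrt hε.le
  have hsJ1 : 1 ≤ sJ := Real.one_le_sqrt.2 hJr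
  have hsr0 : 0 < sr := Real.sqrt_pos.2 hr0
  have hsε0 : 0 < sε := Real.sqrt_pos.2 hε
  have hsrε : 1 ≤ sr * sε := by
    rw [hsr, hsε, ← Real.sqrt_mul hr0.le]
    exact Real.one_le_sqrt.2 hrε
  set K : ℝ := 16 with hK
  have hK0 : 0 < K := by positivity
  set Ω : ℝ := K * (sr * sε * sJ) with hΩ
  have hΩ1 : 1 ≤ Ω := by
    have h1 : 1 ≤ sr * sε * sJ := by nlinarith
    have h2 : 1 ≤ K := by rw [hK]; norm_num
    rw [hΩ]; nlinarith
  set η : ℝ := Ω / ε with hη
  have hη0 : 0 < η := by positivity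
  set c : Fin J → Finset α → Finset β → ℝ := fun _ _ _ => K * sr with hc
  set w : Fin J → α → β → ℝ := fun j => dy T j with hw
  set G : α → β → ℝ := fun a b => η * nz T a b with hG
  have hgood : GoodPot c w G :=
    ⟨fun _ _ _ => by positivity, fun _ _ _ _ _ _ _ => le_rfl, fun j a b => dy_nonneg T j a b,
      fun a b => mul_nonneg hη0.le (nz_nonneg T a b)⟩
  obtain ⟨X, Y, p, q, h⟩ := exists_minPt hμ hν hgood
  have hpot : ∀ X Y p q, pot c w G X Y p q
      = K * sr * ∑ j : Fin J, Real.sqrt (EE p q (dy T j)) + η * EE p q (nz T) := by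
    intro X Y p q
    unfold pot
    rw [hG, EE_smul, Finset.mul_sum]
  have hsumw : ∀ (X' : Finset α) (Y' : Finset β) (p' : α → ℝ) (q' : β → ℝ), X' ⊆ supp μ →
      Y' ⊆ supp ν → IsProb X' p' → IsProb Y' q' →
      EE p' q' (nz T) = ∑ j : Fin J, EE p' q' (dy T j) := by
    intro X' Y' p' q' hX' hY' hp' hq'
    have e1 := EE_sum (univ : Finset (Fin J)) p' q' (fun j => dy T j)
    rw [← e1]
    unfold EE
    refine Finset.sum_congr rfl (fun a _ => Finset.sum_congr rfl (fun b _ => ?_))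
    by_cases ha : a ∈ X'
    · by_cases hb : b ∈ Y'
      · rw [nz_eq_sum (h01 a (hX' ha) b (hY' hb)) (hJ a (hX' ha) b (hY' hb))]
      · rw [hq'.zero b hb]; ring
    · rw [hp'.zero a ha]; ring
  have hP0 : P0 μ ν c w G ≤ 2 * Ω := by
    unfold P0
    rw [hpot]
    have h1 := sum_sqrt_le (univ : Finset (Fin J)) (fun j => EE μ ν (dy T j))
      (fun j _ => EE_nonneg hμ.nonneg hν.nonneg (dy_nonneg T j))
    rw [← hsumw (supp μ) (supp ν) μ ν (Finset.Subset.refl _) (Finset.Subset.refl _) hμ.supp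
      hν.supp, Finset.card_univ, Fintype.card_fin] at h1
    have h2 : Real.sqrt ((J : ℝ) * EE μ ν (nz T)) ≤ sJ * sε := by
      rw [hsJ, hsε, ← Real.sqrt_mul (by linarith)]
      exact Real.sqrt_le_sqrt (mul_le_mul_of_nonneg_left hE (by linarith))
    have h3 := mul_le_mul_of_nonneg_left (h1.trans h2) (mul_pos hK0 hsr0).le
    have h4 : η * EE μ ν (nz T) ≤ Ω := by
      calc η * EE μ ν (nz T) ≤ η * ε := mul_le_mul_of_nonneg_left hE hη0.le
        _ = Ω := by rw [hη]; field_simp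
    have h5 : K * sr * (sJ * sε) = Ω := by rw [hΩ]; ring
    linarith
  have hlog2 : Real.log 2 < 1 := by
    have := Real.log_two_lt_d9; linarith
  have hlog2' : 0 < Real.log 2 := Real.log_pos (by norm_num)
  have hL : Real.log 2 + P0 μ ν c w G ≤ 3 * Ω := by linarith
  have hpotle : pot c w G X Y p q ≤ 2 * Ω := (h.pot_le_P0 hμ hν).trans hP0
  have hT2 : ∀ a ∈ X, ∀ b, T a b = ∑ o, f o a * g o b := fun a _ b => hT a b
  set E2 := EE p q (fun a b => T a b ^ 2) with hE2
  have hE20 : 0 ≤ E2 := EE_nonneg h.hp.nonneg h.hq.nonneg (fun a b => sq_nonneg _)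
  have hzero : E2 = 0 := by
    by_contra hne
    have hE2pos : 0 < E2 := lt_of_le_of_ne hE20 (Ne.symm hne)
    set F := FF c w G X Y p q with hF
    have hF0 : ∀ a b, 0 ≤ F a b := FF_nonneg h.good X Y p q
    set e : Fin J → ℝ := fun j => EE p q (dy T j) with he
    have he0 : ∀ j, 0 ≤ e j := fun j => EE_nonneg h.hp.nonneg h.hq.nonneg (dy_nonneg T j)
    have hslope : ∀ j, slope c w X Y p q j = K * sr / (2 * Real.sqrt (e j)) := fun j => rfl
    -- the comparison of `T` and `F`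
    set sE := Real.sqrt E2 with hsE
    have hsEE : sE * sE = E2 := Real.mul_self_sqrt hE20
    have hsE0 : 0 < sE := Real.sqrt_pos.2 hE2pos
    set θ : ℝ := 4 * sE / (K * sr) with hθ
    have hθ0 : 0 ≤ θ := by positivity
    have hcls : ∀ j : Fin J, 2 ^ (j : ℕ) * Real.sqrt (e j) ≤ sE := by
      intro j
      have h1 : (4 : ℝ) ^ (j : ℕ) * e j ≤ E2 := by
        rw [he, hE2]
        simp only
        rw [← EE_smul]
        apply EE_mono h.hp h.hq
        intro a _ b _
        unfold dy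
        split_ifs with h2
        · have h3 := mul_le_mul h2.1 h2.1 (by positivity) (abs_nonneg _)
          rw [← pow_two |T a b|, sq_abs] at h3
          have h4 : (4 : ℝ) ^ (j : ℕ) = 2 ^ (j : ℕ) * 2 ^ (j : ℕ) := by
            rw [← mul_pow]; norm_num
          rw [h4, mul_one]; exact h3
        · rw [mul_zero]; exact sq_nonneg _
      have h5 : 2 ^ (j : ℕ) * Real.sqrt (e j) = Real.sqrt ((4 : ℝ) ^ (j : ℕ) * e j) := by
        rw [Real.sqrt_mul (by positivity)]
        congr 1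
        have h4 : (4 : ℝ) ^ (j : ℕ) = 2 ^ (j : ℕ) * 2 ^ (j : ℕ) := by
          rw [← mul_pow]; norm_num
        rw [h4, Real.sqrt_mul_self (by positivity)]
      rw [h5]
      exact Real.sqrt_le_sqrt h1
    have hTF : ∀ a ∈ X, ∀ b ∈ Y, |T a b| ≤ θ * F a b := by
      intro a ha b hb
      by_cases h0 : T a b = 0
      · rw [h0, abs_zero]; exact mul_nonneg hθ0 (hF0 a b)
      · obtain ⟨j, hj1, hj2⟩ := exists_class h0 (h01 a (h.hX ha) b (h.hY hb))
          (hJ a (h.hX ha) b (h.hY hb))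
        have hdy : dy T j a b = 1 := by unfold dy; rw [if_pos ⟨hj1, hj2⟩]
        have hej : 0 < e j := by
          rcases (he0 j).eq_or_lt with h1 | h1
          · have h2 := h.w_zero (i := j) h1.symm ha hb
            rw [hw] at h2
            simp only at h2
            rw [hdy] at h2
            exact absurd h2 one_ne_zero
          · exact h1
        have hsej : 0 < Real.sqrt (e j) := Real.sqrt_pos.2 hej
        have hFge : K * sr / (2 * Real.sqrt (e j)) ≤ F a b := by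
          rw [hF]
          unfold FF
          have h1 : K * sr / (2 * Real.sqrt (e j)) ≤ ∑ i, slope c w X Y p q i * w i a b := by
            have h2 := Finset.single_le_sum (f := fun i => slope c w X Y p q i * w i a b)
              (fun i _ => mul_nonneg (slope_nonneg h.good X Y p q i) (h.good.w_nonneg i a b))
              (Finset.mem_univ j)
            rw [hslope j] at h2
            have h3 : w j a b = 1 := hdy
            rw [h3, mul_one] at h2
            exact h2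
          have h2 := h.good.G_nonneg a b
          linarith
        have h3 : θ * (K * sr / (2 * Real.sqrt (e j))) = 2 * sE / Real.sqrt (e j) := by
          rw [hθ]; field_simp; ring
        have h4 : (2 : ℝ) ^ ((j : ℕ) + 1) ≤ 2 * sE / Real.sqrt (e j) := by
          rw [le_div_iff₀ hsej, pow_succ]
          have := hcls j
          linarith
        calc |T a b| ≤ 2 ^ ((j : ℕ) + 1) := hj2.le
          _ ≤ 2 * sE / Real.sqrt (e j) := h4
          _ = θ * (K * sr / (2 * Real.sqrt (e j))) := h3.symm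
          _ ≤ θ * F a b := mul_le_mul_of_nonneg_left hFge hθ0
    have htr := trace_ineq h.hp (fun a ha => h.p_pos ha) (q := q) T f g hT2
    rw [← hE2, ← hr] at htr
    have hρ : ∀ a ∈ X, (∑ b, q b * |T a b|) ^ 2 ≤ (3 * ε) * ∑ b, q b * T a b ^ 2 := by
      intro a ha
      have h1 := abs_sum_sq_le h.hq.nonneg (fun b => T a b) (fun b => nz T a b) (fun b => rfl)
      have h2 : ∑ b, q b * nz T a b ≤ 3 * ε := by
        have h3 : η * ∑ b, q b * nz T a b ≤ margL q F a := by
          unfold margL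
          rw [Finset.mul_sum]
          refine Finset.sum_le_sum (fun b _ => ?_)
          have h4 : η * nz T a b ≤ F a b := by
            have h5 : F a b = ∑ j : Fin J, slope c w X Y p q j * w j a b + η * nz T a b := rfl
            have h6 : 0 ≤ ∑ j : Fin J, slope c w X Y p q j * w j a b :=
              Finset.sum_nonneg (fun i _ => mul_nonneg (slope_nonneg h.good X Y p q i)
                (h.good.w_nonneg i a b))
            linarith
          have := mul_le_mul_of_nonneg_left h4 (h.hq.nonneg b)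
          linarith
        have h4 := (h.margL_le_P0 hμ hν ha).trans hL
        rw [← hF] at h4
        have h5 : η * ∑ b, q b * nz T a b ≤ η * (3 * ε) := by
          have h6 : η * (3 * ε) = 3 * Ω := by rw [hη]; field_simp
          rw [h6]; exact h3.trans h4
        exact le_of_mul_le_mul_left h5 hη0
      refine h1.trans ?_
      apply mul_le_mul_of_nonneg_right h2
      exact Finset.sum_nonneg (fun b _ => mul_nonneg (h.hq.nonneg b) (sq_nonneg _))
    have hfour := h.four_le hμ hν hL hθ0 hTF hρ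
    rw [← hE2] at hfour
    -- conclusion
    have hK2 : θ ^ 2 * (K * sr) ^ 2 = 16 * E2 := by
      rw [hθ, div_pow]
      have : (K * sr) ^ 2 ≠ 0 := by positivity
      rw [div_mul_cancel₀ _ this, mul_pow]
      rw [← hsEE]
      ring
    have h1 : E2 ^ 2 ≤ r * (8 * θ ^ 2 * (1 + (3 * Ω) ^ 2 * (3 * ε)) * E2) :=
      htr.trans (mul_le_mul_of_nonneg_left hfour hr0.le)
    have h2 : E2 ^ 2 * (K * sr) ^ 2
        ≤ E2 ^ 2 * (r * (128 * (1 + (3 * Ω) ^ 2 * (3 * ε)))) := by
      calc E2 ^ 2 * (K * sr) ^ 2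
          ≤ (r * (8 * θ ^ 2 * (1 + (3 * Ω) ^ 2 * (3 * ε)) * E2)) * (K * sr) ^ 2 :=
            mul_le_mul_of_nonneg_right h1 (by positivity)
        _ = r * (8 * (θ ^ 2 * (K * sr) ^ 2) * (1 + (3 * Ω) ^ 2 * (3 * ε)) * E2) := by
            ring
        _ = _ := by rw [hK2]; ring
    have h3 : (K * sr) ^ 2 ≤ r * (128 * (1 + (3 * Ω) ^ 2 * (3 * ε))) :=
      le_of_mul_le_mul_left h2 (by positivity)
    -- insert the values
    have e2 : (K * sr) ^ 2 = 16 ^ 2 * r := by
      rw [hK, ← hsrr]; ring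
    have e3 : Ω ^ 2 * ε = 16 ^ 2 * (r * (ε ^ 2 * J)) := by
      rw [hΩ, hK, ← hsJJ, ← hsrr, ← hsεε]; ring
    have e4 : (3 * Ω) ^ 2 * (3 * ε) = 27 * (Ω ^ 2 * ε) := by ring
    rw [e4, e3, e2] at h3
    have h4 : 27 * (16 ^ 2 * (r * (ε ^ 2 * J))) ≤ 27 * (16 ^ 2 * (1 / 7000)) := by linarith
    have h5 : r * (128 * (1 + 27 * (16 ^ 2 * (r * (ε ^ 2 * J)))))
        ≤ r * (128 * (1 + 27 * (16 ^ 2 * (1 / 7000)))) :=
      mul_le_mul_of_nonneg_left (by linarith) hr0.le
    linarith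
  refine ⟨X, Y, p, q, h.hX, h.hY, h.hp, h.hq, ?_, ?_⟩
  · obtain ⟨κ1, κ2, g1, g2, g3⟩ := h.domination hμ hν
    refine ⟨κ1, κ2, g1, g2, g3.trans ?_⟩
    have e1 : 64 * Real.sqrt (r * (ε * J)) = 4 * Ω := by
      rw [Real.sqrt_mul hr0.le, Real.sqrt_mul hε.le, ← hsr, ← hsε, ← hsJ, hΩ, hK]; ring
    rw [e1]; linarith
  · intro a ha b hb
    by_contra hne
    have h1 : 0 < p a * q b * T a b ^ 2 := by
      have := h.p_pos ha
      have := h.q_pos hb
      positivity
    have h2 : p a * q b * T a b ^ 2 ≤ E2 := by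
      rw [hE2]
      unfold EE
      have h3 := Finset.single_le_sum (f := fun b => p a * q b * T a b ^ 2)
        (fun b _ => mul_nonneg (mul_nonneg (h.hp.nonneg a) (h.hq.nonneg b)) (sq_nonneg _))
        (Finset.mem_univ b)
      have h4 := Finset.single_le_sum (f := fun a => ∑ b, p a * q b * T a b ^ 2)
        (fun a _ => Finset.sum_nonneg (fun b _ => mul_nonneg (mul_nonneg (h.hp.nonneg a)
          (h.hq.nonneg b)) (sq_nonneg _)))
        (Finset.mem_univ a)
      linarith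
    linarith

end Run7.h852
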