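import Pool.Agent.Run7.h852.MinPt

open Finset

set_option linter.unusedSectionVars false

namespace Run7.h852

variable {α β ι : Type*} [Fintype α] [Fintype β] [Fintype ι] [DecidableEq α] [DecidableEq β]

/-- Gibbs variational principle, in the form: a minimiser of the free energy has the Gibbs form. -/
lemma gibbs_form {X : Finset α} {μ f p : α → ℝ} (hμ : ∀ a ∈ X, 0 < μ a) (hp : IsProb X p)
    (hpos : ∀ a ∈ X, 0 < p a)
    (hmin : ∀ p', IsProb X p' → ent μ p + ∑ a, p a * f a ≤ ent μ p' + ∑ a, p' a * f a) :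
    ∃ κ : ℝ, ∀ a ∈ X, Real.log (p a) = Real.log (μ a) - f a + κ := by
  classical
  have hX : X.Nonempty := hp.nonempty
  set Z : ℝ := ∑ a ∈ X, μ a * Real.exp (-(f a)) with hZ
  have hZpos : 0 < Z := Finset.sum_pos (fun a ha => mul_pos (hμ a ha) (Real.exp_pos _)) hX
  set g : α → ℝ := fun a => if a ∈ X then μ a * Real.exp (-(f a)) / Z else 0 with hg
  have hgX : ∀ a ∈ X, g a = μ a * Real.exp (-(f a)) / Z := fun a ha => by simp [hg, ha]
  have hgpos : ∀ a ∈ X, 0 < g a := fun a ha => by
    rw [hgX a ha]; exact div_pos (mul_pos (hμ a ha) (Real.exp_pos _)) hZpos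
  have hgsum : ∑ a ∈ X, g a = 1 := by
    rw [Finset.sum_congr rfl hgX, ← Finset.sum_div, ← hZ, div_self hZpos.ne']
  have hgz : ∀ a, a ∉ X → g a = 0 := fun a ha => by simp [hg, ha]
  have hgP : IsProb X g := by
    refine ⟨?_, hgz, ?_⟩
    · intro a
      by_cases ha : a ∈ X
      · exact (hgpos a ha).le
      · rw [hgz a ha]
    · rw [← hgsum]
      exact (Finset.sum_subset (Finset.subset_univ X) (fun a _ ha => hgz a ha)).symm
  have hglog : ∀ a ∈ X, Real.log (g a) = Real.log (μ a) - f a - Real.log Z := by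
    intro a ha
    rw [hgX a ha, Real.log_div (mul_pos (hμ a ha) (Real.exp_pos _)).ne' hZpos.ne',
      Real.log_mul (hμ a ha).ne' (Real.exp_pos _).ne', Real.log_exp]
    ring
  -- value at g
  have restrict : ∀ {r : α → ℝ}, IsProb X r → ent μ r + ∑ a, r a * f a
      = ∑ a ∈ X, r a * (Real.log (r a) - Real.log (μ a) + f a) := by
    intro r hr
    unfold ent
    rw [← Finset.sum_add_distrib]
    have : ∀ a, r a * (Real.log (r a) - Real.log (μ a)) + r a * f a
        = r a * (Real.log (r a) - Real.log (μ a) + f a) := fun a => by ring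
    simp_rw [this]
    exact (Finset.sum_subset (Finset.subset_univ X) (fun a _ ha => by
      rw [hr.zero a ha, zero_mul])).symm
  have hJg : ent μ g + ∑ a, g a * f a = - Real.log Z := by
    rw [restrict hgP]
    have : ∀ a ∈ X, g a * (Real.log (g a) - Real.log (μ a) + f a) = g a * (- Real.log Z) := by
      intro a ha
      rw [hglog a ha]; ring
    rw [Finset.sum_congr rfl this, ← Finset.sum_mul, hgsum, one_mul]
  have hJp : ∑ a ∈ X, p a * (Real.log (p a) - Real.log (g a)) ≤ 0 := by
    have h1 := hmin g hgP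
    rw [hJg, restrict hp] at h1
    have h2 : ∑ a ∈ X, p a * (Real.log (p a) - Real.log (μ a) + f a)
        = ∑ a ∈ X, p a * (Real.log (p a) - Real.log (g a)) - Real.log Z := by
      have : ∀ a ∈ X, p a * (Real.log (p a) - Real.log (μ a) + f a)
          = p a * (Real.log (p a) - Real.log (g a)) - p a * Real.log Z := by
        intro a ha
        rw [hglog a ha]; ring
      rw [Finset.sum_congr rfl this, Finset.sum_sub_distrib, ← Finset.sum_mul, hp.sum_mem, one_mul]
    linarith
  have hle : ∀ a ∈ X, p a - g a ≤ p a * (Real.log (p a) - Real.log (g a)) := by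
    intro a ha
    have h1 := hpos a ha
    have h2 := hgpos a ha
    have h3 := Real.log_le_sub_one_of_pos (div_pos h2 h1)
    rw [Real.log_div h2.ne' h1.ne'] at h3
    have h4 := mul_le_mul_of_nonneg_left h3 h1.le
    have h5 : p a * (g a / p a - 1) = g a - p a := by field_simp
    linarith
  have heq : ∀ a ∈ X, p a = g a := by
    by_contra hne
    push Not at hne
    obtain ⟨a0, ha0, hne0⟩ := hne
    have hlt : p a0 - g a0 < p a0 * (Real.log (p a0) - Real.log (g a0)) := by
      have h1 := hpos a0 ha0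
      have h2 := hgpos a0 ha0
      have h6 : g a0 / p a0 ≠ 1 := by
        intro h; rw [div_eq_one_iff_eq h1.ne'] at h; exact hne0 h.symm
      have h3 := Real.log_lt_sub_one_of_pos (div_pos h2 h1) h6
      rw [Real.log_div h2.ne' h1.ne'] at h3
      have h4 := mul_lt_mul_of_pos_left h3 h1
      have h5 : p a0 * (g a0 / p a0 - 1) = g a0 - p a0 := by field_simp
      linarith
    have h7 := Finset.sum_lt_sum hle ⟨a0, ha0, hlt⟩
    rw [Finset.sum_sub_distrib, hp.sum_mem, hgsum] at h7
    linarith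
  refine ⟨- Real.log Z, fun a ha => ?_⟩
  rw [heq a ha, hglog a ha]
  ring

section

variable {μ : α → ℝ} {ν : β → ℝ} {c : ι → Finset α → Finset β → ℝ}
    {w : ι → α → β → ℝ} {G : α → β → ℝ}
    {X : Finset α} {Y : Finset β} {p : α → ℝ} {q : β → ℝ}

/-- left marginal of a matrix -/
def margL (q : β → ℝ) (f : α → β → ℝ) (a : α) : ℝ := ∑ b, q b * f a b

/-- right marginal of a matrix -/
def margR (p : α → ℝ) (f : α → β → ℝ) (b : β) : ℝ := ∑ a, p a * f a b

lemma EE_margL (p : α → ℝ) (q : β → ℝ) (f : α → β → ℝ) :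
    EE p q f = ∑ a, p a * margL q f a := EE_eq_left p q f

lemma EE_margR (p : α → ℝ) (q : β → ℝ) (f : α → β → ℝ) :
    EE p q f = ∑ b, q b * margR p f b := by
  rw [← EE_swap, EE_eq_left]
  rfl

lemma FF_swap (b : β) (a : α) :
    FF (fun i Y X => c i X Y) (fun i b a => w i a b) (fun b a => G a b) Y X q p b a
      = FF c w G X Y p q a b := by
  unfold FF slope
  congr 1
  refine Finset.sum_congr rfl (fun i _ => ?_)
  rw [EE_swap p q (w i)]

lemma IsMinPt.gibbsL (h : IsMinPt μ ν c w G X Y p q) :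
    ∃ κ : ℝ, ∀ a ∈ X, Real.log (p a)
      = Real.log (μ a) - margL q (FF c w G X Y p q) a + κ := by
  apply gibbs_form (fun a ha => h.mu_pos ha) h.hp (fun a ha => h.p_pos ha)
  intro p' hp'
  have h1 := h.hmin X Y p' q h.hX h.hY hp' h.hq
  have h2 := h.pot_le (Finset.Subset.refl X) (Finset.Subset.refl Y) hp' h.hq
  rw [EE_margL p' q, EE_margL p q] at h2
  unfold Phi at h1
  linarith

lemma IsMinPt.gibbsR (h : IsMinPt μ ν c w G X Y p q) :
    ∃ κ : ℝ, ∀ b ∈ Y, Real.log (q b)
      = Real.log (ν b) - margR p (FF c w G X Y p q) b + κ := by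
  obtain ⟨κ, hκ⟩ := h.swap.gibbsL
  refine ⟨κ, fun b hb => ?_⟩
  rw [hκ b hb]
  unfold margL margR
  simp_rw [FF_swap]

lemma ent_sub {X' : Finset α} (hX' : X' ⊆ X) (hp : IsProb X p) {p' : α → ℝ}
    (hp' : IsProb X' p') {f : α → ℝ} {κ : ℝ}
    (hκ : ∀ a ∈ X, Real.log (p a) = Real.log (μ a) - f a + κ) :
    ent μ p' - ent μ p = ent p p' - (∑ a, p' a * f a - ∑ a, p a * f a) := by
  have h1 : ent μ p' = ent p p' + ∑ a, p' a * (Real.log (p a) - Real.log (μ a)) := by
    unfold ent
    rw [← Finset.sum_add_distrib]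
    refine Finset.sum_congr rfl (fun a _ => ?_)
    ring
  have gen : ∀ {r : α → ℝ}, IsProb X r → ∑ a, r a * (Real.log (p a) - Real.log (μ a))
      = κ - ∑ a, r a * f a := by
    intro r hr
    have : ∀ a, r a * (Real.log (p a) - Real.log (μ a)) = r a * κ - r a * f a := by
      intro a
      by_cases ha : a ∈ X
      · rw [hκ a ha]; ring
      · rw [hr.zero a ha]; ring
    simp_rw [this]
    rw [Finset.sum_sub_distrib, ← Finset.sum_mul, hr.sum, one_mul]
  have h2 := gen (hp'.mono hX')
  have h3 := gen hp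
  have h4 : ent μ p = ∑ a, p a * (Real.log (p a) - Real.log (μ a)) := rfl
  linarith

/-- the central comparison inequality at a minimum point -/
lemma IsMinPt.compare (h : IsMinPt μ ν c w G X Y p q) {X' : Finset α} {Y' : Finset β}
    (hX' : X' ⊆ X) (hY' : Y' ⊆ Y) {p' : α → ℝ} {q' : β → ℝ}
    (hp' : IsProb X' p') (hq' : IsProb Y' q') {δ : ℝ}
    (hδ : pot c w G X' Y' p' q' + δ ≤ pot c w G X Y p q
      + (EE p' q' (FF c w G X Y p q) - EE p q (FF c w G X Y p q))) :
    δ ≤ (1 / 2) * (Real.log (∑ a ∈ X', μ a) - Real.log (∑ a ∈ X, μ a))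
      + (1 / 2) * (Real.log (∑ b ∈ Y', ν b) - Real.log (∑ b ∈ Y, ν b))
      + ent p p' + ent q q'
      + EE (fun a => p' a - p a) (fun b => q' b - q b) (FF c w G X Y p q) := by
  obtain ⟨κ1, hκ1⟩ := h.gibbsL
  obtain ⟨κ2, hκ2⟩ := h.gibbsR
  have h1 := h.hmin X' Y' p' q' (hX'.trans h.hX) (hY'.trans h.hY) hp' hq'
  have h2 := ent_sub hX' h.hp hp' hκ1
  have h3 := ent_sub hY' h.hq hq' hκ2
  rw [← EE_margL, ← EE_margL] at h2
  rw [← EE_margR, ← EE_margR] at h3
  set F := FF c w G X Y p q with hF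
  have h4 : EE (fun a => p' a - p a) (fun b => q' b - q b) F
      = EE p' q' F - EE p' q F - EE p q' F + EE p q F := by
    unfold EE
    rw [← Finset.sum_sub_distrib, ← Finset.sum_sub_distrib, ← Finset.sum_add_distrib]
    refine Finset.sum_congr rfl (fun a _ => ?_)
    rw [← Finset.sum_sub_distrib, ← Finset.sum_sub_distrib, ← Finset.sum_add_distrib]
    refine Finset.sum_congr rfl (fun b _ => ?_)
    ring
  unfold Phi at h1
  rw [h4]
  linarith

lemma ent_self (p : α → ℝ) : ent p p = 0 := by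
  unfold ent; simp

/-- conditioning -/
noncomputable def cond (p : α → ℝ) (X' : Finset α) (a : α) : ℝ :=
  if a ∈ X' then p a / ∑ x ∈ X', p x else 0

lemma cond_isProb {X' : Finset α} (hp : ∀ a, 0 ≤ p a) (hpos : 0 < ∑ x ∈ X', p x) :
    IsProb X' (cond p X') := by
  refine ⟨?_, ?_, ?_⟩
  · intro a
    unfold cond
    split_ifs
    · exact div_nonneg (hp a) hpos.le
    · exact le_rfl
  · intro a ha
    simp [cond, ha]
  · have : ∑ a ∈ X', cond p X' a = 1 := by
      have : ∀ a ∈ X', cond p X' a = p a / ∑ x ∈ X', p x := fun a ha => by simp [cond, ha]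
      rw [Finset.sum_congr rfl this, ← Finset.sum_div, div_self hpos.ne']
    rw [← this]
    exact (Finset.sum_subset (Finset.subset_univ X') (fun a _ ha => by simp [cond, ha])).symm

lemma ent_cond {X' : Finset α} (hp : ∀ a ∈ X', 0 < p a) (hne : X'.Nonempty) :
    ent p (cond p X') = - Real.log (∑ x ∈ X', p x) := by
  have hpos : 0 < ∑ x ∈ X', p x := Finset.sum_pos hp hne
  unfold ent
  have h1 : ∀ a, cond p X' a * (Real.log (cond p X' a) - Real.log (p a))
      = cond p X' a * (- Real.log (∑ x ∈ X', p x)) := by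
    intro a
    by_cases ha : a ∈ X'
    · have : cond p X' a = p a / ∑ x ∈ X', p x := by simp [cond, ha]
      rw [this, Real.log_div (hp a ha).ne' hpos.ne']
      ring
    · simp [cond, ha]
  simp_rw [h1]
  rw [← Finset.sum_mul]
  have h2 : ∑ a, cond p X' a = 1 := by
    have : ∑ a ∈ X', cond p X' a = 1 := by
      have : ∀ a ∈ X', cond p X' a = p a / ∑ x ∈ X', p x := fun a ha => by simp [cond, ha]
      rw [Finset.sum_congr rfl this, ← Finset.sum_div, div_self hpos.ne']
    rw [← this]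
    exact (Finset.sum_subset (Finset.subset_univ X') (fun a _ ha => by simp [cond, ha])).symm
  rw [h2, one_mul]

/-- conditioning on a subset of the rows at a minimum point -/
lemma IsMinPt.compare_cond (h : IsMinPt μ ν c w G X Y p q) {X' : Finset α}
    (hX' : X' ⊆ X) (hne : X'.Nonempty) {δ : ℝ}
    (hδ : pot c w G X' Y (cond p X') q + δ ≤ pot c w G X Y p q
      + (EE (cond p X') q (FF c w G X Y p q) - EE p q (FF c w G X Y p q))) :
    δ ≤ (1 / 2) * (Real.log (∑ a ∈ X', μ a) - Real.log (∑ a ∈ X, μ a))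
      - Real.log (∑ x ∈ X', p x) := by
  have hpos : 0 < ∑ x ∈ X', p x := Finset.sum_pos (fun a ha => h.p_pos (hX' ha)) hne
  have h1 := h.compare hX' (Finset.Subset.refl Y) (cond_isProb h.hp.nonneg hpos) h.hq hδ
  rw [ent_cond (fun a ha => h.p_pos (hX' ha)) hne, ent_self] at h1
  have h2 : EE (fun a => cond p X' a - p a) (fun b => q b - q b) (FF c w G X Y p q) = 0 := by
    unfold EE; simp
  rw [h2] at h1
  linarith

lemma IsMinPt.compare_cond' (h : IsMinPt μ ν c w G X Y p q) {X' : Finset α}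
    (hX' : X' ⊆ X) (hne : X'.Nonempty) {δ : ℝ}
    (hδ : pot c w G X' Y (cond p X') q + δ ≤ pot c w G X Y p q
      + (EE (cond p X') q (FF c w G X Y p q) - EE p q (FF c w G X Y p q))) :
    δ ≤ - Real.log (∑ x ∈ X', p x) := by
  have h1 := h.compare_cond hX' hne hδ
  have h2 : Real.log (∑ a ∈ X', μ a) ≤ Real.log (∑ a ∈ X, μ a) := by
    apply Real.log_le_log (h.sum_mu_pos hX' hne)
    exact Finset.sum_le_sum_of_subset_of_nonneg hX' (fun a ha _ => (h.mu_pos ha).le)
  linarith

/-- density bounded below -/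
lemma IsMinPt.p_ge (h : IsMinPt μ ν c w G X Y p q) {a : α} (ha : a ∈ X) :
    μ a ≤ 2 * (∑ x ∈ X, μ x) * p a := by
  have hsub : X.erase a ⊆ X := Finset.erase_subset a X
  have hpa := h.p_pos ha
  have hsumX := h.sum_mu_pos (Finset.Subset.refl X) h.hp.nonempty
  have hsplit : μ a + ∑ x ∈ X.erase a, μ x = ∑ x ∈ X, μ x := Finset.add_sum_erase X μ ha
  have hsplitp : p a + ∑ x ∈ X.erase a, p x = 1 := by
    rw [Finset.add_sum_erase X p ha, h.hp.sum_mem]
  rcases (X.erase a).eq_empty_or_nonempty with hE | hE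
  · rw [hE] at hsplit hsplitp
    simp only [Finset.sum_empty, add_zero] at hsplit hsplitp
    rw [hsplitp, ← hsplit]
    have := h.mu_pos ha
    linarith
  · have hposX' := h.sum_mu_pos hsub hE
    have hpos : 0 < ∑ x ∈ X.erase a, p x := Finset.sum_pos (fun x hx => h.p_pos (hsub hx)) hE
    have h0 := h.pot_le hsub (Finset.Subset.refl Y) (cond_isProb h.hp.nonneg hpos) h.hq
    have h1 := h.compare_cond hsub hE (δ := 0) (by rw [add_zero]; exact h0)
    set S := ∑ x ∈ X, μ x with hS
    set S' := ∑ x ∈ X.erase a, μ x with hS'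
    set P := ∑ x ∈ X.erase a, p x with hP
    have h2 : Real.log (P ^ 2 * S) ≤ Real.log S' := by
      rw [Real.log_mul (by positivity) hsumX.ne', Real.log_pow]
      push_cast
      linarith
    have h3 : P ^ 2 * S ≤ S' := (Real.log_le_log_iff (by positivity) hposX').1 h2
    have h4 : P = 1 - p a := by linarith
    rw [h4] at h3
    have h5 : S' = S - μ a := by linarith
    rw [h5] at h3
    nlinarith [mul_nonneg hsumX.le (mul_self_nonneg (p a))]

end

end Run7.h852
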