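import Pool.Agent.Run7.h852.Families

open Finset

set_option linter.unusedSectionVars false

namespace Run7.h852

variable {α β V κ : Type*} [Fintype α] [Fintype β] [DecidableEq α] [DecidableEq β]
  [Fintype V] [DecidableEq V] [Fintype κ]

/-- common elements of all the sets -/
def core (x : α → Finset V) (y : β → Finset V) (X : Finset α) (Y : Finset β) : Finset V :=
  univ.filter (fun v => (∀ a ∈ X, v ∈ x a) ∧ (∀ b ∈ Y, v ∈ y b))

lemma mem_core {x : α → Finset V} {y : β → Finset V} {X : Finset α} {Y : Finset β} {v : V} :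
    v ∈ core x y X Y ↔ (∀ a ∈ X, v ∈ x a) ∧ (∀ b ∈ Y, v ∈ y b) := by
  simp [core]

lemma core_mono (x : α → Finset V) (y : β → Finset V) {X X' : Finset α} {Y Y' : Finset β}
    (hX : X' ⊆ X) (hY : Y' ⊆ Y) : core x y X Y ⊆ core x y X' Y' := by
  intro v hv
  rw [mem_core] at hv ⊢
  exact ⟨fun a ha => hv.1 a (hX ha), fun b hb => hv.2 b (hY hb)⟩

/-- the level -/
def lev (l : ℕ) (x : α → Finset V) (y : β → Finset V) (X : Finset α) (Y : Finset β) : ℕ :=
  l - (core x y X Y).card

lemma lev_le (l : ℕ) (x : α → Finset V) (y : β → Finset V) (X : Finset α) (Y : Finset β) :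
    lev l x y X Y ≤ l := Nat.sub_le _ _

lemma lev_mono (l : ℕ) (x : α → Finset V) (y : β → Finset V) {X X' : Finset α} {Y Y' : Finset β}
    (hX : X' ⊆ X) (hY : Y' ⊆ Y) : lev l x y X' Y' ≤ lev l x y X Y := by
  unfold lev
  have := Finset.card_le_card (core_mono x y hX hY)
  omega

/-- accumulated level cost -/
noncomputable def LC (g : ℕ → ℝ) (k : ℕ) : ℝ := ∑ i ∈ range k, g (i + 1)

lemma LC_nonneg {g : ℕ → ℝ} (hg : ∀ i, 0 ≤ g i) (k : ℕ) : 0 ≤ LC g k :=
  Finset.sum_nonneg (fun i _ => hg (i + 1))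

lemma LC_mono {g : ℕ → ℝ} (hg : ∀ i, 0 ≤ g i) {k k' : ℕ} (h : k' ≤ k) : LC g k' ≤ LC g k := by
  unfold LC
  apply Finset.sum_le_sum_of_subset_of_nonneg
  · intro i hi
    rw [Finset.mem_range] at hi ⊢
    omega
  · intro i _ _; exact hg _

lemma LC_succ (g : ℕ → ℝ) (k : ℕ) : LC g (k + 1) = LC g k + g (k + 1) := by
  unfold LC; rw [Finset.sum_range_succ]

/-- coefficients of the level potential -/
noncomputable def cL (l : ℕ) (g : ℕ → ℝ) (K : κ → ℝ) (x : α → Finset V) (y : β → Finset V) :
    Option κ → Finset α → Finset β → ℝ :=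
  fun i X Y => match i with
  | none => LC g (lev l x y X Y)
  | some j => K j

/-- weights of the level potential -/
def wL (w : κ → α → β → ℝ) : Option κ → α → β → ℝ :=
  fun i a b => match i with
  | none => 1
  | some j => w j a b

lemma goodL {l : ℕ} {g : ℕ → ℝ} {K : κ → ℝ} {w : κ → α → β → ℝ} {G : α → β → ℝ}
    (hg : ∀ i, 0 ≤ g i) (hK : ∀ j, 0 ≤ K j) (hw : ∀ j a b, 0 ≤ w j a b) (hG : ∀ a b, 0 ≤ G a b)
    (x : α → Finset V) (y : β → Finset V) :
    GoodPot (cL l g K x y) (wL w) G := by
  refine ⟨?_, ?_, ?_, hG⟩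
  · rintro (_ | j) X Y
    · exact LC_nonneg hg _
    · exact hK j
  · rintro (_ | j) X X' Y Y' hX hY
    · exact LC_mono hg (lev_mono l x y hX hY)
    · exact le_rfl
  · rintro (_ | j) a b
    · exact zero_le_one
    · exact hw j a b

section

variable {l : ℕ} {g : ℕ → ℝ} {K : κ → ℝ} {w : κ → α → β → ℝ} {G : α → β → ℝ}
  {x : α → Finset V} {y : β → Finset V}
  {μ : α → ℝ} {ν : β → ℝ} {X : Finset α} {Y : Finset β} {p : α → ℝ} {q : β → ℝ}

lemma pot_L {X1 : Finset α} {Y1 : Finset β} (X : Finset α) (Y : Finset β)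
    (hp : IsProb X1 p) (hq : IsProb Y1 q) :
    pot (cL l g K x y) (wL w) G X Y p q
      = LC g (lev l x y X Y) + ∑ j, K j * Real.sqrt (EE p q (w j)) + EE p q G := by
  unfold pot
  rw [Fintype.sum_option]
  have h1 : EE p q (wL w none) = 1 := EE_const hp hq 1
  rw [h1]
  simp only [cL, wL, Real.sqrt_one, mul_one]
  rfl

/-- the drop of the potential when the core grows -/
lemma pot_drop (hg : ∀ i, 0 ≤ g i) {X' : Finset α} {Y' : Finset β} (hX' : X' ⊆ X) (hY' : Y' ⊆ Y)
    {p' : α → ℝ} {q' : β → ℝ} (hp' : IsProb X' p') (hq' : IsProb Y' q')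
    (hlev : lev l x y X' Y' + 1 ≤ lev l x y X Y) :
    pot (cL l g K x y) (wL w) G X' Y' p' q' + g (lev l x y X Y)
      ≤ pot (cL l g K x y) (wL w) G X Y p' q' := by
  rw [pot_L X' Y' hp' hq', pot_L X Y hp' hq']
  have h1 : LC g (lev l x y X' Y') + g (lev l x y X Y) ≤ LC g (lev l x y X Y) := by
    obtain ⟨k, hk⟩ : ∃ k, lev l x y X Y = k + 1 := ⟨lev l x y X Y - 1, by omega⟩
    rw [hk, LC_succ]
    have := LC_mono hg (show lev l x y X' Y' ≤ k by omega)
    linarith
  linarith

lemma wt_eq_sum_filter (hp : IsProb X p) (u : V) :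
    wt p x u = ∑ a ∈ X.filter (fun a => u ∈ x a), p a := by
  unfold wt ind
  rw [Finset.sum_filter]
  rw [← Finset.sum_subset (Finset.subset_univ X) (fun a _ ha => by rw [hp.zero a ha, zero_mul])]
  refine Finset.sum_congr rfl (fun a _ => ?_)
  split_ifs <;> ring

lemma cond_mem_eq (hp : IsProb X p) (u : V) (a : α) :
    cond p (X.filter (fun a => u ∈ x a)) a * wt p x u = p a * ind x u a := by
  by_cases hw0 : wt p x u = 0
  · rw [hw0, mul_zero]
    have h1 : ∑ a, p a * ind x u a = 0 := hw0
    have h2 := (Finset.sum_eq_zero_iff_of_nonneg (fun a _ =>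
      mul_nonneg (hp.nonneg a) (ind_nonneg x u a))).1 h1 a (Finset.mem_univ a)
    exact h2.symm
  · unfold cond
    rw [← wt_eq_sum_filter hp]
    by_cases ha : a ∈ X
    · by_cases hu : u ∈ x a
      · rw [if_pos (Finset.mem_filter.2 ⟨ha, hu⟩)]
        simp only [ind, hu, if_true]
        field_simp
      · have hna : a ∉ X.filter (fun a => u ∈ x a) := fun h => hu (Finset.mem_filter.1 h).2
        rw [if_neg hna]
        simp [ind, hu]
    · have hna : a ∉ X.filter (fun a => u ∈ x a) := fun h => ha (Finset.mem_filter.1 h).1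
      rw [if_neg hna, hp.zero a ha]
      simp

/-- The inequality obtained from passing to the link of a single point. -/
lemma link_one (hg : ∀ i, 0 ≤ g i)
    (h : IsMinPt μ ν (cL l g K x y) (wL w) G X Y p q) (hlev : 1 ≤ lev l x y X Y) {u : V}
    (hu : u ∉ core x y X Y) :
    g (lev l x y X Y) * (wt p x u * wt q y u)
      ≤ - (wt p x u * wt q y u) * Real.log (wt p x u * wt q y u)
        + EE p q (fun a b => ctr p q (FF (cL l g K x y) (wL w) G X Y p q) a b
          * (ind x u a * ind y u b)) := by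
  set F := FF (cL l g K x y) (wL w) G X Y p q with hF
  have hwp0 := wt_nonneg h.hp x u
  have hwq0 := wt_nonneg h.hq y u
  rw [← EE_ctr h.hp h.hq]
  have hid : EE p q (fun a b => F a b * ((ind x u a - ∑ a, p a * ind x u a)
      * (ind y u b - ∑ b, q b * ind y u b)))
      = (wt p x u * wt q y u) * EE (fun a => cond p (X.filter (fun a => u ∈ x a)) a - p a)
        (fun b => cond q (Y.filter (fun b => u ∈ y b)) b - q b) F := by
    unfold EE
    rw [Finset.mul_sum]
    refine Finset.sum_congr rfl (fun a _ => ?_)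
    rw [Finset.mul_sum]
    refine Finset.sum_congr rfl (fun b _ => ?_)
    have e1 := cond_mem_eq (x := x) h.hp u a
    have e2 := cond_mem_eq (x := y) h.hq u b
    change p a * q b * (F a b * ((ind x u a - wt p x u) * (ind y u b - wt q y u))) = _
    have e3 : p a * (ind x u a - wt p x u)
        = (cond p (X.filter (fun a => u ∈ x a)) a - p a) * wt p x u := by
      rw [sub_mul, e1]; ring
    have e4 : q b * (ind y u b - wt q y u)
        = (cond q (Y.filter (fun b => u ∈ y b)) b - q b) * wt q y u := by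
      rw [sub_mul, e2]; ring
    calc p a * q b * (F a b * ((ind x u a - wt p x u) * (ind y u b - wt q y u)))
        = (p a * (ind x u a - wt p x u)) * (q b * (ind y u b - wt q y u)) * F a b := by ring
      _ = _ := by rw [e3, e4]; ring
  rw [hid]
  rcases hwp0.eq_or_lt with h0 | hwp
  · rw [← h0]; simp
  rcases hwq0.eq_or_lt with h0 | hwq
  · rw [← h0]; simp
  set X' := X.filter (fun a => u ∈ x a) with hX'
  set Y' := Y.filter (fun b => u ∈ y b) with hY'
  have hX'sub : X' ⊆ X := Finset.filter_subset _ _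
  have hY'sub : Y' ⊆ Y := Finset.filter_subset _ _
  have hsp : ∑ a ∈ X', p a = wt p x u := (wt_eq_sum_filter h.hp u).symm
  have hsq : ∑ b ∈ Y', q b = wt q y u := (wt_eq_sum_filter h.hq u).symm
  have hne1 : X'.Nonempty := by
    by_contra hne
    rw [Finset.not_nonempty_iff_eq_empty] at hne
    rw [hne, Finset.sum_empty] at hsp
    linarith
  have hne2 : Y'.Nonempty := by
    by_contra hne
    rw [Finset.not_nonempty_iff_eq_empty] at hne
    rw [hne, Finset.sum_empty] at hsq
    linarith
  have hP1 := cond_isProb h.hp.nonneg (by rw [hsp]; exact hwp : 0 < ∑ a ∈ X', p a)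
  have hQ1 := cond_isProb h.hq.nonneg (by rw [hsq]; exact hwq : 0 < ∑ b ∈ Y', q b)
  have hcore : (core x y X Y).card + 1 ≤ (core x y X' Y').card := by
    have hins : insert u (core x y X Y) ⊆ core x y X' Y' := by
      intro v hv
      rw [Finset.mem_insert] at hv
      rcases hv with rfl | hv
      · rw [mem_core]
        exact ⟨fun a ha => (Finset.mem_filter.1 ha).2, fun b hb => (Finset.mem_filter.1 hb).2⟩
      · exact core_mono x y hX'sub hY'sub hv
    have := Finset.card_le_card hins
    rw [Finset.card_insert_of_notMem hu] at this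
    exact this
  have hlev' : lev l x y X' Y' + 1 ≤ lev l x y X Y := by
    unfold lev at hlev ⊢
    omega
  have h1 := h.compare hX'sub hY'sub hP1 hQ1 (δ := g (lev l x y X Y)) (by
    refine le_trans (pot_drop hg hX'sub hY'sub hP1 hQ1 hlev') ?_
    exact h.pot_le (Finset.Subset.refl X) (Finset.Subset.refl Y) (hP1.mono hX'sub)
      (hQ1.mono hY'sub))
  rw [ent_cond (fun a ha => h.p_pos (hX'sub ha)) hne1, ent_cond (fun b hb => h.q_pos (hY'sub hb))
    hne2, hsp, hsq] at h1
  have h2 : Real.log (∑ a ∈ X', μ a) ≤ Real.log (∑ a ∈ X, μ a) := by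
    apply Real.log_le_log (h.sum_mu_pos hX'sub hne1)
    exact Finset.sum_le_sum_of_subset_of_nonneg hX'sub (fun a ha _ => (h.mu_pos ha).le)
  have h3 : Real.log (∑ b ∈ Y', ν b) ≤ Real.log (∑ b ∈ Y, ν b) := by
    apply Real.log_le_log (h.swap.sum_mu_pos hY'sub hne2)
    exact Finset.sum_le_sum_of_subset_of_nonneg hY'sub (fun b hb _ => (h.swap.mu_pos hb).le)
  have h4 : g (lev l x y X Y) ≤ - Real.log (wt p x u * wt q y u)
      + EE (fun a => cond p X' a - p a) (fun b => cond q Y' b - q b) F := by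
    rw [Real.log_mul hwp.ne' hwq.ne']
    linarith
  have h5 := mul_le_mul_of_nonneg_left h4 (mul_pos hwp hwq).le
  linarith

/-- excess over the core -/
lemma sum_notcore (hp : IsProb X p) (hq : IsProb Y q) (H : α → β → ℝ) :
    ∑ u ∈ univ \ core x y X Y, EE p q (fun a b => H a b * (ind x u a * ind y u b))
      = EE p q (fun a b => H a b * (MM x y a b - ((core x y X Y).card : ℝ))) := by
  rw [← EE_sum]
  apply le_antisymm
  all_goals
    apply EE_mono hp hq
    intro a ha b hb
    apply le_of_eq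
    rw [← Finset.mul_sum]
  · congr 1
    rw [MM_eq_sum, ← Finset.sum_sdiff (Finset.subset_univ (core x y X Y))]
    have : ∑ v ∈ core x y X Y, ind x v a * ind y v b = ((core x y X Y).card : ℝ) := by
      rw [Finset.cast_card]
      refine Finset.sum_congr rfl (fun v hv => ?_)
      rw [mem_core] at hv
      simp [ind, hv.1 a ha, hv.2 b hb]
    rw [this]; ring
  · congr 1
    rw [MM_eq_sum, ← Finset.sum_sdiff (Finset.subset_univ (core x y X Y))]
    have : ∑ v ∈ core x y X Y, ind x v a * ind y v b = ((core x y X Y).card : ℝ) := by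
      rw [Finset.cast_card]
      refine Finset.sum_congr rfl (fun v hv => ?_)
      rw [mem_core] at hv
      simp [ind, hv.1 a ha, hv.2 b hb]
    rw [this]; ring

/-- The inequality obtained from averaging over the links of all points. -/
lemma link_avg (hg : ∀ i, 0 ≤ g i)
    (h : IsMinPt μ ν (cL l g K x y) (wL w) G X Y p q) (hlev : 1 ≤ lev l x y X Y)
    (hn : 1 ≤ Fintype.card V) {m : ℝ}
    (hm : m = EE p q (fun a b => MM x y a b - ((core x y X Y).card : ℝ))) (hm1 : 1 / 4 ≤ m) :
    g (lev l x y X Y) * m ≤ m * Real.log (4 * (Fintype.card V : ℝ))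
      + ∑ u ∈ univ \ core x y X Y,
        EE p q (fun a b => ctr p q (FF (cL l g K x y) (wL w) G X Y p q) a b
          * (ind x u a * ind y u b)) := by
  set n : ℝ := (Fintype.card V : ℝ) with hnd
  have hn1 : 1 ≤ n := by rw [hnd]; exact_mod_cast hn
  have hmsum : ∑ u ∈ univ \ core x y X Y, wt p x u * wt q y u = m := by
    rw [hm]
    have h1 := sum_notcore (x := x) (y := y) h.hp h.hq (fun _ _ => (1 : ℝ))
    simp only [one_mul] at h1
    rw [← h1]
    refine Finset.sum_congr rfl (fun u _ => ?_)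
    unfold wt
    rw [EE_margL, Finset.sum_mul]
    refine Finset.sum_congr rfl (fun a _ => ?_)
    unfold margL
    rw [Finset.mul_sum, Finset.mul_sum]
    refine Finset.sum_congr rfl (fun b _ => ?_)
    ring
  have h1 := Finset.sum_le_sum (s := univ \ core x y X Y)
    (fun u hu => link_one hg h hlev (Finset.mem_sdiff.1 hu).2)
  rw [Finset.sum_add_distrib, ← Finset.mul_sum, hmsum] at h1
  refine h1.trans (add_le_add ?_ le_rfl)
  have h2 : ∀ u ∈ univ \ core x y X Y, - (wt p x u * wt q y u) * Real.log (wt p x u * wt q y u)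
      ≤ (wt p x u * wt q y u) * Real.log (4 * n) + (1 / (4 * n) - wt p x u * wt q y u) := by
    intro u _
    have hω0 := mul_nonneg (wt_nonneg h.hp x u) (wt_nonneg h.hq y u)
    set ω := wt p x u * wt q y u with hω
    rcases hω0.eq_or_lt with h0 | hpos
    · rw [← h0]; simp; positivity
    · have h3 := Real.log_le_sub_one_of_pos (show 0 < 1 / (4 * n) / ω by positivity)
      rw [Real.log_div (by positivity) hpos.ne', Real.log_div (by norm_num) (by positivity),
        Real.log_one] at h3
      have h4 := mul_le_mul_of_nonneg_left h3 hpos.le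
      have h5 : ω * (1 / (4 * n) / ω - 1) = 1 / (4 * n) - ω := by field_simp
      linarith
  refine (Finset.sum_le_sum h2).trans ?_
  rw [Finset.sum_add_distrib, ← Finset.sum_mul, Finset.sum_sub_distrib, hmsum, Finset.sum_const,
    nsmul_eq_mul]
  have h3 : ((univ \ core x y X Y).card : ℝ) ≤ n := by
    rw [hnd]
    exact_mod_cast Finset.card_le_univ _
  have h4 : ((univ \ core x y X Y).card : ℝ) * (1 / (4 * n)) ≤ n * (1 / (4 * n)) :=
    mul_le_mul_of_nonneg_right h3 (by positivity)
  have h5 : n * (1 / (4 * n)) = 1 / 4 := by field_simp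
  linarith

end

end Run7.h852
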