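import Pool.Agent.Run7.h852.Level

open Finset

set_option linter.unusedSectionVars false

namespace Run7.h852

/-- cost of one level, constant density -/
noncomputable def gC (n : ℝ) (i : ℕ) : ℝ := Real.log (4 * n) + 4 * Real.sqrt (n / i)

lemma gC_nonneg {n : ℝ} (hn : 1 ≤ n) (i : ℕ) : 0 ≤ gC n i := by
  unfold gC
  have : 0 ≤ Real.log (4 * n) := Real.log_nonneg (by linarith)
  positivity

lemma sqrt_step (n : ℝ) (hn : 0 ≤ n) (l : ℕ) :
    Real.sqrt (n / ((l : ℝ) + 1)) ≤ 2 * Real.sqrt (n * ((l : ℝ) + 1)) - 2 * Real.sqrt (n * l) := by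
  have hl : (0 : ℝ) ≤ (l : ℝ) := Nat.cast_nonneg l
  rw [Real.sqrt_div hn, Real.sqrt_mul hn, Real.sqrt_mul hn]
  set a := Real.sqrt ((l : ℝ) + 1) with ha
  set b := Real.sqrt (l : ℝ) with hb
  have ha2 : a * a = (l : ℝ) + 1 := Real.mul_self_sqrt (by linarith)
  have hb2 : b * b = (l : ℝ) := Real.mul_self_sqrt hl
  have ha0 : 0 < a := Real.sqrt_pos.2 (by linarith)
  have hb0 : 0 ≤ b := Real.sqrt_nonneg _
  rw [div_le_iff₀ ha0]
  have h1 : 1 ≤ (2 * a - 2 * b) * a := by nlinarith [sq_nonneg (a - b)]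
  have h2 := mul_le_mul_of_nonneg_left h1 (Real.sqrt_nonneg n)
  linarith

lemma LC_gC_le {n : ℝ} (hn : 1 ≤ n) (l : ℕ) :
    LC (gC n) l ≤ l * Real.log (4 * n) + 8 * Real.sqrt (n * l) := by
  induction l with
  | zero => simp [LC]
  | succ l ih =>
    rw [LC_succ]
    have h1 := sqrt_step n (by linarith) l
    unfold gC at ih ⊢
    push_cast at h1 ⊢
    linarith

section

variable {α β V : Type} [Fintype α] [Fintype β] [DecidableEq α] [DecidableEq β]
  [Fintype V] [DecidableEq V]

/-- the mean excess over the core -/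
lemma excess_ge {l : ℕ} {x : α → Finset V} {y : β → Finset V} {X : Finset α} {Y : Finset β}
    {p : α → ℝ} {q : β → ℝ} (hp : IsProb X p) (hq : IsProb Y q) :
    (lev l x y X Y : ℝ) * (1 - EE p q (bad l x y))
      ≤ EE p q (fun a b => MM x y a b - ((core x y X Y).card : ℝ)) := by
  rw [← EE_one_sub hp hq, ← EE_smul]
  apply EE_mono hp hq
  intro a ha b hb
  have hsub : core x y X Y ⊆ x a ∩ y b := by
    intro v hv
    rw [mem_core] at hv
    exact Finset.mem_inter.2 ⟨hv.1 a ha, hv.2 b hb⟩
  have hcard := Finset.card_le_card hsub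
  have hcard' : ((core x y X Y).card : ℝ) ≤ MM x y a b := by
    unfold MM; exact_mod_cast hcard
  unfold bad
  split_ifs with h
  · unfold MM lev
    rw [h] at hcard ⊢
    push_cast [Nat.cast_sub hcard]
    linarith
  · rw [sub_self, mul_zero]; linarith

/-- removing a part of the core -/
lemma bad_remove {l : ℕ} {x : α → Finset V} {y : β → Finset V} {X : Finset α} {Y : Finset β}
    {U : Finset V} (hU : U ⊆ core x y X Y) (hUc : U.card = l) {a : α} {b : β} (ha : a ∈ X)
    (hb : b ∈ Y) :
    ((x a \ U) ∩ (y b \ U)).card = 0 ↔ (x a ∩ y b).card = l := by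
  have h1 : U ⊆ x a := fun v hv => (mem_core.1 (hU hv)).1 a ha
  have h2 : U ⊆ y b := fun v hv => (mem_core.1 (hU hv)).2 b hb
  have h3 := card_link x y U h1 h2
  omega

/-- The case of constant density, uniformly in `l`. -/
theorem uniform_const : ∃ C : ℝ, 0 < C ∧
    ∀ {α β V : Type} [Fintype α] [Fintype β] [DecidableEq α] [DecidableEq β]
      [Fintype V] [DecidableEq V] {l : ℕ} (_ : 1 ≤ l)
      {X0 : Finset α} {Y0 : Finset β} {μ : α → ℝ} {ν : β → ℝ}
      (_ : IsProb X0 μ) (_ : IsProb Y0 ν) (x : α → Finset V) (y : β → Finset V)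
      (_ : 1 ≤ Fintype.card V) (_ : EE μ ν (bad l x y) ≤ 5 / 8),
      ∃ (X : Finset α) (Y : Finset β) (p : α → ℝ) (q : β → ℝ), X ⊆ supp μ ∧ Y ⊆ supp ν ∧
        IsProb X p ∧ IsProb Y q ∧
        Dom μ ν p q (C * (Real.sqrt ((Fintype.card V : ℝ) * l)
          + l * Real.log ((Fintype.card V : ℝ) + 1))) ∧
        ∀ a ∈ X, ∀ b ∈ Y, (x a ∩ y b).card = l := by
  obtain ⟨C0, hC0, hcc⟩ := const_case 0
  refine ⟨200 + C0, by positivity, ?_⟩
  intro α β V _ _ _ _ _ _ l hl X0 Y0 μ ν hμ hν x y hn hbad
  set n : ℝ := (Fintype.card V : ℝ) with hnd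
  have hn1 : 1 ≤ n := by rw [hnd]; exact_mod_cast hn
  have hn0 : 0 ≤ n := by linarith
  have hl1 : (1 : ℝ) ≤ (l : ℝ) := by exact_mod_cast hl
  have hlog4 : 0 < Real.log (4 * n) := Real.log_pos (by linarith)
  have hsnl : 0 ≤ Real.sqrt (n * l) := Real.sqrt_nonneg _
  set B : ℝ := l * Real.log (4 * n) + 8 * Real.sqrt (n * l) with hB
  have hBpos : 0 < B := by positivity
  set β0 : ℝ := 16 * B with hβ0
  have hβ0pos : 0 < β0 := by positivity
  set g : ℕ → ℝ := gC n with hg
  have hg0 : ∀ i, 0 ≤ g i := fun i => gC_nonneg hn1 i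
  set K : Fin 0 → ℝ := fun _ => 0 with hK
  set w : Fin 0 → α → β → ℝ := fun _ _ _ => 0 with hw
  set G : α → β → ℝ := fun a b => β0 * bad l x y a b with hG
  have hgood : GoodPot (cL l g K x y) (wL w) G :=
    goodL hg0 (fun _ => le_rfl) (fun _ _ _ => le_rfl)
      (fun a b => mul_nonneg hβ0pos.le (bad_nonneg l x y a b)) x y
  obtain ⟨X, Y, p, q, h⟩ := exists_minPt hμ hν hgood
  have hLC : ∀ X Y, LC g (lev l x y X Y) ≤ B := fun X Y =>
    (LC_mono hg0 (lev_le l x y X Y)).trans (LC_gC_le hn1 l)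
  have hpotval : ∀ {X1 : Finset α} {Y1 : Finset β} (X : Finset α) (Y : Finset β) {p : α → ℝ}
      {q : β → ℝ}, IsProb X1 p → IsProb Y1 q →
      pot (cL l g K x y) (wL w) G X Y p q = LC g (lev l x y X Y) + β0 * EE p q (bad l x y) := by
    intro X1 Y1 X Y p q hp hq
    rw [pot_L X Y hp hq, hG, EE_smul]
    simp
  have hP0 : P0 μ ν (cL l g K x y) (wL w) G ≤ 11 * B := by
    unfold P0
    rw [hpotval _ _ hμ hν]
    have h1 := hLC (supp μ) (supp ν)
    have h2 : β0 * EE μ ν (bad l x y) ≤ β0 * (5 / 8) := mul_le_mul_of_nonneg_left hbad hβ0pos.le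
    rw [hβ0] at h2 ⊢
    linarith
  have hbad' : EE p q (bad l x y) ≤ 11 / 16 := by
    have h1 := h.pot_le_P0 hμ hν
    rw [hpotval _ _ h.hp h.hq] at h1
    have h2 : 0 ≤ LC g (lev l x y X Y) := LC_nonneg hg0 _
    have h3 : β0 * EE p q (bad l x y) ≤ β0 * (11 / 16) := by
      have : β0 * (11 / 16) = 11 * B := by rw [hβ0]; ring
      linarith
    exact le_of_mul_le_mul_left h3 hβ0pos
  have hbad0 : 0 ≤ EE p q (bad l x y) := EE_nonneg h.hp.nonneg h.hq.nonneg (bad_nonneg l x y)
  -- the level vanishes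
  have hlev0 : lev l x y X Y = 0 := by
    by_contra hne
    have hlev1 : 1 ≤ lev l x y X Y := Nat.one_le_iff_ne_zero.2 hne
    have hlev1r : (1 : ℝ) ≤ (lev l x y X Y : ℝ) := by exact_mod_cast hlev1
    set m := EE p q (fun a b => MM x y a b - ((core x y X Y).card : ℝ)) with hm
    have hmge : (5 / 16 : ℝ) * (lev l x y X Y : ℝ) ≤ m := by
      have h1 := excess_ge (l := l) (x := x) (y := y) h.hp h.hq
      have h2 : (lev l x y X Y : ℝ) * (5 / 16) ≤ (lev l x y X Y : ℝ) * (1 - EE p q (bad l x y)) :=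
        mul_le_mul_of_nonneg_left (by linarith) (by linarith)
      linarith
    have hmpos : 0 < m := by linarith
    have h1 := link_avg hg0 h hlev1 hn hm (by linarith)
    have hmsum : ∑ u ∈ univ \ core x y X Y, wt p x u * wt q y u = m := by
      rw [hm]
      have h1 := sum_notcore (x := x) (y := y) h.hp h.hq (fun _ _ => (1 : ℝ))
      simp only [one_mul] at h1
      rw [← h1]
      refine Finset.sum_congr rfl (fun u _ => ?_)
      unfold wt
      rw [EE_margL, Finset.sum_mul]
      refine Finset.sum_congr rfl (fun a _ => ?_)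
      unfold margL
      rw [Finset.mul_sum, Finset.mul_sum]
      refine Finset.sum_congr rfl (fun b _ => ?_)
      ring
    have h2 : ∑ u ∈ univ \ core x y X Y,
        EE p q (fun a b => ctr p q (FF (cL l g K x y) (wL w) G X Y p q) a b
          * (ind x u a * ind y u b)) ≤ 2 * Real.sqrt (n * m) := by
      have h3 : ∀ u ∈ univ \ core x y X Y,
          EE p q (fun a b => ctr p q (FF (cL l g K x y) (wL w) G X Y p q) a b
            * (ind x u a * ind y u b)) ≤ 2 * Real.sqrt (wt p x u * wt q y u) := by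
        intro u _
        apply le_two_sqrt (wt_nonneg h.hp x u) (wt_nonneg h.hq y u)
        intro t ht
        have := h.test_one (ind x u) (ind y u) ht
        rw [sum_ind_sq, sum_ind_sq] at this
        exact this
      refine (Finset.sum_le_sum h3).trans ?_
      rw [← Finset.mul_sum]
      apply mul_le_mul_of_nonneg_left _ (by norm_num)
      have h4 := sum_sqrt_le (univ \ core x y X Y) (fun u => wt p x u * wt q y u)
        (fun u _ => mul_nonneg (wt_nonneg h.hp x u) (wt_nonneg h.hq y u))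
      refine h4.trans ?_
      rw [hmsum]
      apply Real.sqrt_le_sqrt
      apply mul_le_mul_of_nonneg_right _ hmpos.le
      rw [hnd]
      exact_mod_cast Finset.card_le_univ _
    have h5 : g (lev l x y X Y) * m ≤ m * Real.log (4 * n) + 2 * Real.sqrt (n * m) := by
      linarith
    rw [hg] at h5
    unfold gC at h5
    have h6 : 4 * Real.sqrt (n / (lev l x y X Y : ℝ)) * m ≤ 2 * Real.sqrt (n * m) := by
      linarith
    -- contradiction
    set s := Real.sqrt (n / (lev l x y X Y : ℝ)) with hs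
    have hspos : 0 < s := Real.sqrt_pos.2 (by positivity)
    have hs2 : s * s = n / (lev l x y X Y : ℝ) := Real.mul_self_sqrt (by positivity)
    have h7 : Real.sqrt (n * m) < 2 * s * m := by
      rw [Real.sqrt_lt' (by positivity)]
      have h8 : n * m < 4 * (s * s) * (m * m) := by
        rw [hs2]
        have h9 : n = n / (lev l x y X Y : ℝ) * (lev l x y X Y : ℝ) := by field_simp
        have h10 : 0 < n / (lev l x y X Y : ℝ) := by positivity
        have h11 : n * m ≤ n / (lev l x y X Y : ℝ) * ((16 / 5) * m * m) := by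
          have h12 : (lev l x y X Y : ℝ) * m ≤ (16 / 5) * m * m :=
            mul_le_mul_of_nonneg_right (by linarith) hmpos.le
          calc n * m = n / (lev l x y X Y : ℝ) * ((lev l x y X Y : ℝ) * m) := by
                rw [← mul_assoc, ← h9]
            _ ≤ _ := mul_le_mul_of_nonneg_left h12 h10.le
        have h13 : 0 < n / (lev l x y X Y : ℝ) * (m * m) := by positivity
        nlinarith
      calc n * m < 4 * (s * s) * (m * m) := h8
        _ = (2 * s * m) ^ 2 := by ring
    linarith
  have hcore : l ≤ (core x y X Y).card := by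
    unfold lev at hlev0
    omega
  obtain ⟨U, hU, hUc⟩ := Finset.exists_subset_card_eq hcore
  obtain ⟨X', Y', p', q', hX', hY', hp', hq', hD', hgood'⟩ := hcc h.hp h.hq
    (fun a => x a \ U) (fun b => y b \ U) hn (by
      have h1 : EE p q (bad 0 (fun a => x a \ U) (fun b => y b \ U)) ≤ EE p q (bad l x y) := by
        apply EE_mono h.hp h.hq
        intro a ha b hb
        have h2 := bad_remove hU hUc ha hb
        unfold bad
        by_cases h3 : (x a ∩ y b).card = l
        · rw [if_pos h3, if_pos (h2.2 h3)]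
        · rw [if_neg h3]
          split_ifs <;> norm_num
      have h2 : (11 / 16 : ℝ) ≤ eT 0 := by unfold eT; norm_num
      linarith)
  have hX'X : X' ⊆ X := by
    intro a ha
    by_contra hcon
    have := mem_supp.1 (hX' ha)
    rw [h.hp.zero a hcon] at this
    exact lt_irrefl _ this
  have hY'Y : Y' ⊆ Y := by
    intro b hb
    by_contra hcon
    have := mem_supp.1 (hY' hb)
    rw [h.hq.zero b hcon] at this
    exact lt_irrefl _ this
  refine ⟨X', Y', p', q', hX'X.trans h.hX, hY'Y.trans h.hY, hp', hq', ?_, ?_⟩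
  · have hD : Dom μ ν p q (22 * B) := by
      obtain ⟨κ1, κ2, h1, h2, h3⟩ := h.domination hμ hν
      exact ⟨κ1, κ2, h1, h2, by linarith⟩
    refine (hD.trans hD').mono ?_
    rw [← hnd]
    have hlogn : 0 ≤ Real.log (n + 1) := Real.log_nonneg (by linarith)
    have h1 : Real.log (4 * n) ≤ 2 * Real.log (n + 1) := by
      have h2 : Real.log (4 * n) ≤ Real.log ((n + 1) ^ 2) := by
        apply Real.log_le_log (by linarith)
        nlinarith [sq_nonneg (n - 1)]
      rw [Real.log_pow] at h2
      push_cast at h2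
      exact h2
    have h2 : Real.sqrt n ≤ Real.sqrt (n * l) := by
      apply Real.sqrt_le_sqrt
      nlinarith
    have h3 : Real.log (n + 1) ≤ l * Real.log (n + 1) := by nlinarith
    have h4 : C0 * (Real.sqrt n + Real.log (n + 1))
        ≤ C0 * (Real.sqrt (n * l) + l * Real.log (n + 1)) :=
      mul_le_mul_of_nonneg_left (by linarith) hC0.le
    have h5 : 22 * B ≤ 200 * (Real.sqrt (n * l) + l * Real.log (n + 1)) := by
      rw [hB]
      have h6 : l * Real.log (4 * n) ≤ l * (2 * Real.log (n + 1)) :=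
        mul_le_mul_of_nonneg_left h1 (by linarith)
      have h7 : 0 ≤ l * Real.log (n + 1) := by positivity
      linarith
    linarith
  · intro a ha b hb
    exact (bad_remove hU hUc (hX'X ha) (hY'Y hb)).1 (hgood' a ha b hb)

end

end Run7.h852
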