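import Pool.Agent.Run7.h852.Sets

open Finset

set_option linter.unusedSectionVars false

namespace Run7.h852

variable {α β ι O : Type*} [Fintype α] [Fintype β] [Fintype ι] [DecidableEq α] [DecidableEq β]
  [Fintype O]

/-- An orthonormal system for the weighted column space. -/
lemma exists_system {X : Finset α} {p : α → ℝ} (hp : IsProb X p) (hpos : ∀ a ∈ X, 0 < p a)
    (T : α → β → ℝ) (f : O → α → ℝ) (g : O → β → ℝ)
    (hT : ∀ a ∈ X, ∀ b, T a b = ∑ o, f o a * g o b) :
    ∃ (k : ℕ) (F : Fin k → α → ℝ), k ≤ Fintype.card O ∧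
      (∀ i j, ∑ a, p a * (F i a * F j a) = if i = j then 1 else 0) ∧
      (∀ a ∈ X, ∀ b, T a b = ∑ i, F i a * (∑ a', p a' * (F i a' * T a' b))) := by
  classical
  set col : O → EuclideanSpace ℝ α := fun o => WithLp.toLp 2 (fun a => Real.sqrt (p a) * f o a)
    with hcol
  set W : Submodule ℝ (EuclideanSpace ℝ α) := Submodule.span ℝ (Set.range col) with hW
  have hzero : ∀ w ∈ W, ∀ a, a ∉ X → w a = 0 := by
    intro w hw a ha
    rw [hW] at hw
    induction hw using Submodule.span_induction with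
    | mem w hw =>
      obtain ⟨o, rfl⟩ := hw
      simp [hcol, hp.zero a ha]
    | zero => simp
    | add w w' _ _ h1 h2 => simp [h1, h2]
    | smul r w _ h1 => simp [h1]
  set e := stdOrthonormalBasis ℝ W with he
  set F : Fin (Module.finrank ℝ W) → α → ℝ :=
    fun i a => if a ∈ X then (e i : EuclideanSpace ℝ α) a / Real.sqrt (p a) else 0 with hF
  have hsq : ∀ a ∈ X, Real.sqrt (p a) * Real.sqrt (p a) = p a := fun a ha =>
    Real.mul_self_sqrt (hpos a ha).le
  have hsqpos : ∀ a ∈ X, 0 < Real.sqrt (p a) := fun a ha => Real.sqrt_pos.2 (hpos a ha)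
  have hinner : ∀ u v : EuclideanSpace ℝ α, inner ℝ u v = ∑ a, u a * v a := by
    intro u v
    rw [PiLp.inner_apply]
    refine Finset.sum_congr rfl (fun a _ => ?_)
    simp [mul_comm]
  refine ⟨Module.finrank ℝ W, F, ?_, ?_, ?_⟩
  · have h1 := finrank_range_le_card (R := ℝ) col
    rw [Set.finrank] at h1
    exact h1
  · intro i j
    have h1 : ∑ a, p a * (F i a * F j a)
        = ∑ a, (e i : EuclideanSpace ℝ α) a * (e j : EuclideanSpace ℝ α) a := by
      refine Finset.sum_congr rfl (fun a _ => ?_)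
      by_cases ha : a ∈ X
      · simp only [hF, if_pos ha]
        have h2 := hsq a ha
        have h3 := hsqpos a ha
        rw [div_mul_div_comm, h2, mul_div_cancel₀ _ (hpos a ha).ne']
      · rw [hzero _ (e i).2 a ha, hp.zero a ha]; ring
    rw [h1, ← hinner]
    have h2 := e.orthonormal
    rw [orthonormal_iff_ite] at h2
    have h3 := h2 i j
    rw [Submodule.coe_inner] at h3
    exact h3
  · intro a ha b
    set c : EuclideanSpace ℝ α := ∑ o, g o b • col o with hc
    have hcW : c ∈ W := Submodule.sum_mem _ (fun o _ => Submodule.smul_mem _ _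
      (Submodule.subset_span ⟨o, rfl⟩))
    have hcval : ∀ a ∈ X, c a = Real.sqrt (p a) * T a b := by
      intro a ha
      rw [hT a ha b, hc, Finset.mul_sum]
      simp only [hcol, WithLp.ofLp_sum, WithLp.ofLp_smul, Finset.sum_apply, Pi.smul_apply,
        smul_eq_mul]
      refine Finset.sum_congr rfl (fun o _ => ?_)
      ring
    have h1 := e.sum_repr' ⟨c, hcW⟩
    have h2 := congrArg (fun w : W => (w : EuclideanSpace ℝ α) a) h1
    simp only [Submodule.coe_sum, Submodule.coe_smul, WithLp.ofLp_sum, WithLp.ofLp_smul,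
      Finset.sum_apply, Pi.smul_apply, smul_eq_mul] at h2
    rw [hcval a ha] at h2
    have h3 : ∀ i, (inner ℝ (e i) (⟨c, hcW⟩ : W) : ℝ) = ∑ a', p a' * (F i a' * T a' b) := by
      intro i
      rw [Submodule.coe_inner, hinner]
      refine Finset.sum_congr rfl (fun a' _ => ?_)
      by_cases ha' : a' ∈ X
      · simp only [hF, if_pos ha']
        rw [hcval a' ha']
        have h4 := hsq a' ha'
        have h5 := hsqpos a' ha'
        have h6 : p a' / Real.sqrt (p a') = Real.sqrt (p a') := by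
          rw [div_eq_iff h5.ne']; exact h4.symm
        calc (e i : EuclideanSpace ℝ α) a' * (Real.sqrt (p a') * T a' b)
            = (p a' / Real.sqrt (p a')) * ((e i : EuclideanSpace ℝ α) a' * T a' b) := by
              rw [h6]; ring
          _ = _ := by ring
      · rw [hzero _ (e i).2 a' ha', hp.zero a' ha']; ring
    have h4 : Real.sqrt (p a) * T a b
        = Real.sqrt (p a) * ∑ i, F i a * (∑ a', p a' * (F i a' * T a' b)) := by
      rw [← h2, Finset.mul_sum]
      refine Finset.sum_congr rfl (fun i _ => ?_)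
      rw [h3 i]
      simp only [hF, if_pos ha]
      have h5 := hsqpos a ha
      field_simp
    exact mul_left_cancel₀ (hsqpos a ha).ne' h4

/-- Bessel's inequality -/
lemma bessel {k : ℕ} {p : α → ℝ} (hp : ∀ a, 0 ≤ p a) (F : Fin k → α → ℝ)
    (hF : ∀ i j, ∑ a, p a * (F i a * F j a) = if i = j then 1 else 0) (φ : α → ℝ) :
    ∑ i, (∑ a, p a * (F i a * φ a)) ^ 2 ≤ ∑ a, p a * φ a ^ 2 := by
  set c : Fin k → ℝ := fun i => ∑ a, p a * (F i a * φ a) with hc
  have h0 : 0 ≤ ∑ a, p a * (φ a - ∑ i, c i * F i a) ^ 2 :=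
    Finset.sum_nonneg (fun a _ => mul_nonneg (hp a) (sq_nonneg _))
  have h1 : ∑ a, p a * (φ a - ∑ i, c i * F i a) ^ 2
      = ∑ a, p a * φ a ^ 2 - 2 * ∑ i, c i * c i
        + ∑ i, ∑ j, c i * c j * ∑ a, p a * (F i a * F j a) := by
    have e1 : ∀ a, p a * (φ a - ∑ i, c i * F i a) ^ 2
        = p a * φ a ^ 2 - 2 * ∑ i, c i * (p a * (F i a * φ a))
          + ∑ i, ∑ j, c i * c j * (p a * (F i a * F j a)) := by
      intro a
      have e2 : (∑ i, c i * F i a) ^ 2 = ∑ i, ∑ j, (c i * F i a) * (c j * F j a) := by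
        rw [sq, Finset.sum_mul_sum]
      have e3 : p a * (∑ i, c i * F i a) ^ 2 = ∑ i, ∑ j, c i * c j * (p a * (F i a * F j a)) := by
        rw [e2, Finset.mul_sum]
        refine Finset.sum_congr rfl (fun i _ => ?_)
        rw [Finset.mul_sum]
        refine Finset.sum_congr rfl (fun j _ => ?_)
        ring
      have e4 : p a * φ a * (∑ i, c i * F i a) = ∑ i, c i * (p a * (F i a * φ a)) := by
        rw [Finset.mul_sum]
        refine Finset.sum_congr rfl (fun i _ => ?_)
        ring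
      rw [← e3, ← e4]; ring
    simp_rw [e1]
    rw [Finset.sum_add_distrib, Finset.sum_sub_distrib, ← Finset.mul_sum]
    congr 1
    · congr 2
      rw [Finset.sum_comm]
      refine Finset.sum_congr rfl (fun i _ => ?_)
      rw [← Finset.mul_sum]
    · rw [Finset.sum_comm]
      refine Finset.sum_congr rfl (fun i _ => ?_)
      rw [Finset.sum_comm]
      refine Finset.sum_congr rfl (fun j _ => ?_)
      rw [← Finset.mul_sum]
  have h2 : ∑ i, ∑ j, c i * c j * ∑ a, p a * (F i a * F j a) = ∑ i, c i * c i := by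
    refine Finset.sum_congr rfl (fun i _ => ?_)
    simp_rw [hF]
    simp
  rw [h2] at h1
  have h3 : ∑ i, c i ^ 2 = ∑ i, c i * c i :=
    Finset.sum_congr rfl (fun i _ => by ring)
  rw [h3]
  linarith

/-- Parseval for the columns -/
lemma parseval {X : Finset α} {p : α → ℝ} (hp : IsProb X p) {k : ℕ} {F : Fin k → α → ℝ}
    {T : α → β → ℝ}
    (hT : ∀ a ∈ X, ∀ b, T a b = ∑ i, F i a * (∑ a', p a' * (F i a' * T a' b))) (b : β) :
    ∑ a, p a * T a b ^ 2 = ∑ i, (∑ a', p a' * (F i a' * T a' b)) ^ 2 := by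
  have h1 : ∀ a, p a * T a b ^ 2
      = ∑ i, (∑ a', p a' * (F i a' * T a' b)) * (p a * (F i a * T a b)) := by
    intro a
    by_cases ha : a ∈ X
    · have h2 : p a * T a b ^ 2 = p a * T a b * T a b := by ring
      rw [h2]
      conv_lhs => rw [hT a ha b]
      rw [Finset.mul_sum]
      refine Finset.sum_congr rfl (fun i _ => ?_)
      rw [← hT a ha b]
      ring
    · rw [hp.zero a ha]; simp
  simp_rw [h1]
  rw [Finset.sum_comm]
  refine Finset.sum_congr rfl (fun i _ => ?_)
  rw [← Finset.mul_sum, sq]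

lemma sum_weighted_comm (p : α → ℝ) (q : β → ℝ) (h : α → β → ℝ) :
    EE p q h = ∑ b, q b * ∑ a, p a * h a b := by
  unfold EE
  rw [Finset.sum_comm]
  refine Finset.sum_congr rfl (fun b _ => ?_)
  rw [Finset.mul_sum]
  refine Finset.sum_congr rfl (fun a _ => ?_)
  ring

section

variable {μ : α → ℝ} {ν : β → ℝ} {c : ι → Finset α → Finset β → ℝ}
    {w : ι → α → β → ℝ} {G : α → β → ℝ}
    {X : Finset α} {Y : Finset β} {p : α → ℝ} {q : β → ℝ}

/-- rank test -/
lemma IsMinPt.test_rank (h : IsMinPt μ ν c w G X Y p q) (T : α → β → ℝ) (f : O → α → ℝ)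
    (g : O → β → ℝ) (hT : ∀ a ∈ X, ∀ b, T a b = ∑ o, f o a * g o b) :
    EE p q (fun a b => ctr p q (FF c w G X Y p q) a b * T a b)
      ≤ 2 * Real.sqrt ((Fintype.card O : ℝ) * EE p q (fun a b => T a b ^ 2)) := by
  obtain ⟨k, F, hk, hF, hTF⟩ := exists_system h.hp (fun a ha => h.p_pos ha) T f g hT
  have hET : EE p q (fun a b => T a b ^ 2)
      = ∑ i, ∑ b, q b * (∑ a', p a' * (F i a' * T a' b)) ^ 2 := by
    rw [sum_weighted_comm]
    simp_rw [parseval h.hp hTF]
    simp_rw [Finset.mul_sum]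
    rw [Finset.sum_comm]
  have hET0 : 0 ≤ EE p q (fun a b => T a b ^ 2) :=
    EE_nonneg h.hp.nonneg h.hq.nonneg (fun a b => sq_nonneg _)
  have h1 : EE p q (fun a b => ctr p q (FF c w G X Y p q) a b * T a b)
      = EE p q (fun a b => ∑ i ∈ (univ : Finset (Fin k)),
        (fun i a b => ctr p q (FF c w G X Y p q) a b
          * (F i a * (∑ a', p a' * (F i a' * T a' b)))) i a b) := by
    unfold EE
    refine Finset.sum_congr rfl (fun a _ => Finset.sum_congr rfl (fun b _ => ?_))
    by_cases ha : a ∈ X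
    · congr 1
      beta_reduce
      rw [← Finset.mul_sum, ← hTF a ha b]
    · rw [h.hp.zero a ha]; ring
  rw [h1, EE_sum]
  apply le_two_sqrt (by positivity) hET0
  intro t ht
  calc ∑ i ∈ (univ : Finset (Fin k)), EE p q (fun a b => ctr p q (FF c w G X Y p q) a b
        * (F i a * (∑ a', p a' * (F i a' * T a' b))))
      ≤ ∑ i ∈ (univ : Finset (Fin k)), (t * ∑ a, p a * F i a ^ 2
        + t⁻¹ * ∑ b, q b * (∑ a', p a' * (F i a' * T a' b)) ^ 2) :=
        Finset.sum_le_sum (fun i _ => h.test_one _ _ ht)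
    _ = t * (k : ℝ) + t⁻¹ * EE p q (fun a b => T a b ^ 2) := by
        rw [Finset.sum_add_distrib, hET, ← Finset.mul_sum, ← Finset.mul_sum]
        congr 2
        have : ∀ i : Fin k, ∑ a, p a * F i a ^ 2 = 1 := by
          intro i
          have h2 := hF i i
          rw [if_pos rfl] at h2
          rw [← h2]
          refine Finset.sum_congr rfl (fun a _ => by ring)
        simp_rw [this]
        simp
    _ ≤ t * (Fintype.card O : ℝ) + t⁻¹ * EE p q (fun a b => T a b ^ 2) := by
        have : (k : ℝ) ≤ (Fintype.card O : ℝ) := by exact_mod_cast hk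
        have := mul_le_mul_of_nonneg_left this ht.le
        linarith

/-- the operator with kernel the centred matrix has norm at most two -/
lemma IsMinPt.op_le (h : IsMinPt μ ν c w G X Y p q) (φ : β → ℝ) :
    ∑ a, p a * (∑ b, q b * (ctr p q (FF c w G X Y p q) a b * φ b)) ^ 2
      ≤ 4 * ∑ b, q b * φ b ^ 2 := by
  set f : α → ℝ := fun a => ∑ b, q b * (ctr p q (FF c w G X Y p q) a b * φ b) with hf
  have h1 := h.test_one f φ (t := 1 / 2) (by norm_num)
  have h2 : EE p q (fun a b => ctr p q (FF c w G X Y p q) a b * (f a * φ b))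
      = ∑ a, p a * f a ^ 2 := by
    rw [EE_eq_left]
    refine Finset.sum_congr rfl (fun a _ => ?_)
    congr 1
    have : ∑ b, q b * (ctr p q (FF c w G X Y p q) a b * (f a * φ b))
        = f a * ∑ b, q b * (ctr p q (FF c w G X Y p q) a b * φ b) := by
      rw [Finset.mul_sum]
      refine Finset.sum_congr rfl (fun b _ => by ring)
    rw [this, sq]
  rw [h2] at h1
  have h3 : ((1 : ℝ) / 2)⁻¹ = 2 := by norm_num
  rw [h3] at h1
  linarith

end

/-- The Gram matrix of the rows. -/
def gram (q : β → ℝ) (T : α → β → ℝ) (a a' : α) : ℝ := ∑ b, q b * (T a b * T a' b)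

/-- The trace inequality for a matrix of bounded rank. -/
lemma trace_ineq {X : Finset α} {p : α → ℝ} {q : β → ℝ} (hp : IsProb X p)
    (hpos : ∀ a ∈ X, 0 < p a)
    (T : α → β → ℝ) (f : O → α → ℝ) (g : O → β → ℝ)
    (hT : ∀ a ∈ X, ∀ b, T a b = ∑ o, f o a * g o b) :
    EE p q (fun a b => T a b ^ 2) ^ 2
      ≤ (Fintype.card O : ℝ) * ∑ a, p a * ∑ a', p a' * gram q T a a' ^ 2 := by
  obtain ⟨k, F, hk, hF, hTF⟩ := exists_system hp hpos T f g hT
  set s : Fin k → ℝ := fun i => ∑ b, q b * (∑ a', p a' * (F i a' * T a' b)) ^ 2 with hs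
  have hET : EE p q (fun a b => T a b ^ 2) = ∑ i, s i := by
    rw [sum_weighted_comm]
    simp_rw [parseval hp hTF]
    simp_rw [Finset.mul_sum]
    rw [Finset.sum_comm]
  set H : Fin k → α → ℝ := fun i a => ∑ a', p a' * (F i a' * gram q T a a') with hH
  have hs2 : ∀ i, s i = ∑ a, p a * (F i a * H i a) := by
    intro i
    simp only [hs, hH, gram]
    have e1 : ∀ b, q b * (∑ a', p a' * (F i a' * T a' b)) ^ 2
        = ∑ a, ∑ a', p a * F i a * (p a' * F i a') * (q b * (T a b * T a' b)) := by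
      intro b
      rw [sq, Finset.sum_mul_sum, Finset.mul_sum]
      refine Finset.sum_congr rfl (fun a _ => ?_)
      rw [Finset.mul_sum]
      refine Finset.sum_congr rfl (fun a' _ => ?_)
      ring
    simp_rw [e1]
    rw [Finset.sum_comm]
    refine Finset.sum_congr rfl (fun a _ => ?_)
    rw [Finset.sum_comm, Finset.mul_sum, Finset.mul_sum]
    refine Finset.sum_congr rfl (fun a' _ => ?_)
    rw [← Finset.mul_sum]
    ring
  have hone : ∀ i : Fin k, ∑ a, p a * F i a ^ 2 = 1 := by
    intro i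
    have h2 := hF i i
    rw [if_pos rfl] at h2
    rw [← h2]
    exact Finset.sum_congr rfl (fun a _ => by ring)
  have hs3 : ∀ i, s i ^ 2 ≤ ∑ a, p a * H i a ^ 2 := by
    intro i
    rw [hs2 i]
    have h1 := Finset.sum_mul_sq_le_sq_mul_sq (univ : Finset α)
      (fun a => Real.sqrt (p a) * F i a) (fun a => Real.sqrt (p a) * H i a)
    have e1 : ∀ a, Real.sqrt (p a) * F i a * (Real.sqrt (p a) * H i a)
        = p a * (F i a * H i a) := by
      intro a
      have := Real.mul_self_sqrt (hp.nonneg a)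
      calc Real.sqrt (p a) * F i a * (Real.sqrt (p a) * H i a)
          = (Real.sqrt (p a) * Real.sqrt (p a)) * (F i a * H i a) := by ring
        _ = _ := by rw [this]
    have e2 : ∀ a, (Real.sqrt (p a) * F i a) ^ 2 = p a * F i a ^ 2 := by
      intro a
      rw [mul_pow, Real.sq_sqrt (hp.nonneg a)]
    have e3 : ∀ a, (Real.sqrt (p a) * H i a) ^ 2 = p a * H i a ^ 2 := by
      intro a
      rw [mul_pow, Real.sq_sqrt (hp.nonneg a)]
    simp_rw [e1, e2, e3] at h1
    rw [hone i, one_mul] at h1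
    exact h1
  have hs4 : ∑ i, s i ^ 2 ≤ ∑ a, p a * ∑ a', p a' * gram q T a a' ^ 2 := by
    calc ∑ i, s i ^ 2 ≤ ∑ i, ∑ a, p a * H i a ^ 2 := Finset.sum_le_sum (fun i _ => hs3 i)
      _ = ∑ a, p a * ∑ i, H i a ^ 2 := by
          rw [Finset.sum_comm]
          refine Finset.sum_congr rfl (fun a _ => ?_)
          rw [Finset.mul_sum]
      _ ≤ _ := Finset.sum_le_sum (fun a _ => mul_le_mul_of_nonneg_left
          (bessel hp.nonneg F hF (fun a' => gram q T a a')) (hp.nonneg a))
  rw [hET]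
  have h1 : (∑ i, s i) ^ 2 ≤ (k : ℝ) * ∑ i, s i ^ 2 := by
    have := sq_sum_le_card_mul_sum_sq (s := (univ : Finset (Fin k))) (f := s)
    simpa using this
  have h2 : 0 ≤ ∑ i, s i ^ 2 := Finset.sum_nonneg (fun i _ => sq_nonneg _)
  have h3 : (k : ℝ) ≤ (Fintype.card O : ℝ) := by exact_mod_cast hk
  calc (∑ i, s i) ^ 2 ≤ (k : ℝ) * ∑ i, s i ^ 2 := h1
    _ ≤ (Fintype.card O : ℝ) * ∑ i, s i ^ 2 := mul_le_mul_of_nonneg_right h3 h2
    _ ≤ _ := mul_le_mul_of_nonneg_left hs4 (by positivity)

end Run7.h852
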