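import Pool.Agent.Run7.h852.LevelA
import Pool.Agent.Run7.h852.Rank

open Finset

set_option linter.unusedSectionVars false

namespace Run7.h852

section Signed

variable {α β ι : Type*} [Fintype α] [Fintype β] [Fintype ι] [DecidableEq α] [DecidableEq β]
variable {μ : α → ℝ} {ν : β → ℝ} {c : ι → Finset α → Finset β → ℝ}
    {w : ι → α → β → ℝ} {G : α → β → ℝ}
    {X : Finset α} {Y : Finset β} {p : α → ℝ} {q : β → ℝ}

/-- Lower bound for a signed test. -/
lemma IsMinPt.ctr_ge_signed {X0 : Finset α} {Y0 : Finset β} (hμ : IsProb X0 μ) (hν : IsProb Y0 ν)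
    (h : IsMinPt μ ν c w G X Y p q) (T : α → β → ℝ) {c0 : ℝ} (hc0 : 0 ≤ c0)
    (hF : ∀ a b, c0 ≤ FF c w G X Y p q a b) :
    EE p q (fun a b => (FF c w G X Y p q a b - c0) * T a b)
      - (2 * Real.log 2 + P0 μ ν c w G) * EE p q (fun a b => max (T a b) 0)
      - P0 μ ν c w G * EE p q (fun a b => max (-(T a b)) 0)
      ≤ EE p q (fun a b => ctr p q (FF c w G X Y p q) a b * T a b) := by
  rw [← EE_smul, ← EE_smul, ← EE_sub, ← EE_sub]
  apply EE_mono h.hp h.hq
  intro a ha b hb
  set F := FF c w G X Y p q with hFd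
  have h1 := h.marg_sum_le hμ hν ha hb
  rw [← hFd] at h1
  have hL : c0 ≤ margL q F a := by
    unfold margL
    calc c0 = ∑ b, q b * c0 := by rw [← Finset.sum_mul, h.hq.sum, one_mul]
      _ ≤ _ := Finset.sum_le_sum (fun b _ => mul_le_mul_of_nonneg_left (hF a b) (h.hq.nonneg b))
  have hR : c0 ≤ margR p F b := by
    unfold margR
    calc c0 = ∑ a, p a * c0 := by rw [← Finset.sum_mul, h.hp.sum, one_mul]
      _ ≤ _ := Finset.sum_le_sum (fun a _ => mul_le_mul_of_nonneg_left (hF a b) (h.hp.nonneg a))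
  have hE : EE p q F ≤ P0 μ ν c w G := h.EE_FF_le_pot.trans (h.pot_le_P0 hμ hν)
  have hE0 : 0 ≤ EE p q F := h.EE_FF_nonneg
  have e1 : ctr p q F a b * T a b
      = (F a b - c0) * T a b - (margL q F a + margR p F b - EE p q F - c0) * T a b := by
    unfold ctr; ring
  rw [e1]
  set z := margL q F a + margR p F b - EE p q F - c0 with hz
  have hz1 : z ≤ 2 * Real.log 2 + P0 μ ν c w G := by linarith
  have hz2 : - P0 μ ν c w G ≤ z := by linarith
  have hkey : z * T a b ≤ (2 * Real.log 2 + P0 μ ν c w G) * max (T a b) 0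
      + P0 μ ν c w G * max (-(T a b)) 0 := by
    rcases le_total 0 (T a b) with ht | ht
    · rw [max_eq_left ht, max_eq_right (by linarith), mul_zero, add_zero]
      exact mul_le_mul_of_nonneg_right hz1 ht
    · rw [max_eq_right ht, max_eq_left (by linarith), mul_zero, zero_add]
      have := mul_le_mul_of_nonneg_right hz2 (neg_nonneg.2 ht)
      linarith
  linarith

end Signed

section

variable {α β V : Type} [Fintype α] [Fintype β] [DecidableEq α] [DecidableEq β]
  [Fintype V] [DecidableEq V]

/-- deviation from `l` -/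
def TT (l : ℕ) (x : α → Finset V) (y : β → Finset V) (a : α) (b : β) : ℝ := MM x y a b - l

/-- dyadic scale of the positive part of the deviation -/
noncomputable def sc {J : ℕ} (l : ℕ) (x : α → Finset V) (y : β → Finset V) (j : Fin J)
    (a : α) (b : β) : ℝ :=
  if (2 : ℝ) ^ (j : ℕ) ≤ TT l x y a b ∧ TT l x y a b < 2 ^ ((j : ℕ) + 1) then 1 else 0

lemma sc_nonneg {J : ℕ} (l : ℕ) (x : α → Finset V) (y : β → Finset V) (j : Fin J) (a : α)
    (b : β) : 0 ≤ sc l x y j a b := by
  unfold sc; split_ifs <;> norm_num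

lemma TT_int (l : ℕ) (x : α → Finset V) (y : β → Finset V) (a : α) (b : β) :
    TT l x y a b = 0 ∨ 1 ≤ TT l x y a b ∨ TT l x y a b ≤ -1 := by
  unfold TT MM
  rcases lt_trichotomy (x a ∩ y b).card l with h | h | h
  · right; right
    have : ((x a ∩ y b).card : ℝ) + 1 ≤ (l : ℝ) := by exact_mod_cast h
    linarith
  · left; rw [h]; ring
  · right; left
    have : (l : ℝ) + 1 ≤ ((x a ∩ y b).card : ℝ) := by exact_mod_cast h
    linarith

lemma bad_TT (l : ℕ) (x : α → Finset V) (y : β → Finset V) (a : α) (b : β) :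
    bad l x y a b = if TT l x y a b = 0 then 0 else 1 := by
  unfold bad TT MM
  have : ((x a ∩ y b).card = l) ↔ (((x a ∩ y b).card : ℝ) - l = 0) := by
    rw [sub_eq_zero]; exact Nat.cast_inj.symm
  by_cases h : (x a ∩ y b).card = l
  · rw [if_pos h, if_pos (this.1 h)]
  · rw [if_neg h, if_neg (fun h2 => h (this.2 h2))]

lemma bad_mul_TT (l : ℕ) (x : α → Finset V) (y : β → Finset V) (a : α) (b : β) :
    bad l x y a b * TT l x y a b = TT l x y a b := by
  rw [bad_TT]
  split_ifs with h
  · rw [h]; ring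
  · ring

lemma TT_le (l : ℕ) (x : α → Finset V) (y : β → Finset V) (a : α) (b : β) :
    TT l x y a b ≤ (Fintype.card V : ℝ) := by
  unfold TT MM
  have h1 : ((x a ∩ y b).card : ℝ) ≤ (Fintype.card V : ℝ) := by
    exact_mod_cast Finset.card_le_univ _
  have h2 : (0 : ℝ) ≤ (l : ℝ) := Nat.cast_nonneg l
  linarith

/-- the scales are disjoint -/
lemma sum_sc_le {J : ℕ} (l : ℕ) (x : α → Finset V) (y : β → Finset V) (a : α) (b : β) :
    ∑ j : Fin J, sc l x y j a b ≤ bad l x y a b := by
  have huniq : ∀ i j : Fin J, sc l x y i a b ≠ 0 → sc l x y j a b ≠ 0 → i = j := by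
    intro i j hi hj
    unfold sc at hi hj
    by_cases h1 : (2 : ℝ) ^ (i : ℕ) ≤ TT l x y a b ∧ TT l x y a b < 2 ^ ((i : ℕ) + 1)
    · by_cases h2 : (2 : ℝ) ^ (j : ℕ) ≤ TT l x y a b ∧ TT l x y a b < 2 ^ ((j : ℕ) + 1)
      · have h3 : (2 : ℝ) ^ (i : ℕ) < 2 ^ ((j : ℕ) + 1) := lt_of_le_of_lt h1.1 h2.2
        have h4 : (2 : ℝ) ^ (j : ℕ) < 2 ^ ((i : ℕ) + 1) := lt_of_le_of_lt h2.1 h1.2
        have h5 := (pow_lt_pow_iff_right₀ (by norm_num : (1 : ℝ) < 2)).1 h3
        have h6 := (pow_lt_pow_iff_right₀ (by norm_num : (1 : ℝ) < 2)).1 h4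
        apply Fin.ext
        omega
      · exact absurd (if_neg h2) hj
    · exact absurd (if_neg h1) hi
  by_cases hex : ∃ i : Fin J, sc l x y i a b ≠ 0
  · obtain ⟨i, hi⟩ := hex
    rw [Finset.sum_eq_single i]
    · have h0 : TT l x y a b ≠ 0 := by
        intro h0
        apply hi
        unfold sc
        rw [h0, if_neg]
        rintro ⟨h1, _⟩
        have : (0 : ℝ) < 2 ^ (i : ℕ) := by positivity
        linarith
      rw [bad_TT, if_neg h0]
      unfold sc
      split_ifs <;> norm_num
    · intro j _ hj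
      by_contra hne
      exact hj (huniq j i hne hi)
    · intro h; exact absurd (Finset.mem_univ i) h
  · push Not at hex
    rw [Finset.sum_eq_zero (fun j _ => hex j)]
    exact bad_nonneg l x y a b

/-- every positive deviation has a scale -/
lemma exists_sc {J : ℕ} (l : ℕ) (x : α → Finset V) (y : β → Finset V) (a : α) (b : β)
    (hJ : (Fintype.card V : ℝ) < 2 ^ J) (h : 1 ≤ TT l x y a b) :
    ∃ j : Fin J, sc l x y j a b = 1 := by
  have hlt : TT l x y a b < 2 ^ J := lt_of_le_of_lt (TT_le l x y a b) hJ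
  have hex : ∃ k : ℕ, TT l x y a b < 2 ^ (k + 1) := ⟨J, hlt.trans (by
    apply pow_lt_pow_right₀ (by norm_num) (by omega))⟩
  classical
  set k := Nat.find hex with hk
  have hk1 : TT l x y a b < 2 ^ (k + 1) := Nat.find_spec hex
  have hk2 : (2 : ℝ) ^ k ≤ TT l x y a b := by
    rcases Nat.eq_zero_or_pos k with h0 | h0
    · rw [h0]; simpa using h
    · have := Nat.find_min hex (m := k - 1) (by omega)
      rw [not_lt] at this
      have h1 : k - 1 + 1 = k := by omega
      rwa [h1] at this
  have hkJ : k < J := by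
    by_contra hcon
    push Not at hcon
    have : (2 : ℝ) ^ J ≤ 2 ^ k := pow_le_pow_right₀ (by norm_num) hcon
    linarith
  refine ⟨⟨k, hkJ⟩, ?_⟩
  unfold sc
  rw [if_pos ⟨hk2, hk1⟩]

lemma two_pow_sc_le {J : ℕ} (l : ℕ) (x : α → Finset V) (y : β → Finset V) (j : Fin J) (a : α)
    (b : β) : (2 : ℝ) ^ (j : ℕ) * sc l x y j a b ≤ sc l x y j a b * TT l x y a b := by
  unfold sc
  split_ifs with h
  · linarith [h.1]
  · simp

lemma TT_sq_le {J : ℕ} (l : ℕ) (x : α → Finset V) (y : β → Finset V) {a : α} {b : β}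
    (hJ : (Fintype.card V : ℝ) < 2 ^ J) {k : ℝ} (hk : -k ≤ TT l x y a b) :
    TT l x y a b ^ 2 ≤ ∑ j : Fin J, 4 * ((2 : ℝ) ^ (j : ℕ)) ^ 2 * sc l x y j a b
      + k ^ 2 * bad l x y a b := by
  have hs : ∀ j : Fin J, 0 ≤ 4 * ((2 : ℝ) ^ (j : ℕ)) ^ 2 * sc l x y j a b := fun j =>
    mul_nonneg (by positivity) (sc_nonneg l x y j a b)
  have hsum : 0 ≤ ∑ j : Fin J, 4 * ((2 : ℝ) ^ (j : ℕ)) ^ 2 * sc l x y j a b :=
    Finset.sum_nonneg (fun j _ => hs j)
  have hb : 0 ≤ k ^ 2 * bad l x y a b := mul_nonneg (sq_nonneg k) (bad_nonneg l x y a b)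
  rcases TT_int l x y a b with h | h | h
  · rw [h]; simp only [ne_eq, OfNat.ofNat_ne_zero, not_false_eq_true, zero_pow]; linarith
  · obtain ⟨j, hj⟩ := exists_sc (J := J) l x y a b hJ h
    have h1 : TT l x y a b ^ 2 ≤ 4 * ((2 : ℝ) ^ (j : ℕ)) ^ 2 * sc l x y j a b := by
      rw [hj, mul_one]
      unfold sc at hj
      have h2 : (2 : ℝ) ^ (j : ℕ) ≤ TT l x y a b ∧ TT l x y a b < 2 ^ ((j : ℕ) + 1) := by
        by_contra hcon
        rw [if_neg hcon] at hj
        exact zero_ne_one hj
      rw [pow_succ] at h2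
      nlinarith [h2.1, h2.2]
    have h2 := Finset.single_le_sum (fun j _ => hs j) (Finset.mem_univ j)
    linarith
  · have h0 : bad l x y a b = 1 := by
      rw [bad_TT, if_neg (by linarith)]
    rw [h0, mul_one]
    nlinarith

/-- the rank factors of the deviation -/
def TF (l : ℕ) (x : α → Finset V) (o : Option V) (a : α) : ℝ :=
  match o with
  | none => -(l : ℝ)
  | some v => ind x v a

/-- the rank factors of the deviation -/
def TG (y : β → Finset V) (o : Option V) (b : β) : ℝ :=
  match o with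
  | none => 1
  | some v => ind y v b

lemma TT_eq_sum (l : ℕ) (x : α → Finset V) (y : β → Finset V) (a : α) (b : β) :
    TT l x y a b = ∑ o, TF l x o a * TG y o b := by
  rw [Fintype.sum_option]
  unfold TT TF TG
  rw [MM_eq_sum]
  ring

lemma LC_const (L : ℝ) (k : ℕ) : LC (fun _ => L) k = k * L := by
  unfold LC
  rw [Finset.sum_const, Finset.card_range, nsmul_eq_mul]

/-- Small density, uniformly in `l`. -/
theorem uniform_small {l : ℕ} (hl : 1 ≤ l) {X0 : Finset α} {Y0 : Finset β} {μ : α → ℝ}
    {ν : β → ℝ} (hμ : IsProb X0 μ) (hν : IsProb Y0 ν) (x : α → Finset V) (y : β → Finset V)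
    (hn : 1 ≤ Fintype.card V) {ε : ℝ} (hε : 0 < ε) (hε2 : ε ≤ 1 / 32) {J : ℕ} (hJ1 : 1 ≤ J)
    (hJ : (Fintype.card V : ℝ) < 2 ^ J) (hbad : EE μ ν (bad l x y) ≤ ε) :
    ∃ (X : Finset α) (Y : Finset β) (p : α → ℝ) (q : β → ℝ), X ⊆ supp μ ∧ Y ⊆ supp ν ∧
      IsProb X p ∧ IsProb Y q ∧
      Dom μ ν p q (4 * (512 * l * Real.sqrt ((Fintype.card V : ℝ) * (ε * J))
        + l * Real.log (4 * (Fintype.card V : ℝ))
        + 8 * l * Real.sqrt ((Fintype.card V : ℝ) * ε))
        + (48 * Real.sqrt ((Fintype.card V : ℝ) * ε) + 4)) ∧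
      ∀ a ∈ X, ∀ b ∈ Y, (x a ∩ y b).card = l := by
  have hTTsq : ∀ (a : α) (b : β) (k : ℝ), -k ≤ TT l x y a b →
      TT l x y a b ^ 2 ≤ ∑ j : Fin J, 4 * ((2 : ℝ) ^ (j : ℕ)) ^ 2 * sc l x y j a b
        + k ^ 2 * bad l x y a b := fun a b k hk => TT_sq_le l x y hJ hk
  clear hJ
  set n : ℝ := (Fintype.card V : ℝ) with hnd
  have hn1 : 1 ≤ n := by rw [hnd]; exact_mod_cast hn
  have hn0 : 0 ≤ n := by linarith
  have hl1 : (1 : ℝ) ≤ (l : ℝ) := by exact_mod_cast hl
  have hJ1r : (1 : ℝ) ≤ (J : ℝ) := by exact_mod_cast hJ1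
  have hlog2 : 0 < Real.log 2 := Real.log_pos (by norm_num)
  have hlog2' : Real.log 2 < 0.7 := by
    have := Real.log_two_lt_d9; linarith
  have hlog4 : 2 * Real.log 2 ≤ Real.log (4 * n) := by
    have h1 : Real.log 4 ≤ Real.log (4 * n) := Real.log_le_log (by norm_num) (by linarith)
    have h2 : Real.log 4 = 2 * Real.log 2 := by
      rw [show (4 : ℝ) = 2 ^ 2 by norm_num, Real.log_pow]; push_cast; ring
    linarith
  set S : ℝ := Real.sqrt (n * ε) with hS
  set R : ℝ := Real.sqrt (n * (ε * J)) with hR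
  have hS0 : 0 < S := Real.sqrt_pos.2 (by positivity)
  have hRS : S ≤ R := by
    apply Real.sqrt_le_sqrt
    apply mul_le_mul_of_nonneg_left _ hn0
    exact le_mul_of_one_le_right hε.le hJ1r
  set P : ℝ := 2 * (512 * l * R + l * Real.log (4 * n) + 8 * l * S) with hP
  have hlR : R ≤ l * R := le_mul_of_one_le_left (hS0.le.trans hRS) hl1
  have hlS : S ≤ l * S := le_mul_of_one_le_left hS0.le hl1
  have hlL : Real.log (4 * n) ≤ l * Real.log (4 * n) :=
    le_mul_of_one_le_left (by linarith) hl1
  have hPpos : 0 < P := by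
    rw [hP]
    have h1 : 0 < 512 * l * R := by positivity
    have h2 : 0 ≤ 8 * l * S := by positivity
    linarith
  have hP1 : 4 * Real.log 2 ≤ P := by
    rw [hP]
    have h1 : 0 ≤ 512 * l * R := by positivity
    have h2 : 0 ≤ 8 * l * S := by positivity
    linarith
  have hPS : 1000 * S ≤ P := by
    rw [hP]
    have h3 : 0 ≤ 8 * l * S := by positivity
    have h4 : 512 * R ≤ 512 * l * R := by linarith
    have h5 : 0 ≤ l * Real.log (4 * n) := by linarith
    linarith
  set K : ℝ := 512 * l with hK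
  have hKpos : 0 < K := by positivity
  have hK512 : 512 ≤ K := by rw [hK]; linarith
  set β0 : ℝ := P / (4 * ε) with hβ0
  have hβ0pos : 0 < β0 := by positivity
  set L0 : ℝ := Real.log (4 * n) + 64 * P / K + 8 * S with hL0
  have hL0pos : 0 < L0 := by
    have : 0 < 64 * P / K := by positivity
    linarith
  set g : ℕ → ℝ := fun _ => L0 with hg
  have hg0 : ∀ i, 0 ≤ g i := fun _ => hL0pos.le
  set Kj : Fin J → ℝ := fun _ => K * Real.sqrt n with hKj
  have hsn0 : 0 < Real.sqrt n := Real.sqrt_pos.2 (by linarith)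
  set w : Fin J → α → β → ℝ := fun j => sc l x y j with hw
  set G : α → β → ℝ := fun a b => β0 * bad l x y a b with hG
  have hgood : GoodPot (cL l g Kj x y) (wL w) G :=
    goodL hg0 (fun _ => by rw [hKj]; positivity) (fun j a b => sc_nonneg l x y j a b)
      (fun a b => mul_nonneg hβ0pos.le (bad_nonneg l x y a b)) x y
  have hpotval : ∀ {X1 : Finset α} {Y1 : Finset β} (X : Finset α) (Y : Finset β) {p : α → ℝ}
      {q : β → ℝ}, IsProb X1 p → IsProb Y1 q →
      pot (cL l g Kj x y) (wL w) G X Y p q = (lev l x y X Y : ℝ) * L0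
        + K * Real.sqrt n * ∑ j, Real.sqrt (EE p q (w j)) + β0 * EE p q (bad l x y) := by
    intro X1 Y1 X Y p q hp hq
    rw [pot_L X Y hp hq, hG, EE_smul, hg, LC_const, hKj, Finset.mul_sum]
  have hP0 : P0 μ ν (cL l g Kj x y) (wL w) G ≤ P := by
    unfold P0
    rw [hpotval _ _ hμ hν]
    have h1 : (lev l x y (supp μ) (supp ν) : ℝ) * L0 ≤ l * L0 := by
      apply mul_le_mul_of_nonneg_right _ hL0pos.le
      exact_mod_cast lev_le l x y _ _
    have h2 : β0 * EE μ ν (bad l x y) ≤ P / 4 := by
      calc β0 * EE μ ν (bad l x y) ≤ β0 * ε := mul_le_mul_of_nonneg_left hbad hβ0pos.le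
        _ = P / 4 := by rw [hβ0]; field_simp
    have h3 : ∑ j, Real.sqrt (EE μ ν (w j)) ≤ Real.sqrt (ε * J) := by
      have h4 := sum_sqrt_le (univ : Finset (Fin J)) (fun j => EE μ ν (w j))
        (fun j _ => EE_nonneg hμ.nonneg hν.nonneg (sc_nonneg l x y j))
      refine h4.trans (Real.sqrt_le_sqrt ?_)
      rw [Finset.card_univ, Fintype.card_fin, mul_comm ε]
      apply mul_le_mul_of_nonneg_left _ (by positivity)
      rw [← EE_sum]
      refine le_trans ?_ hbad
      apply EE_mono hμ hν
      intro a _ b _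
      exact sum_sc_le l x y a b
    have h5 : K * Real.sqrt n * ∑ j, Real.sqrt (EE μ ν (w j)) ≤ K * R := by
      rw [hR, Real.sqrt_mul hn0, ← mul_assoc]
      exact mul_le_mul_of_nonneg_left h3 (by positivity)
    have h6 : l * (64 * P / K) = P / 8 := by
      rw [hK]; field_simp; norm_num
    have h7 : (l : ℝ) * L0 = l * Real.log (4 * n) + P / 8 + 8 * l * S := by
      rw [hL0, mul_add, mul_add, h6]; ring
    have h8 : P / 2 = K * R + l * Real.log (4 * n) + 8 * l * S := by
      rw [hP, hK]; ring
    linarith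
  have hSS : S * S = n * ε := by rw [hS]; exact Real.mul_self_sqrt (by positivity)
  clear_value P K S R L0 β0
  obtain ⟨X, Y, p, q, h⟩ := exists_minPt hμ hν hgood
  have hbad0 : 0 ≤ EE p q (bad l x y) := EE_nonneg h.hp.nonneg h.hq.nonneg (bad_nonneg l x y)
  have hbad' : EE p q (bad l x y) ≤ 4 * ε := by
    have h1 := h.pot_le_P0 hμ hν
    rw [hpotval _ _ h.hp h.hq] at h1
    have h2 : 0 ≤ (lev l x y X Y : ℝ) * L0 := by positivity
    have h3 : 0 ≤ K * Real.sqrt n * ∑ j, Real.sqrt (EE p q (w j)) :=
      mul_nonneg (by positivity) (Finset.sum_nonneg (fun _ _ => Real.sqrt_nonneg _))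
    have h4 : β0 * EE p q (bad l x y) ≤ β0 * (4 * ε) := by
      have : β0 * (4 * ε) = P := by rw [hβ0]; field_simp
      linarith
    exact le_of_mul_le_mul_left h4 hβ0pos
  have hP00 : 0 ≤ P0 μ ν (cL l g Kj x y) (wL w) G := h.EE_FF_nonneg.trans
    (h.EE_FF_le_pot.trans (h.pot_le_P0 hμ hν))
  -- the level vanishes
  have hlev0 : lev l x y X Y = 0 := by
    by_contra hne
    have hlev1 : 1 ≤ lev l x y X Y := Nat.one_le_iff_ne_zero.2 hne
    obtain ⟨k, hk⟩ : ∃ k : ℝ, k = (lev l x y X Y : ℝ) := ⟨_, rfl⟩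
    have hk1 : 1 ≤ k := by rw [hk]; exact_mod_cast hlev1
    have hcoreL : (core x y X Y).card + lev l x y X Y = l := by
      unfold lev at hlev1 ⊢; omega
    have hcoreR : ((core x y X Y).card : ℝ) + k = l := by
      rw [hk]; exact_mod_cast hcoreL
    set F := FF (cL l g Kj x y) (wL w) G X Y p q with hF
    set e : Fin J → ℝ := fun j => EE p q (w j) with he
    have he0 : ∀ j, 0 ≤ e j := fun j => EE_nonneg h.hp.nonneg h.hq.nonneg (sc_nonneg l x y j)
    obtain ⟨Sg, hSg⟩ : ∃ Sg : ℝ, Sg = ∑ j : Fin J, (2 : ℝ) ^ (j : ℕ) * Real.sqrt (e j) :=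
      ⟨_, rfl⟩
    have hterm : ∀ j : Fin J, 0 ≤ (2 : ℝ) ^ (j : ℕ) * Real.sqrt (e j) := fun j =>
      mul_nonneg (pow_nonneg (by norm_num) _) (Real.sqrt_nonneg _)
    have hSg0 : 0 ≤ Sg := by rw [hSg]; exact Finset.sum_nonneg (fun j _ => hterm j)
    have hsl : ∀ j : Fin J, 0 ≤ K * Real.sqrt n / (2 * Real.sqrt (e j)) := fun j =>
      div_nonneg (mul_nonneg hKpos.le hsn0.le) (mul_nonneg (by norm_num) (Real.sqrt_nonneg _))
    set m := EE p q (fun a b => MM x y a b - ((core x y X Y).card : ℝ)) with hm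
    have hTk : ∀ a ∈ X, ∀ b ∈ Y, -k ≤ TT l x y a b := by
      intro a ha b hb
      have hsub : core x y X Y ⊆ x a ∩ y b := by
        intro v hv
        rw [mem_core] at hv
        exact Finset.mem_inter.2 ⟨hv.1 a ha, hv.2 b hb⟩
      have hcard : ((core x y X Y).card : ℝ) ≤ MM x y a b := by
        unfold MM; exact_mod_cast Finset.card_le_card hsub
      unfold TT
      linarith
    have hmge : (7 / 8 : ℝ) * k ≤ m := by
      have h1 := excess_ge (l := l) (x := x) (y := y) h.hp h.hq
      rw [← hk] at h1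
      have h2 : k * (7 / 8) ≤ k * (1 - EE p q (bad l x y)) :=
        mul_le_mul_of_nonneg_left (by linarith) (by linarith)
      linarith
    have hmpos : 0 < m := by linarith
    set A := EE p q (fun a b => ctr p q F a b * TT l x y a b) with hA
    -- the link inequality
    have hlink : L0 * m ≤ m * Real.log (4 * n) + A := by
      have h1 := link_avg hg0 h hlev1 hn hm (by linarith)
      rw [sum_notcore h.hp h.hq (fun a b => ctr p q (FF (cL l g Kj x y) (wL w) G X Y p q) a b)]
        at h1
      have h2 : EE p q (fun a b => ctr p q (FF (cL l g Kj x y) (wL w) G X Y p q) a b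
          * (MM x y a b - ((core x y X Y).card : ℝ))) = A := by
        have h3 : EE p q (fun a b => ctr p q F a b * (k * 1)) = 0 := by
          have h4 := EE_ctr h.hp h.hq F (fun _ => k) (fun _ => (1 : ℝ))
          rw [← h4]
          have h5 : ∀ a b, F a b * ((k - ∑ x, p x * k) * (1 - ∑ y, q y * 1)) = 0 := by
            intro a b
            rw [← Finset.sum_mul, h.hp.sum]
            ring
          simp_rw [h5]
          unfold EE; simp
        have h6 : EE p q (fun a b => ctr p q F a b * TT l x y a b)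
            + EE p q (fun a b => ctr p q F a b * (k * 1))
            = EE p q (fun a b => ctr p q F a b * (MM x y a b - ((core x y X Y).card : ℝ))) := by
          rw [← EE_add]
          congr 1
          funext a b
          unfold TT
          rw [← hcoreR]
          ring
        rw [h3, add_zero] at h6
        rw [hA, h6, hF]
      rw [h2] at h1
      exact h1
    -- first bound: the rank test
    have hR1 : A ≤ 6 * (Real.sqrt n * Sg + k * S) := by
      have h1 := h.test_rank (TT l x y) (TF l x) (TG y) (fun a _ b => TT_eq_sum l x y a b)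
      rw [← hF] at h1
      have hcard : (Fintype.card (Option V) : ℝ) = n + 1 := by
        rw [Fintype.card_option, hnd]; push_cast; ring
      rw [hcard] at h1
      have h2 : EE p q (fun a b => TT l x y a b ^ 2)
          ≤ 4 * Sg ^ 2 + 4 * ε * k ^ 2 := by
        have h3 : EE p q (fun a b => TT l x y a b ^ 2)
            ≤ EE p q (fun a b => ∑ j ∈ (univ : Finset (Fin J)),
              (fun (j : Fin J) a b => 4 * ((2 : ℝ) ^ (j : ℕ)) ^ 2 * sc l x y j a b) j a b
              + k ^ 2 * bad l x y a b) := by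
          apply EE_mono h.hp h.hq
          intro a ha b hb
          exact hTTsq a b k (hTk a ha b hb)
        rw [EE_add, EE_sum, EE_smul] at h3
        have h4 : ∑ j ∈ (univ : Finset (Fin J)), EE p q
            ((fun (j : Fin J) a b => 4 * ((2 : ℝ) ^ (j : ℕ)) ^ 2 * sc l x y j a b) j)
            ≤ 4 * Sg ^ 2 := by
          have h5 : ∀ j : Fin J, EE p q
              ((fun (j : Fin J) a b => 4 * ((2 : ℝ) ^ (j : ℕ)) ^ 2 * sc l x y j a b) j)
              = 4 * ((2 : ℝ) ^ (j : ℕ) * Real.sqrt (e j)) ^ 2 := by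
            intro j
            beta_reduce
            rw [EE_smul, mul_pow, Real.sq_sqrt (he0 j)]
            ring
          rw [Finset.sum_congr rfl (fun j _ => h5 j), ← Finset.mul_sum]
          apply mul_le_mul_of_nonneg_left _ (by norm_num)
          rw [hSg]
          exact Finset.sum_sq_le_sq_sum_of_nonneg (fun j _ => hterm j)
        have h6 : k ^ 2 * EE p q (bad l x y) ≤ k ^ 2 * (4 * ε) :=
          mul_le_mul_of_nonneg_left hbad' (sq_nonneg k)
        linarith
      have hET0 : 0 ≤ EE p q (fun a b => TT l x y a b ^ 2) :=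
        EE_nonneg h.hp.nonneg h.hq.nonneg (fun a b => sq_nonneg _)
      have h3 : Real.sqrt ((n + 1) * EE p q (fun a b => TT l x y a b ^ 2))
          ≤ 3 * (Real.sqrt n * Sg + k * S) := by
        apply Real.sqrt_le_iff.2
        refine ⟨by positivity, ?_⟩
        have h4 : (n + 1) * EE p q (fun a b => TT l x y a b ^ 2)
            ≤ (2 * n) * (4 * Sg ^ 2 + 4 * ε * k ^ 2) :=
          mul_le_mul (by linarith) h2 hET0 (by linarith)
        have h5 : Real.sqrt n * Real.sqrt n = n := Real.mul_self_sqrt hn0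
        have h6 : S * S = n * ε := hSS
        have h7 : (3 * (Real.sqrt n * Sg + k * S)) ^ 2
            = 9 * ((Real.sqrt n * Real.sqrt n) * Sg ^ 2) + 9 * (k ^ 2 * (S * S))
              + 18 * (Real.sqrt n * Sg * (k * S)) := by ring
        rw [h7, h5, h6]
        have h8 : 0 ≤ Real.sqrt n * Sg * (k * S) := by positivity
        have h9 : 0 ≤ n * Sg ^ 2 := by positivity
        have h10 : 0 ≤ k ^ 2 * (n * ε) := by positivity
        have h11 : (2 * n) * (4 * Sg ^ 2 + 4 * ε * k ^ 2) = 8 * (n * Sg ^ 2)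
          + 8 * (k ^ 2 * (n * ε)) := by ring
        linarith
      linarith
    -- second bound: the signed lower bound
    have hR2 : K * Real.sqrt n / 2 * Sg - 9 / 8 * (P * k) ≤ A := by
      set c0 : ℝ := LC g (lev l x y X Y) / 2 with hc0
      have hc00 : 0 ≤ c0 := by
        rw [hc0]; have := LC_nonneg hg0 (lev l x y X Y); linarith
      have hFval : ∀ a b, F a b = c0 + (∑ j : Fin J, K * Real.sqrt n / (2 * Real.sqrt (e j))
          * sc l x y j a b + β0 * bad l x y a b) := by
        intro a b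
        rw [hF]
        unfold FF
        rw [Fintype.sum_option]
        have h1 : slope (cL l g Kj x y) (wL w) X Y p q none = c0 := by
          unfold slope
          have : EE p q (wL w none) = 1 := EE_const h.hp h.hq 1
          rw [this, Real.sqrt_one, mul_one]
          rfl
        rw [h1]
        have h2 : wL w none a b = 1 := rfl
        rw [h2, mul_one, add_assoc]
        rfl
      have hFc : ∀ a b, c0 ≤ F a b := by
        intro a b
        rw [hFval]
        have h1 : 0 ≤ ∑ j : Fin J, K * Real.sqrt n / (2 * Real.sqrt (e j)) * sc l x y j a b :=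
          Finset.sum_nonneg (fun j _ => mul_nonneg (hsl j) (sc_nonneg l x y j a b))
        have h2 : 0 ≤ β0 * bad l x y a b := mul_nonneg hβ0pos.le (bad_nonneg l x y a b)
        linarith
      have h1 := h.ctr_ge_signed hμ hν (TT l x y) hc00 hFc
      rw [← hF] at h1
      -- the main term
      have h2 : EE p q (fun a b => (F a b - c0) * TT l x y a b)
          = ∑ j : Fin J, K * Real.sqrt n / (2 * Real.sqrt (e j))
              * EE p q (fun a b => sc l x y j a b * TT l x y a b)
            + β0 * EE p q (TT l x y) := by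
        have h3 : (fun a b => (F a b - c0) * TT l x y a b)
            = fun a b => (∑ j ∈ (univ : Finset (Fin J)),
              (fun j a b => K * Real.sqrt n / (2 * Real.sqrt (e j))
                * (sc l x y j a b * TT l x y a b)) j a b) + β0 * TT l x y a b := by
          funext a b
          rw [hFval]
          have h4 := bad_mul_TT l x y a b
          calc (c0 + (∑ j : Fin J, K * Real.sqrt n / (2 * Real.sqrt (e j)) * sc l x y j a b
                + β0 * bad l x y a b) - c0) * TT l x y a b
              = (∑ j : Fin J, K * Real.sqrt n / (2 * Real.sqrt (e j)) * sc l x y j a b) * TT l x y a b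
                + β0 * (bad l x y a b * TT l x y a b) := by ring
            _ = _ := by
                rw [h4, Finset.sum_mul]
                congr 1
                refine Finset.sum_congr rfl (fun j _ => ?_)
                ring
        rw [h3, EE_add, EE_sum, EE_smul]
        congr 1
        refine Finset.sum_congr rfl (fun j _ => ?_)
        rw [EE_smul]
      have h3 : K * Real.sqrt n / 2 * Sg ≤ ∑ j : Fin J, K * Real.sqrt n / (2 * Real.sqrt (e j))
              * EE p q (fun a b => sc l x y j a b * TT l x y a b) := by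
        rw [hSg, Finset.mul_sum]
        refine Finset.sum_le_sum (fun j _ => ?_)
        have h4 : (2 : ℝ) ^ (j : ℕ) * e j
            ≤ EE p q (fun a b => sc l x y j a b * TT l x y a b) := by
          rw [he]
          beta_reduce
          rw [← EE_smul]
          apply EE_mono h.hp h.hq
          intro a _ b _
          exact two_pow_sc_le l x y j a b
        rcases (he0 j).eq_or_lt with h0 | h0
        · rw [← h0]; simp
        · have h5 : 0 < Real.sqrt (e j) := Real.sqrt_pos.2 h0
          have h6 : Real.sqrt (e j) * Real.sqrt (e j) = e j := Real.mul_self_sqrt (he0 j)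
          have h7 : K * Real.sqrt n / 2 * ((2 : ℝ) ^ (j : ℕ) * Real.sqrt (e j))
              = K * Real.sqrt n / (2 * Real.sqrt (e j))
                * ((2 : ℝ) ^ (j : ℕ) * (Real.sqrt (e j) * Real.sqrt (e j))) := by
            field_simp
          rw [h7, h6]
          exact mul_le_mul_of_nonneg_left h4 (hsl j)
      set Ep := EE p q (fun a b => max (TT l x y a b) 0) with hEp
      set Em := EE p q (fun a b => max (-(TT l x y a b)) 0) with hEm
      have hEp0 : 0 ≤ Ep := EE_nonneg h.hp.nonneg h.hq.nonneg (fun a b => le_max_right _ _)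
      have hEm0 : 0 ≤ Em := EE_nonneg h.hp.nonneg h.hq.nonneg (fun a b => le_max_right _ _)
      have hET : EE p q (TT l x y) = Ep - Em := by
        rw [hEp, hEm, ← EE_sub]
        congr 1
        funext a b
        rcases le_total 0 (TT l x y a b) with ht | ht
        · rw [max_eq_left ht, max_eq_right (by linarith)]; ring
        · rw [max_eq_right ht, max_eq_left (by linarith)]; ring
      have hEmle : Em ≤ k * (4 * ε) := by
        have h4 : Em ≤ EE p q (fun a b => k * bad l x y a b) := by
          apply EE_mono h.hp h.hq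
          intro a ha b hb
          have h5 := hTk a ha b hb
          rw [bad_TT]
          split_ifs with h6
          · rw [h6]; simp
          · rw [mul_one]
            exact max_le (by linarith) (by linarith)
        rw [EE_smul] at h4
        exact h4.trans (mul_le_mul_of_nonneg_left hbad' (by linarith))
      rw [h2, hET] at h1
      have hβP : P + 2 * Real.log 2 ≤ β0 := by
        rw [hβ0, le_div_iff₀ (by positivity)]
        have h4 : 4 * ε ≤ 1 / 8 := by linarith
        have h5 : (P + 2 * Real.log 2) * (4 * ε) ≤ (P + 2 * Real.log 2) * (1 / 8) :=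
          mul_le_mul_of_nonneg_left h4 (by linarith)
        linarith
      have h4 : 0 ≤ (β0 - (2 * Real.log 2 + P0 μ ν (cL l g Kj x y) (wL w) G)) * Ep :=
        mul_nonneg (by linarith) hEp0
      have h5 : (β0 + P0 μ ν (cL l g Kj x y) (wL w) G) * Em ≤ 9 / 8 * (P * k) := by
        have h6 : (β0 + P0 μ ν (cL l g Kj x y) (wL w) G) * Em ≤ (β0 + P) * (k * (4 * ε)) :=
          mul_le_mul (by linarith) hEmle hEm0 (by linarith)
        have h7 : (β0 + P) * (k * (4 * ε)) = P * k + 4 * ε * (P * k) := by
          rw [hβ0]; field_simp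
        have h8 : 4 * ε * (P * k) ≤ 1 / 8 * (P * k) :=
          mul_le_mul_of_nonneg_right (by linarith) (by positivity)
        linarith
      linarith
    -- conclusion
    have hPk : 0 < P * k := by positivity
    have h1 : K / 4 * (Real.sqrt n * Sg) ≤ 5 / 4 * (P * k) := by
      have h2 : 6 * (k * S) ≤ 1 / 8 * (P * k) := by
        have h20 := mul_le_mul_of_nonneg_left hPS (by linarith : (0 : ℝ) ≤ k)
        have h21 : 0 < k * S := by positivity
        have h22 : k * (1000 * S) = 1000 * (k * S) := by ring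
        have h23 : k * P = P * k := by ring
        linarith
      have h3 : 0 ≤ Real.sqrt n * Sg := by positivity
      have h4 : K * Real.sqrt n / 2 * Sg = K / 2 * (Real.sqrt n * Sg) := by ring
      rw [h4] at hR2
      have h5 : 6 * (Real.sqrt n * Sg) ≤ K / 4 * (Real.sqrt n * Sg) :=
        mul_le_mul_of_nonneg_right (by linarith) h3
      have h6 : K / 2 * (Real.sqrt n * Sg) = K / 4 * (Real.sqrt n * Sg)
        + K / 4 * (Real.sqrt n * Sg) := by ring
      linarith
    have h2 : Real.sqrt n * Sg ≤ 5 * (P * k) / K := by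
      rw [le_div_iff₀ hKpos]; linarith
    have h3 : A ≤ 30 * (P * k / K) + 6 * (k * S) := by
      have : 5 * (P * k) / K = 5 * (P * k / K) := by ring
      linarith
    have h4 : (64 * P / K + 8 * S) * m ≤ 30 * (P * k / K) + 6 * (k * S) := by
      rw [hL0] at hlink
      have h40 : (Real.log (4 * n) + 64 * P / K + 8 * S) * m
        = m * Real.log (4 * n) + (64 * P / K + 8 * S) * m := by ring
      linarith
    have h5 : (64 * P / K + 8 * S) * (7 / 8 * k) ≤ (64 * P / K + 8 * S) * m :=
      mul_le_mul_of_nonneg_left hmge (by positivity)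
    have h6 : (64 * P / K + 8 * S) * (7 / 8 * k) = 56 * (P * k / K) + 7 * (k * S) := by ring
    have h7 : 0 < P * k / K := by positivity
    have h8 : 0 < k * S := by positivity
    linarith
  have hcore : l ≤ (core x y X Y).card := by
    unfold lev at hlev0
    omega
  obtain ⟨U, hU, hUc⟩ := Finset.exists_subset_card_eq hcore
  set ρ0 : ℝ := max (4 * ε) (1 / (36 * n)) with hρ0
  have hρ1 : 4 * ε ≤ ρ0 := le_max_left _ _
  have hρ2 : 1 / (36 * n) ≤ ρ0 := le_max_right _ _
  have hρpos : 0 < ρ0 := by linarith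
  have hρ8 : ρ0 ≤ 1 / 8 := by
    apply max_le (by linarith)
    apply one_div_le_one_div_of_le (by norm_num); linarith
  have hnρ : 1 / 36 ≤ n * ρ0 := by
    have h1 := mul_le_mul_of_nonneg_left hρ2 hn0
    have h2 : n * (1 / (36 * n)) = 1 / 36 := by field_simp
    linarith
  have hS1 : 1 ≤ 1 / (8 * ρ0) := by
    rw [le_div_iff₀ (by positivity)]; linarith
  obtain ⟨X', Y', p', q', hX', hY', hp', hq', hD', hdisj⟩ := thmR h.hp h.hq
    (fun a => x a \ U) (fun b => y b \ U) hρpos hρ8 (by rw [← hnd]; exact hnρ) (by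
      have h1 : EE p q (tw (1 / (8 * ρ0)) (fun a => x a \ U) (fun b => y b \ U))
          ≤ EE p q (bad l x y) := by
        apply EE_mono h.hp h.hq
        intro a ha b hb
        have h2 := bad_remove hU hUc ha hb
        unfold tw bad
        by_cases h3 : (x a ∩ y b).card = l
        · have h4 : MM (fun a => x a \ U) (fun b => y b \ U) a b = 0 := by
            unfold MM; rw [h2.2 h3]; simp
          rw [if_pos h4, if_pos h3]
        · have h4 : MM (fun a => x a \ U) (fun b => y b \ U) a b ≠ 0 := by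
            unfold MM
            intro h5
            apply h3
            apply h2.1
            exact_mod_cast h5
          rw [if_neg h4, if_neg h3]
          have h5 : 1 ≤ MM (fun a => x a \ U) (fun b => y b \ U) a b :=
            (MM_zero_or_one_le _ _ a b).resolve_left h4
          rw [div_le_one (by positivity)]
          exact le_min h5 hS1
      linarith)
  have hX'X : X' ⊆ X := by
    intro a ha
    by_contra hcon
    have := mem_supp.1 (hX' ha)
    rw [h.hp.zero a hcon] at this
    exact lt_irrefl _ this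
  have hY'Y : Y' ⊆ Y := by
    intro b hb
    by_contra hcon
    have := mem_supp.1 (hY' hb)
    rw [h.hq.zero b hcon] at this
    exact lt_irrefl _ this
  refine ⟨X', Y', p', q', hX'X.trans h.hX, hY'Y.trans h.hY, hp', hq', ?_, ?_⟩
  · have hD : Dom μ ν p q (2 * P) := by
      obtain ⟨κ1, κ2, h1, h2, h3⟩ := h.domination hμ hν
      exact ⟨κ1, κ2, h1, h2, by linarith⟩
    refine (hD.trans hD').mono ?_
    rw [← hnd]
    have h1 : Real.sqrt (n * ρ0) ≤ 2 * S + 1 / 6 := by
      apply Real.sqrt_le_iff.2
      refine ⟨by positivity, ?_⟩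
      have h2 : S * S = n * ε := hSS
      have h3 : n * ρ0 ≤ 4 * (S * S) + 1 / 36 := by
        rw [h2]
        rcases le_total (4 * ε) (1 / (36 * n)) with h4 | h4
        · rw [hρ0, max_eq_right h4]
          have h5 : n * (1 / (36 * n)) = 1 / 36 := by field_simp
          have h6 : 0 ≤ 4 * (n * ε) := by positivity
          linarith
        · rw [hρ0, max_eq_left h4]
          linarith
      have h4 : (2 * S + 1 / 6) ^ 2 = 4 * (S * S) + 2 / 3 * S + 1 / 36 := by ring
      linarith
    linarith
  · intro a ha b hb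
    have h1 := hdisj a ha b hb
    rw [Finset.disjoint_iff_inter_eq_empty] at h1
    exact (bad_remove hU hUc (hX'X ha) (hY'Y hb)).1 (by
      rw [Finset.card_eq_zero]; exact h1)

end

end Run7.h852
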