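import Pool.Agent.Run7.h852.ThmR

open Finset

set_option linter.unusedSectionVars false

namespace Run7.h852

variable {α β V : Type*} [Fintype α] [Fintype β] [DecidableEq α] [DecidableEq β]
  [Fintype V] [DecidableEq V]

/-- selection of an index -/
lemma select {κ : Type*} (U : Finset κ) (hU : U.Nonempty) (ω N : κ → ℝ)
    (hN : ∀ u ∈ U, 0 ≤ N u) {θ γ : ℝ} (hθ : 0 < θ) (hγ : 0 < γ)
    (hZ : 0 < ∑ u ∈ U, ω u) (hsum : ∑ u ∈ U, N u ≤ θ * (1 - γ) * ∑ u ∈ U, ω u) :
    ∃ u ∈ U, γ * (∑ u ∈ U, ω u) / (U.card : ℝ) ≤ ω u ∧ N u ≤ θ * ω u := by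
  by_contra hcon
  push Not at hcon
  set Z := ∑ u ∈ U, ω u with hZd
  have hcard : 0 < (U.card : ℝ) := by exact_mod_cast hU.card_pos
  have h1 : ∀ u ∈ U, θ * ω u < θ * (γ * Z / (U.card : ℝ)) + N u := by
    intro u hu
    rcases le_or_gt (γ * Z / (U.card : ℝ)) (ω u) with h | h
    · have h2 := hcon u hu h
      have h3 : 0 < θ * (γ * Z / (U.card : ℝ)) := by positivity
      linarith
    · have h2 := mul_lt_mul_of_pos_left h hθ
      have h3 := hN u hu
      linarith
  have h2 := Finset.sum_lt_sum_of_nonempty hU h1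
  rw [← Finset.mul_sum, Finset.sum_add_distrib, Finset.sum_const, nsmul_eq_mul, ← hZd] at h2
  have h3 : (U.card : ℝ) * (θ * (γ * Z / (U.card : ℝ))) = θ * γ * Z := by
    field_simp
  rw [h3] at h2
  nlinarith

/-- indicator of `u ⊆ x a` -/
def indS (x : α → Finset V) (u : Finset V) (a : α) : ℝ := if u ⊆ x a then 1 else 0

lemma indS_nonneg (x : α → Finset V) (u : Finset V) (a : α) : 0 ≤ indS x u a := by
  unfold indS; split_ifs <;> norm_num

/-- number of `k`-subsets of the intersection -/
def CC (k : ℕ) (x : α → Finset V) (y : β → Finset V) (a : α) (b : β) : ℝ :=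
  (((x a ∩ y b).card.choose k : ℕ) : ℝ)

lemma CC_nonneg (k : ℕ) (x : α → Finset V) (y : β → Finset V) (a : α) (b : β) :
    0 ≤ CC k x y a b := by
  unfold CC; positivity

lemma CC_eq_sum (k : ℕ) (x : α → Finset V) (y : β → Finset V) (a : α) (b : β) :
    CC k x y a b = ∑ u ∈ (univ : Finset V).powersetCard k, indS x u a * indS y u b := by
  unfold CC indS
  rw [← Finset.card_powersetCard, Finset.card_eq_sum_ones]
  push_cast
  have h1 : (x a ∩ y b).powersetCard k
      = ((univ : Finset V).powersetCard k).filter (fun u => u ⊆ x a ∧ u ⊆ y b) := by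
    ext u
    simp only [Finset.mem_powersetCard, Finset.mem_filter, Finset.subset_univ, true_and,
      Finset.subset_inter_iff]
    tauto
  rw [h1, Finset.sum_filter]
  refine Finset.sum_congr rfl (fun u _ => ?_)
  by_cases h1 : u ⊆ x a
  · by_cases h2 : u ⊆ y b
    · simp [h1, h2]
    · simp [h2]
  · simp [h1]

/-- weight of a set -/
def wtS (p : α → ℝ) (x : α → Finset V) (u : Finset V) : ℝ := ∑ a, p a * indS x u a

lemma EE_indS (p : α → ℝ) (q : β → ℝ) (x : α → Finset V) (y : β → Finset V) (u : Finset V) :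
    EE p q (fun a b => indS x u a * indS y u b) = wtS p x u * wtS q y u := by
  unfold wtS
  rw [EE_margL, Finset.sum_mul]
  refine Finset.sum_congr rfl (fun a _ => ?_)
  unfold margL
  rw [Finset.mul_sum, Finset.mul_sum]
  refine Finset.sum_congr rfl (fun b _ => ?_)
  ring

lemma EE_CC (k : ℕ) (p : α → ℝ) (q : β → ℝ) (x : α → Finset V) (y : β → Finset V) :
    EE p q (CC k x y) = ∑ u ∈ (univ : Finset V).powersetCard k, wtS p x u * wtS q y u := by
  have h1 : CC k x y = fun a b => ∑ u ∈ (univ : Finset V).powersetCard k,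
      (fun u a b => indS x u a * indS y u b) u a b := by
    funext a b
    exact CC_eq_sum k x y a b
  rw [h1, EE_sum]
  exact Finset.sum_congr rfl (fun u _ => EE_indS p q x y u)

lemma EE_CC_mul (k : ℕ) (p : α → ℝ) (q : β → ℝ) (x : α → Finset V) (y : β → Finset V)
    (N0 : α → β → ℝ) :
    EE p q (fun a b => CC k x y a b * N0 a b)
      = ∑ u ∈ (univ : Finset V).powersetCard k,
        EE p q (fun a b => indS x u a * indS y u b * N0 a b) := by
  have h1 : (fun a b => CC k x y a b * N0 a b)
      = fun a b => ∑ u ∈ (univ : Finset V).powersetCard k,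
      (fun u a b => indS x u a * indS y u b * N0 a b) u a b := by
    funext a b
    rw [CC_eq_sum k x y a b, Finset.sum_mul]
  rw [h1, EE_sum]

lemma wtS_eq_sum_filter {X : Finset α} {p : α → ℝ} (hp : IsProb X p) (x : α → Finset V)
    (u : Finset V) : wtS p x u = ∑ a ∈ X.filter (fun a => u ⊆ x a), p a := by
  unfold wtS indS
  rw [Finset.sum_filter]
  rw [← Finset.sum_subset (Finset.subset_univ X) (fun a _ ha => by rw [hp.zero a ha, zero_mul])]
  refine Finset.sum_congr rfl (fun a _ => ?_)
  split_ifs <;> ring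

lemma cond_eq {X : Finset α} {p : α → ℝ} (hp : IsProb X p) (x : α → Finset V) (u : Finset V)
    (a : α) : cond p (X.filter (fun a => u ⊆ x a)) a = p a * indS x u a / wtS p x u := by
  unfold cond
  rw [wtS_eq_sum_filter hp]
  by_cases ha : a ∈ X
  · by_cases hu : u ⊆ x a
    · rw [if_pos (Finset.mem_filter.2 ⟨ha, hu⟩)]
      simp [indS, hu]
    · have hna : a ∉ X.filter (fun a => u ⊆ x a) := fun h => hu (Finset.mem_filter.1 h).2
      rw [if_neg hna]
      simp [indS, hu]
  · have hna : a ∉ X.filter (fun a => u ⊆ x a) := fun h => ha (Finset.mem_filter.1 h).1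
    rw [if_neg hna, hp.zero a ha]
    simp

/-- passing to the link of a suitable `k`-set -/
theorem link {X : Finset α} {Y : Finset β} {p : α → ℝ} {q : β → ℝ} (hp : IsProb X p)
    (hq : IsProb Y q) (x : α → Finset V) (y : β → Finset V) (k : ℕ) (N0 : α → β → ℝ)
    (hN0 : ∀ a b, 0 ≤ N0 a b) {θ γ Z : ℝ} (hθ : 0 < θ) (hγ : 0 < γ)
    (hZ : 0 < Z) (hZle : Z ≤ EE p q (CC k x y))
    (hN : EE p q (fun a b => CC k x y a b * N0 a b) ≤ θ * (1 - γ) * EE p q (CC k x y)) :
    ∃ u : Finset V, u.card = k ∧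
      0 < ∑ a ∈ X.filter (fun a => u ⊆ x a), p a ∧
      0 < ∑ b ∈ Y.filter (fun b => u ⊆ y b), q b ∧
      Dom p q (cond p (X.filter (fun a => u ⊆ x a))) (cond q (Y.filter (fun b => u ⊆ y b)))
        (Real.log (((Fintype.card V).choose k : ℝ) / (γ * Z))) ∧
      EE (cond p (X.filter (fun a => u ⊆ x a))) (cond q (Y.filter (fun b => u ⊆ y b))) N0 ≤ θ := by
  set U := (univ : Finset V).powersetCard k with hU
  have hZ' : 0 < EE p q (CC k x y) := lt_of_lt_of_le hZ hZle
  have hsumω : EE p q (CC k x y) = ∑ u ∈ U, wtS p x u * wtS q y u := EE_CC k p q x y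
  have hUne : U.Nonempty := by
    by_contra hne
    rw [Finset.not_nonempty_iff_eq_empty] at hne
    rw [hsumω, hne, Finset.sum_empty] at hZ'
    exact lt_irrefl _ hZ'
  obtain ⟨u, huU, h1, h2⟩ := select U hUne (fun u => wtS p x u * wtS q y u)
    (fun u => EE p q (fun a b => indS x u a * indS y u b * N0 a b))
    (fun u _ => EE_nonneg hp.nonneg hq.nonneg (fun a b => mul_nonneg
      (mul_nonneg (indS_nonneg x u a) (indS_nonneg y u b)) (hN0 a b))) hθ hγ
    (by rw [← hsumω]; exact hZ') (by
      rw [← hsumω]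
      rw [EE_CC_mul] at hN
      exact hN)
  rw [← hsumω] at h1
  have hcardU : (U.card : ℝ) = ((Fintype.card V).choose k : ℝ) := by
    rw [hU, Finset.card_powersetCard, Finset.card_univ]
  have hcardpos : 0 < (U.card : ℝ) := by exact_mod_cast hUne.card_pos
  have hωpos : 0 < wtS p x u * wtS q y u := lt_of_lt_of_le (by positivity) h1
  have hwp0 : 0 ≤ wtS p x u := Finset.sum_nonneg (fun a _ => mul_nonneg (hp.nonneg a)
    (indS_nonneg x u a))
  have hwq0 : 0 ≤ wtS q y u := Finset.sum_nonneg (fun b _ => mul_nonneg (hq.nonneg b)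
    (indS_nonneg y u b))
  have hwp : 0 < wtS p x u := by
    rcases hwp0.eq_or_lt with h | h
    · rw [← h, zero_mul] at hωpos; exact absurd hωpos (lt_irrefl _)
    · exact h
  have hwq : 0 < wtS q y u := by
    rcases hwq0.eq_or_lt with h | h
    · rw [← h, mul_zero] at hωpos; exact absurd hωpos (lt_irrefl _)
    · exact h
  refine ⟨u, (Finset.mem_powersetCard.1 huU).2, ?_, ?_, ?_, ?_⟩
  · rw [← wtS_eq_sum_filter hp]; exact hwp
  · rw [← wtS_eq_sum_filter hq]; exact hwq
  · refine ⟨- Real.log (wtS p x u), - Real.log (wtS q y u), ?_, ?_, ?_⟩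
    · intro a
      rw [cond_eq hp, Real.exp_neg, Real.exp_log hwp]
      have h3 : p a * indS x u a ≤ p a := by
        have : indS x u a ≤ 1 := by unfold indS; split_ifs <;> norm_num
        nlinarith [hp.nonneg a]
      rw [div_eq_inv_mul]
      exact mul_le_mul_of_nonneg_left h3 (inv_pos.2 hwp).le
    · intro b
      rw [cond_eq hq, Real.exp_neg, Real.exp_log hwq]
      have h3 : q b * indS y u b ≤ q b := by
        have : indS y u b ≤ 1 := by unfold indS; split_ifs <;> norm_num
        nlinarith [hq.nonneg b]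
      rw [div_eq_inv_mul]
      exact mul_le_mul_of_nonneg_left h3 (inv_pos.2 hwq).le
    · rw [← hcardU]
      have h3 : γ * Z / (U.card : ℝ) ≤ wtS p x u * wtS q y u := by
        refine le_trans ?_ h1
        gcongr
      have h4 : - Real.log (wtS p x u) + - Real.log (wtS q y u)
          = - Real.log (wtS p x u * wtS q y u) := by
        rw [Real.log_mul hwp.ne' hwq.ne']; ring
      rw [h4, ← Real.log_inv]
      apply Real.log_le_log (inv_pos.2 hωpos)
      rw [inv_le_comm₀ hωpos (by positivity), inv_div]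
      exact h3
  · have h3 : EE (cond p (X.filter (fun a => u ⊆ x a))) (cond q (Y.filter (fun b => u ⊆ y b))) N0
        = (wtS p x u * wtS q y u)⁻¹ * EE p q (fun a b => indS x u a * indS y u b * N0 a b) := by
      unfold EE
      rw [Finset.mul_sum]
      refine Finset.sum_congr rfl (fun a _ => ?_)
      rw [Finset.mul_sum]
      refine Finset.sum_congr rfl (fun b _ => ?_)
      rw [cond_eq hp, cond_eq hq]
      field_simp
    rw [h3, inv_mul_le_iff₀ hωpos]
    linarith

end Run7.h852
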