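import Pool.Agent.Run7.h852.Stage

open Finset

set_option linter.unusedSectionVars false

namespace Run7.h852

variable {α β ι : Type*} [Fintype α] [Fintype β] [Fintype ι] [DecidableEq α] [DecidableEq β]

lemma EE_swap (p : α → ℝ) (q : β → ℝ) (f : α → β → ℝ) :
    EE q p (fun b a => f a b) = EE p q f := by
  unfold EE
  rw [Finset.sum_comm]
  refine Finset.sum_congr rfl (fun a _ => Finset.sum_congr rfl (fun b _ => ?_))
  ring

lemma EE_add (p : α → ℝ) (q : β → ℝ) (f g : α → β → ℝ) :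
    EE p q (fun a b => f a b + g a b) = EE p q f + EE p q g := by
  unfold EE
  rw [← Finset.sum_add_distrib]
  refine Finset.sum_congr rfl (fun a _ => ?_)
  rw [← Finset.sum_add_distrib]
  refine Finset.sum_congr rfl (fun b _ => ?_)
  ring

lemma EE_sub (p : α → ℝ) (q : β → ℝ) (f g : α → β → ℝ) :
    EE p q (fun a b => f a b - g a b) = EE p q f - EE p q g := by
  unfold EE
  rw [← Finset.sum_sub_distrib]
  refine Finset.sum_congr rfl (fun a _ => ?_)
  rw [← Finset.sum_sub_distrib]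
  refine Finset.sum_congr rfl (fun b _ => ?_)
  ring

lemma EE_smul (p : α → ℝ) (q : β → ℝ) (r : ℝ) (f : α → β → ℝ) :
    EE p q (fun a b => r * f a b) = r * EE p q f := by
  unfold EE
  rw [Finset.mul_sum]
  refine Finset.sum_congr rfl (fun a _ => ?_)
  rw [Finset.mul_sum]
  refine Finset.sum_congr rfl (fun b _ => ?_)
  ring

lemma EE_sum {κ : Type*} (s : Finset κ) (p : α → ℝ) (q : β → ℝ) (f : κ → α → β → ℝ) :
    EE p q (fun a b => ∑ i ∈ s, f i a b) = ∑ i ∈ s, EE p q (f i) := by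
  unfold EE
  rw [Finset.sum_comm' (s := s) (t := fun _ => univ) (s' := fun _ => s) (t' := univ)]
  · refine Finset.sum_congr rfl (fun a _ => ?_)
    rw [Finset.sum_comm]
    refine Finset.sum_congr rfl (fun b _ => ?_)
    rw [Finset.mul_sum]
  · simp

lemma EE_nonneg {p : α → ℝ} {q : β → ℝ} {f : α → β → ℝ} (hp : ∀ a, 0 ≤ p a) (hq : ∀ b, 0 ≤ q b)
    (hf : ∀ a b, 0 ≤ f a b) : 0 ≤ EE p q f :=
  Finset.sum_nonneg (fun a _ => Finset.sum_nonneg (fun b _ =>
    mul_nonneg (mul_nonneg (hp a) (hq b)) (hf a b)))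

lemma EE_mono {X : Finset α} {Y : Finset β} {p : α → ℝ} {q : β → ℝ} {f g : α → β → ℝ}
    (hp : IsProb X p) (hq : IsProb Y q) (h : ∀ a ∈ X, ∀ b ∈ Y, f a b ≤ g a b) :
    EE p q f ≤ EE p q g := by
  unfold EE
  refine Finset.sum_le_sum (fun a _ => Finset.sum_le_sum (fun b _ => ?_))
  by_cases ha : a ∈ X
  · by_cases hb : b ∈ Y
    · exact mul_le_mul_of_nonneg_left (h a ha b hb) (mul_nonneg (hp.nonneg a) (hq.nonneg b))
    · simp [hq.zero b hb]
  · simp [hp.zero a ha]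

lemma EE_const {X : Finset α} {Y : Finset β} {p : α → ℝ} {q : β → ℝ}
    (hp : IsProb X p) (hq : IsProb Y q) (r : ℝ) : EE p q (fun _ _ => r) = r := by
  unfold EE
  have : ∀ a, ∑ b, p a * q b * r = p a * r := by
    intro a
    rw [← Finset.sum_mul, ← Finset.mul_sum, hq.sum]
    ring
  simp_rw [this]
  rw [← Finset.sum_mul, hp.sum, one_mul]

/-- marginal -/
lemma EE_eq_left (p : α → ℝ) (q : β → ℝ) (f : α → β → ℝ) :
    EE p q f = ∑ a, p a * ∑ b, q b * f a b := by
  unfold EE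
  refine Finset.sum_congr rfl (fun a _ => ?_)
  rw [Finset.mul_sum]
  refine Finset.sum_congr rfl (fun b _ => ?_)
  ring

/-- Standing assumptions on the potential. -/
structure GoodPot (c : ι → Finset α → Finset β → ℝ) (w : ι → α → β → ℝ) (G : α → β → ℝ) :
    Prop where
  c_nonneg : ∀ i X Y, 0 ≤ c i X Y
  c_mono : ∀ i X X' Y Y', X' ⊆ X → Y' ⊆ Y → c i X' Y' ≤ c i X Y
  w_nonneg : ∀ i a b, 0 ≤ w i a b
  G_nonneg : ∀ a b, 0 ≤ G a b

/-- minimum points of the functional -/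
structure IsMinPt (μ : α → ℝ) (ν : β → ℝ) (c : ι → Finset α → Finset β → ℝ)
    (w : ι → α → β → ℝ) (G : α → β → ℝ)
    (X : Finset α) (Y : Finset β) (p : α → ℝ) (q : β → ℝ) : Prop where
  good : GoodPot c w G
  hX : X ⊆ supp μ
  hY : Y ⊆ supp ν
  hp : IsProb X p
  hq : IsProb Y q
  hmin : ∀ X' Y' p' q', X' ⊆ supp μ → Y' ⊆ supp ν → IsProb X' p' → IsProb Y' q' →
        Phi μ ν c w G X Y p q ≤ Phi μ ν c w G X' Y' p' q'

lemma pot_swap (c : ι → Finset α → Finset β → ℝ) (w : ι → α → β → ℝ) (G : α → β → ℝ)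
    (X : Finset α) (Y : Finset β) (p : α → ℝ) (q : β → ℝ) :
    pot (fun i Y X => c i X Y) (fun i b a => w i a b) (fun b a => G a b) Y X q p
      = pot c w G X Y p q := by
  unfold pot
  rw [EE_swap p q G]
  congr 1
  refine Finset.sum_congr rfl (fun i _ => ?_)
  rw [EE_swap p q (w i)]

lemma Phi_swap (μ : α → ℝ) (ν : β → ℝ) (c : ι → Finset α → Finset β → ℝ)
    (w : ι → α → β → ℝ) (G : α → β → ℝ)
    (X : Finset α) (Y : Finset β) (p : α → ℝ) (q : β → ℝ) :
    Phi ν μ (fun i Y X => c i X Y) (fun i b a => w i a b) (fun b a => G a b) Y X q p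
      = Phi μ ν c w G X Y p q := by
  unfold Phi
  rw [pot_swap]
  ring

lemma IsMinPt.swap {μ : α → ℝ} {ν : β → ℝ} {c : ι → Finset α → Finset β → ℝ}
    {w : ι → α → β → ℝ} {G : α → β → ℝ}
    {X : Finset α} {Y : Finset β} {p : α → ℝ} {q : β → ℝ} (h : IsMinPt μ ν c w G X Y p q) :
    IsMinPt ν μ (fun i Y X => c i X Y) (fun i b a => w i a b) (fun b a => G a b) Y X q p := by
  refine ⟨⟨fun i Y X => h.good.c_nonneg i X Y, fun i Y Y' X X' h1 h2 =>
    h.good.c_mono i X X' Y Y' h2 h1, fun i b a => h.good.w_nonneg i a b,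
    fun b a => h.good.G_nonneg a b⟩, h.hY, h.hX, h.hq, h.hp, ?_⟩
  intro Y' X' q' p' hY' hX' hq' hp'
  rw [Phi_swap μ ν c w G X Y p q, Phi_swap μ ν c w G X' Y' p' q']
  exact h.hmin X' Y' p' q' hX' hY' hp' hq'

section Basic

variable {μ : α → ℝ} {ν : β → ℝ} {c : ι → Finset α → Finset β → ℝ}
    {w : ι → α → β → ℝ} {G : α → β → ℝ}
    {X : Finset α} {Y : Finset β} {p : α → ℝ} {q : β → ℝ}

lemma IsMinPt.mu_pos (h : IsMinPt μ ν c w G X Y p q) {a : α} (ha : a ∈ X) : 0 < μ a :=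
  mem_supp.1 (h.hX ha)

lemma IsMinPt.sum_mu_pos (h : IsMinPt μ ν c w G X Y p q) {X' : Finset α} (hX' : X' ⊆ X)
    (hne : X'.Nonempty) : 0 < ∑ a ∈ X', μ a :=
  Finset.sum_pos (fun a ha => h.mu_pos (hX' ha)) hne

lemma pot_mono (hg : GoodPot c w G) {X' : Finset α} {Y' : Finset β} (hX : X' ⊆ X) (hY : Y' ⊆ Y)
    (p : α → ℝ) (q : β → ℝ) : pot c w G X' Y' p q ≤ pot c w G X Y p q := by
  unfold pot
  refine add_le_add ?_ le_rfl
  refine Finset.sum_le_sum (fun i _ => ?_)
  exact mul_le_mul_of_nonneg_right (hg.c_mono i X X' Y Y' hX hY) (Real.sqrt_nonneg _)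

/-- full support -/
lemma IsMinPt.p_pos (h : IsMinPt μ ν c w G X Y p q) {a : α} (ha : a ∈ X) : 0 < p a := by
  by_contra hpa
  have hpa0 : p a = 0 := le_antisymm (not_lt.1 hpa) (h.hp.nonneg a)
  have hp' : IsProb (X.erase a) p := by
    refine ⟨h.hp.nonneg, ?_, h.hp.sum⟩
    intro x hx
    by_cases hxa : x = a
    · rw [hxa, hpa0]
    · exact h.hp.zero x (fun hx' => hx (Finset.mem_erase.2 ⟨hxa, hx'⟩))
  have hsub : X.erase a ⊆ X := Finset.erase_subset a X
  have h1 := h.hmin (X.erase a) Y p q (hsub.trans h.hX) h.hY hp' h.hq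
  unfold Phi at h1
  have h2 := pot_mono h.good hsub (Finset.Subset.refl Y) p q
  have h3 : ∑ x ∈ X.erase a, μ x < ∑ x ∈ X, μ x := by
    rw [← Finset.add_sum_erase X μ ha]
    have := h.mu_pos ha
    linarith
  have h4 : 0 < ∑ x ∈ X.erase a, μ x := h.sum_mu_pos hsub hp'.nonempty
  have h5 := Real.log_lt_log h4 h3
  linarith

lemma IsMinPt.q_pos (h : IsMinPt μ ν c w G X Y p q) {b : β} (hb : b ∈ Y) : 0 < q b :=
  h.swap.p_pos hb

/-- slopes -/
noncomputable def slope (c : ι → Finset α → Finset β → ℝ) (w : ι → α → β → ℝ)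
    (X : Finset α) (Y : Finset β) (p : α → ℝ) (q : β → ℝ) (i : ι) : ℝ :=
  c i X Y / (2 * Real.sqrt (EE p q (w i)))

/-- the linearised potential -/
noncomputable def FF (c : ι → Finset α → Finset β → ℝ) (w : ι → α → β → ℝ) (G : α → β → ℝ)
    (X : Finset α) (Y : Finset β) (p : α → ℝ) (q : β → ℝ) (a : α) (b : β) : ℝ :=
  ∑ i, slope c w X Y p q i * w i a b + G a b

lemma slope_nonneg (hg : GoodPot c w G) (X : Finset α) (Y : Finset β) (p : α → ℝ) (q : β → ℝ)
    (i : ι) : 0 ≤ slope c w X Y p q i := by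
  unfold slope
  have := hg.c_nonneg i X Y
  positivity

lemma FF_nonneg (hg : GoodPot c w G) (X : Finset α) (Y : Finset β) (p : α → ℝ) (q : β → ℝ)
    (a : α) (b : β) : 0 ≤ FF c w G X Y p q a b := by
  unfold FF
  exact add_nonneg (Finset.sum_nonneg (fun i _ =>
    mul_nonneg (slope_nonneg hg X Y p q i) (hg.w_nonneg i a b))) (hg.G_nonneg a b)

lemma EE_FF (p' : α → ℝ) (q' : β → ℝ) :
    EE p' q' (FF c w G X Y p q) = ∑ i, slope c w X Y p q i * EE p' q' (w i) + EE p' q' G := by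
  have : FF c w G X Y p q
      = fun a b => (∑ i ∈ univ, (fun i a b => slope c w X Y p q i * w i a b) i a b) + G a b := by
    funext a b; rfl
  rw [this, EE_add, EE_sum]
  congr 1
  refine Finset.sum_congr rfl (fun i _ => ?_)
  rw [EE_smul]

lemma sqrt_tangent {s s' : ℝ} (hs : 0 < s) (hs' : 0 ≤ s') :
    Real.sqrt s' ≤ Real.sqrt s + (s' - s) / (2 * Real.sqrt s) := by
  have h0 : 0 < Real.sqrt s := Real.sqrt_pos.2 hs
  have h1 : Real.sqrt s * Real.sqrt s = s := Real.mul_self_sqrt hs.le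
  have h2 : Real.sqrt s' * Real.sqrt s' = s' := Real.mul_self_sqrt hs'
  have h3 : Real.sqrt s + (s' - s) / (2 * Real.sqrt s) - Real.sqrt s'
      = (Real.sqrt s - Real.sqrt s') ^ 2 / (2 * Real.sqrt s) := by
    field_simp
    nlinarith
  have h4 : 0 ≤ (Real.sqrt s - Real.sqrt s') ^ 2 / (2 * Real.sqrt s) := by positivity
  linarith

lemma IsMinPt.w_zero (h : IsMinPt μ ν c w G X Y p q) {i : ι} (hi : EE p q (w i) = 0)
    {a : α} {b : β} (ha : a ∈ X) (hb : b ∈ Y) : w i a b = 0 := by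
  unfold EE at hi
  have h1 := (Finset.sum_eq_zero_iff_of_nonneg (fun a _ => Finset.sum_nonneg (fun b _ =>
    mul_nonneg (mul_nonneg (h.hp.nonneg a) (h.hq.nonneg b)) (h.good.w_nonneg i a b)))).1 hi a
    (Finset.mem_univ a)
  have h2 := (Finset.sum_eq_zero_iff_of_nonneg (fun b _ =>
    mul_nonneg (mul_nonneg (h.hp.nonneg a) (h.hq.nonneg b)) (h.good.w_nonneg i a b))).1 h1 b
    (Finset.mem_univ b)
  have h3 := h.p_pos ha
  have h4 := h.q_pos hb
  rcases mul_eq_zero.1 h2 with h5 | h5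
  · exact absurd h5 (mul_pos h3 h4).ne'
  · exact h5

/-- linearisation of the potential -/
lemma IsMinPt.pot_le (h : IsMinPt μ ν c w G X Y p q) {X' : Finset α} {Y' : Finset β}
    (hX' : X' ⊆ X) (hY' : Y' ⊆ Y) {p' : α → ℝ} {q' : β → ℝ}
    (hp' : IsProb X' p') (hq' : IsProb Y' q') :
    pot c w G X' Y' p' q' ≤ pot c w G X Y p q
      + (EE p' q' (FF c w G X Y p q) - EE p q (FF c w G X Y p q)) := by
  refine le_trans (pot_mono h.good hX' hY' p' q') ?_
  rw [EE_FF, EE_FF]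
  unfold pot
  have key : ∀ i, c i X Y * Real.sqrt (EE p' q' (w i)) ≤ c i X Y * Real.sqrt (EE p q (w i))
      + (slope c w X Y p q i * EE p' q' (w i) - slope c w X Y p q i * EE p q (w i)) := by
    intro i
    have hs' : 0 ≤ EE p' q' (w i) := EE_nonneg hp'.nonneg hq'.nonneg (h.good.w_nonneg i)
    have hs : 0 ≤ EE p q (w i) := EE_nonneg h.hp.nonneg h.hq.nonneg (h.good.w_nonneg i)
    rcases hs.eq_or_lt with h0 | h0
    · have h0' : EE p' q' (w i) = 0 := by
        unfold EE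
        refine Finset.sum_eq_zero (fun a _ => Finset.sum_eq_zero (fun b _ => ?_))
        by_cases ha : a ∈ X'
        · by_cases hb : b ∈ Y'
          · rw [h.w_zero h0.symm (hX' ha) (hY' hb), mul_zero]
          · rw [hq'.zero b hb]; ring
        · rw [hp'.zero a ha]; ring
      rw [h0', ← h0]; simp
    · have h1 := sqrt_tangent h0 hs'
      have h2 := h.good.c_nonneg i X Y
      have h3 := mul_le_mul_of_nonneg_left h1 h2
      have h4 : c i X Y * (Real.sqrt (EE p q (w i))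
          + (EE p' q' (w i) - EE p q (w i)) / (2 * Real.sqrt (EE p q (w i))))
          = c i X Y * Real.sqrt (EE p q (w i))
      + (slope c w X Y p q i * EE p' q' (w i) - slope c w X Y p q i * EE p q (w i)) := by
        unfold slope
        ring
      rw [← h4]
      exact h3
  have h5 := Finset.sum_le_sum (fun i (_ : i ∈ (univ : Finset ι)) => key i)
  rw [Finset.sum_add_distrib, Finset.sum_sub_distrib] at h5
  linarith

end Basic

end Run7.h852
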