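import Pool.Agent.Run7.h852.Cases

open Finset

set_option linter.unusedSectionVars false

namespace Run7.h852

lemma choose_add_le (l T : ℕ) : (l + T).choose l ≤ (T + 1) ^ l := by
  induction l with
  | zero => simp
  | succ l ih =>
    have h1 := Nat.add_one_mul_choose_eq (l + T) l
    have h2 : (l + 1 + T).choose (l + 1) * (l + 1) = (l + T + 1) * (l + T).choose l := by
      rw [show l + 1 + T = l + T + 1 by ring]; exact h1.symm
    have h3 : (l + T + 1) * (l + T).choose l ≤ ((T + 1) ^ (l + 1)) * (l + 1) := by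
      calc (l + T + 1) * (l + T).choose l ≤ ((l + 1) * (T + 1)) * (T + 1) ^ l := by
            apply Nat.mul_le_mul _ ih
            nlinarith
        _ = ((T + 1) ^ (l + 1)) * (l + 1) := by ring
    rw [← h2] at h3
    exact Nat.le_of_mul_le_mul_right h3 (Nat.succ_pos l)

section

variable {α β V : Type*} [Fintype α] [Fintype β] [DecidableEq α] [DecidableEq β]
  [Fintype V] [DecidableEq V]

/-- The weight of a bad pair. -/
noncomputable def hwt (l k : ℕ) : ℝ :=
  if k < l then 1 else if k = l then 0 else ((k - l : ℕ) : ℝ) ^ (l - 1)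

lemma hwt_nonneg (l k : ℕ) : 0 ≤ hwt l k := by
  unfold hwt; split_ifs
  · norm_num
  · exact le_rfl
  · positivity

lemma one_le_hwt {l k : ℕ} (h : k ≠ l) : 1 ≤ hwt l k := by
  unfold hwt
  split_ifs with h1
  · exact le_rfl
  · apply one_le_pow₀
    have : 1 ≤ k - l := by omega
    exact_mod_cast this

/-- weight matrix -/
noncomputable def HH (l : ℕ) (x : α → Finset V) (y : β → Finset V) (a : α) (b : β) : ℝ :=
  hwt l (x a ∩ y b).card

lemma HH_nonneg (l : ℕ) (x : α → Finset V) (y : β → Finset V) (a : α) (b : β) :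
    0 ≤ HH l x y a b := hwt_nonneg _ _

/-- truncated inverse of the excess -/
noncomputable def N0 (l : ℕ) (S : ℝ) (x : α → Finset V) (y : β → Finset V) (a : α) (b : β) : ℝ :=
  if (x a ∩ y b).card ≤ l then 0 else 1 / min (((x a ∩ y b).card - l : ℕ) : ℝ) S

lemma N0_nonneg (l : ℕ) {S : ℝ} (hS : 0 < S) (x : α → Finset V) (y : β → Finset V)
    (a : α) (b : β) : 0 ≤ N0 l S x y a b := by
  unfold N0
  split_ifs
  · exact le_rfl
  · have : 0 ≤ min (((x a ∩ y b).card - l : ℕ) : ℝ) S := le_min (by positivity) hS.le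
    positivity

lemma MM_le_HH (l : ℕ) (x : α → Finset V) (y : β → Finset V) (a : α) (b : β) :
    MM x y a b ≤ l + HH l x y a b * MM x y a b := by
  unfold MM HH
  by_cases h : (x a ∩ y b).card = l
  · rw [h]; have := hwt_nonneg l l; nlinarith [Nat.cast_nonneg (α := ℝ) l]
  · have h1 := one_le_hwt h
    nlinarith [Nat.cast_nonneg (α := ℝ) l, Nat.cast_nonneg (α := ℝ) (x a ∩ y b).card]

lemma CC_ge (l : ℕ) (x : α → Finset V) (y : β → Finset V) (a : α) (b : β) :
    1 - HH l x y a b ≤ CC l x y a b := by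
  unfold HH CC
  rcases lt_trichotomy (x a ∩ y b).card l with h | h | h
  · have : hwt l (x a ∩ y b).card = 1 := by unfold hwt; rw [if_pos h]
    rw [this, sub_self]; positivity
  · rw [h]; simp [hwt]
  · have h1 : 1 ≤ (x a ∩ y b).card.choose l := Nat.choose_pos h.le
    have h2 : (1 : ℝ) ≤ (((x a ∩ y b).card.choose l : ℕ) : ℝ) := by exact_mod_cast h1
    have := hwt_nonneg l (x a ∩ y b).card
    linarith

lemma CC_N0_le {l : ℕ} (hl : 1 ≤ l) {S : ℝ} (hS : 0 < S) (x : α → Finset V) (y : β → Finset V)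
    (a : α) (b : β) :
    CC l x y a b * N0 l S x y a b
      ≤ 2 ^ l * (HH l x y a b + S⁻¹ * (HH l x y a b * MM x y a b)) := by
  unfold CC N0 HH MM
  set k := (x a ∩ y b).card with hk
  split_ifs with h
  · rw [mul_zero]
    have := hwt_nonneg l k
    positivity
  · obtain ⟨T, hT⟩ : ∃ T, k = l + T := ⟨k - l, by omega⟩
    have hT1 : 1 ≤ T := by omega
    have hkl : k - l = T := by omega
    have hw : hwt l k = (T : ℝ) ^ (l - 1) := by
      unfold hwt
      rw [if_neg (by omega), if_neg (by omega), hkl]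
    rw [hw, hkl]
    have hTr : (1 : ℝ) ≤ (T : ℝ) := by exact_mod_cast hT1
    have hTpos : (0 : ℝ) < (T : ℝ) := by linarith
    have h1 : ((k.choose l : ℕ) : ℝ) ≤ 2 ^ l * (T : ℝ) ^ l := by
      have h2 := choose_add_le l T
      rw [← hT] at h2
      have h3 : ((k.choose l : ℕ) : ℝ) ≤ ((T : ℝ) + 1) ^ l := by exact_mod_cast h2
      refine h3.trans ?_
      rw [← mul_pow]
      apply pow_le_pow_left₀ (by positivity)
      linarith
    have h4 : 1 / min (T : ℝ) S ≤ 1 / (T : ℝ) + S⁻¹ := by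
      rcases le_total (T : ℝ) S with h5 | h5
      · rw [min_eq_left h5]
        have : 0 ≤ S⁻¹ := (inv_pos.2 hS).le
        linarith
      · rw [min_eq_right h5, one_div]
        have : 0 ≤ 1 / (T : ℝ) := by positivity
        linarith
    have h6 : 0 ≤ 1 / min (T : ℝ) S := by
      have : 0 ≤ min (T : ℝ) S := le_min hTpos.le hS.le
      positivity
    have h7 : (T : ℝ) ^ l = (T : ℝ) ^ (l - 1) * T := by
      rw [← pow_succ]; congr 1; omega
    calc ((k.choose l : ℕ) : ℝ) * (1 / min (T : ℝ) S)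
        ≤ (2 ^ l * (T : ℝ) ^ l) * (1 / (T : ℝ) + S⁻¹) :=
          mul_le_mul h1 h4 h6 (by positivity)
      _ = 2 ^ l * ((T : ℝ) ^ (l - 1) + S⁻¹ * ((T : ℝ) ^ (l - 1) * T)) := by
          rw [h7]; field_simp
      _ ≤ 2 ^ l * ((T : ℝ) ^ (l - 1) + S⁻¹ * ((T : ℝ) ^ (l - 1) * (k : ℝ))) := by
          apply mul_le_mul_of_nonneg_left _ (by positivity)
          have h8 : (T : ℝ) ≤ (k : ℝ) := by exact_mod_cast (by omega : T ≤ k)
          have h9 : (T : ℝ) ^ (l - 1) * T ≤ (T : ℝ) ^ (l - 1) * (k : ℝ) :=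
            mul_le_mul_of_nonneg_left h8 (by positivity)
          have h10 := mul_le_mul_of_nonneg_left h9 (inv_pos.2 hS).le
          linarith

end

/-- scalar computation for the moment case -/
lemma scal_moment {L sn s Ω ε0 A m r θ : ℝ} {l : ℕ} (hL : L < 1.4) (hL0 : 0 < L) (hs : 0 < s)
    (hε : ε0 = s * s) (hΩ : Ω = sn * s) (hΩ1 : 1 ≤ sn * s) (hsn : 0 < sn)
    (hθ : θ = 1 / (2 ^ (l + 10) * ((l : ℝ) + 1))) (hsθ : s ≤ θ) (hm : 0 ≤ m)
    (hrr : r * r = m) (hA0 : 0 ≤ A) (hmA : m ≤ l + A)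
    (hA : Ω / ε0 * A ≤ (L + Ω) * m + 2 * (sn * r)) :
    A ≤ 1 / 2 ^ (l + 6) := by
  have hl0 : (0 : ℝ) ≤ (l : ℝ) := Nat.cast_nonneg l
  have h2r : 2 * r ≤ 1 + m := by nlinarith [sq_nonneg (r - 1)]
  have hpow : (1 : ℝ) ≤ 2 ^ l := one_le_pow₀ (by norm_num)
  have hθ1 : θ ≤ 1 / 1024 := by
    rw [hθ]
    apply one_div_le_one_div_of_le (by norm_num)
    rw [pow_add]
    nlinarith
  have hs1 : s ≤ 1 / 1024 := hsθ.trans hθ1
  -- A ≤ 2.4 s^2 m + 2 s r
  have h1 : A ≤ 2.4 * (s * s) * m + s * (2 * r) := by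
    rw [hΩ, hε] at hA
    have h2 : sn * s / (s * s) * A = sn / s * A := by field_simp
    rw [h2] at hA
    have h3 := mul_le_mul_of_nonneg_left hA (by positivity : 0 ≤ s / sn)
    have h4 : s / sn * (sn / s * A) = A := by field_simp
    rw [h4] at h3
    have h5 : s / sn * ((L + sn * s) * m + 2 * (sn * r))
        = (L * (s / sn)) * m + (s * s) * m + s * (2 * r) := by field_simp
    rw [h5] at h3
    have h6 : L * (s / sn) ≤ 1.4 * (s * s) := by
      have h7 : s / sn ≤ s * s := by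
        rw [div_le_iff₀ hsn]
        nlinarith
      have h8 : 0 ≤ s / sn := by positivity
      nlinarith
    have h9 := mul_le_mul_of_nonneg_right h6 hm
    linarith
  have h2 : A ≤ 3.4 * s * (1 + m) := by
    have h3 : s * s ≤ s * 1 := mul_le_mul_of_nonneg_left (by linarith) hs.le
    have h4 : (s * s) * m ≤ s * m := mul_le_mul_of_nonneg_right (by linarith) hm
    have h5 : s * (2 * r) ≤ s * (1 + m) := mul_le_mul_of_nonneg_left h2r hs.le
    nlinarith
  have h3 : A ≤ 3.4 * s * (1 + l + A) := by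
    refine h2.trans (mul_le_mul_of_nonneg_left (by linarith) (by positivity))
  have h4 : 3.4 * s * A ≤ 1 / 2 * A := mul_le_mul_of_nonneg_right (by linarith) hA0
  have h5 : A ≤ 6.8 * s * (l + 1) := by nlinarith
  have h6 : 6.8 * s * ((l : ℝ) + 1) ≤ 6.8 * θ * (l + 1) := by
    apply mul_le_mul_of_nonneg_right _ (by linarith)
    linarith
  have h7 : 6.8 * θ * ((l : ℝ) + 1) = 6.8 / 2 ^ (l + 10) := by
    rw [hθ]; field_simp
  have h8 : (6.8 : ℝ) / 2 ^ (l + 10) ≤ 1 / 2 ^ (l + 6) := by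
    rw [div_le_div_iff₀ (by positivity) (by positivity)]
    have : (2 : ℝ) ^ (l + 10) = 2 ^ (l + 6) * 16 := by
      rw [show l + 10 = (l + 6) + 4 by ring, pow_add]; norm_num
    rw [this]
    nlinarith [pow_pos (by norm_num : (0:ℝ) < 2) (l + 6)]
  linarith

/-- The case of small weighted density. -/
theorem moment_case {α β V : Type*} [Fintype α] [Fintype β] [DecidableEq α] [DecidableEq β]
    [Fintype V] [DecidableEq V] {l : ℕ} (hl : 1 ≤ l)
    {X0 : Finset α} {Y0 : Finset β} {μ : α → ℝ} {ν : β → ℝ}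
    (hμ : IsProb X0 μ) (hν : IsProb Y0 ν) (x : α → Finset V) (y : β → Finset V)
    {ε0 : ℝ} (hε : 0 < ε0) (hεc : ε0 ≤ (1 / (2 ^ (l + 10) * ((l : ℝ) + 1))) ^ 2)
    (hnε : 1 ≤ (Fintype.card V : ℝ) * ε0) (hH : EE μ ν (HH l x y) ≤ ε0) :
    ∃ (X : Finset α) (Y : Finset β) (p : α → ℝ) (q : β → ℝ), X ⊆ supp μ ∧ Y ⊆ supp ν ∧
      IsProb X p ∧ IsProb Y q ∧
      Dom μ ν p q ((2 + 24 * Real.sqrt (2 ^ (l + 3)) + (l + 2)) *
        (Real.sqrt ((Fintype.card V : ℝ) * ε0) + Real.log ((Fintype.card V : ℝ) + 1))) ∧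
      ∀ a ∈ X, ∀ b ∈ Y, (x a ∩ y b).card = l := by
  have hlog2 : 2 * Real.log 2 < 1.4 := by
    have := Real.log_two_lt_d9; linarith
  have hlog2' : 0 < Real.log 2 := Real.log_pos (by norm_num)
  set n : ℝ := (Fintype.card V : ℝ) with hnd
  set θ : ℝ := 1 / (2 ^ (l + 10) * ((l : ℝ) + 1)) with hθ
  have hl0 : (0 : ℝ) ≤ (l : ℝ) := Nat.cast_nonneg l
  have hθpos : 0 < θ := by rw [hθ]; positivity
  have hn0 : 0 < n := by
    by_contra hcon
    push Not at hcon
    nlinarith
  have hsθ : Real.sqrt ε0 ≤ θ := by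
    rw [Real.sqrt_le_left hθpos.le]; exact hεc
  have hs : 0 < Real.sqrt ε0 := Real.sqrt_pos.2 hε
  have hss : Real.sqrt ε0 * Real.sqrt ε0 = ε0 := Real.mul_self_sqrt hε.le
  have hsn : 0 < Real.sqrt n := Real.sqrt_pos.2 hn0
  have hΩe : Real.sqrt (n * ε0) = Real.sqrt n * Real.sqrt ε0 := Real.sqrt_mul hn0.le ε0
  have hΩ1 : 1 ≤ Real.sqrt (n * ε0) := by rw [Real.one_le_sqrt]; exact hnε
  have hpow : (1 : ℝ) ≤ 2 ^ l := one_le_pow₀ (by norm_num)
  have hθ1 : θ ≤ 1 / 1024 := by
    rw [hθ]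
    apply one_div_le_one_div_of_le (by norm_num)
    rw [pow_add]
    nlinarith
  have hε1 : ε0 ≤ 1 / 2 := by
    refine hεc.trans ?_
    nlinarith
  have hn1 : 1 ≤ n := by nlinarith
  obtain ⟨X, Y, p, q, hX, hY, hp, hq, hD, hH', hA⟩ := stageA hμ hν x y (HH l x y)
    (HH_nonneg l x y) (ε := ε0) (Ω := Real.sqrt (n * ε0)) hε (by linarith) hH
  set m := EE p q (MM x y) with hm
  set A := EE p q (fun a b => HH l x y a b * MM x y a b) with hAd
  have hm0 : 0 ≤ m := EE_nonneg hp.nonneg hq.nonneg (MM_nonneg x y)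
  have hA0 : 0 ≤ A := EE_nonneg hp.nonneg hq.nonneg
    (fun a b => mul_nonneg (HH_nonneg l x y a b) (MM_nonneg x y a b))
  have hmA : m ≤ l + A := by
    have h1 : m ≤ EE p q (fun a b => (l : ℝ) + HH l x y a b * MM x y a b) :=
      EE_mono hp hq (fun a _ b _ => MM_le_HH l x y a b)
    rw [EE_add (f := fun _ _ => (l : ℝ)), EE_const hp hq] at h1
    exact h1
  have hAle : A ≤ 1 / 2 ^ (l + 6) := by
    rw [Real.sqrt_mul hn0.le m] at hA
    exact scal_moment hlog2 (by linarith) hs hss.symm hΩe (by rw [← hΩe]; exact hΩ1) hsn hθ hsθ hm0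
      (Real.mul_self_sqrt hm0) hA0 hmA hA
  set ρ0 : ℝ := 2 ^ (l + 3) * ε0 with hρ0
  have hρpos : 0 < ρ0 := by rw [hρ0]; positivity
  set S : ℝ := 1 / (8 * ρ0) with hS
  have hSpos : 0 < S := by rw [hS]; positivity
  have hSinv : S⁻¹ = 8 * ρ0 := by rw [hS]; simp
  have hHle : EE p q (HH l x y) ≤ ε0 := hH'.trans hH
  have hZ : 1 / 2 ≤ EE p q (CC l x y) := by
    have h1 : EE p q (fun a b => 1 - HH l x y a b) ≤ EE p q (CC l x y) :=
      EE_mono hp hq (fun a _ b _ => CC_ge l x y a b)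
    rw [EE_one_sub hp hq] at h1
    linarith
  have hN : EE p q (fun a b => CC l x y a b * N0 l S x y a b)
      ≤ ρ0 * (1 - 1 / 2) * EE p q (CC l x y) := by
    have h1 : EE p q (fun a b => CC l x y a b * N0 l S x y a b)
        ≤ EE p q (fun a b => 2 ^ l * (HH l x y a b + S⁻¹ * (HH l x y a b * MM x y a b))) :=
      EE_mono hp hq (fun a _ b _ => CC_N0_le hl hSpos x y a b)
    have h2 : EE p q (fun a b => 2 ^ l * (HH l x y a b + S⁻¹ * (HH l x y a b * MM x y a b)))
        = 2 ^ l * (EE p q (HH l x y) + S⁻¹ * A) := by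
      rw [EE_smul, EE_add, EE_smul]
    rw [h2, hSinv] at h1
    have h3 : 2 ^ l * (EE p q (HH l x y) + 8 * ρ0 * A) ≤ 2 ^ l * (ε0 + 8 * ρ0 * (1 / 2 ^ (l + 6))) := by
      apply mul_le_mul_of_nonneg_left _ (by positivity)
      have : 8 * ρ0 * A ≤ 8 * ρ0 * (1 / 2 ^ (l + 6)) :=
        mul_le_mul_of_nonneg_left hAle (by positivity)
      linarith
    have h4 : (2 : ℝ) ^ l * (ε0 + 8 * ρ0 * (1 / 2 ^ (l + 6))) = ρ0 / 4 := by
      rw [hρ0, pow_add, pow_add]
      field_simp
      norm_num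
    have h5 : ρ0 * (1 - 1 / 2) * (1 / 2) ≤ ρ0 * (1 - 1 / 2) * EE p q (CC l x y) :=
      mul_le_mul_of_nonneg_left hZ (by linarith)
    linarith
  obtain ⟨u, hu, hpu, hqu, hDu, hbu⟩ := link hp hq x y l (N0 l S x y)
      (N0_nonneg l hSpos x y) (θ := ρ0) (γ := 1 / 2) (Z := 1 / 2) hρpos (by norm_num)
      (by norm_num) hZ hN
  set X1 := X.filter (fun a => u ⊆ x a) with hX1
  set Y1 := Y.filter (fun b => u ⊆ y b) with hY1
  have hP1 := cond_isProb hp.nonneg hpu
  have hQ1 := cond_isProb hq.nonneg hqu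
  have hρ8 : ρ0 ≤ 1 / 8 := by
    have h1 : ρ0 ≤ 2 ^ (l + 3) * θ ^ 2 := mul_le_mul_of_nonneg_left hεc (by positivity)
    have h2 : (2 : ℝ) ^ (l + 3) * θ ^ 2 = θ * (2 ^ (l + 3) * θ) := by ring
    have h3 : (2 : ℝ) ^ (l + 3) * θ ≤ 1 := by
      rw [hθ, mul_one_div, div_le_one (by positivity)]
      have : (2 : ℝ) ^ (l + 3) ≤ 2 ^ (l + 10) := pow_le_pow_right₀ (by norm_num) (by omega)
      nlinarith [pow_pos (by norm_num : (0:ℝ) < 2) (l + 10)]
    nlinarith
  obtain ⟨X', Y', p', q', hX', hY', hp', hq', hD', hgood⟩ := thmR hP1 hQ1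
      (fun a => x a \ u) (fun b => y b \ u) hρpos hρ8 (by
        rw [← hnd]
        have h1 : ε0 ≤ ρ0 := by
          rw [hρ0]
          have : (1 : ℝ) ≤ 2 ^ (l + 3) := one_le_pow₀ (by norm_num)
          nlinarith
        nlinarith) (by
        refine le_trans ?_ hbu
        apply EE_mono hP1 hQ1
        intro a ha b hb
        have h1 := card_link x y u (Finset.mem_filter.1 ha).2 (Finset.mem_filter.1 hb).2
        have h1' : ((fun a => x a \ u) a ∩ (fun b => y b \ u) b).card + l = (x a ∩ y b).card := by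
          rw [← hu]; exact h1
        unfold tw N0 MM
        rw [← hS]
        split_ifs with h2 h3 h3
        · exact le_rfl
        · have : 0 ≤ min (((x a ∩ y b).card - l : ℕ) : ℝ) S := le_min (by positivity) hSpos.le
          positivity
        · exfalso; apply h2
          have : ((fun a => x a \ u) a ∩ (fun b => y b \ u) b).card = 0 := by omega
          rw [this]; simp
        · have : ((fun a => x a \ u) a ∩ (fun b => y b \ u) b).card = (x a ∩ y b).card - l := by
            omega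
          rw [this])
  refine ⟨X', Y', p', q', ?_, ?_, hp', hq', ?_, ?_⟩
  · exact hX'.trans (cond_supp_sub (Finset.filter_subset _ _) hX)
  · exact hY'.trans (cond_supp_sub (Finset.filter_subset _ _) hY)
  · refine ((hD.trans hDu).trans hD').mono ?_
    rw [← hnd]
    have hlogn : Real.log 2 ≤ Real.log (n + 1) := Real.log_le_log (by norm_num) (by linarith)
    have h3 : 0 ≤ Real.log (n + 1) := by linarith
    have h4 : Real.log (((Fintype.card V).choose l : ℝ) / (1 / 2 * (1 / 2)))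
        ≤ (l + 2) * Real.log (n + 1) := by
      have h5 : (((Fintype.card V).choose l : ℕ) : ℝ) / (1 / 2 * (1 / 2)) ≤ (n + 1) ^ (l + 2) := by
        have h6 : (((Fintype.card V).choose l : ℕ) : ℝ) ≤ (n + 1) ^ l := by
          have h7 : (Fintype.card V).choose l ≤ (Fintype.card V) ^ l := Nat.choose_le_pow _ _
          have h8 : (((Fintype.card V).choose l : ℕ) : ℝ) ≤ n ^ l := by
            rw [hnd]; exact_mod_cast h7
          refine h8.trans (pow_le_pow_left₀ hn0.le (by linarith) l)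
        have h9 : (4 : ℝ) ≤ (n + 1) ^ 2 := by nlinarith
        calc (((Fintype.card V).choose l : ℕ) : ℝ) / (1 / 2 * (1 / 2))
            = (((Fintype.card V).choose l : ℕ) : ℝ) * 4 := by ring
          _ ≤ (n + 1) ^ l * (n + 1) ^ 2 := mul_le_mul h6 h9 (by norm_num) (by positivity)
          _ = (n + 1) ^ (l + 2) := by rw [pow_add]
      by_cases hc : ((Fintype.card V).choose l : ℝ) = 0
      · rw [hc]; simp
        positivity
      · have hcpos : 0 < (((Fintype.card V).choose l : ℕ) : ℝ) :=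
          lt_of_le_of_ne (by positivity) (Ne.symm hc)
        have h10 := Real.log_le_log (by positivity) h5
        rw [Real.log_pow] at h10
        push_cast at h10
        exact h10
    have h5 : Real.sqrt (n * ρ0) = Real.sqrt (2 ^ (l + 3)) * Real.sqrt (n * ε0) := by
      rw [← Real.sqrt_mul (by positivity)]
      congr 1
      rw [hρ0]; ring
    rw [h5]
    set R := Real.sqrt (2 ^ (l + 3)) with hR
    have hR0 : 0 ≤ R := Real.sqrt_nonneg _
    set Q := Real.sqrt (n * ε0) with hQ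
    set Λ := Real.log (n + 1) with hΛ
    have e1 : (2 + 24 * R + ((l : ℝ) + 2)) * (Q + Λ)
        = 2 * Q + ((l : ℝ) + 2) * Λ + 24 * (R * Q) + (2 * Λ + 24 * (R * Λ) + ((l : ℝ) + 2) * Q) := by
      ring
    rw [e1]
    have h6 : 0 ≤ 2 * Λ + 24 * (R * Λ) + ((l : ℝ) + 2) * Q := by
      have : 0 ≤ Q := by linarith
      positivity
    linarith
  · intro a ha b hb
    have h1 := hgood a ha b hb
    have h2 := (Finset.mem_filter.1 (mem_supp_cond (hX' ha))).2
    have h3 := (Finset.mem_filter.1 (mem_supp_cond (hY' hb))).2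
    have h4 := card_link x y u h2 h3
    rw [Finset.disjoint_iff_inter_eq_empty] at h1
    rw [h1, Finset.card_empty, zero_add, hu] at h4
    exact h4.symm

end Run7.h852
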