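import Pool.Agent.Run7.h852.Bounds

open Finset

set_option linter.unusedSectionVars false

namespace Run7.h852

variable {α β ι V : Type*} [Fintype α] [Fintype β] [Fintype ι] [DecidableEq α] [DecidableEq β]
  [Fintype V] [DecidableEq V]

/-- `p ⊗ q` is dominated by `exp K` times `μ ⊗ ν`. -/
def Dom (μ : α → ℝ) (ν : β → ℝ) (p : α → ℝ) (q : β → ℝ) (K : ℝ) : Prop :=
  ∃ κ1 κ2 : ℝ, (∀ a, p a ≤ Real.exp κ1 * μ a) ∧ (∀ b, q b ≤ Real.exp κ2 * ν b) ∧ κ1 + κ2 ≤ K

lemma Dom.mono {μ p : α → ℝ} {ν q : β → ℝ} {K K' : ℝ} (h : Dom μ ν p q K) (hK : K ≤ K') :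
    Dom μ ν p q K' := by
  obtain ⟨a, b, h1, h2, h3⟩ := h
  exact ⟨a, b, h1, h2, h3.trans hK⟩

lemma Dom.trans {μ p r : α → ℝ} {ν q s : β → ℝ} {K K' : ℝ} (h : Dom μ ν p q K)
    (h' : Dom p q r s K') : Dom μ ν r s (K + K') := by
  obtain ⟨a, b, h1, h2, h3⟩ := h
  obtain ⟨a', b', h1', h2', h3'⟩ := h'
  refine ⟨a + a', b + b', ?_, ?_, by linarith⟩
  · intro x
    calc r x ≤ Real.exp a' * p x := h1' x
      _ ≤ Real.exp a' * (Real.exp a * μ x) :=
          mul_le_mul_of_nonneg_left (h1 x) (Real.exp_pos _).le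
      _ = Real.exp (a + a') * μ x := by rw [Real.exp_add]; ring
  · intro x
    calc s x ≤ Real.exp b' * q x := h2' x
      _ ≤ Real.exp b' * (Real.exp b * ν x) :=
          mul_le_mul_of_nonneg_left (h2 x) (Real.exp_pos _).le
      _ = Real.exp (b + b') * ν x := by rw [Real.exp_add]; ring

/-- indicator of `v ∈ x a` -/
def ind (x : α → Finset V) (v : V) (a : α) : ℝ := if v ∈ x a then 1 else 0

lemma ind_nonneg (x : α → Finset V) (v : V) (a : α) : 0 ≤ ind x v a := by
  unfold ind; split_ifs <;> norm_num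

lemma ind_sq (x : α → Finset V) (v : V) (a : α) : ind x v a ^ 2 = ind x v a := by
  unfold ind; split_ifs <;> norm_num

/-- size of the intersection -/
def MM (x : α → Finset V) (y : β → Finset V) (a : α) (b : β) : ℝ := ((x a ∩ y b).card : ℝ)

lemma MM_nonneg (x : α → Finset V) (y : β → Finset V) (a : α) (b : β) : 0 ≤ MM x y a b := by
  unfold MM; positivity

lemma MM_eq_sum (x : α → Finset V) (y : β → Finset V) (a : α) (b : β) :
    MM x y a b = ∑ v, ind x v a * ind y v b := by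
  unfold MM ind
  rw [Finset.card_eq_sum_ones]
  push_cast
  rw [← Finset.sum_filter_add_sum_filter_not univ (fun v => v ∈ x a ∩ y b)]
  have h1 : ∑ v ∈ univ.filter (fun v => ¬ v ∈ x a ∩ y b),
      ((if v ∈ x a then (1 : ℝ) else 0) * if v ∈ y b then 1 else 0) = 0 := by
    apply Finset.sum_eq_zero
    intro v hv
    simp only [Finset.mem_filter, Finset.mem_univ, true_and, Finset.mem_inter, not_and] at hv
    by_cases h : v ∈ x a
    · simp [hv h]
    · simp [h]
  rw [h1, add_zero]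
  have h2 : univ.filter (fun v => v ∈ x a ∩ y b) = x a ∩ y b := by
    ext v; simp
  rw [h2]
  refine Finset.sum_congr rfl (fun v hv => ?_)
  rw [Finset.mem_inter] at hv
  simp [hv.1, hv.2]

/-- weight of an element -/
def wt (p : α → ℝ) (x : α → Finset V) (v : V) : ℝ := ∑ a, p a * ind x v a

lemma wt_nonneg {X : Finset α} {p : α → ℝ} (hp : IsProb X p) (x : α → Finset V) (v : V) :
    0 ≤ wt p x v := Finset.sum_nonneg (fun a _ => mul_nonneg (hp.nonneg a) (ind_nonneg x v a))

lemma EE_MM (p : α → ℝ) (q : β → ℝ) (x : α → Finset V) (y : β → Finset V) :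
    EE p q (MM x y) = ∑ v, wt p x v * wt q y v := by
  have h1 : MM x y = fun a b => ∑ v ∈ (univ : Finset V), (fun v a b => ind x v a * ind y v b) v a b := by
    funext a b
    exact MM_eq_sum x y a b
  rw [h1, EE_sum]
  refine Finset.sum_congr rfl (fun v _ => ?_)
  unfold wt
  rw [EE_margL, Finset.sum_mul]
  refine Finset.sum_congr rfl (fun a _ => ?_)
  unfold margL
  rw [Finset.mul_sum, Finset.mul_sum]
  refine Finset.sum_congr rfl (fun b _ => ?_)
  ring

/-- optimisation over a scaling parameter -/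
lemma le_two_sqrt {z A B : ℝ} (hA : 0 ≤ A) (hB : 0 ≤ B) (h : ∀ t : ℝ, 0 < t → z ≤ t * A + t⁻¹ * B) :
    z ≤ 2 * Real.sqrt (A * B) := by
  rcases hA.eq_or_lt with hA0 | hA0
  · rw [← hA0] at h ⊢
    simp only [mul_zero, zero_add, zero_mul, Real.sqrt_zero] at h ⊢
    by_contra hz
    push Not at hz
    have h1 := h (2 * (B + 1) / z) (by positivity)
    have h2 : (2 * (B + 1) / z)⁻¹ * B = z * (B / (2 * (B + 1))) := by
      rw [inv_div]; ring
    rw [h2] at h1
    have h3 : B / (2 * (B + 1)) < 1 := by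
      rw [div_lt_one (by positivity)]; linarith
    nlinarith
  · rcases hB.eq_or_lt with hB0 | hB0
    · rw [← hB0] at h ⊢
      simp only [mul_zero, add_zero, Real.sqrt_zero] at h ⊢
      by_contra hz
      push Not at hz
      have h1 := h (z / (2 * (A + 1))) (by positivity)
      have h2 : z / (2 * (A + 1)) * A = z * (A / (2 * (A + 1))) := by ring
      rw [h2] at h1
      have h3 : A / (2 * (A + 1)) < 1 := by
        rw [div_lt_one (by positivity)]; linarith
      nlinarith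
    · have hsA := Real.sqrt_pos.2 hA0
      have hsB := Real.sqrt_pos.2 hB0
      have h1 := h (Real.sqrt B / Real.sqrt A) (by positivity)
      have eA : Real.sqrt A * Real.sqrt A = A := Real.mul_self_sqrt hA
      have eB : Real.sqrt B * Real.sqrt B = B := Real.mul_self_sqrt hB
      have h2 : Real.sqrt B / Real.sqrt A * A + (Real.sqrt B / Real.sqrt A)⁻¹ * B
          = 2 * (Real.sqrt A * Real.sqrt B) := by
        conv_lhs => rw [← eA, ← eB]
        rw [Real.sqrt_mul_self hsA.le, Real.sqrt_mul_self hsB.le]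
        field_simp
        ring
      rw [h2, ← Real.sqrt_mul hA] at h1
      exact h1

lemma sum_sqrt_le {κ : Type*} (s : Finset κ) (u : κ → ℝ) (hu : ∀ v ∈ s, 0 ≤ u v) :
    ∑ v ∈ s, Real.sqrt (u v) ≤ Real.sqrt ((s.card : ℝ) * ∑ v ∈ s, u v) := by
  apply Real.le_sqrt_of_sq_le
  have h1 := sq_sum_le_card_mul_sum_sq (s := s) (f := fun v => Real.sqrt (u v))
  have h2 : ∑ v ∈ s, Real.sqrt (u v) ^ 2 = ∑ v ∈ s, u v :=
    Finset.sum_congr rfl (fun v hv => Real.sq_sqrt (hu v hv))
  rw [h2] at h1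
  exact h1

section

variable {μ : α → ℝ} {ν : β → ℝ} {c : ι → Finset α → Finset β → ℝ}
    {w : ι → α → β → ℝ} {G : α → β → ℝ}
    {X : Finset α} {Y : Finset β} {p : α → ℝ} {q : β → ℝ}

lemma sum_ind_sq (x : α → Finset V) (v : V) : ∑ a, p a * ind x v a ^ 2 = wt p x v := by
  unfold wt
  refine Finset.sum_congr rfl (fun a _ => ?_)
  rw [ind_sq]

/-- from the centred matrix to the matrix -/
lemma IsMinPt.ctr_ge {X0 : Finset α} {Y0 : Finset β} (hμ : IsProb X0 μ) (hν : IsProb Y0 ν)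
    (h : IsMinPt μ ν c w G X Y p q) {N : α → β → ℝ} (hN : ∀ a b, 0 ≤ N a b) :
    EE p q (fun a b => FF c w G X Y p q a b * N a b)
      - (2 * Real.log 2 + P0 μ ν c w G) * EE p q N
      ≤ EE p q (fun a b => ctr p q (FF c w G X Y p q) a b * N a b) := by
  rw [← EE_smul, ← EE_sub]
  apply EE_mono h.hp h.hq
  intro a ha b hb
  have h1 := h.marg_sum_le hμ hν ha hb
  have h2 : FF c w G X Y p q a b - (2 * Real.log 2 + P0 μ ν c w G)
      ≤ ctr p q (FF c w G X Y p q) a b := by
    unfold ctr; linarith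
  have h3 := mul_le_mul_of_nonneg_right h2 (hN a b)
  linarith

/-- the set-system test, general form -/
lemma IsMinPt.test_MM (h : IsMinPt μ ν c w G X Y p q) (x : α → Finset V) (y : β → Finset V) :
    EE p q (fun a b => ctr p q (FF c w G X Y p q) a b * MM x y a b)
      ≤ 2 * Real.sqrt ((Fintype.card V : ℝ) * EE p q (MM x y)) := by
  have h1 : (fun a b => ctr p q (FF c w G X Y p q) a b * MM x y a b)
      = fun a b => ∑ v ∈ (univ : Finset V),
        (fun v a b => ctr p q (FF c w G X Y p q) a b * (ind x v a * ind y v b)) v a b := by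
    funext a b
    rw [MM_eq_sum, Finset.mul_sum]
  rw [h1, EE_sum]
  have h2 : ∀ v ∈ (univ : Finset V),
      EE p q (fun a b => ctr p q (FF c w G X Y p q) a b * (ind x v a * ind y v b))
        ≤ 2 * Real.sqrt (wt p x v * wt q y v) := by
    intro v _
    apply le_two_sqrt (wt_nonneg h.hp x v) (wt_nonneg h.hq y v)
    intro t ht
    have := h.test_one (ind x v) (ind y v) ht
    rw [sum_ind_sq, sum_ind_sq] at this
    exact this
  refine le_trans (Finset.sum_le_sum h2) ?_
  rw [← Finset.mul_sum]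
  apply mul_le_mul_of_nonneg_left _ (by norm_num)
  have h3 := sum_sqrt_le (univ : Finset V) (fun v => wt p x v * wt q y v)
    (fun v _ => mul_nonneg (wt_nonneg h.hp x v) (wt_nonneg h.hq y v))
  rw [EE_MM]
  simpa using h3

end

/-- Stage A. -/
theorem stageA {X0 : Finset α} {Y0 : Finset β} {μ : α → ℝ} {ν : β → ℝ} (hμ : IsProb X0 μ)
    (hν : IsProb Y0 ν) (x : α → Finset V) (y : β → Finset V) (G0 : α → β → ℝ)
    (hG0 : ∀ a b, 0 ≤ G0 a b) {ε Ω : ℝ} (hε : 0 < ε) (hΩ : 0 < Ω) (hE : EE μ ν G0 ≤ ε) :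
    ∃ (X : Finset α) (Y : Finset β) (p : α → ℝ) (q : β → ℝ), X ⊆ supp μ ∧ Y ⊆ supp ν ∧
      IsProb X p ∧ IsProb Y q ∧
      Dom μ ν p q (2 * Ω) ∧ EE p q G0 ≤ EE μ ν G0 ∧
      (Ω / ε) * EE p q (fun a b => G0 a b * MM x y a b)
        ≤ (2 * Real.log 2 + Ω) * EE p q (MM x y)
          + 2 * Real.sqrt ((Fintype.card V : ℝ) * EE p q (MM x y)) := by
  set c : Fin 0 → Finset α → Finset β → ℝ := fun _ _ _ => 0 with hc
  set w : Fin 0 → α → β → ℝ := fun _ _ _ => 0 with hw
  set G : α → β → ℝ := fun a b => (Ω / ε) * G0 a b with hG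
  have hgood : GoodPot c w G :=
    ⟨fun _ _ _ => le_rfl, fun _ _ _ _ _ _ _ => le_rfl, fun _ _ _ => le_rfl,
      fun a b => mul_nonneg (by positivity) (hG0 a b)⟩
  obtain ⟨X, Y, p, q, h⟩ := exists_minPt hμ hν hgood
  have hpot : ∀ X Y p q, pot c w G X Y p q = (Ω / ε) * EE p q G0 := by
    intro X Y p q
    unfold pot
    rw [hG, EE_smul]
    simp
  have hP0 : P0 μ ν c w G = (Ω / ε) * EE μ ν G0 := by
    unfold P0; rw [hpot]
  have hP0le : P0 μ ν c w G ≤ Ω := by
    rw [hP0]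
    calc (Ω / ε) * EE μ ν G0 ≤ (Ω / ε) * ε := mul_le_mul_of_nonneg_left hE (by positivity)
      _ = Ω := by field_simp
  have hFF : ∀ a b, FF c w G X Y p q a b = (Ω / ε) * G0 a b := by
    intro a b
    unfold FF
    simp [hG]
  refine ⟨X, Y, p, q, h.hX, h.hY, h.hp, h.hq, ?_, ?_, ?_⟩
  · obtain ⟨κ1, κ2, h1, h2, h3⟩ := h.domination hμ hν
    exact ⟨κ1, κ2, h1, h2, by linarith⟩
  · have h1 := h.pot_le_P0 hμ hν
    rw [hpot, hP0] at h1
    exact le_of_mul_le_mul_left h1 (by positivity)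
  · have h1 := h.ctr_ge hμ hν (MM_nonneg x y)
    have h2 := h.test_MM x y
    have h3 : EE p q (fun a b => FF c w G X Y p q a b * MM x y a b)
        = (Ω / ε) * EE p q (fun a b => G0 a b * MM x y a b) := by
      rw [← EE_smul]
      congr 1
      funext a b
      rw [hFF]; ring
    rw [h3] at h1
    have h4 : 0 ≤ EE p q (MM x y) := EE_nonneg h.hp.nonneg h.hq.nonneg (MM_nonneg x y)
    have h5 : (2 * Real.log 2 + P0 μ ν c w G) * EE p q (MM x y)
        ≤ (2 * Real.log 2 + Ω) * EE p q (MM x y) :=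
      mul_le_mul_of_nonneg_right (by linarith) h4
    linarith

end Run7.h852
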