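import Pool.Agent.Run7.h852.Moment

open Finset

set_option linter.unusedSectionVars false

namespace Run7.h852

section

variable {α β V : Type*} [Fintype α] [Fintype β] [DecidableEq α] [DecidableEq β]
  [Fintype V] [DecidableEq V]

/-- lifted characteristic vector -/
def lv (x : α → Finset V) (a : α) : Option V → ℝ :=
  fun o => match o with
  | none => 1
  | some v => ind x v a

/-- the functional associated with a column -/
def lf (l : ℕ) (y : β → Finset V) (b : β) : (Option V → ℝ) →ₗ[ℝ] ℝ where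
  toFun z := ∑ v, ind y v b * z (some v) - l * z none
  map_add' z z' := by
    simp only [Pi.add_apply]
    have : ∑ v, ind y v b * (z (some v) + z' (some v))
        = ∑ v, ind y v b * z (some v) + ∑ v, ind y v b * z' (some v) := by
      rw [← Finset.sum_add_distrib]
      exact Finset.sum_congr rfl (fun v _ => by ring)
    rw [this]; ring
  map_smul' r z := by
    simp only [Pi.smul_apply, smul_eq_mul, RingHom.id_apply]
    have : ∑ v, ind y v b * (r * z (some v)) = r * ∑ v, ind y v b * z (some v) := by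
      rw [Finset.mul_sum]
      exact Finset.sum_congr rfl (fun v _ => by ring)
    rw [this]; ring

lemma lf_lv (l : ℕ) (x : α → Finset V) (y : β → Finset V) (a : α) (b : β) :
    lf l y b (lv x a) = MM x y a b - l := by
  rw [MM_eq_sum]
  simp only [lf, lv, LinearMap.coe_mk, AddHom.coe_mk]
  have : ∑ v, ind y v b * ind x v a = ∑ v, ind x v a * ind y v b :=
    Finset.sum_congr rfl (fun v _ => by ring)
  rw [this]; ring

/-- rank of a family of rows -/
noncomputable def rk (x : α → Finset V) (X : Finset α) : ℕ :=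
  Module.finrank ℝ (Submodule.span ℝ (lv x '' (X : Set α)))

lemma rk_le (x : α → Finset V) (X : Finset α) : rk x X ≤ Fintype.card V + 1 := by
  unfold rk
  refine (Submodule.finrank_le _).trans ?_
  rw [Module.finrank_fintype_fun_eq_card, Fintype.card_option]

lemma rk_mono (x : α → Finset V) {X X' : Finset α} (h : X' ⊆ X) : rk x X' ≤ rk x X := by
  unfold rk
  apply Submodule.finrank_mono
  apply Submodule.span_mono
  exact Set.image_mono (by exact_mod_cast h)

lemma rk_drop (l : ℕ) (x : α → Finset V) (y : β → Finset V) (b : β) {X X' : Finset α}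
    (h : X' ⊆ X) (h0 : ∀ a ∈ X', MM x y a b = l) (h1 : ∃ a ∈ X, MM x y a b ≠ l) :
    rk x X' + 1 ≤ rk x X := by
  unfold rk
  apply Nat.succ_le_of_lt
  apply Submodule.finrank_lt_finrank_of_lt
  apply lt_of_le_of_ne
  · apply Submodule.span_mono
    exact Set.image_mono (by exact_mod_cast h)
  · intro heq
    obtain ⟨a, ha, hne⟩ := h1
    have hmem : lv x a ∈ Submodule.span ℝ (lv x '' (X' : Set α)) := by
      rw [heq]
      exact Submodule.subset_span ⟨a, by exact_mod_cast ha, rfl⟩
    have hker : Submodule.span ℝ (lv x '' (X' : Set α)) ≤ LinearMap.ker (lf l y b) := by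
      rw [Submodule.span_le]
      rintro z ⟨a', ha', rfl⟩
      simp only [SetLike.mem_coe, LinearMap.mem_ker]
      rw [lf_lv, h0 a' (by exact_mod_cast ha'), sub_self]
    have := hker hmem
    rw [LinearMap.mem_ker, lf_lv, sub_eq_zero] at this
    exact hne this

/-- coefficient for the rank potential -/
noncomputable def cK (κ : ℝ) (x : α → Finset V) : Unit → Finset α → Finset β → ℝ :=
  fun _ X _ => κ * rk x X

lemma goodK {κ η : ℝ} (hκ : 0 ≤ κ) (hη : 0 ≤ η) (l : ℕ) (x : α → Finset V) (y : β → Finset V) :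
    GoodPot (cK (β := β) κ x) (fun _ _ _ => 1) (fun a b => η * bad l x y a b) := by
  refine ⟨fun _ X Y => by unfold cK; positivity, ?_, fun _ _ _ => zero_le_one,
    fun a b => mul_nonneg hη (bad_nonneg l x y a b)⟩
  intro _ X X' Y Y' hX _
  unfold cK
  apply mul_le_mul_of_nonneg_left _ hκ
  exact_mod_cast rk_mono x hX

lemma pot_K {κ η : ℝ} {l : ℕ} {x : α → Finset V} {y : β → Finset V} {X1 : Finset α}
    {Y1 : Finset β} (X : Finset α) (Y : Finset β) {p : α → ℝ} {q : β → ℝ}
    (hp : IsProb X1 p) (hq : IsProb Y1 q) :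
    pot (cK (β := β) κ x) (fun _ _ _ => 1) (fun a b => η * bad l x y a b) X Y p q
      = κ * rk x X + η * EE p q (bad l x y) := by
  unfold pot
  rw [EE_smul]
  have h1 : EE p q (fun _ _ => (1 : ℝ)) = 1 := EE_const hp hq 1
  simp [cK, h1]

lemma FF_K {κ η : ℝ} {l : ℕ} {x : α → Finset V} {y : β → Finset V} (X : Finset α) (Y : Finset β)
    {X1 : Finset α} {Y1 : Finset β} {p p' : α → ℝ} {q : β → ℝ}
    (hp : IsProb X p) (hp' : IsProb X1 p') (hq : IsProb Y1 q) :
    EE p' q (FF (cK (β := β) κ x) (fun _ _ _ => 1) (fun a b => η * bad l x y a b) X Y p q)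
      - EE p q (FF (cK (β := β) κ x) (fun _ _ _ => 1) (fun a b => η * bad l x y a b) X Y p q)
      = η * EE p' q (bad l x y) - η * EE p q (bad l x y) := by
  rw [EE_FF, EE_FF, EE_smul, EE_smul]
  simp only [EE_const hp hq, EE_const hp' hq]
  ring

/-- probability that a column is violated -/
noncomputable def bcol (l : ℕ) (p : α → ℝ) (x : α → Finset V) (y : β → Finset V) (b : β) : ℝ :=
  ∑ a, p a * bad l x y a b

/-- General `l`: a zero rectangle of cost linear in the density times the rank. -/
theorem small_case {l : ℕ} {X0 : Finset α} {Y0 : Finset β} {μ : α → ℝ} {ν : β → ℝ}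
    (hμ : IsProb X0 μ) (hν : IsProb Y0 ν) (x : α → Finset V) (y : β → Finset V)
    {ε0 : ℝ} (hε : 0 < ε0) (hE : EE μ ν (bad l x y) ≤ ε0) {κ : ℝ} (hκ1 : κ ≤ 1)
    (hκ8 : 8 * ε0 ≤ κ) :
    ∃ (X : Finset α) (Y : Finset β) (p : α → ℝ) (q : β → ℝ), X ⊆ supp μ ∧ Y ⊆ supp ν ∧
      IsProb X p ∧ IsProb Y q ∧
      Dom μ ν p q (4 * κ * ((Fintype.card V : ℝ) + 1) + 8 * ε0 / κ) ∧
      ∀ a ∈ X, ∀ b ∈ Y, (x a ∩ y b).card = l := by
  have hκ : 0 < κ := by linarith
  set r : ℝ := (Fintype.card V : ℝ) + 1 with hr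
  have hrpos : 0 < r := by rw [hr]; positivity
  set Ω : ℝ := κ * r with hΩ
  have hΩpos : 0 < Ω := by positivity
  set η : ℝ := Ω / ε0 with hη
  have hηpos : 0 < η := by positivity
  obtain ⟨X, Y, p, q, h⟩ := exists_minPt hμ hν (goodK (β := β) hκ.le hηpos.le l x y)
  have hrk : ∀ X : Finset α, (rk x X : ℝ) ≤ r := by
    intro X
    rw [hr]
    exact_mod_cast rk_le x X
  have hP0 : P0 μ ν (cK (β := β) κ x) (fun _ _ _ => 1) (fun a b => η * bad l x y a b)
      ≤ 2 * Ω := by
    unfold P0
    rw [pot_K _ _ hμ hν]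
    have h1 := mul_le_mul_of_nonneg_left (hrk (supp μ)) hκ.le
    have h2 : η * EE μ ν (bad l x y) ≤ Ω := by
      calc η * EE μ ν (bad l x y) ≤ η * ε0 := mul_le_mul_of_nonneg_left hE hηpos.le
        _ = Ω := by rw [hη]; field_simp
    linarith
  have hbad : EE p q (bad l x y) ≤ 2 * ε0 := by
    have h1 := h.pot_le_P0 hμ hν
    rw [pot_K _ _ h.hp h.hq] at h1
    have h2 : 0 ≤ κ * (rk x X : ℝ) := by positivity
    have h3 : η * EE p q (bad l x y) ≤ η * (2 * ε0) := by
      have : η * (2 * ε0) = 2 * Ω := by rw [hη]; field_simp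
      linarith
    exact le_of_mul_le_mul_left h3 hηpos
  -- columns
  have hcol : ∀ b ∈ Y, (∃ a ∈ X, MM x y a b ≠ l) → κ / 2 ≤ bcol l p x y b := by
    intro b _ hex
    by_contra hlt
    push Not at hlt
    have hb0 : 0 ≤ bcol l p x y b :=
      Finset.sum_nonneg (fun a _ => mul_nonneg (h.hp.nonneg a) (bad_nonneg l x y a b))
    set X' : Finset α := X.filter (fun a => (x a ∩ y b).card = l) with hX'
    have hX'sub : X' ⊆ X := Finset.filter_subset _ _
    have hsum : ∑ a ∈ X', p a = 1 - bcol l p x y b := by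
      have h1 : bcol l p x y b = ∑ a ∈ X, p a * bad l x y a b := by
        unfold bcol
        exact (Finset.sum_subset (Finset.subset_univ X) (fun a _ ha => by
          rw [h.hp.zero a ha, zero_mul])).symm
      have h2 : ∑ a ∈ X', p a = ∑ a ∈ X, p a * (1 - bad l x y a b) := by
        rw [hX', Finset.sum_filter]
        refine Finset.sum_congr rfl (fun a _ => ?_)
        unfold bad
        split_ifs <;> ring
      have h3 : ∑ a ∈ X, p a * (1 - bad l x y a b)
          = ∑ a ∈ X, p a - ∑ a ∈ X, p a * bad l x y a b := by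
        rw [← Finset.sum_sub_distrib]
        exact Finset.sum_congr rfl (fun a _ => by ring)
      rw [h2, h3, h.hp.sum_mem, h1]
    have hsumpos : 0 < ∑ a ∈ X', p a := by rw [hsum]; linarith
    have hne : X'.Nonempty := by
      by_contra hne
      rw [Finset.not_nonempty_iff_eq_empty] at hne
      rw [hne] at hsumpos
      simp at hsumpos
    have hdrop := rk_drop l x y b hX'sub (fun a ha => by
      have := (Finset.mem_filter.1 ha).2
      unfold MM; rw [this]) hex
    have hdrop' : (rk x X' : ℝ) + 1 ≤ (rk x X : ℝ) := by exact_mod_cast hdrop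
    have hPc := cond_isProb h.hp.nonneg hsumpos
    have hmain := h.compare_cond' hX'sub hne (δ := κ) (by
      rw [pot_K _ _ hPc h.hq, pot_K _ _ h.hp h.hq, FF_K X Y h.hp hPc h.hq]
      nlinarith)
    rw [hsum] at hmain
    have h1 : 0 < 1 - bcol l p x y b := by linarith
    have h2 := Real.one_sub_inv_le_log_of_pos h1
    have h3 : (1 - bcol l p x y b)⁻¹ < 1 + κ := by
      rw [inv_lt_comm₀ h1 (by linarith), ← one_div]
      rw [div_lt_iff₀ (by linarith)]
      nlinarith
    linarith
  -- good columns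
  set Y' : Finset β := Y.filter (fun b => ∀ a ∈ X, (x a ∩ y b).card = l) with hY'
  have hY'sub : Y' ⊆ Y := Finset.filter_subset _ _
  have hmass : 1 - 4 * ε0 / κ ≤ ∑ b ∈ Y', q b := by
    have h1 : EE p q (bad l x y) = ∑ b, q b * bcol l p x y b := by
      rw [EE_margR]; rfl
    have h2 : (κ / 2) * (1 - ∑ b ∈ Y', q b) ≤ EE p q (bad l x y) := by
      rw [h1]
      have h3 : 1 - ∑ b ∈ Y', q b = ∑ b ∈ Y \ Y', q b := by
        rw [← h.hq.sum_mem, ← Finset.sum_sdiff hY'sub]; ring
      rw [h3, Finset.mul_sum]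
      have h4 : ∑ b ∈ Y \ Y', κ / 2 * q b ≤ ∑ b ∈ Y \ Y', q b * bcol l p x y b := by
        refine Finset.sum_le_sum (fun b hb => ?_)
        rw [Finset.mem_sdiff] at hb
        have h5 : ∃ a ∈ X, MM x y a b ≠ l := by
          by_contra hcon
          push Not at hcon
          apply hb.2
          rw [hY', Finset.mem_filter]
          refine ⟨hb.1, fun a ha => ?_⟩
          have := hcon a ha
          unfold MM at this
          exact_mod_cast this
        have h6 := hcol b hb.1 h5
        have h7 := mul_le_mul_of_nonneg_left h6 (h.hq.nonneg b)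
        linarith
      refine h4.trans ?_
      apply Finset.sum_le_sum_of_subset_of_nonneg (Finset.subset_univ _)
      intro b _ _
      exact mul_nonneg (h.hq.nonneg b) (Finset.sum_nonneg (fun a _ =>
        mul_nonneg (h.hp.nonneg a) (bad_nonneg l x y a b)))
    have h3 : (κ / 2) * (1 - ∑ b ∈ Y', q b) ≤ (κ / 2) * (4 * ε0 / κ) := by
      have : (κ / 2) * (4 * ε0 / κ) = 2 * ε0 := by field_simp; norm_num
      linarith
    have h4 := le_of_mul_le_mul_left h3 (by positivity)
    linarith
  have h48 : 4 * ε0 / κ ≤ 1 / 2 := by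
    rw [div_le_iff₀ hκ]; linarith
  have hmpos : 0 < ∑ b ∈ Y', q b := by linarith
  have hY'ne : Y'.Nonempty := by
    by_contra hne
    rw [Finset.not_nonempty_iff_eq_empty] at hne
    rw [hne] at hmpos
    simp at hmpos
  refine ⟨X, Y', p, cond q Y', h.hX, hY'sub.trans h.hY, h.hp, cond_isProb h.hq.nonneg hmpos,
    ?_, ?_⟩
  · have hD1 : Dom μ ν p q (4 * κ * r) := by
      obtain ⟨κ1, κ2, h1, h2, h3⟩ := h.domination hμ hν
      refine ⟨κ1, κ2, h1, h2, ?_⟩
      have : 4 * κ * r = 4 * Ω := by rw [hΩ]; ring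
      rw [this]; linarith
    have hD2 : Dom p q p (cond q Y') (8 * ε0 / κ) := by
      refine ⟨0, - Real.log (∑ b ∈ Y', q b), ?_, ?_, ?_⟩
      · intro a; simp
      · intro b
        rw [Real.exp_neg, Real.exp_log hmpos]
        unfold cond
        split_ifs
        · rw [div_eq_inv_mul]
        · exact mul_nonneg (inv_pos.2 hmpos).le (h.hq.nonneg b)
      · rw [zero_add]
        have h1 := Real.one_sub_inv_le_log_of_pos hmpos
        have h2 : (∑ b ∈ Y', q b)⁻¹ ≤ 1 + 8 * ε0 / κ := by
          rw [inv_le_comm₀ hmpos (by positivity), ← one_div]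
          rw [div_le_iff₀ (by positivity)]
          have h3 : 1 ≤ (1 - 4 * ε0 / κ) * (1 + 8 * ε0 / κ) := by
            have e1 : 8 * ε0 / κ = 2 * (4 * ε0 / κ) := by ring
            rw [e1]
            have h4 : 0 ≤ 4 * ε0 / κ := by positivity
            nlinarith
          refine h3.trans (mul_le_mul_of_nonneg_right hmass (by positivity))
        linarith
    exact hD1.trans hD2
  · intro a ha b hb
    exact (Finset.mem_filter.1 hb).2 a ha

end

end Run7.h852
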