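import Mathlib

open Finset

namespace Run7.h852

variable {α β ι : Type*} [Fintype α] [Fintype β] [Fintype ι] [DecidableEq α] [DecidableEq β]

/-- `p` is a probability vector supported on the finite set `X`. -/
structure IsProb (X : Finset α) (p : α → ℝ) : Prop where
  nonneg : ∀ a, 0 ≤ p a
  zero : ∀ a, a ∉ X → p a = 0
  sum : ∑ a, p a = 1

/-- Expectation of `f` under the product of `p` and `q`. -/
def EE (p : α → ℝ) (q : β → ℝ) (f : α → β → ℝ) : ℝ := ∑ a, ∑ b, p a * q b * f a b

/-- Relative entropy of `p` with respect to `μ`. -/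
noncomputable def ent (μ p : α → ℝ) : ℝ := ∑ a, p a * (Real.log (p a) - Real.log (μ a))

/-- The potential. -/
noncomputable def pot (c : ι → Finset α → Finset β → ℝ) (w : ι → α → β → ℝ) (G : α → β → ℝ)
    (X : Finset α) (Y : Finset β) (p : α → ℝ) (q : β → ℝ) : ℝ :=
  ∑ i, c i X Y * Real.sqrt (EE p q (w i)) + EE p q G

/-- The functional that is minimised. -/
noncomputable def Phi (μ : α → ℝ) (ν : β → ℝ) (c : ι → Finset α → Finset β → ℝ)
    (w : ι → α → β → ℝ) (G : α → β → ℝ)
    (X : Finset α) (Y : Finset β) (p : α → ℝ) (q : β → ℝ) : ℝ :=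
  (1 / 2) * Real.log (∑ a ∈ X, μ a) + (1 / 2) * Real.log (∑ b ∈ Y, ν b) + ent μ p + ent ν q
    + pot c w G X Y p q

/-- The support of a nonnegative function. -/
noncomputable def supp (μ : α → ℝ) : Finset α := univ.filter (fun a => 0 < μ a)

omit [Fintype ι] [DecidableEq α] in
lemma mem_supp {μ : α → ℝ} {a : α} : a ∈ supp μ ↔ 0 < μ a := by simp [supp]

lemma IsProb.sum_mem {X : Finset α} {p : α → ℝ} (h : IsProb X p) : ∑ a ∈ X, p a = 1 := by
  rw [← h.sum]
  exact Finset.sum_subset (Finset.subset_univ X) (fun a _ ha => h.zero a ha)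

lemma IsProb.nonempty {X : Finset α} {p : α → ℝ} (h : IsProb X p) : X.Nonempty := by
  by_contra hX
  rw [Finset.not_nonempty_iff_eq_empty] at hX
  have := h.sum_mem
  rw [hX] at this
  simp at this

lemma IsProb.mono {X X' : Finset α} {p : α → ℝ} (h : IsProb X p) (hX : X ⊆ X') : IsProb X' p :=
  ⟨h.nonneg, fun a ha => h.zero a (fun h' => ha (hX h')), h.sum⟩

lemma IsProb.le_one {X : Finset α} {p : α → ℝ} (h : IsProb X p) (a : α) : p a ≤ 1 := by
  rw [← h.sum]
  exact Finset.single_le_sum (fun i _ => h.nonneg i) (Finset.mem_univ a)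

lemma isCompact_prob (X : Finset α) : IsCompact {p : α → ℝ | IsProb X p} := by
  have hset : {p : α → ℝ | IsProb X p}
      = stdSimplex ℝ α ∩ {p : α → ℝ | ∀ a, a ∉ X → p a = 0} := by
    ext p
    simp only [Set.mem_setOf_eq, Set.mem_inter_iff, stdSimplex]
    constructor
    · intro h
      exact ⟨⟨h.nonneg, h.sum⟩, h.zero⟩
    · rintro ⟨⟨h1, h2⟩, h3⟩
      exact ⟨h1, h3, h2⟩
  rw [hset]
  apply (isCompact_stdSimplex ℝ α).inter_right
  have : {p : α → ℝ | ∀ a, a ∉ X → p a = 0} = ⋂ a, ⋂ (_ : a ∉ X), {p : α → ℝ | p a = 0} := by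
    ext p; simp
  rw [this]
  apply isClosed_iInter
  intro a
  apply isClosed_iInter
  intro _
  exact isClosed_eq (continuous_apply a) continuous_const

lemma continuous_ent (μ : α → ℝ) : Continuous (fun p : α → ℝ => ent μ p) := by
  unfold ent
  apply continuous_finset_sum
  intro a _
  have h1 : Continuous (fun p : α → ℝ => p a * Real.log (p a)) :=
    Real.continuous_mul_log.comp (continuous_apply a)
  have h2 : Continuous (fun p : α → ℝ => p a * Real.log (μ a)) :=
    (continuous_apply a).mul continuous_const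
  have : (fun p : α → ℝ => p a * (Real.log (p a) - Real.log (μ a)))
      = fun p => p a * Real.log (p a) - p a * Real.log (μ a) := by
    funext p; ring
  rw [this]
  exact h1.sub h2

lemma continuous_EE (f : α → β → ℝ) :
    Continuous (fun z : (α → ℝ) × (β → ℝ) => EE z.1 z.2 f) := by
  unfold EE
  apply continuous_finset_sum
  intro a _
  apply continuous_finset_sum
  intro b _
  exact ((((continuous_apply a).comp continuous_fst)).mul
    ((continuous_apply b).comp continuous_snd)).mul continuous_const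

lemma continuous_Phi (μ : α → ℝ) (ν : β → ℝ) (c : ι → Finset α → Finset β → ℝ)
    (w : ι → α → β → ℝ) (G : α → β → ℝ) (X : Finset α) (Y : Finset β) :
    Continuous (fun z : (α → ℝ) × (β → ℝ) => Phi μ ν c w G X Y z.1 z.2) := by
  unfold Phi pot
  have h1 : Continuous (fun z : (α → ℝ) × (β → ℝ) => ent μ z.1) :=
    (continuous_ent μ).comp continuous_fst
  have h2 : Continuous (fun z : (α → ℝ) × (β → ℝ) => ent ν z.2) :=
    (continuous_ent ν).comp continuous_snd
  refine ((continuous_const.add h1).add h2).add ?_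
  refine Continuous.add ?_ (continuous_EE G)
  apply continuous_finset_sum
  intro i _
  exact continuous_const.mul (Real.continuous_sqrt.comp (continuous_EE (w i)))

/-- uniform probability on `X` -/
lemma exists_isProb (X : Finset α) (hX : X.Nonempty) : ∃ p, IsProb X p := by
  obtain ⟨a, ha⟩ := hX
  refine ⟨fun b => if b = a then 1 else 0, ⟨?_, ?_, ?_⟩⟩
  · intro b; split_ifs <;> norm_num
  · intro b hb
    have : b ≠ a := fun h => hb (h ▸ ha)
    simp [this]
  · simp

/-- Global minimiser. -/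
theorem exists_min (μ : α → ℝ) (ν : β → ℝ) (c : ι → Finset α → Finset β → ℝ)
    (w : ι → α → β → ℝ) (G : α → β → ℝ) (hμ : (supp μ).Nonempty) (hν : (supp ν).Nonempty) :
    ∃ X Y p q, X ⊆ supp μ ∧ Y ⊆ supp ν ∧ IsProb X p ∧ IsProb Y q ∧
      ∀ X' Y' p' q', X' ⊆ supp μ → Y' ⊆ supp ν → IsProb X' p' → IsProb Y' q' →
        Phi μ ν c w G X Y p q ≤ Phi μ ν c w G X' Y' p' q' := by
  classical
  have key : ∀ X : Finset α, ∀ Y : Finset β, ∃ z : (α → ℝ) × (β → ℝ), X.Nonempty → Y.Nonempty →
      (IsProb X z.1 ∧ IsProb Y z.2 ∧ ∀ p' q', IsProb X p' → IsProb Y q' →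
        Phi μ ν c w G X Y z.1 z.2 ≤ Phi μ ν c w G X Y p' q') := by
    intro X Y
    by_cases hX : X.Nonempty
    · by_cases hY : Y.Nonempty
      · have hc : IsCompact ({p : α → ℝ | IsProb X p} ×ˢ {q : β → ℝ | IsProb Y q}) :=
          (isCompact_prob X).prod (isCompact_prob Y)
        obtain ⟨p0, hp0⟩ := exists_isProb X hX
        obtain ⟨q0, hq0⟩ := exists_isProb Y hY
        obtain ⟨z, hz, hmin⟩ := hc.exists_isMinOn ⟨(p0, q0), ⟨hp0, hq0⟩⟩
          (continuous_Phi μ ν c w G X Y).continuousOn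
        refine ⟨z, fun _ _ => ⟨hz.1, hz.2, ?_⟩⟩
        intro p' q' hp' hq'
        have := hmin (show (p', q') ∈ _ from ⟨hp', hq'⟩)
        simpa using this
      · exact ⟨(0, 0), fun _ h => absurd h hY⟩
    · exact ⟨(0, 0), fun h => absurd h hX⟩
  choose z hz using key
  let C : Finset (Finset α × Finset β) :=
    (((supp μ).powerset.filter (fun X => X.Nonempty)) ×ˢ
      ((supp ν).powerset.filter (fun Y => Y.Nonempty)))
  have hC : C.Nonempty := by
    refine ⟨(supp μ, supp ν), ?_⟩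
    simp only [C, Finset.mem_product, Finset.mem_filter, Finset.mem_powerset]
    exact ⟨⟨Finset.Subset.refl _, hμ⟩, ⟨Finset.Subset.refl _, hν⟩⟩
  obtain ⟨P, hP, hPmin⟩ := C.exists_min_image
    (fun P => Phi μ ν c w G P.1 P.2 (z P.1 P.2).1 (z P.1 P.2).2) hC
  simp only [C, Finset.mem_product, Finset.mem_filter, Finset.mem_powerset] at hP
  obtain ⟨⟨hP1, hP2⟩, ⟨hP3, hP4⟩⟩ := hP
  obtain ⟨h1, h2, h3⟩ := hz P.1 P.2 hP2 hP4
  refine ⟨P.1, P.2, (z P.1 P.2).1, (z P.1 P.2).2, hP1, hP3, h1, h2, ?_⟩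
  intro X' Y' p' q' hX' hY' hp' hq'
  have hmem : (X', Y') ∈ C := by
    simp only [C, Finset.mem_product, Finset.mem_filter, Finset.mem_powerset]
    exact ⟨⟨hX', hp'.nonempty⟩, ⟨hY', hq'.nonempty⟩⟩
  have h4 := hPmin (X', Y') hmem
  obtain ⟨_, _, h5⟩ := hz X' Y' hp'.nonempty hq'.nonempty
  exact le_trans h4 (h5 p' q' hp' hq')

end Run7.h852
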