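import Pool.Agent.Run7.h852.Sets

open Finset

set_option linter.unusedSectionVars false

namespace Run7.h852

variable {α β V : Type*} [Fintype α] [Fintype β] [DecidableEq α] [DecidableEq β]
  [Fintype V] [DecidableEq V]

/-- active elements -/
def act (x : α → Finset V) (y : β → Finset V) (X : Finset α) (Y : Finset β) : Finset V :=
  univ.filter (fun v => (∃ a ∈ X, v ∈ x a) ∧ (∃ b ∈ Y, v ∈ y b))

lemma act_mono (x : α → Finset V) (y : β → Finset V) {X X' : Finset α} {Y Y' : Finset β}
    (hX : X' ⊆ X) (hY : Y' ⊆ Y) : act x y X' Y' ⊆ act x y X Y := by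
  intro v hv
  unfold act at hv ⊢
  simp only [Finset.mem_filter, Finset.mem_univ, true_and] at hv ⊢
  obtain ⟨⟨a, ha, hva⟩, b, hb, hvb⟩ := hv
  exact ⟨⟨a, hX ha, hva⟩, b, hY hb, hvb⟩

/-- truncated inverse weight -/
noncomputable def tw (S : ℝ) (x : α → Finset V) (y : β → Finset V) (a : α) (b : β) : ℝ :=
  if MM x y a b = 0 then 0 else 1 / min (MM x y a b) S

lemma MM_zero_or_one_le (x : α → Finset V) (y : β → Finset V) (a : α) (b : β) :
    MM x y a b = 0 ∨ 1 ≤ MM x y a b := by
  unfold MM
  rcases Nat.eq_zero_or_pos (x a ∩ y b).card with h | h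
  · left; exact_mod_cast h
  · right; exact_mod_cast h

lemma tw_nonneg {S : ℝ} (hS : 1 ≤ S) (x : α → Finset V) (y : β → Finset V) (a : α) (b : β) :
    0 ≤ tw S x y a b := by
  unfold tw
  split_ifs
  · exact le_rfl
  · have := MM_nonneg x y a b
    have : 0 ≤ min (MM x y a b) S := le_min this (by linarith)
    positivity

/-- indicator of a nonempty intersection -/
noncomputable def bd (x : α → Finset V) (y : β → Finset V) (a : α) (b : β) : ℝ :=
  if MM x y a b = 0 then 0 else 1

lemma bd_nonneg (x : α → Finset V) (y : β → Finset V) (a : α) (b : β) : 0 ≤ bd x y a b := by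
  unfold bd; split_ifs <;> norm_num

lemma bd_le_tw {S : ℝ} (hS : 1 ≤ S) (x : α → Finset V) (y : β → Finset V) (a : α) (b : β) :
    bd x y a b ≤ S * tw S x y a b := by
  unfold bd tw
  split_ifs with h
  · simp
  · have h1 : 1 ≤ MM x y a b := (MM_zero_or_one_le x y a b).resolve_left h
    have h2 : 0 < min (MM x y a b) S := lt_min (by linarith) (by linarith)
    have h3 : min (MM x y a b) S ≤ S := min_le_right _ _
    rw [mul_one_div, le_div_iff₀ h2]
    linarith

lemma bd_le_tw_MM {S : ℝ} (hS : 1 ≤ S) (x : α → Finset V) (y : β → Finset V) (a : α) (b : β) :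
    bd x y a b ≤ tw S x y a b * MM x y a b := by
  unfold bd tw
  split_ifs with h
  · simp
  · have h1 : 1 ≤ MM x y a b := (MM_zero_or_one_le x y a b).resolve_left h
    have h2 : 0 < min (MM x y a b) S := lt_min (by linarith) (by linarith)
    have h3 : min (MM x y a b) S ≤ MM x y a b := min_le_left _ _
    rw [one_div_mul_eq_div, le_div_iff₀ h2]
    linarith

lemma MM_le_tw_MM {S : ℝ} (hS : 1 ≤ S) (x : α → Finset V) (y : β → Finset V) (a : α) (b : β) :
    MM x y a b ≤ S * (tw S x y a b * MM x y a b) := by
  unfold tw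
  split_ifs with h
  · rw [h]; simp
  · have h1 : 1 ≤ MM x y a b := (MM_zero_or_one_le x y a b).resolve_left h
    have h2 : 0 < min (MM x y a b) S := lt_min (by linarith) (by linarith)
    have h3 : min (MM x y a b) S ≤ S := min_le_right _ _
    have h4 : 1 ≤ S * (1 / min (MM x y a b) S) := by
      rw [mul_one_div, le_div_iff₀ h2]; linarith
    nlinarith

lemma tw_swap (S : ℝ) (x : α → Finset V) (y : β → Finset V) (a : α) (b : β) :
    tw S y x b a = tw S x y a b := by
  unfold tw MM
  rw [Finset.inter_comm]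

lemma bd_swap (x : α → Finset V) (y : β → Finset V) (a : α) (b : β) :
    bd y x b a = bd x y a b := by
  unfold bd MM
  rw [Finset.inter_comm]

lemma act_swap (x : α → Finset V) (y : β → Finset V) (X : Finset α) (Y : Finset β) :
    act y x Y X = act x y X Y := by
  unfold act
  ext v
  simp only [Finset.mem_filter, Finset.mem_univ, true_and]
  exact and_comm

/-- coefficient of the square-root potential -/
noncomputable def cR (x : α → Finset V) (y : β → Finset V) :
    Unit → Finset α → Finset β → ℝ :=
  fun _ X Y => 6 * Real.sqrt ((act x y X Y).card : ℝ)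

/-- weights in the potential -/
noncomputable def wR (S : ℝ) (x : α → Finset V) (y : β → Finset V) : Unit → α → β → ℝ :=
  fun _ => tw S x y

/-- linear part of the potential -/
noncomputable def GR (S η : ℝ) (x : α → Finset V) (y : β → Finset V) : α → β → ℝ :=
  fun a b => η * tw S x y a b

lemma goodR {S η : ℝ} (hS : 1 ≤ S) (hη : 0 ≤ η) (x : α → Finset V) (y : β → Finset V) :
    GoodPot (cR x y) (wR S x y) (GR S η x y) := by
  refine ⟨fun _ X Y => by unfold cR; positivity, ?_, fun _ a b => tw_nonneg hS x y a b,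
    fun a b => mul_nonneg hη (tw_nonneg hS x y a b)⟩
  intro _ X X' Y Y' hX hY
  unfold cR
  apply mul_le_mul_of_nonneg_left _ (by norm_num)
  apply Real.sqrt_le_sqrt
  exact_mod_cast Finset.card_le_card (act_mono x y hX hY)

section

variable {S η : ℝ} {x : α → Finset V} {y : β → Finset V}
  {μ : α → ℝ} {ν : β → ℝ} {X : Finset α} {Y : Finset β} {p : α → ℝ} {q : β → ℝ}

lemma pot_R (X : Finset α) (Y : Finset β) (p : α → ℝ) (q : β → ℝ) :
    pot (cR x y) (wR S x y) (GR S η x y) X Y p q
      = 6 * Real.sqrt ((act x y X Y).card : ℝ) * Real.sqrt (EE p q (tw S x y))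
        + η * EE p q (tw S x y) := by
  unfold pot
  have : EE p q (GR S η x y) = η * EE p q (tw S x y) := by
    unfold GR; rw [EE_smul]
  rw [this]
  simp [cR, wR]

/-- total slope -/
noncomputable def slR (S η : ℝ) (x : α → Finset V) (y : β → Finset V)
    (X : Finset α) (Y : Finset β) (p : α → ℝ) (q : β → ℝ) : ℝ :=
  6 * Real.sqrt ((act x y X Y).card : ℝ) / (2 * Real.sqrt (EE p q (tw S x y))) + η

lemma FF_R (a : α) (b : β) :
    FF (cR x y) (wR S x y) (GR S η x y) X Y p q a b = slR S η x y X Y p q * tw S x y a b := by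
  unfold FF slope slR
  simp only [Finset.univ_unique, Finset.sum_singleton, cR, wR, GR]
  ring

lemma FF_R' :
    FF (cR x y) (wR S x y) (GR S η x y) X Y p q
      = fun a b => slR S η x y X Y p q * tw S x y a b := by
  funext a b; exact FF_R a b

/-- probability of meeting `y b` -/
noncomputable def hitR (p : α → ℝ) (x : α → Finset V) (y : β → Finset V) (b : β) : ℝ :=
  ∑ a, p a * bd x y a b

/-- the drop inequality for columns -/
lemma drop_col {X0 : Finset α} {Y0 : Finset β} (hμ : IsProb X0 μ) (hν : IsProb Y0 ν)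
    (hS : 1 ≤ S) (hη : 0 < η)
    (h : IsMinPt μ ν (cR x y) (wR S x y) (GR S η x y) X Y p q)
    (hP0 : S * (Real.log 2 + P0 μ ν (cR x y) (wR S x y) (GR S η x y)) ≤ η / 2)
    (hρ : 0 < EE p q (tw S x y)) {b : β} (hb : b ∈ Y) :
    3 * Real.sqrt (EE p q (tw S x y)) / Real.sqrt ((act x y X Y).card : ℝ)
      * ((y b ∩ act x y X Y).card : ℝ) ≤ 2 * hitR p x y b := by
  set ρ := EE p q (tw S x y) with hρdef
  set n0 : ℝ := ((act x y X Y).card : ℝ) with hn0
  have hn0nn : 0 ≤ n0 := by rw [hn0]; positivity
  have hslη : η ≤ slR S η x y X Y p q := by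
    unfold slR
    have : 0 ≤ 6 * Real.sqrt ((act x y X Y).card : ℝ) / (2 * Real.sqrt (EE p q (tw S x y))) := by
      positivity
    linarith
  have hhit0 : 0 ≤ hitR p x y b :=
    Finset.sum_nonneg (fun a _ => mul_nonneg (h.hp.nonneg a) (bd_nonneg x y a b))
  -- hit probability at most one half
  have hhit : hitR p x y b ≤ 1 / 2 := by
    have h1 := h.margR_le_P0 hμ hν hb
    have h2 : slR S η x y X Y p q * hitR p x y b
        ≤ S * margR p (FF (cR x y) (wR S x y) (GR S η x y) X Y p q) b := by
      unfold hitR margR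
      rw [Finset.mul_sum, Finset.mul_sum]
      refine Finset.sum_le_sum (fun a _ => ?_)
      rw [FF_R]
      have h3 := bd_le_tw hS x y a b
      have h4 : 0 ≤ slR S η x y X Y p q * p a := mul_nonneg (by linarith) (h.hp.nonneg a)
      have h5 := mul_le_mul_of_nonneg_left h3 h4
      linarith
    have h3 : S * margR p (FF (cR x y) (wR S x y) (GR S η x y) X Y p q) b ≤ η / 2 :=
      le_trans (mul_le_mul_of_nonneg_left h1 (by linarith)) hP0
    have h4 : η * hitR p x y b ≤ slR S η x y X Y p q * hitR p x y b :=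
      mul_le_mul_of_nonneg_right hslη hhit0
    have h5 : η * hitR p x y b ≤ η * (1 / 2) := by linarith
    exact le_of_mul_le_mul_left h5 hη
  -- the set of rows missing y b
  set X' : Finset α := X.filter (fun a => MM x y a b = 0) with hX'
  have hX'sub : X' ⊆ X := Finset.filter_subset _ _
  have hsum : ∑ a ∈ X', p a = 1 - hitR p x y b := by
    have h1 : hitR p x y b = ∑ a ∈ X, p a * bd x y a b := by
      unfold hitR
      exact (Finset.sum_subset (Finset.subset_univ X) (fun a _ ha => by
        rw [h.hp.zero a ha, zero_mul])).symm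
    have h2 : ∑ a ∈ X', p a = ∑ a ∈ X, p a * (1 - bd x y a b) := by
      rw [hX', Finset.sum_filter]
      refine Finset.sum_congr rfl (fun a _ => ?_)
      unfold bd
      split_ifs <;> ring
    have h3 : ∑ a ∈ X, p a * (1 - bd x y a b) = ∑ a ∈ X, p a - ∑ a ∈ X, p a * bd x y a b := by
      rw [← Finset.sum_sub_distrib]
      refine Finset.sum_congr rfl (fun a _ => ?_)
      ring
    rw [h2, h3, h.hp.sum_mem, h1]
  have hsumpos : 0 < ∑ a ∈ X', p a := by rw [hsum]; linarith
  have hne : X'.Nonempty := by
    by_contra hne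
    rw [Finset.not_nonempty_iff_eq_empty] at hne
    rw [hne] at hsumpos
    simp at hsumpos
  -- counting active elements
  have hcount : ((act x y X' Y).card : ℝ) + ((y b ∩ act x y X Y).card : ℝ) ≤ n0 := by
    have hdisj : Disjoint (act x y X' Y) (y b ∩ act x y X Y) := by
      rw [Finset.disjoint_left]
      intro v hv hv'
      unfold act at hv
      simp only [Finset.mem_filter, Finset.mem_univ, true_and] at hv
      obtain ⟨⟨a, ha, hva⟩, _⟩ := hv
      rw [Finset.mem_inter] at hv'
      rw [hX', Finset.mem_filter] at ha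
      have h1 : MM x y a b = 0 := ha.2
      unfold MM at h1
      have h2 : (x a ∩ y b).card = 0 := by exact_mod_cast h1
      rw [Finset.card_eq_zero] at h2
      have h3 : v ∈ x a ∩ y b := Finset.mem_inter.2 ⟨hva, hv'.1⟩
      rw [h2] at h3
      exact absurd h3 (Finset.notMem_empty v)
    have h1 : act x y X' Y ∪ (y b ∩ act x y X Y) ⊆ act x y X Y :=
      Finset.union_subset (act_mono x y hX'sub (Finset.Subset.refl Y)) Finset.inter_subset_right
    have h2 := Finset.card_le_card h1
    rw [Finset.card_union_of_disjoint hdisj] at h2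
    rw [hn0]
    exact_mod_cast h2
  have hn0pos : 0 < n0 := by
    rcases hn0nn.eq_or_lt with h0 | h0
    · exfalso
      have h1 : (act x y X Y).card = 0 := by
        have : ((act x y X Y).card : ℝ) = 0 := by rw [← hn0]; exact h0.symm
        exact_mod_cast this
      rw [Finset.card_eq_zero] at h1
      have h2 : EE p q (tw S x y) = 0 := by
        unfold EE
        refine Finset.sum_eq_zero (fun a _ => Finset.sum_eq_zero (fun b' _ => ?_))
        by_cases ha : a ∈ X
        · by_cases hb' : b' ∈ Y
          · have h3 : x a ∩ y b' = ∅ := by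
              rw [Finset.eq_empty_iff_forall_notMem]
              intro v hv
              rw [Finset.mem_inter] at hv
              have h4 : v ∈ act x y X Y := by
                unfold act
                simp only [Finset.mem_filter, Finset.mem_univ, true_and]
                exact ⟨⟨a, ha, hv.1⟩, b', hb', hv.2⟩
              rw [h1] at h4
              exact absurd h4 (Finset.notMem_empty v)
            have h4 : MM x y a b' = 0 := by unfold MM; rw [h3]; simp
            unfold tw; rw [if_pos h4, mul_zero]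
          · rw [h.hq.zero b' hb']; ring
        · rw [h.hp.zero a ha]; ring
      rw [← hρdef] at h2
      linarith
    · exact h0
  set ρ' := EE (cond p X') q (tw S x y) with hρ'
  have hρ'nn : 0 ≤ ρ' := EE_nonneg (cond_isProb h.hp.nonneg hsumpos).nonneg h.hq.nonneg
    (tw_nonneg hS x y)
  have hsρ : 0 < Real.sqrt ρ := Real.sqrt_pos.2 hρ
  have hsn : 0 < Real.sqrt n0 := Real.sqrt_pos.2 hn0pos
  have esρ : Real.sqrt ρ * Real.sqrt ρ = ρ := Real.mul_self_sqrt hρ.le
  have esn : Real.sqrt n0 * Real.sqrt n0 = n0 := Real.mul_self_sqrt hn0nn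
  have hmain := h.compare_cond' hX'sub hne
    (δ := 3 * Real.sqrt ρ / Real.sqrt n0 * ((y b ∩ act x y X Y).card : ℝ)) (by
      rw [pot_R, pot_R, FF_R', EE_smul, EE_smul]
      rw [← hρ', ← hρdef, ← hn0]
      set n1 : ℝ := ((act x y X' Y).card : ℝ) with hn1
      set k : ℝ := ((y b ∩ act x y X Y).card : ℝ) with hk
      have hn1nn : 0 ≤ n1 := by rw [hn1]; positivity
      have hsl : slR S η x y X Y p q = 3 * Real.sqrt n0 / Real.sqrt ρ + η := by
        unfold slR
        rw [← hρdef, ← hn0]
        field_simp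
        ring
      rw [hsl]
      -- AM-GM
      have hag : 6 * Real.sqrt n1 * Real.sqrt ρ'
          ≤ 3 * (n1 * (Real.sqrt ρ / Real.sqrt n0)) + 3 * (ρ' * (Real.sqrt n0 / Real.sqrt ρ)) := by
        have e1 : Real.sqrt n1 * Real.sqrt n1 = n1 := Real.mul_self_sqrt hn1nn
        have e2 : Real.sqrt ρ' * Real.sqrt ρ' = ρ' := Real.mul_self_sqrt hρ'nn
        set u := Real.sqrt n1
        set v := Real.sqrt ρ'
        set r := Real.sqrt ρ
        set m := Real.sqrt n0
        have h1 : 3 * (n1 * (r / m)) + 3 * (ρ' * (m / r)) - 6 * u * v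
            = 3 * (u * r - v * m) ^ 2 / (m * r) := by
          rw [← e1, ← e2]
          field_simp
          ring
        have h2 : 0 ≤ 3 * (u * r - v * m) ^ 2 / (m * r) := by positivity
        linarith
      have h3 : 3 * Real.sqrt ρ / Real.sqrt n0 * (n1 + k) ≤ 3 * Real.sqrt ρ / Real.sqrt n0 * n0 :=
        mul_le_mul_of_nonneg_left hcount (by positivity)
      have h4 : 3 * Real.sqrt ρ / Real.sqrt n0 * n0 = 3 * Real.sqrt n0 * Real.sqrt ρ := by
        conv_lhs => rw [← esn]
        rw [Real.sqrt_mul_self hsn.le]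
        field_simp
      have h5 : (3 * Real.sqrt n0 / Real.sqrt ρ + η) * ρ
          = 3 * Real.sqrt n0 * Real.sqrt ρ + η * ρ := by
        have : 3 * Real.sqrt n0 / Real.sqrt ρ * ρ = 3 * Real.sqrt n0 * Real.sqrt ρ := by
          conv_lhs => rw [← esρ]
          rw [Real.sqrt_mul_self hsρ.le]
          field_simp
        linarith
      have h6 : 3 * (n1 * (Real.sqrt ρ / Real.sqrt n0)) = 3 * Real.sqrt ρ / Real.sqrt n0 * n1 := by
        ring
      have h7 : (3 * Real.sqrt n0 / Real.sqrt ρ + η) * ρ'
          = 3 * (ρ' * (Real.sqrt n0 / Real.sqrt ρ)) + η * ρ' := by ring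
      rw [h5, h7]
      linarith)
  rw [hsum] at hmain
  have hlog : - Real.log (1 - hitR p x y b) ≤ 2 * hitR p x y b := by
    have h1 : 0 < 1 - hitR p x y b := by linarith
    have h2 := Real.one_sub_inv_le_log_of_pos h1
    have h3 : (1 - hitR p x y b)⁻¹ ≤ 1 + 2 * hitR p x y b := by
      rw [inv_le_comm₀ h1 (by positivity), ← one_div]
      rw [div_le_iff₀ (by positivity)]
      nlinarith
    linarith
  linarith

lemma P0_swap :
    P0 ν μ (fun i Y X => cR x y i X Y) (fun i b a => wR S x y i a b)
      (fun b a => GR S η x y a b) = P0 μ ν (cR x y) (wR S x y) (GR S η x y) := by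
  unfold P0
  rw [pot_swap]

lemma cR_swap : (fun i Y X => cR x y i X Y) = cR y x := by
  funext i Y X
  unfold cR
  rw [act_swap]

lemma wR_swap : (fun i b a => wR S x y i a b) = wR S y x := by
  funext i b a
  unfold wR
  rw [tw_swap]

lemma GR_swap : (fun b a => GR S η x y a b) = GR S η y x := by
  funext b a
  unfold GR
  rw [tw_swap]

lemma EE_tw_swap : EE q p (tw S y x) = EE p q (tw S x y) := by
  rw [← EE_swap p q (tw S x y)]
  congr 1
  funext b a
  exact tw_swap S x y a b

lemma drop_row {X0 : Finset α} {Y0 : Finset β} (hμ : IsProb X0 μ) (hν : IsProb Y0 ν)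
    (hS : 1 ≤ S) (hη : 0 < η)
    (h : IsMinPt μ ν (cR x y) (wR S x y) (GR S η x y) X Y p q)
    (hP0 : S * (Real.log 2 + P0 μ ν (cR x y) (wR S x y) (GR S η x y)) ≤ η / 2)
    (hρ : 0 < EE p q (tw S x y)) {a : α} (ha : a ∈ X) :
    3 * Real.sqrt (EE p q (tw S x y)) / Real.sqrt ((act x y X Y).card : ℝ)
      * ((x a ∩ act x y X Y).card : ℝ) ≤ 2 * hitR q y x a := by
  have h' := h.swap
  have hP0' := P0_swap (S := S) (η := η) (x := x) (y := y) (μ := μ) (ν := ν)
  rw [cR_swap, wR_swap, GR_swap] at h' hP0'
  rw [← hP0'] at hP0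
  have h1 := drop_col hν hμ hS hη h' hP0 (by rw [EE_tw_swap]; exact hρ) ha
  rw [EE_tw_swap, act_swap] at h1
  exact h1

end

/-- Theorem R: a zero rectangle for nearly disjoint set systems, with cost measured by the
expected truncated inverse of the intersection size. -/
theorem thmR {X0 : Finset α} {Y0 : Finset β} {μ : α → ℝ} {ν : β → ℝ} (hμ : IsProb X0 μ)
    (hν : IsProb Y0 ν) (x : α → Finset V) (y : β → Finset V) {ρ0 : ℝ} (hρ0 : 0 < ρ0)
    (hρ0' : ρ0 ≤ 1 / 8) (hn : 1 / 36 ≤ (Fintype.card V : ℝ) * ρ0)
    (hE : EE μ ν (tw (1 / (8 * ρ0)) x y) ≤ ρ0) :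
    ∃ (X : Finset α) (Y : Finset β) (p : α → ℝ) (q : β → ℝ), X ⊆ supp μ ∧ Y ⊆ supp ν ∧
      IsProb X p ∧ IsProb Y q ∧
      Dom μ ν p q (24 * Real.sqrt ((Fintype.card V : ℝ) * ρ0)) ∧
      ∀ a ∈ X, ∀ b ∈ Y, Disjoint (x a) (y b) := by
  set n : ℝ := (Fintype.card V : ℝ) with hnd
  set S : ℝ := 1 / (8 * ρ0) with hSd
  have hS : 1 ≤ S := by
    rw [hSd, le_div_iff₀ (by positivity)]; linarith
  set Ω : ℝ := 6 * Real.sqrt (n * ρ0) with hΩ
  have hsq1 : 1 / 6 ≤ Real.sqrt (n * ρ0) := by
    apply Real.le_sqrt_of_sq_le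
    norm_num
    linarith
  have hΩ1 : 1 ≤ Ω := by rw [hΩ]; linarith
  set η : ℝ := Ω / ρ0 with hη
  have hηpos : 0 < η := by rw [hη]; positivity
  obtain ⟨X, Y, p, q, h⟩ := exists_minPt hμ hν (goodR hS hηpos.le x y)
  have hn0 : 0 ≤ n := by rw [hnd]; positivity
  have hP0 : P0 μ ν (cR x y) (wR S x y) (GR S η x y) ≤ 2 * Ω := by
    unfold P0
    rw [pot_R]
    have h1 : ((act x y (supp μ) (supp ν)).card : ℝ) ≤ n := by
      rw [hnd]
      exact_mod_cast Finset.card_le_univ _
    have h2 : Real.sqrt ((act x y (supp μ) (supp ν)).card : ℝ) ≤ Real.sqrt n :=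
      Real.sqrt_le_sqrt h1
    have h3 : Real.sqrt (EE μ ν (tw S x y)) ≤ Real.sqrt ρ0 := Real.sqrt_le_sqrt hE
    have h4 : 6 * Real.sqrt ((act x y (supp μ) (supp ν)).card : ℝ) * Real.sqrt (EE μ ν (tw S x y))
        ≤ 6 * Real.sqrt n * Real.sqrt ρ0 := by
      apply mul_le_mul _ h3 (Real.sqrt_nonneg _) (by positivity)
      linarith
    have h5 : 6 * Real.sqrt n * Real.sqrt ρ0 = Ω := by
      rw [hΩ, Real.sqrt_mul hn0]; ring
    have h6 : η * EE μ ν (tw S x y) ≤ Ω := by
      calc η * EE μ ν (tw S x y) ≤ η * ρ0 := mul_le_mul_of_nonneg_left hE hηpos.le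
        _ = Ω := by rw [hη]; field_simp
    linarith
  have hlog2 : Real.log 2 < 1 := by
    have := Real.log_two_lt_d9; linarith
  have hlog2' : 0 < Real.log 2 := Real.log_pos (by norm_num)
  have hSη : S * (8 * Ω) = η := by
    rw [hSd, hη]; field_simp
  have hcond : S * (Real.log 2 + P0 μ ν (cR x y) (wR S x y) (GR S η x y)) ≤ η / 2 := by
    have h1 : Real.log 2 + P0 μ ν (cR x y) (wR S x y) (GR S η x y) ≤ 4 * Ω := by linarith
    have h2 := mul_le_mul_of_nonneg_left h1 (by linarith : 0 ≤ S)
    linarith
  have hzero : EE p q (tw S x y) = 0 := by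
    by_contra hne
    have hρ : 0 < EE p q (tw S x y) :=
      lt_of_le_of_ne (EE_nonneg h.hp.nonneg h.hq.nonneg (tw_nonneg hS x y)) (Ne.symm hne)
    set ρ := EE p q (tw S x y) with hρdef
    set W := act x y X Y with hW
    set n0 : ℝ := (W.card : ℝ) with hn0d
    set εb := EE p q (bd x y) with hεb
    set κ : ℝ := 3 * Real.sqrt ρ / Real.sqrt n0 with hκ
    -- column and row sums
    have hcol : κ * ∑ v ∈ W, wt q y v ≤ 2 * εb := by
      have h1 : ∑ v ∈ W, wt q y v = ∑ b, q b * ((y b ∩ W).card : ℝ) := by
        unfold wt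
        rw [Finset.sum_comm]
        refine Finset.sum_congr rfl (fun b _ => ?_)
        rw [← Finset.mul_sum]
        congr 1
        unfold ind
        rw [Finset.sum_ite_mem, Finset.inter_comm]
        simp
      rw [h1, Finset.mul_sum, hεb, EE_margR, Finset.mul_sum]
      refine Finset.sum_le_sum (fun b _ => ?_)
      by_cases hb : b ∈ Y
      · have h2 := drop_col hμ hν hS hηpos h hcond hρ hb
        have h3 := mul_le_mul_of_nonneg_left h2 (h.hq.nonneg b)
        unfold hitR at h3
        unfold margR
        rw [hκ]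
        calc 3 * Real.sqrt ρ / Real.sqrt n0 * (q b * ((y b ∩ W).card : ℝ))
            = q b * (3 * Real.sqrt ρ / Real.sqrt n0 * ((y b ∩ W).card : ℝ)) := by ring
          _ ≤ q b * (2 * ∑ a, p a * bd x y a b) := h3
          _ = 2 * (q b * ∑ a, p a * bd x y a b) := by ring
      · rw [h.hq.zero b hb]; simp
    have hrow : κ * ∑ v ∈ W, wt p x v ≤ 2 * εb := by
      have h1 : ∑ v ∈ W, wt p x v = ∑ a, p a * ((x a ∩ W).card : ℝ) := by
        unfold wt
        rw [Finset.sum_comm]
        refine Finset.sum_congr rfl (fun a _ => ?_)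
        rw [← Finset.mul_sum]
        congr 1
        unfold ind
        rw [Finset.sum_ite_mem, Finset.inter_comm]
        simp
      rw [h1, Finset.mul_sum, hεb, EE_margL, Finset.mul_sum]
      refine Finset.sum_le_sum (fun a _ => ?_)
      by_cases ha : a ∈ X
      · have h2 := drop_row hμ hν hS hηpos h hcond hρ ha
        have h3 := mul_le_mul_of_nonneg_left h2 (h.hp.nonneg a)
        unfold hitR at h3
        unfold margL
        have h4 : ∑ b, q b * bd y x b a = ∑ b, q b * bd x y a b :=
          Finset.sum_congr rfl (fun b _ => by rw [bd_swap])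
        rw [h4] at h3
        rw [hκ]
        calc 3 * Real.sqrt ρ / Real.sqrt n0 * (p a * ((x a ∩ W).card : ℝ))
            = p a * (3 * Real.sqrt ρ / Real.sqrt n0 * ((x a ∩ W).card : ℝ)) := by ring
          _ ≤ p a * (2 * ∑ b, q b * bd x y a b) := h3
          _ = 2 * (p a * ∑ b, q b * bd x y a b) := by ring
      · rw [h.hp.zero a ha]; simp
    -- the test
    have htest : EE p q (fun a b => ctr p q (FF (cR x y) (wR S x y) (GR S η x y) X Y p q) a b
        * MM x y a b) ≤ ∑ v ∈ W, (wt p x v + wt q y v) := by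
      have h1 : EE p q (fun a b => ctr p q (FF (cR x y) (wR S x y) (GR S η x y) X Y p q) a b
          * MM x y a b) = EE p q (fun a b => ∑ v ∈ W, (fun v a b =>
            ctr p q (FF (cR x y) (wR S x y) (GR S η x y) X Y p q) a b
              * (ind x v a * ind y v b)) v a b) := by
        apply le_antisymm
        all_goals
          apply EE_mono h.hp h.hq
          intro a ha b hb
          apply le_of_eq
          rw [MM_eq_sum, Finset.mul_sum]
        · symm
          apply Finset.sum_subset (Finset.subset_univ W)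
          intro v _ hv
          have : ind x v a * ind y v b = 0 := by
            unfold ind
            by_cases h1 : v ∈ x a
            · by_cases h2 : v ∈ y b
              · exfalso
                apply hv
                rw [hW]
                unfold act
                simp only [Finset.mem_filter, Finset.mem_univ, true_and]
                exact ⟨⟨a, ha, h1⟩, b, hb, h2⟩
              · simp [h2]
            · simp [h1]
          change ctr p q (FF (cR x y) (wR S x y) (GR S η x y) X Y p q) a b
            * (ind x v a * ind y v b) = 0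
          rw [this, mul_zero]
        · apply Finset.sum_subset (Finset.subset_univ W)
          intro v _ hv
          have : ind x v a * ind y v b = 0 := by
            unfold ind
            by_cases h1 : v ∈ x a
            · by_cases h2 : v ∈ y b
              · exfalso
                apply hv
                rw [hW]
                unfold act
                simp only [Finset.mem_filter, Finset.mem_univ, true_and]
                exact ⟨⟨a, ha, h1⟩, b, hb, h2⟩
              · simp [h2]
            · simp [h1]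
          change ctr p q (FF (cR x y) (wR S x y) (GR S η x y) X Y p q) a b
            * (ind x v a * ind y v b) = 0
          rw [this, mul_zero]
      rw [h1, EE_sum]
      refine Finset.sum_le_sum (fun v _ => ?_)
      have h2 := h.test_one (ind x v) (ind y v) one_pos
      rw [sum_ind_sq, sum_ind_sq, inv_one, one_mul, one_mul] at h2
      exact h2
    have hlow := h.ctr_ge hμ hν (MM_nonneg x y)
    set sl := slR S η x y X Y p q with hsl
    have hFM : EE p q (fun a b => FF (cR x y) (wR S x y) (GR S η x y) X Y p q a b * MM x y a b)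
        = sl * EE p q (fun a b => tw S x y a b * MM x y a b) := by
      rw [← EE_smul]
      congr 1
      funext a b
      rw [FF_R]; ring
    rw [hFM] at hlow
    set T := EE p q (fun a b => tw S x y a b * MM x y a b) with hT
    have hslη : η ≤ sl := by
      rw [hsl]; unfold slR
      have : 0 ≤ 6 * Real.sqrt ((act x y X Y).card : ℝ) / (2 * Real.sqrt (EE p q (tw S x y))) := by
        positivity
      linarith
    have hTM : EE p q (MM x y) ≤ S * T := by
      rw [hT, ← EE_smul]
      exact EE_mono h.hp h.hq (fun a _ b _ => MM_le_tw_MM hS x y a b)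
    have hTb : εb ≤ T := EE_mono h.hp h.hq (fun a _ b _ => bd_le_tw_MM hS x y a b)
    have hεbpos : 0 < εb := by
      have h1 : ρ ≤ εb := by
        apply EE_mono h.hp h.hq
        intro a _ b _
        unfold tw bd
        split_ifs with h0
        · exact le_rfl
        · have h1 : 1 ≤ MM x y a b := (MM_zero_or_one_le x y a b).resolve_left h0
          have h2 : 1 ≤ min (MM x y a b) S := le_min h1 hS
          rw [div_le_one (by linarith)]
          exact h2
      linarith
    have hMMnn : 0 ≤ EE p q (MM x y) := EE_nonneg h.hp.nonneg h.hq.nonneg (MM_nonneg x y)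
    have hTnn : 0 ≤ T := by linarith
    -- (2 log 2 + P0) * EE MM ≤ 4 Ω S T = (η/2) T ≤ (sl/2) T
    have h1 : (2 * Real.log 2 + P0 μ ν (cR x y) (wR S x y) (GR S η x y)) * EE p q (MM x y)
        ≤ (sl / 2) * T := by
      calc (2 * Real.log 2 + P0 μ ν (cR x y) (wR S x y) (GR S η x y)) * EE p q (MM x y)
          ≤ (4 * Ω) * EE p q (MM x y) := mul_le_mul_of_nonneg_right (by linarith) hMMnn
        _ ≤ (4 * Ω) * (S * T) := mul_le_mul_of_nonneg_left hTM (by linarith)
        _ = (η / 2) * T := by rw [← hSη]; ring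
        _ ≤ (sl / 2) * T := mul_le_mul_of_nonneg_right (by linarith) hTnn
    have h2 : (sl / 2) * T ≤ ∑ v ∈ W, (wt p x v + wt q y v) := by linarith
    rw [Finset.sum_add_distrib] at h2
    -- positivity of n0
    have hn0pos : 0 < n0 := by
      rcases (Nat.cast_nonneg (α := ℝ) W.card).eq_or_lt with h0 | h0
      · exfalso
        have hWe : W = ∅ := by
          rw [← Finset.card_eq_zero]
          exact_mod_cast h0.symm
        rw [hWe] at h2
        simp only [Finset.sum_empty, add_zero] at h2
        have h3 : 0 < (sl / 2) * T := by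
          apply mul_pos (by linarith) (by linarith)
        linarith
      · exact h0
    have hsρ : 0 < Real.sqrt ρ := Real.sqrt_pos.2 hρ
    have hsn : 0 < Real.sqrt n0 := Real.sqrt_pos.2 hn0pos
    have hκpos : 0 < κ := by rw [hκ]; positivity
    have h3 : κ * ((sl / 2) * T) ≤ 4 * εb := by
      have := mul_le_mul_of_nonneg_left h2 hκpos.le
      linarith
    have h4 : 9 ≤ κ * sl := by
      have h5 : 3 * Real.sqrt n0 / Real.sqrt ρ ≤ sl := by
        rw [hsl]; unfold slR
        have : 6 * Real.sqrt ((act x y X Y).card : ℝ) / (2 * Real.sqrt (EE p q (tw S x y)))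
            = 3 * Real.sqrt n0 / Real.sqrt ρ := by
          rw [← hρdef, ← hW, ← hn0d]; ring
        linarith
      have h6 := mul_le_mul_of_nonneg_left h5 hκpos.le
      have h7 : κ * (3 * Real.sqrt n0 / Real.sqrt ρ) = 9 := by
        rw [hκ]; field_simp; norm_num
      linarith
    have h5 : 9 / 2 * εb ≤ κ * ((sl / 2) * T) := by
      have h6 : κ * ((sl / 2) * T) = (κ * sl) * T / 2 := by ring
      rw [h6]
      have h7 : 9 * εb ≤ (κ * sl) * T := mul_le_mul h4 hTb hεbpos.le (by linarith)
      linarith
    linarith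
  refine ⟨X, Y, p, q, h.hX, h.hY, h.hp, h.hq, ?_, ?_⟩
  · obtain ⟨κ1, κ2, h1, h2, h3⟩ := h.domination hμ hν
    refine ⟨κ1, κ2, h1, h2, ?_⟩
    have : 24 * Real.sqrt (n * ρ0) = 4 * Ω := by rw [hΩ]; ring
    rw [this]
    linarith
  · intro a ha b hb
    have h1 : tw S x y a b = 0 := by
      have := h.w_zero (i := ()) (by unfold wR; exact hzero) ha hb
      unfold wR at this
      exact this
    unfold tw at h1
    split_ifs at h1 with h0
    · unfold MM at h0
      have h2 : (x a ∩ y b).card = 0 := by exact_mod_cast h0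
      rw [Finset.card_eq_zero] at h2
      exact Finset.disjoint_iff_inter_eq_empty.2 h2
    · exfalso
      have h2 : 1 ≤ MM x y a b := (MM_zero_or_one_le x y a b).resolve_left h0
      have h3 : 0 < min (MM x y a b) S := lt_min (by linarith) (by linarith)
      have h4 : 0 < 1 / min (MM x y a b) S := by positivity
      linarith

end Run7.h852
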